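import Pool.Agent.MA87.Jet

/-!
# MP_87f2fd_gt : derivatives of the scalar functions, and local branches of `U`
-/

open Complex MeasureTheory Filter Topology
open scoped ContDiff

noncomputable section

namespace Pool.Agent.MA87

/-! ### scalar functions -/

theorem hasDerivAt_qf (t : ℝ) : HasDerivAt qf (Real.tanh t) t := by
  have h := (Real.hasDerivAt_cosh t).log (Real.cosh_pos t).ne'
  rw [Real.tanh_eq_sinh_div_cosh]
  exact h

theorem hasDerivAt_tanh (t : ℝ) : HasDerivAt Real.tanh (1 - Real.tanh t ^ 2) t := by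
  have h := (Real.hasDerivAt_sinh t).div (Real.hasDerivAt_cosh t) (Real.cosh_pos t).ne'
  have e : (fun y => Real.sinh y / Real.cosh y) = Real.tanh := by
    ext y; rw [Real.tanh_eq_sinh_div_cosh]
  have h' : HasDerivAt (fun y => Real.sinh y / Real.cosh y)
    ((Real.cosh t * Real.cosh t - Real.sinh t * Real.sinh t) / Real.cosh t ^ 2) t := h
  rw [e] at h'
  refine h'.congr_deriv ?_
  rw [Real.tanh_eq_sinh_div_cosh]
  have := (Real.cosh_pos t).ne'
  field_simp

theorem hasDerivAt_Ef (k t : ℝ) : HasDerivAt (Ef k) (-k * Real.tanh t * Ef k t) t := by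
  have h := ((hasDerivAt_qf t).const_mul (-k)).exp
  refine (h : HasDerivAt (fun t => Real.exp (-k * qf t)) _ _).congr_deriv ?_
  rw [Ef]; ring

theorem hasDerivAt_Ef' (k t : ℝ) : HasDerivAt (fun t => -k * Real.tanh t * Ef k t)
    ((k ^ 2 * Real.tanh t ^ 2 - k * (1 - Real.tanh t ^ 2)) * Ef k t) t := by
  have h := ((hasDerivAt_tanh t).const_mul (-k)).mul (hasDerivAt_Ef k t)
  refine (h : HasDerivAt (fun t => -k * Real.tanh t * Ef k t) _ _).congr_deriv ?_
  ring

theorem hasDerivAt_Pf (k c t : ℝ) :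
    HasDerivAt (Pf k c) (c * k * Real.tanh t * (1 - Ef k t / (1 + k))) t := by
  have h := ((hasDerivAt_qf t).const_mul (c * k)).add ((hasDerivAt_Ef k t).const_mul (c / (1 + k)))
  refine (h : HasDerivAt (fun t => c * k * qf t + c / (1 + k) * Ef k t) _ _).congr_deriv ?_
  ring

theorem hasDerivAt_Pf' (k c t : ℝ) :
    HasDerivAt (fun t => c * k * Real.tanh t * (1 - Ef k t / (1 + k)))
      (c * k * (1 - Real.tanh t ^ 2) * (1 - Ef k t / (1 + k))
            + c * k ^ 2 / (1 + k) * Real.tanh t ^ 2 * Ef k t) t := by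
  have h := ((hasDerivAt_tanh t).const_mul (c * k)).mul
    (((hasDerivAt_Ef k t).div_const (1 + k)).const_sub 1)
  refine (h : HasDerivAt (fun t => c * k * Real.tanh t * (1 - Ef k t / (1 + k))) _ _).congr_deriv ?_
  ring

theorem hasDerivAt_Gf {k T : ℝ} (hk : 0 < k) (hT : 0 < 1 + 8 * k ^ 3 * T) :
    HasDerivAt (Gf k) (1 / (1 + 8 * k ^ 3 * T)) T := by
  have h0 : HasDerivAt (fun T : ℝ => 1 + 8 * k ^ 3 * T) (8 * k ^ 3) T := by
    simpa using ((hasDerivAt_id T).const_mul (8 * k ^ 3)).const_add 1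
  have h := (h0.log hT.ne').const_mul (1 / (8 * k ^ 3))
  refine (h : HasDerivAt (fun T => 1 / (8 * k ^ 3) * Real.log (1 + 8 * k ^ 3 * T)) _ _).congr_deriv ?_
  field_simp

theorem hasDerivAt_Gf' {k T : ℝ} (hT : 0 < 1 + 8 * k ^ 3 * T) :
    HasDerivAt (fun T => 1 / (1 + 8 * k ^ 3 * T)) (-(8 * k ^ 3) / (1 + 8 * k ^ 3 * T) ^ 2) T := by
  have h0 : HasDerivAt (fun T : ℝ => 1 + 8 * k ^ 3 * T) (8 * k ^ 3) T := by
    simpa using ((hasDerivAt_id T).const_mul (8 * k ^ 3)).const_add 1
  have h := h0.inv hT.ne'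
  have e : (fun T : ℝ => 1 / (1 + 8 * k ^ 3 * T)) = (fun T : ℝ => (1 + 8 * k ^ 3 * T)⁻¹) := by
    ext T; rw [one_div]
  rw [e]
  exact h

/-! ### the periodic function `ff` -/

theorem ff_add_int (t : ℝ) (m : ℤ) : ff (t + m) = ff t := by
  have : round (t + m) = round t + m := round_add_intCast t m
  rw [ff, ff, this]
  push_cast
  rw [show t + (m : ℝ) - ((round t : ℝ) + m) = t - round t by ring]

theorem ff_add_one (t : ℝ) : ff (t + 1) = ff t := by simpa using ff_add_int t 1

/-- near a point at distance `< 1/2` of the integer `m`, `ff` is `(t - m) bump (t - m)` -/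
theorem ff_eq_of_abs_lt {t : ℝ} {m : ℤ} (h : |t - m| < 1 / 2) :
    ff t = (t - m) * bump (t - m) := by
  have : round t = m := by
    rw [round_eq, Int.floor_eq_iff]
    rw [abs_lt] at h
    constructor <;> linarith [h.1, h.2]
  rw [ff, this]

theorem bump_zero_of {x : ℝ} (h : 3 / 8 ≤ |x|) : bump x = 0 := by
  have := bump.zero_of_le_dist (x := x) (by rw [Real.dist_eq, sub_zero]; exact h)
  exact this

theorem bump_one_of {x : ℝ} (h : |x| ≤ 1 / 4) : bump x = 1 := by
  apply bump.one_of_mem_closedBall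
  rw [Metric.mem_closedBall, Real.dist_eq, sub_zero]; exact h

/-- near a half-integer, `ff` vanishes -/
theorem ff_eq_zero {t : ℝ} (h : 3 / 8 ≤ |t - round t|) : ff t = 0 := by
  rw [ff, bump_zero_of h, mul_zero]

theorem abs_ff_le (t : ℝ) : |ff t| ≤ 1 := by
  rw [ff, abs_mul]
  have h1 : |t - round t| ≤ 1 / 2 := abs_sub_round t
  have h2 : |bump (t - round t)| ≤ 1 := by
    rw [abs_of_nonneg bump.nonneg]; exact bump.le_one
  nlinarith [abs_nonneg (t - round t), abs_nonneg (bump (t - round t))]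

theorem contDiff_ff : ContDiff ℝ ∞ ff := by
  rw [contDiff_iff_contDiffAt]
  intro t
  by_cases h : |t - round t| < 1 / 2
  · have h1 : ff =ᶠ[𝓝 t] fun s => (s - (round t : ℝ)) * bump (s - (round t : ℝ)) := by
      have : ∀ᶠ s in 𝓝 t, |s - (round t : ℝ)| < 1 / 2 := by
        have hc : Continuous fun s : ℝ => |s - (round t : ℝ)| := by fun_prop
        exact hc.continuousAt.eventually_lt continuousAt_const h
      filter_upwards [this] with s hs
      exact ff_eq_of_abs_lt hs
    refine ContDiffAt.congr_of_eventuallyEq ?_ h1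
    have h2 : ContDiff ℝ ∞ (bump : ℝ → ℝ) := bump.contDiff
    exact ((contDiff_id.sub contDiff_const).mul
      (h2.comp (contDiff_id.sub contDiff_const))).contDiffAt
  · have h0 : |t - round t| = 1 / 2 := le_antisymm (abs_sub_round t) (not_lt.1 h)
    have h1 : ff =ᶠ[𝓝 t] fun _ => 0 := by
      have hb : Metric.ball t (1 / 8) ∈ 𝓝 t := Metric.ball_mem_nhds _ (by norm_num)
      filter_upwards [hb] with s hs
      rw [Metric.mem_ball, Real.dist_eq] at hs
      apply ff_eq_zero
      -- distance from `s` to the nearest integer is at least `3/8`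
      have h2 : |t - round t| ≤ |t - round s| := round_le t (round s)
      have h3 : |t - round s| ≤ |s - t| + |s - round s| := by
        have : t - (round s : ℝ) = -(s - t) + (s - round s) := by ring
        rw [this]
        exact (abs_add_le _ _).trans (by rw [abs_neg])
      linarith
    exact (contDiffAt_const (c := (0 : ℝ))).congr_of_eventuallyEq h1

theorem differentiable_ff : Differentiable ℝ ff := contDiff_ff.differentiable (by simp)

theorem contDiff_deriv_ff : ContDiff ℝ ∞ (deriv ff) := by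
  have h := contDiff_ff
  rw [show (∞ : WithTop ℕ∞) = ∞ + 1 by rfl, contDiff_succ_iff_deriv] at h
  exact h.2.2

theorem deriv_periodic {g : ℝ → ℝ} (hg : ∀ t, g (t + 1) = g t) (t : ℝ) :
    deriv g (t + 1) = deriv g t := by
  have : (fun s => g (s + 1)) = g := funext hg
  conv_rhs => rw [← this]
  rw [deriv_comp_add_const]

theorem periodic_bound {g : ℝ → ℝ} (hc : Continuous g) (hg : ∀ t, g (t + 1) = g t) :
    ∃ C : ℝ, ∀ t, |g t| ≤ C := by
  obtain ⟨C, hC⟩ := (isCompact_Icc (a := (0 : ℝ)) (b := 1)).exists_bound_of_continuousOn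
    hc.continuousOn
  refine ⟨C, fun t => ?_⟩
  have hp : Function.Periodic g 1 := hg
  have h1 : g t = g (Int.fract t) := by
    have := hp.sub_int_mul_eq (x := t) ⌊t⌋
    rw [mul_one] at this
    rw [← this, Int.self_sub_floor]
  rw [h1]
  exact hC _ ⟨Int.fract_nonneg t, (Int.fract_lt_one t).le⟩

theorem deriv_ff_bound : ∃ C : ℝ, 0 ≤ C ∧ ∀ t, |deriv ff t| ≤ C ∧ |deriv (deriv ff) t| ≤ C := by
  have h1 := contDiff_deriv_ff.continuous
  have h2 : Continuous (deriv (deriv ff)) := by
    have h := contDiff_deriv_ff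
    rw [show (∞ : WithTop ℕ∞) = ∞ + 1 by rfl, contDiff_succ_iff_deriv] at h
    exact h.2.2.continuous
  obtain ⟨C1, hC1⟩ := periodic_bound h1 (deriv_periodic ff_add_one)
  obtain ⟨C2, hC2⟩ := periodic_bound h2 (deriv_periodic (deriv_periodic ff_add_one))
  refine ⟨max C1 C2, le_trans (abs_nonneg _) ((hC1 0).trans (le_max_left _ _)), fun t => ?_⟩
  exact ⟨(hC1 t).trans (le_max_left _ _), (hC2 t).trans (le_max_right _ _)⟩

/-- near the integers, `ff' = 1` and `ff'' = 0`. -/
theorem deriv_ff_near {t : ℝ} {m : ℤ} (h : |t - m| < 1 / 4) :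
    deriv ff t = 1 ∧ deriv (deriv ff) t = 0 := by
  have h1 : ∀ᶠ s in 𝓝 t, |s - (m : ℝ)| < 1 / 4 := by
    have hc : Continuous fun s : ℝ => |s - (m : ℝ)| := by fun_prop
    exact hc.continuousAt.eventually_lt continuousAt_const h
  have h2 : ∀ᶠ s in 𝓝 t, ff s = s - m := by
    filter_upwards [h1] with s hs
    rw [ff_eq_of_abs_lt (hs.trans (by norm_num)), bump_one_of hs.le, mul_one]
  have h3 : ∀ᶠ s in 𝓝 t, deriv ff s = 1 := by
    filter_upwards [h2.eventually_nhds] with s hs
    have : ff =ᶠ[𝓝 s] fun s => s - (m : ℝ) := hs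
    rw [this.deriv_eq]
    simp
  refine ⟨h3.self_of_nhds, ?_⟩
  have : deriv ff =ᶠ[𝓝 t] fun _ => (1 : ℝ) := h3
  rw [this.deriv_eq]
  simp

/-! ### the cut-off -/

theorem contDiff_psi (M : ℝ) : ContDiff ℝ ∞ (psi M) := by
  have h1 : ContDiff ℝ ∞ Real.smoothTransition := Real.smoothTransition.contDiff
  have h2 : ContDiff ℝ ∞ (fun s : ℝ => (2 * M - s) / M) :=
    (contDiff_const.sub contDiff_id).div_const M
  exact h1.comp h2

theorem psi_nonneg (M s : ℝ) : 0 ≤ psi M s := Real.smoothTransition.nonneg _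
theorem psi_le_one (M s : ℝ) : psi M s ≤ 1 := Real.smoothTransition.le_one _

theorem psi_eq_one {M s : ℝ} (hM : 0 < M) (h : s ≤ M) : psi M s = 1 := by
  apply Real.smoothTransition.one_of_one_le
  rw [le_div_iff₀ hM]; linarith

theorem psi_eq_zero {M s : ℝ} (hM : 0 < M) (h : 2 * M ≤ s) : psi M s = 0 := by
  apply Real.smoothTransition.zero_of_nonpos
  apply div_nonpos_of_nonpos_of_nonneg _ hM.le
  linarith

theorem psi_antitone {M : ℝ} (hM : 0 < M) : Antitone (psi M) := by
  intro a b hab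
  apply Real.smoothTransition.monotone
  gcongr

theorem deriv_psi_nonpos {M : ℝ} (hM : 0 < M) (s : ℝ) : deriv (psi M) s ≤ 0 :=
  (psi_antitone hM).deriv_nonpos

theorem continuousOn_psi_div (M : ℝ) : ContinuousOn (fun s => psi M s / s) (Set.Ioi 0) := by
  intro s hs
  exact ((contDiff_psi M).continuous.continuousAt.div continuousAt_id
    (ne_of_gt hs)).continuousWithinAt

theorem hasDerivAt_Phi {k M n : ℝ} (hn : 0 < n) :
    HasDerivAt (Phi k M) (-(psi M n / (k * n))) n := by
  have hc := continuousOn_psi_div M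
  have h1 : IntervalIntegrable (fun s => psi M s / s) volume 1 n := by
    apply ContinuousOn.intervalIntegrable
    apply hc.mono
    intro x hx
    have : min 1 n ≤ x := hx.1
    exact lt_of_lt_of_le (lt_min one_pos hn) this
  have h2 : ContinuousAt (fun s => psi M s / s) n := hc.continuousAt (Ioi_mem_nhds hn)
  have h3 : StronglyMeasurableAtFilter (fun s => psi M s / s) (𝓝 n) volume :=
    hc.stronglyMeasurableAtFilter isOpen_Ioi n hn
  have h4 := (intervalIntegral.integral_hasDerivAt_right h1 h3 h2).const_mul (-(1 / k))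
  refine (h4 : HasDerivAt (fun n => -(1 / k) * ∫ s in (1 : ℝ)..n, psi M s / s) _ _).congr_deriv ?_
  rw [neg_mul, one_div, div_eq_mul_inv, div_eq_mul_inv, mul_inv]; ring

theorem hasDerivAt_Phi' {k M n : ℝ} (hk : 0 < k) (hn : 0 < n) :
    HasDerivAt (fun n => -(psi M n / (k * n)))
      (-(deriv (psi M) n / (k * n)) + psi M n / (k * n ^ 2)) n := by
  have h1 : HasDerivAt (psi M) (deriv (psi M) n) n :=
    ((contDiff_psi M).differentiable (by simp) n).hasDerivAt
  have h2 : HasDerivAt (fun n : ℝ => k * n) k n := by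
    simpa using (hasDerivAt_id n).const_mul k
  have h3 := (h1.div h2 (by positivity)).neg
  refine (h3 : HasDerivAt (fun n => -(psi M n / (k * n))) _ _).congr_deriv ?_
  field_simp
  ring

/-! ### local branches of `U` -/

theorem th_add_int (h1 : ∀ z, th (z + 1) = th z) (z : ℂ) (m : ℤ) : th (z + m) = th z := by
  have hp : Function.Periodic th 1 := h1
  have := hp.int_mul m z
  simpa using this

/-- the local branch of `U` around `z₀` -/
def Ubr (z₀ z : C3) : ℂ :=
  U z₀ + (z 2 - z₀ 2) + 1 / (2 * Real.pi * I) *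
    (Complex.log (th (z 0) / th (z₀ 0)) - Complex.log (th (z 1) / th (z₀ 1)))

theorem U_eq_Ubr_add_int {z₀ z : C3} (h0 : th (z₀ 0) ≠ 0) (h1 : th (z₀ 1) ≠ 0)
    (h2 : th (z 0) ≠ 0) (h3 : th (z 1) ≠ 0) : ∃ m : ℤ, U z = Ubr z₀ z + m := by
  have hpi : (2 * Real.pi * I : ℂ) ≠ 0 := by
    simp [Real.pi_ne_zero]
  have key : cexp (2 * Real.pi * I * (U z - Ubr z₀ z)) = 1 := by
    have e : 2 * Real.pi * I * (U z - Ubr z₀ z) =
        Complex.log (th (z 0)) - Complex.log (th (z 1)) - Complex.log (th (z₀ 0)) +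
          Complex.log (th (z₀ 1)) - Complex.log (th (z 0) / th (z₀ 0)) +
            Complex.log (th (z 1) / th (z₀ 1)) := by
      rw [U, Ubr, U]
      field_simp
      ring
    rw [e, Complex.exp_add, Complex.exp_sub, Complex.exp_add, Complex.exp_sub, Complex.exp_sub,
      Complex.exp_log h0, Complex.exp_log h1, Complex.exp_log h2, Complex.exp_log h3,
      Complex.exp_log (div_ne_zero h2 h0), Complex.exp_log (div_ne_zero h3 h1)]
    field_simp
  rw [Complex.exp_eq_one_iff] at key
  obtain ⟨m, hm⟩ := key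
  refine ⟨m, ?_⟩
  have : U z - Ubr z₀ z = m := by
    have h4 : 2 * Real.pi * I * (U z - Ubr z₀ z) = 2 * Real.pi * I * m := by rw [hm]; ring
    exact mul_left_cancel₀ hpi h4
  rw [← this]; ring

theorem Ubr_self (z₀ : C3) (h0 : th (z₀ 0) ≠ 0) (h1 : th (z₀ 1) ≠ 0) : Ubr z₀ z₀ = U z₀ := by
  rw [Ubr, div_self h0, div_self h1]; simp

end Pool.Agent.MA87
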