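import Pool.Agent.MA87.EnergyE

/-! # MP_87f2fd_gt, package EN: the energy bound -/

open Complex MeasureTheory Filter Topology Set
open scoped ContDiff ENNReal

noncomputable section

namespace Pool.Agent.MA87

namespace EN

/-- the unit polydisc square of pairs -/
def D2 : Set (Fin 2 → ℂ) := {p | ∀ j, p j ∈ Q}

theorem D2_eq : D2 = Set.pi univ fun _ => Q := by
  ext p; simp [D2]

theorem volume_D2 : volume D2 = 1 := by
  rw [D2_eq, volume_pi_pi]; simp [volume_Q]

theorem ae_good : ∀ᵐ p : Fin 2 → ℂ, th (p 0) ≠ 0 ∧ th (p 1) ≠ 0 := by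
  have h : ∀ i : Fin 2, ∀ᵐ p : Fin 2 → ℂ, th (p i) ≠ 0 := fun i =>
    (Measure.quasiMeasurePreserving_eval (fun _ : Fin 2 => (volume : Measure ℂ)) i).ae ae_th_ne
  filter_upwards [h 0, h 1] with p h0 h1 using ⟨h0, h1⟩

theorem lintegral_D (F : C3 → ℝ≥0∞) (hF : Measurable F) :
    ∫⁻ z in D, F z = ∫⁻ p in D2, ∫⁻ w in Q, F ![p 0, p 1, w] := by
  let e := MeasurableEquiv.piFinSuccAbove (fun _ : Fin 3 => ℂ) 2
  have he : MeasurePreserving e.symm (volume : Measure (ℂ × (Fin 2 → ℂ))) volume :=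
    (volume_preserving_piFinSuccAbove (fun _ : Fin 3 => ℂ) 2).symm e
  have hes : ∀ w : ℂ, ∀ p : Fin 2 → ℂ, e.symm (w, p) = ![p 0, p 1, w] := by
    intro w p
    funext j
    fin_cases j <;> rfl
  have h1 := he.setLIntegral_comp_preimage_emb e.symm.measurableEmbedding F D
  rw [← h1]
  have h2 : e.symm ⁻¹' D = Q ×ˢ D2 := by
    ext ⟨w, p⟩
    simp only [mem_preimage, hes, mem_prod]
    constructor
    · intro h
      exact ⟨h 2, fun j => by fin_cases j; exacts [h 0, h 1]⟩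
    · intro h j
      fin_cases j
      exacts [h.2 0, h.2 1, h.1]
  rw [h2, Measure.volume_eq_prod, ← Measure.prod_restrict]
  rw [lintegral_prod_symm]
  · simp only [hes]
  · exact (hF.comp e.symm.measurable).aemeasurable

theorem integrableOn_D {h : C3 → ℝ} (hc : Continuous h) : IntegrableOn h D := by
  have hD : D ⊆ Metric.closedBall (0 : C3) 2 := by
    intro z hz
    rw [mem_closedBall_zero_iff, pi_norm_le_iff_of_nonneg (by norm_num)]
    intro j
    obtain ⟨h1, h2, h3, h4⟩ := hz j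
    calc ‖z j‖ ≤ |(z j).re| + |(z j).im| := Complex.norm_le_abs_re_add_abs_im _
      _ ≤ 2 := by
        rw [abs_of_nonneg h1, abs_of_nonneg h3]; linarith
  exact (hc.continuousOn.integrableOn_compact (isCompact_closedBall _ _)).mono_set hD

end EN

open EN in
theorem energy_bound {c κ M ε : ℝ} (hκ : 0 < κ) (hκc : κ < c) (hc : c < 1) (hM : 2 ≤ M) (hε : 0 < ε) :
    ∀ᶠ n : ℕ in atTop, κ / 4 * (1 / (2 - c) - 1 / M) - ε ≤
      ∫ z in D, ‖dz 2 (fun w => (phi (1 / ((n : ℝ) + 1)) c κ M w : ℂ)) z‖ ^ 2 := by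
  have hc0 : 0 < c := hκ.trans hκc
  set T := κ / 4 * (1 / (2 - c) - 1 / M) with hT
  let F : ℕ → C3 → ℝ := fun n z => ‖dz 2 (fun w => (phi (kn n) c κ M w : ℂ)) z‖ ^ 2
  have hphi : ∀ n, ContDiff ℝ ∞ (phi (kn n) c κ M) := fun n =>
    phi_contDiff (kn_pos n) hκ hc0 hc (by linarith)
  have hFc : ∀ n, Continuous (F n) := fun n => (continuous_dz (hphi n) 2).norm.pow 2
  have hF0 : ∀ n z, 0 ≤ F n z := fun n z => sq_nonneg _
  have hint : ∀ n, ENNReal.ofReal (∫ z in D, F n z) = ∫⁻ z in D, ENNReal.ofReal (F n z) := fun n =>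
    ofReal_integral_eq_lintegral_ofReal (integrableOn_D (hFc n)) (ae_of_all _ (hF0 n))
  change ∀ᶠ n : ℕ in atTop, T - ε ≤ ∫ z in D, F n z
  by_cases hTε : T - ε < 0
  · exact Eventually.of_forall fun n => hTε.le.trans (integral_nonneg (hF0 n))
  push Not at hTε
  let J : ℕ → (Fin 2 → ℂ) → ℝ≥0∞ := fun n p =>
    ∫⁻ w in Q, ENNReal.ofReal (gsl (kn n) c κ M (p 0) (p 1) w)
  have hemb : Measurable fun q : (Fin 2 → ℂ) × ℂ => (![q.1 0, q.1 1, q.2] : C3) := by
    apply measurable_pi_lambda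
    intro j
    fin_cases j
    · change Measurable fun q : (Fin 2 → ℂ) × ℂ => q.1 0
      fun_prop
    · change Measurable fun q : (Fin 2 → ℂ) × ℂ => q.1 1
      fun_prop
    · exact measurable_snd
  have hJm : ∀ n, Measurable (J n) := by
    intro n
    have h1 : Measurable fun q : (Fin 2 → ℂ) × ℂ =>
        ENNReal.ofReal (gsl (kn n) c κ M (q.1 0) (q.1 1) q.2) :=
      ((hFc n).measurable.comp hemb).ennreal_ofReal
    exact h1.lintegral_prod_right'
  have hDJ : ∀ n, ∫⁻ z in D, ENNReal.ofReal (F n z) = ∫⁻ p in D2, J n p := fun n =>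
    lintegral_D _ (hFc n).measurable.ennreal_ofReal
  have hliminf : ∀ᵐ p ∂(volume.restrict D2),
      ENNReal.ofReal (T - ε / 2) ≤ liminf (fun n => J n p) atTop := by
    filter_upwards [ae_restrict_of_ae ae_good] with p hp
    apply le_liminf_of_le
    · isBoundedDefault
    filter_upwards [slice_eventually hκ hc0 hc hM hp.1 hp.2 (half_pos hε)] with n hn
    change ENNReal.ofReal (T - ε / 2) ≤ ∫⁻ w in Q, ENNReal.ofReal (gsl (kn n) c κ M (p 0) (p 1) w)
    rw [← ofReal_integral_eq_lintegral_ofReal (integrableOn_Q (continuous_gsl (hphi n) _ _))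
      (ae_of_all _ fun w => sq_nonneg _)]
    exact ENNReal.ofReal_le_ofReal hn
  have hle : ENNReal.ofReal (T - ε / 2) ≤ liminf (fun n => ∫⁻ p in D2, J n p) atTop := by
    calc ENNReal.ofReal (T - ε / 2) = ∫⁻ p in D2, ENNReal.ofReal (T - ε / 2) := by
          rw [setLIntegral_const, volume_D2, mul_one]
      _ ≤ ∫⁻ p in D2, liminf (fun n => J n p) atTop := lintegral_mono_ae hliminf
      _ ≤ _ := lintegral_liminf_le hJm
  have hlt : ENNReal.ofReal (T - ε) < ENNReal.ofReal (T - ε / 2) :=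
    (ENNReal.ofReal_lt_ofReal_iff (by linarith)).2 (by linarith)
  filter_upwards [eventually_lt_of_lt_liminf (hlt.trans_le hle)] with n hn
  rw [← hDJ, ← hint] at hn
  by_contra hcon
  push Not at hcon
  exact absurd (ENNReal.ofReal_le_ofReal hcon.le) (not_le.2 hn)

end Pool.Agent.MA87
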