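import Mathlib

/-!
# The algebra behind the volume identity
-/

namespace Pool.Agent.MA87.Vol

open Complex

variable {A : Type*} [CommRing A] [Algebra ℂ A]

lemma jac2 (D E : Derivation ℂ A A) (h : ∀ f, D (E f) = E (D f)) (a b : A) :
    D a * E b - D b * E a = D (a * E b) - E (a * D b) := by
  simp only [Derivation.leibniz, smul_eq_mul, h]
  ring

lemma jac3 (D1 D2 D3 : Derivation ℂ A A) (h12 : ∀ f, D1 (D2 f) = D2 (D1 f))
    (h13 : ∀ f, D1 (D3 f) = D3 (D1 f)) (h23 : ∀ f, D2 (D3 f) = D3 (D2 f)) (a b c : A) :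
    D1 a * (D2 b * D3 c - D2 c * D3 b) - D2 a * (D1 b * D3 c - D1 c * D3 b) +
        D3 a * (D1 b * D2 c - D1 c * D2 b) =
      D1 (a * (D2 b * D3 c - D2 c * D3 b)) - D2 (a * (D1 b * D3 c - D1 c * D3 b)) +
        D3 (a * (D1 b * D2 c - D1 c * D2 b)) := by
  simp only [Derivation.leibniz, smul_eq_mul, map_sub, h12, h13, h23]
  ring

lemma mix (D B B3 : Derivation ℂ A A) (φ : A) (s d : A) (hc3 : D (B3 φ) = B3 (D φ))
    (hb : B3 (B φ) = B (B3 φ)) (hc : B (D φ) = D (B φ) + s * (d + B3 φ)) :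
    2 * (B3 φ * D (B φ)) = D (B φ * B3 φ) - B3 (B φ * D φ) + B (B3 φ * D φ) -
      s * (B3 φ * (d + B3 φ)) := by
  simp only [Derivation.leibniz, smul_eq_mul, hc3, hb, hc]
  ring

/-- the algebraic form of the volume identity -/
theorem identity (D1 D2 D3 B1 B2 B3 : Derivation ℂ A A)
    (h12 : ∀ f, D1 (D2 f) = D2 (D1 f)) (h13 : ∀ f, D1 (D3 f) = D3 (D1 f))
    (h23 : ∀ f, D2 (D3 f) = D3 (D2 f))
    (b13 : ∀ f, B3 (B1 f) = B1 (B3 f)) (b23 : ∀ f, B3 (B2 f) = B2 (B3 f))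
    (c13 : ∀ f, D1 (B3 f) = B3 (D1 f)) (c23 : ∀ f, D2 (B3 f) = B3 (D2 f))
    (c11 : ∀ f, B1 (D1 f) = D1 (B1 f) + algebraMap ℂ A (I / 2) * (D3 f + B3 f))
    (c22 : ∀ f, B2 (D2 f) = D2 (B2 f) - algebraMap ℂ A (I / 2) * (D3 f + B3 f))
    (J : A →ₗ[ℂ] ℂ) (j1 : ∀ f, J (D1 f) = 0) (j2 : ∀ f, J (D2 f) = 0) (j3 : ∀ f, J (D3 f) = 0)
    (k1 : ∀ f, J (B1 f) = 0) (k2 : ∀ f, J (B2 f) = 0) (k3 : ∀ f, J (B3 f) = 0) (φ : A) :
    J (!![algebraMap ℂ A (1 / 4) + (D1 (B1 φ) + algebraMap ℂ A (I / 2) * B3 φ),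
          D1 (B2 φ), D1 (B3 φ);
          D2 (B1 φ), algebraMap ℂ A (1 / 4) + (D2 (B2 φ) - algebraMap ℂ A (I / 2) * B3 φ),
          D2 (B3 φ);
          D3 (B1 φ), D3 (B2 φ), algebraMap ℂ A (1 / 4) + D3 (B3 φ)].det) =
      1 / 64 * J 1 - 1 / 16 * J (D3 φ * B3 φ) := by
  have jal : ∀ (c : ℂ) (f : A), J (algebraMap ℂ A c * f) = c * J f := by
    intro c f
    rw [← Algebra.smul_def, map_smul, smul_eq_mul]
  obtain ⟨a1, ha1⟩ : ∃ a1, a1 = B1 φ := ⟨_, rfl⟩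
  obtain ⟨a2, ha2⟩ : ∃ a2, a2 = B2 φ := ⟨_, rfl⟩
  obtain ⟨a3, ha3⟩ : ∃ a3, a3 = B3 φ := ⟨_, rfl⟩
  -- mixed terms
  have m1 := mix D1 B1 B3 φ (algebraMap ℂ A (I / 2)) (D3 φ) (c13 φ) (b13 φ) (c11 φ)
  have m2 := mix D2 B2 B3 φ (-algebraMap ℂ A (I / 2)) (D3 φ) (c23 φ) (b23 φ)
    (by rw [c22 φ]; ring)
  rw [← ha1, ← ha3] at m1
  rw [← ha2, ← ha3] at m2
  have J1 : 2 * J (a3 * D1 a1) = -(I / 2) * J (a3 * (D3 φ + a3)) := by
    have h := congrArg J m1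
    rw [map_sub, map_add, map_sub, j1, k3, k1, jal] at h
    have h2 : J (2 * (a3 * D1 a1)) = 2 * J (a3 * D1 a1) := by
      rw [two_mul, map_add]; ring
    rw [h2] at h
    rw [h]
    ring
  have J2 : 2 * J (a3 * D2 a2) = (I / 2) * J (a3 * (D3 φ + a3)) := by
    have h := congrArg J m2
    rw [map_sub, map_add, map_sub, j2, k3, k2, neg_mul, map_neg, jal] at h
    have h2 : J (2 * (a3 * D2 a2)) = 2 * J (a3 * D2 a2) := by
      rw [two_mul, map_add]; ring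
    rw [h2] at h
    rw [h]
    ring
  -- quadratic null Lagrangians
  have N : ∀ (D E : Derivation ℂ A A), (∀ f, D (E f) = E (D f)) → (∀ f, J (D f) = 0) →
      (∀ f, J (E f) = 0) → ∀ a b, J (D a * E b - D b * E a) = 0 := by
    intro D E h hD hE a b
    rw [jac2 D E h, map_sub, hD, hE, sub_zero]
  have N12 := N D1 D2 h12 j1 j2 a1 a2
  have N13 := N D1 D3 h13 j1 j3 a1 a3
  have N23 := N D2 D3 h23 j2 j3 a2 a3
  have N13' : J (a3 * (D1 a1 * D3 a3 - D1 a3 * D3 a1)) = 0 := by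
    have h := N D1 D3 h13 j1 j3 a1 (a3 * a3)
    have e : D1 a1 * D3 (a3 * a3) - D1 (a3 * a3) * D3 a1 =
        2 * (a3 * (D1 a1 * D3 a3 - D1 a3 * D3 a1)) := by
      simp only [Derivation.leibniz, smul_eq_mul]
      ring
    rw [e, two_mul, map_add] at h
    linear_combination (1 / 2) * h
  have N23' : J (a3 * (D2 a2 * D3 a3 - D2 a3 * D3 a2)) = 0 := by
    have h := N D2 D3 h23 j2 j3 a2 (a3 * a3)
    have e : D2 a2 * D3 (a3 * a3) - D2 (a3 * a3) * D3 a2 =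
        2 * (a3 * (D2 a2 * D3 a3 - D2 a3 * D3 a2)) := by
      simp only [Derivation.leibniz, smul_eq_mul]
      ring
    rw [e, two_mul, map_add] at h
    linear_combination (1 / 2) * h
  have N3 : J (a3 * a3 * D3 a3) = 0 := by
    have h := j3 (a3 * a3 * a3)
    have e : D3 (a3 * a3 * a3) = a3 * a3 * D3 a3 + a3 * a3 * D3 a3 + a3 * a3 * D3 a3 := by
      simp only [Derivation.leibniz, smul_eq_mul]
      ring
    rw [e, map_add, map_add] at h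
    linear_combination (1 / 3) * h
  have NN : J (D1 a1 * (D2 a2 * D3 a3 - D2 a3 * D3 a2) - D2 a1 * (D1 a2 * D3 a3 - D1 a3 * D3 a2) +
      D3 a1 * (D1 a2 * D2 a3 - D1 a3 * D2 a2)) = 0 := by
    rw [jac3 D1 D2 D3 h12 h13 h23, map_add, map_sub, j1, j2, j3]
    ring
  -- the determinant
  rw [← ha1, ← ha2, ← ha3, Matrix.det_fin_three]
  simp only [Matrix.of_apply, Matrix.cons_val', Matrix.cons_val_zero, Matrix.cons_val_one,
    Matrix.cons_val, Matrix.cons_val_fin_one]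
  have e3 : ∀ x y : ℂ, algebraMap ℂ A x * algebraMap ℂ A y = algebraMap ℂ A (x * y) := by
    intro x y
    rw [map_mul]
  obtain ⟨q, hq⟩ : ∃ q, q = algebraMap ℂ A (1 / 4) := ⟨_, rfl⟩
  obtain ⟨e, he⟩ : ∃ e, e = algebraMap ℂ A (I / 2) := ⟨_, rfl⟩
  have hdet : (q + (D1 a1 + e * a3)) * (q + (D2 a2 - e * a3)) * (q + D3 a3) -
        (q + (D1 a1 + e * a3)) * D2 a3 * D3 a2 - D1 a2 * D2 a1 * (q + D3 a3) +
        D1 a2 * D2 a3 * D3 a1 + D1 a3 * D2 a1 * D3 a2 -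
        D1 a3 * (q + (D2 a2 - e * a3)) * D3 a1 =
      q * q * q * 1 + q * q * (D1 a1) + q * q * (D2 a2) + q * q * (D3 a3) +
        q * (D1 a1 * D2 a2 - D1 a2 * D2 a1) + q * (D1 a1 * D3 a3 - D1 a3 * D3 a1) +
        q * (D2 a2 * D3 a3 - D2 a3 * D3 a2) -
        (q * e) * (a3 * D1 a1) + (q * e) * (a3 * D2 a2) - (q * (e * e)) * (a3 * a3) +
        e * (a3 * (D2 a2 * D3 a3 - D2 a3 * D3 a2)) - e * (a3 * (D1 a1 * D3 a3 - D1 a3 * D3 a1)) -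
        (e * e) * (a3 * a3 * D3 a3) +
        (D1 a1 * (D2 a2 * D3 a3 - D2 a3 * D3 a2) - D2 a1 * (D1 a2 * D3 a3 - D1 a3 * D3 a2) +
          D3 a1 * (D1 a2 * D2 a3 - D1 a3 * D2 a2)) := by
    ring
  rw [← hq, ← he, hdet, hq, he]
  rw [mul_add, map_add] at J1 J2
  simp only [map_sub] at N12 N13 N23
  simp only [map_add, map_sub] at NN
  simp only [map_add, map_sub, e3, jal]
  rw [mul_comm (D3 φ) a3]
  linear_combination (1 / 16) * (j1 a1) + (1 / 16) * (j2 a2) + (1 / 16) * (j3 a3) +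
    (1 / 4) * N12 + (1 / 4) * N13 + (1 / 4) * N23 - (I / 16) * J1 + (I / 16) * J2 +
    (I / 2) * N23' - (I / 2) * N13' - (I * I / 4) * N3 + NN +
    (1 / 16) * J (a3 * D3 φ) * I_mul_I

end Pool.Agent.MA87.Vol
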