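import Pool.Agent.MA87.Defs

/-!
# Integration over the fundamental domain
-/

open Complex MeasureTheory Filter Topology

noncomputable section

namespace Pool.Agent.MA87.Vol

/-- the lattice as a group -/
@[ext] structure Gam where
  a1 : ℤ
  a2 : ℤ
  b1 : ℤ
  b2 : ℤ
  c1 : ℤ
  c2 : ℤ

namespace Gam

instance : Countable Gam :=
  Function.Injective.countable (f := fun g : Gam => (g.a1, g.a2, g.b1, g.b2, g.c1, g.c2)) (by
    intro g h e
    simp only [Prod.mk.injEq] at e
    obtain ⟨e1, e2, e3, e4, e5, e6⟩ := e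
    exact Gam.ext e1 e2 e3 e4 e5 e6)

instance : Mul Gam := ⟨fun g h => ⟨g.a1 + h.a1, g.a2 + h.a2, g.b1 + h.b1, g.b2 + h.b2,
  g.c1 + h.c1 + g.a2 * h.a1 - g.b2 * h.b1, g.c2 + h.c2 + g.a2 * h.a2 - g.b2 * h.b2⟩⟩

instance : One Gam := ⟨⟨0, 0, 0, 0, 0, 0⟩⟩

instance : Inv Gam := ⟨fun g => ⟨-g.a1, -g.a2, -g.b1, -g.b2,
  -g.c1 + g.a2 * g.a1 - g.b2 * g.b1, -g.c2 + g.a2 * g.a2 - g.b2 * g.b2⟩⟩

lemma mul_def (g h : Gam) : g * h = ⟨g.a1 + h.a1, g.a2 + h.a2, g.b1 + h.b1, g.b2 + h.b2,
  g.c1 + h.c1 + g.a2 * h.a1 - g.b2 * h.b1, g.c2 + h.c2 + g.a2 * h.a2 - g.b2 * h.b2⟩ := rfl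

lemma one_def : (1 : Gam) = ⟨0, 0, 0, 0, 0, 0⟩ := rfl

lemma inv_def (g : Gam) : g⁻¹ = ⟨-g.a1, -g.a2, -g.b1, -g.b2,
  -g.c1 + g.a2 * g.a1 - g.b2 * g.b1, -g.c2 + g.a2 * g.a2 - g.b2 * g.b2⟩ := rfl

instance : Group Gam := Group.ofLeftAxioms
  (by
    intro x y z
    simp only [mul_def, Gam.mk.injEq]
    refine ⟨?_, ?_, ?_, ?_, ?_, ?_⟩ <;> ring)
  (by
    intro x
    simp only [mul_def, one_def, Gam.ext_iff]
    refine ⟨?_, ?_, ?_, ?_, ?_, ?_⟩ <;> ring)
  (by
    intro x
    simp only [mul_def, one_def, inv_def, Gam.mk.injEq]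
    refine ⟨?_, ?_, ?_, ?_, ?_, ?_⟩ <;> ring)

/-- the complex number `m + n i` -/
def gi (m n : ℤ) : ℂ := (m : ℂ) + (n : ℂ) * I

@[simp] lemma gi_im (m n : ℤ) : (gi m n).im = n := by simp [gi]

@[simp] lemma gi_re (m n : ℤ) : (gi m n).re = m := by simp [gi]

instance : MulAction Gam C3 where
  smul g z := act (gi g.a1 g.a2) (gi g.b1 g.b2) (gi g.c1 g.c2) z
  one_smul z := by
    change act (gi 0 0) (gi 0 0) (gi 0 0) z = z
    funext j
    fin_cases j <;> simp [act, gi]
  mul_smul g h z := by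
    change act (gi (g.a1 + h.a1) (g.a2 + h.a2)) (gi (g.b1 + h.b1) (g.b2 + h.b2))
      (gi (g.c1 + h.c1 + g.a2 * h.a1 - g.b2 * h.b1) (g.c2 + h.c2 + g.a2 * h.a2 - g.b2 * h.b2)) z =
      act (gi g.a1 g.a2) (gi g.b1 g.b2) (gi g.c1 g.c2)
        (act (gi h.a1 h.a2) (gi h.b1 h.b2) (gi h.c1 h.c2) z)
    funext j
    fin_cases j
    · simp only [act, gi]; simp; ring
    · simp only [act, gi]; simp; ring
    · simp only [act, gi]; simp; ring

lemma smul_def (g : Gam) (z : C3) :
    g • z = act (gi g.a1 g.a2) (gi g.b1 g.b2) (gi g.c1 g.c2) z := rfl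

end Gam

open Gam

/-- shears -/
def shear (h : ℂ → ℂ → ℂ) (z : C3) : C3 := ![z 0, z 1, z 2 + h (z 0) (z 1)]

lemma measurePreserving_shear {h : ℂ → ℂ → ℂ} (hm : Measurable (Function.uncurry h)) :
    MeasurePreserving (shear h) volume volume := by
  let e1 := MeasurableEquiv.piFinSuccAbove (fun _ : Fin 3 => ℂ) 2
  have he1 : MeasurePreserving e1 volume volume :=
    volume_preserving_piFinSuccAbove (fun _ : Fin 3 => ℂ) 2
  let k : ℂ × (Fin 2 → ℂ) → ℂ × (Fin 2 → ℂ) := fun q => (q.1 + h (q.2 0) (q.2 1), q.2)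
  have hk : MeasurePreserving k volume volume := by
    have h1 : MeasurePreserving
        (fun q : (Fin 2 → ℂ) × ℂ => (id q.1, (fun p : Fin 2 → ℂ => fun w : ℂ =>
          w + h (p 0) (p 1)) q.1 q.2)) ((volume : Measure (Fin 2 → ℂ)).prod (volume : Measure ℂ))
        ((volume : Measure (Fin 2 → ℂ)).prod (volume : Measure ℂ)) := by
      refine MeasurePreserving.skew_product (μc := (volume : Measure ℂ))
        (μd := (volume : Measure ℂ)) (g := fun (p : Fin 2 → ℂ) (w : ℂ) => w + h (p 0) (p 1))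
        (MeasurePreserving.id (volume : Measure (Fin 2 → ℂ))) ?_ ?_
      · have h2 : Measurable fun q : (Fin 2 → ℂ) × ℂ => Function.uncurry h (q.1 0, q.1 1) :=
          hm.comp (((measurable_pi_apply 0).comp measurable_fst).prodMk
            ((measurable_pi_apply 1).comp measurable_fst))
        exact measurable_snd.add h2
      · exact Eventually.of_forall fun p => (measurePreserving_add_right volume (h (p 0) (p 1))).map_eq
    have h2 := (Measure.measurePreserving_swap (μ := (volume : Measure (Fin 2 → ℂ)))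
      (ν := (volume : Measure ℂ))).comp (h1.comp (Measure.measurePreserving_swap
      (μ := (volume : Measure ℂ)) (ν := (volume : Measure (Fin 2 → ℂ)))))
    exact h2
  have h3 : shear h = e1.symm ∘ k ∘ e1 := by
    funext z
    apply e1.injective
    simp only [Function.comp, MeasurableEquiv.apply_symm_apply]
    apply Prod.ext
    · rfl
    · funext j
      fin_cases j <;> rfl
  rw [h3]
  exact (he1.symm _).comp (hk.comp he1)

/-- the moving frame -/
def V (v z : C3) : C3 :=
  ![v 0, v 1, v 2 + (((z 0).im - 1 / 2 : ℝ) : ℂ) * v 0 - (((z 1).im - 1 / 2 : ℝ) : ℂ) * v 1]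

lemma act_eq (a b c : ℂ) (z : C3) :
    act a b c z = shear (fun x y => (a.im : ℂ) * x - (b.im : ℂ) * y + c) z + ![a, b, 0] := by
  funext j
  fin_cases j
  · simp [act, shear]
  · simp [act, shear]
  · simp [act, shear]; ring

lemma measurePreserving_act (a b c : ℂ) : MeasurePreserving (act a b c) volume volume := by
  have h1 : act a b c = (fun z => z + ![a, b, 0]) ∘
      shear (fun x y => (a.im : ℂ) * x - (b.im : ℂ) * y + c) := by
    funext z
    exact act_eq a b c z
  rw [h1]
  refine (measurePreserving_add_right volume _).comp (measurePreserving_shear ?_)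
  exact ((measurable_const.mul measurable_fst).sub (measurable_const.mul measurable_snd)).add
    measurable_const

lemma measurePreserving_right (v : C3) : MeasurePreserving (fun z => z + V v z) volume volume := by
  have h1 : (fun z => z + V v z) = (fun z => z + ![v 0, v 1, 0]) ∘
      shear (fun x y => v 2 + ((x.im - 1 / 2 : ℝ) : ℂ) * v 0 - ((y.im - 1 / 2 : ℝ) : ℂ) * v 1) := by
    funext z j
    fin_cases j <;> simp [V, shear]
  rw [h1]
  refine (measurePreserving_add_right volume _).comp (measurePreserving_shear ?_)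
  have m1 : Measurable fun q : ℂ × ℂ => ((q.1.im - 1 / 2 : ℝ) : ℂ) :=
    Complex.measurable_ofReal.comp ((Complex.measurable_im.comp measurable_fst).sub_const _)
  have m2 : Measurable fun q : ℂ × ℂ => ((q.2.im - 1 / 2 : ℝ) : ℂ) :=
    Complex.measurable_ofReal.comp ((Complex.measurable_im.comp measurable_snd).sub_const _)
  exact (measurable_const.add (m1.mul_const _)).sub (m2.mul_const _)

/-- linear part of `act` -/
def lin (a b : ℂ) (h : C3) : C3 := ![h 0, h 1, h 2 + (a.im : ℂ) * h 0 - (b.im : ℂ) * h 1]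

lemma act_add (a b c : ℂ) (z h : C3) : act a b c (z + h) = act a b c z + lin a b h := by
  funext j
  fin_cases j
  · simp [act, lin]; ring
  · simp [act, lin]; ring
  · simp [act, lin]; ring

lemma V_act (v : C3) (a b c : ℂ) (z : C3) : V v (act a b c z) = lin a b (V v z) := by
  funext j
  fin_cases j
  · simp [act, lin, V]
  · simp [act, lin, V]
  · simp [act, lin, V]; ring

lemma right_act (v : C3) (a b c : ℂ) (z : C3) :
    act a b c z + V v (act a b c z) = act a b c (z + V v z) := by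
  rw [V_act, act_add]

lemma mem_Q_iff (x : ℂ) (m n : ℤ) : x + gi m n ∈ Q ↔ m = -⌊x.re⌋ ∧ n = -⌊x.im⌋ := by
  have key : ∀ (t : ℝ) (m : ℤ), (0 ≤ t + m ∧ t + m < 1) ↔ m = -⌊t⌋ := by
    intro t m
    have h1 : m = -⌊t⌋ ↔ ⌊t⌋ = -m := by constructor <;> intro h <;> omega
    rw [h1, Int.floor_eq_iff]
    push_cast
    constructor
    · rintro ⟨h1, h2⟩
      constructor <;> linarith
    · rintro ⟨h1, h2⟩
      constructor <;> linarith
  have h : x + gi m n ∈ Q ↔ (0 ≤ x.re + m ∧ x.re + m < 1) ∧ (0 ≤ x.im + n ∧ x.im + n < 1) := by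
    simp only [Q, Set.mem_ofPred_eq, Complex.add_re, Complex.add_im, gi_re, gi_im]
    tauto
  rw [h, key, key]

lemma measurableSet_Q : MeasurableSet Q := by
  have h : Q = (fun z : ℂ => z.re) ⁻¹' Set.Ico 0 1 ∩ (fun z : ℂ => z.im) ⁻¹' Set.Ico 0 1 := by
    ext z
    simp only [Q, Set.mem_ofPred_eq, Set.mem_inter_iff, Set.mem_preimage, Set.mem_Ico]
    tauto
  rw [h]
  exact (Complex.measurable_re measurableSet_Ico).inter (Complex.measurable_im measurableSet_Ico)

lemma measurableSet_D : MeasurableSet D := by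
  have h : D = Set.pi Set.univ fun _ : Fin 3 => Q := by
    ext z
    simp [D]
  rw [h]
  exact MeasurableSet.univ_pi fun _ => measurableSet_Q

instance : SMulInvariantMeasure Gam C3 volume :=
  ⟨fun _ _ hs => (measurePreserving_act _ _ _).measure_preimage hs.nullMeasurableSet⟩

instance : MeasurableConstSMul Gam C3 :=
  ⟨fun _ => (measurePreserving_act _ _ _).measurable⟩

lemma existsUnique_smul_mem_D (z : C3) : ∃! g : Gam, g • z ∈ D := by
  have h : ∀ g : Gam, g • z ∈ D ↔
      (g.a1 = -⌊(z 0).re⌋ ∧ g.a2 = -⌊(z 0).im⌋) ∧ (g.b1 = -⌊(z 1).re⌋ ∧ g.b2 = -⌊(z 1).im⌋) ∧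
      (g.c1 = -⌊(z 2 + (g.a2 : ℂ) * z 0 - (g.b2 : ℂ) * z 1).re⌋ ∧
        g.c2 = -⌊(z 2 + (g.a2 : ℂ) * z 0 - (g.b2 : ℂ) * z 1).im⌋) := by
    intro g
    rw [← mem_Q_iff, ← mem_Q_iff, ← mem_Q_iff]
    have : g • z ∈ D ↔ ∀ j, (g • z) j ∈ Q := Iff.rfl
    rw [this, Fin.forall_fin_succ, Fin.forall_fin_succ, Fin.forall_fin_one, smul_def]
    simp [act]
  refine ⟨⟨-⌊(z 0).re⌋, -⌊(z 0).im⌋, -⌊(z 1).re⌋, -⌊(z 1).im⌋,
    -⌊(z 2 + ((-⌊(z 0).im⌋ : ℤ) : ℂ) * z 0 - ((-⌊(z 1).im⌋ : ℤ) : ℂ) * z 1).re⌋,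
    -⌊(z 2 + ((-⌊(z 0).im⌋ : ℤ) : ℂ) * z 0 - ((-⌊(z 1).im⌋ : ℤ) : ℂ) * z 1).im⌋⟩, ?_, ?_⟩
  · exact (h _).2 ⟨⟨rfl, rfl⟩, ⟨rfl, rfl⟩, ⟨rfl, rfl⟩⟩
  · intro g hg
    obtain ⟨⟨e1, e2⟩, ⟨e3, e4⟩, ⟨e5, e6⟩⟩ := (h g).1 hg
    rw [e2, e4] at e5 e6
    exact Gam.ext e1 e2 e3 e4 e5 e6

lemma isFundamentalDomain_D : IsFundamentalDomain Gam D volume :=
  IsFundamentalDomain.mk' measurableSet_D.nullMeasurableSet existsUnique_smul_mem_D

lemma gint_gi (m n : ℤ) : GInt (gi m n) := ⟨m, n, rfl⟩

lemma setIntegral_right (v : C3) {h : C3 → ℂ} (hc : Continuous h) (hinv : GInv h) :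
    ∫ z in D, h (z + V v z) = ∫ z in D, h z := by
  set R : C3 → C3 := fun z => z + V v z with hR
  have hmp : MeasurePreserving R volume volume := measurePreserving_right v
  have h1 : ∫ z in D, h z = ∫ z in R ⁻¹' D, h (R z) := by
    have h2 := setIntegral_map (μ := (volume : Measure C3)) (g := R) (f := h)
      measurableSet_D hc.aestronglyMeasurable hmp.measurable.aemeasurable
    rw [hmp.map_eq] at h2
    exact h2
  have h2 : IsFundamentalDomain Gam (R ⁻¹' D) volume := by
    refine IsFundamentalDomain.mk' (hmp.measurable measurableSet_D).nullMeasurableSet ?_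
    intro z
    have h3 : ∀ g : Gam, g • z ∈ R ⁻¹' D ↔ g • R z ∈ D := by
      intro g
      have : R (g • z) = g • R z := right_act v _ _ _ z
      rw [Set.mem_preimage, this]
    simp only [h3]
    exact existsUnique_smul_mem_D (R z)
  rw [h1]
  refine isFundamentalDomain_D.setIntegral_eq h2 ?_
  intro g z
  have : R (g • z) = g • R z := right_act v _ _ _ z
  change h (R (g • z)) = h (R z)
  rw [this]
  exact hinv _ _ _ (gint_gi _ _) (gint_gi _ _) (gint_gi _ _) _

lemma D_subset_ball : D ⊆ Metric.closedBall (0 : C3) 2 := by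
  intro z hz
  rw [mem_closedBall_zero_iff, pi_norm_le_iff_of_nonneg (by norm_num)]
  intro j
  obtain ⟨h1, h2, h3, h4⟩ := hz j
  refine (Complex.norm_le_abs_re_add_abs_im _).trans ?_
  rw [abs_of_nonneg h1, abs_of_nonneg h3]
  linarith

lemma integrableOn_D {h : C3 → ℂ} (hc : Continuous h) : IntegrableOn h D volume :=
  (hc.continuousOn.integrableOn_compact (isCompact_closedBall (0 : C3) 2)).mono_set D_subset_ball

lemma V_smul (t : ℝ) (v z : C3) : V (t • v) z = t • V v z := by
  funext j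
  fin_cases j
  · simp [V]
  · simp [V]
  · simp [V]; ring

lemma continuous_V (v : C3) : Continuous (V v) := by
  refine continuous_pi fun j => ?_
  fin_cases j
  · exact continuous_const
  · exact continuous_const
  · have h1 : Continuous fun z : C3 => (((z 0).im - 1 / 2 : ℝ) : ℂ) :=
      Complex.continuous_ofReal.comp ((Complex.continuous_im.comp (continuous_apply 0)).sub
        continuous_const)
    have h2 : Continuous fun z : C3 => (((z 1).im - 1 / 2 : ℝ) : ℂ) :=
      Complex.continuous_ofReal.comp ((Complex.continuous_im.comp (continuous_apply 1)).sub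
        continuous_const)
    exact (continuous_const.add (h1.mul continuous_const)).sub (h2.mul continuous_const)

/-- the integral of a derivative of an invariant function vanishes -/
lemma integral_Xv (v : C3) {f : C3 → ℂ} (hf : ContDiff ℝ 1 f) (hinv : GInv f) :
    ∫ z in D, fderiv ℝ f z (V v z) = 0 := by
  have hfd : Differentiable ℝ f := hf.differentiable (by norm_num)
  have hfc : Continuous (fderiv ℝ f) := hf.continuous_fderiv (by norm_num)
  have hcont : Continuous fun q : ℝ × C3 => fderiv ℝ f (q.2 + q.1 • V v q.2) (V v q.2) := by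
    have h1 : Continuous fun q : ℝ × C3 => V v q.2 := (continuous_V v).comp continuous_snd
    exact (hfc.comp (continuous_snd.add (continuous_fst.smul h1))).clm_apply h1
  obtain ⟨C, hC⟩ := ((isCompact_Icc (a := (-1 : ℝ)) (b := 1)).prod
    (isCompact_closedBall (0 : C3) 2)).exists_bound_of_continuousOn hcont.continuousOn
  have hfin : IsFiniteMeasure ((volume : Measure C3).restrict D) :=
    ⟨by
      rw [Measure.restrict_apply_univ]
      exact lt_of_le_of_lt (measure_mono D_subset_ball)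
        (isCompact_closedBall (0 : C3) 2).measure_lt_top⟩
  have hkey := hasDerivAt_integral_of_dominated_loc_of_deriv_le
    (μ := (volume : Measure C3).restrict D) (s := Set.Icc (-1 : ℝ) 1) (x₀ := (0 : ℝ))
    (F := fun t z => f (z + t • V v z)) (F' := fun t z => fderiv ℝ f (z + t • V v z) (V v z))
    (bound := fun _ => C) (Icc_mem_nhds (by norm_num) (by norm_num))
    (Eventually.of_forall fun t => by
      have : Continuous fun z => f (z + t • V v z) :=
        hf.continuous.comp (continuous_id.add ((continuous_V v).const_smul t))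
      exact this.aestronglyMeasurable)
    (by
      simp only [zero_smul, add_zero]
      exact integrableOn_D hf.continuous)
    (by
      have : Continuous fun z => fderiv ℝ f (z + (0 : ℝ) • V v z) (V v z) :=
        hcont.comp (continuous_const.prodMk continuous_id)
      exact this.aestronglyMeasurable)
    (by
      filter_upwards [ae_restrict_mem measurableSet_D] with z hz t ht
      exact hC (t, z) ⟨ht, D_subset_ball hz⟩)
    (integrable_const C)
    (Eventually.of_forall fun z t _ => by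
      have h1 : HasDerivAt (fun t : ℝ => z + t • V v z) (V v z) t := by
        have := ((hasDerivAt_id t).smul_const (V v z)).const_add z
        simpa only [id, one_smul] using this
      exact (hfd _).hasFDerivAt.comp_hasDerivAt t h1)
  have hconst : (fun t : ℝ => ∫ z in D, f (z + t • V v z)) = fun _ => ∫ z in D, f z := by
    funext t
    have := setIntegral_right (t • v) hf.continuous hinv
    simpa only [V_smul] using this
  have h2 := hkey.2
  rw [hconst] at h2
  have h3 := h2.unique (hasDerivAt_const (0 : ℝ) _)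
  simpa only [zero_smul, add_zero] using h3

end Pool.Agent.MA87.Vol
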