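import Pool.Agent.MA87.Defs
import Pool.Agent.MA87.VolumeAlg
import Pool.Agent.MA87.VolumeInt

/-!
# The volume identity
-/

open Complex MeasureTheory Filter Topology
open scoped ContDiff

set_option linter.unusedSimpArgs false

noncomputable section

namespace Pool.Agent.MA87.Vol

lemma contDiff_ofReal : ContDiff ℝ ∞ (fun x : ℝ => (x : ℂ)) := Complex.ofRealCLM.contDiff

lemma contDiff_V (v : C3) : ContDiff ℝ ∞ (V v) := by
  rw [contDiff_pi]
  intro j
  have h1 : ∀ i : Fin 3, ContDiff ℝ ∞ fun z : C3 => (((z i).im - 1 / 2 : ℝ) : ℂ) := by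
    intro i
    have h2 : ContDiff ℝ ∞ fun z : C3 => z i := contDiff_apply ℝ ℂ i
    exact contDiff_ofReal.comp ((Complex.imCLM.contDiff.comp h2).sub contDiff_const)
  fin_cases j
  · exact contDiff_const
  · exact contDiff_const
  · exact (contDiff_const.add ((h1 0).mul contDiff_const)).sub ((h1 1).mul contDiff_const)

/-- linear part of `act` as a continuous linear map -/
def linL (a b : ℂ) : C3 →L[ℝ] C3 :=
  LinearMap.toContinuousLinearMap
    { toFun := lin a b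
      map_add' := by
        intro x y
        funext j
        fin_cases j
        · simp [lin]
        · simp [lin]
        · simp [lin]; ring
      map_smul' := by
        intro t x
        funext j
        fin_cases j
        · simp [lin]
        · simp [lin]
        · simp [lin]; ring }

lemma linL_apply (a b : ℂ) (h : C3) : linL a b h = lin a b h := rfl

lemma hasFDerivAt_act (a b c : ℂ) (z : C3) : HasFDerivAt (act a b c) (linL a b) z := by
  have h1 : act a b c = fun z => linL a b z + ![a, b, c] := by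
    funext z
    have h2 := act_add a b c 0 z
    rw [zero_add] at h2
    rw [h2, linL_apply, add_comm]
    congr 1
    funext j
    fin_cases j <;> simp [act]
  rw [h1]
  exact (linL a b).hasFDerivAt.add_const _

/-- smooth invariant functions -/
def AA : Subalgebra ℂ (C3 → ℂ) where
  carrier := {f | ContDiff ℝ ∞ f ∧ GInv f}
  mul_mem' := by
    rintro f g ⟨hf, hf'⟩ ⟨hg, hg'⟩
    refine ⟨hf.mul hg, ?_⟩
    intro a b c ha hb hc z
    simp only [Pi.mul_apply, hf' a b c ha hb hc z, hg' a b c ha hb hc z]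
  add_mem' := by
    rintro f g ⟨hf, hf'⟩ ⟨hg, hg'⟩
    refine ⟨hf.add hg, ?_⟩
    intro a b c ha hb hc z
    simp only [Pi.add_apply, hf' a b c ha hb hc z, hg' a b c ha hb hc z]
  algebraMap_mem' := by
    intro r
    exact ⟨contDiff_const, fun _ _ _ _ _ _ _ => rfl⟩

lemma AA_contDiff (f : AA) : ContDiff ℝ ∞ (f : C3 → ℂ) := f.2.1

lemma AA_diff (f : AA) : Differentiable ℝ (f : C3 → ℂ) := f.2.1.differentiable (by simp)

lemma AA_inv (f : AA) : GInv (f : C3 → ℂ) := f.2.2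

/-- the derivative along the left-invariant field `V v` -/
def xf (v : C3) (f : C3 → ℂ) (z : C3) : ℂ := fderiv ℝ f z (V v z)

lemma xf_contDiff (v : C3) {f : C3 → ℂ} (hf : ContDiff ℝ ∞ f) : ContDiff ℝ ∞ (xf v f) := by
  unfold xf
  exact (hf.fderiv_right (m := ∞) (by simp)).clm_apply (contDiff_V v)

lemma xf_inv (v : C3) {f : C3 → ℂ} (hf : Differentiable ℝ f) (hinv : GInv f) :
    GInv (xf v f) := by
  intro a b c ha hb hc z
  have h1 : f ∘ act a b c = f := by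
    funext z
    exact hinv a b c ha hb hc z
  have h2 : HasFDerivAt (f ∘ act a b c) ((fderiv ℝ f (act a b c z)).comp (linL a b)) z :=
    (hf _).hasFDerivAt.comp z (hasFDerivAt_act a b c z)
  rw [h1] at h2
  unfold xf
  rw [h2.fderiv, V_act]
  rfl

/-- the derivative along `V v` as a derivation -/
def Xv (v : C3) : Derivation ℂ AA AA :=
  Derivation.mk'
    { toFun := fun f => ⟨xf v f, xf_contDiff v (AA_contDiff f), xf_inv v (AA_diff f) (AA_inv f)⟩
      map_add' := by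
        intro f g
        apply Subtype.ext
        funext z
        change fderiv ℝ ((f : C3 → ℂ) + (g : C3 → ℂ)) z (V v z) = _
        rw [fderiv_add (AA_diff f z) (AA_diff g z)]
        rfl
      map_smul' := by
        intro c f
        apply Subtype.ext
        funext z
        change fderiv ℝ (c • (f : C3 → ℂ)) z (V v z) = _
        rw [fderiv_const_smul (AA_diff f z)]
        rfl }
    (by
      intro f g
      apply Subtype.ext
      funext z
      change fderiv ℝ ((f : C3 → ℂ) * (g : C3 → ℂ)) z (V v z) = _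
      rw [fderiv_mul (AA_diff f z) (AA_diff g z)]
      rfl)

lemma Xv_apply (v : C3) (f : AA) (z : C3) : (Xv v f : C3 → ℂ) z = fderiv ℝ f z (V v z) := rfl

/-- derivative of the frame -/
def dV (v h : C3) : C3 := ![0, 0, ((h 0).im : ℂ) * v 0 - ((h 1).im : ℂ) * v 1]

/-- derivative of the frame as a linear map -/
def dVL (v : C3) : C3 →L[ℝ] C3 :=
  LinearMap.toContinuousLinearMap
    { toFun := dV v
      map_add' := by
        intro x y
        funext j
        fin_cases j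
        · simp [dV]
        · simp [dV]
        · simp [dV]; ring
      map_smul' := by
        intro t x
        funext j
        fin_cases j
        · simp [dV]
        · simp [dV]
        · simp [dV]; ring }

lemma hasFDerivAt_V (v z : C3) : HasFDerivAt (V v) (dVL v) z := by
  have h1 : V v = fun z => dVL v z + ![v 0, v 1, v 2 - (1 / 2) * v 0 + (1 / 2) * v 1] := by
    funext z j
    fin_cases j
    · simp [V, dVL, dV]
    · simp [V, dVL, dV]
    · simp [V, dVL, dV]; ring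
  rw [h1]
  exact (dVL v).hasFDerivAt.add_const _

/-- second derivative along two fields -/
lemma Xv_Xv (u v : C3) (f : AA) (z : C3) : (Xv u (Xv v f) : C3 → ℂ) z =
    fderiv ℝ (fderiv ℝ (f : C3 → ℂ)) z (V u z) (V v z) + fderiv ℝ (f : C3 → ℂ) z (dV v u) := by
  rw [Xv_apply]
  have h1 : DifferentiableAt ℝ (fderiv ℝ (f : C3 → ℂ)) z :=
    (((AA_contDiff f).fderiv_right (m := ∞) (by simp)).differentiable (by simp)) z
  have h2 := h1.hasFDerivAt.clm_apply (hasFDerivAt_V v z)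
  have h3 : (Xv v f : C3 → ℂ) = fun z => fderiv ℝ (f : C3 → ℂ) z (V v z) := rfl
  rw [h3, h2.fderiv]
  have h4 : dVL v (V u z) = dV v u := by
    funext j
    fin_cases j <;> simp [dVL, dV, V]
  simp only [add_apply, ContinuousLinearMap.comp_apply,
    ContinuousLinearMap.flip_apply, h4]
  ring

lemma symm2 (f : AA) (z u v : C3) : fderiv ℝ (fderiv ℝ (f : C3 → ℂ)) z u v =
    fderiv ℝ (fderiv ℝ (f : C3 → ℂ)) z v u := by
  have h : IsSymmSndFDerivAt ℝ (f : C3 → ℂ) z :=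
    ((AA_contDiff f).contDiffAt).isSymmSndFDerivAt (by
      rw [minSmoothness_of_isRCLikeNormedField]
      exact WithTop.coe_le_coe.2 (le_top : (2 : ℕ∞) ≤ ⊤))
  exact h.eq u v

/-- the commutator -/
lemma comm (u v : C3) (f : AA) : Xv u (Xv v f) = Xv v (Xv u f) + Xv (dV v u - dV u v) f := by
  apply Subtype.ext
  funext z
  change (Xv u (Xv v f) : C3 → ℂ) z = (Xv v (Xv u f) : C3 → ℂ) z +
    (Xv (dV v u - dV u v) f : C3 → ℂ) z
  rw [Xv_Xv, Xv_Xv, Xv_apply, symm2 f z (V u z) (V v z)]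
  have h1 : V (dV v u - dV u v) z = dV v u - dV u v := by
    funext j
    fin_cases j <;> simp [V, dV]
  rw [h1, map_sub]
  ring

lemma Xv_zero (f : AA) : Xv 0 f = 0 := by
  apply Subtype.ext
  funext z
  change fderiv ℝ (f : C3 → ℂ) z (V 0 z) = 0
  have : V 0 z = 0 := by
    funext j
    fin_cases j <;> simp [V]
  rw [this, map_zero]

lemma com0 {u v : C3} (h : dV v u - dV u v = 0) (f : AA) : Xv u (Xv v f) = Xv v (Xv u f) := by
  rw [comm, h, Xv_zero, add_zero]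

/-- basis vectors -/
def ee (j : Fin 3) : C3 := Pi.single j 1

/-- basis vectors times `i` -/
def fe (j : Fin 3) : C3 := Pi.single j I

/-- the field `D_j` -/
def Dj (j : Fin 3) : Derivation ℂ AA AA := (1 / 2 : ℂ) • (Xv (ee j) - I • Xv (fe j))

/-- the field `D̄_j` -/
def Bj (j : Fin 3) : Derivation ℂ AA AA := (1 / 2 : ℂ) • (Xv (ee j) + I • Xv (fe j))

lemma Dj_apply (j : Fin 3) (f : AA) : Dj j f = (1 / 2 : ℂ) • (Xv (ee j) f - I • Xv (fe j) f) := rfl

lemma Bj_apply (j : Fin 3) (f : AA) : Bj j f = (1 / 2 : ℂ) • (Xv (ee j) f + I • Xv (fe j) f) := rfl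

lemma dV_zero {u v : C3} (h0 : u 0 = 0 ∨ v 0 = 0) (h1 : u 1 = 0 ∨ v 1 = 0) :
    dV v u - dV u v = 0 := by
  funext j
  fin_cases j
  · simp [dV]
  · simp [dV]
  · rcases h0 with h0 | h0 <;> rcases h1 with h1 | h1 <;> simp [dV, h0, h1]

lemma ee_ee {j k : Fin 3} (h : j ≠ k) (f : AA) : Xv (ee j) (Xv (ee k) f) = Xv (ee k) (Xv (ee j) f) :=
  com0 (dV_zero (by fin_cases j <;> fin_cases k <;> simp_all [ee])
    (by fin_cases j <;> fin_cases k <;> simp_all [ee])) f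

lemma ee_fe {j k : Fin 3} (h : j ≠ k) (f : AA) : Xv (ee j) (Xv (fe k) f) = Xv (fe k) (Xv (ee j) f) :=
  com0 (dV_zero (by fin_cases j <;> fin_cases k <;> simp_all [ee, fe])
    (by fin_cases j <;> fin_cases k <;> simp_all [ee, fe])) f

lemma fe_fe {j k : Fin 3} (h : j ≠ k) (f : AA) : Xv (fe j) (Xv (fe k) f) = Xv (fe k) (Xv (fe j) f) :=
  com0 (dV_zero (by fin_cases j <;> fin_cases k <;> simp_all [fe])
    (by fin_cases j <;> fin_cases k <;> simp_all [fe])) f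

lemma Dj_Dj {j k : Fin 3} (h : j ≠ k) (f : AA) : Dj j (Dj k f) = Dj k (Dj j f) := by
  simp only [Dj_apply, Derivation.map_smul, Derivation.map_sub, ee_ee h, ee_fe h, fe_fe h, ← ee_fe h.symm]
  module

lemma Bj_Bj {j k : Fin 3} (h : j ≠ k) (f : AA) : Bj j (Bj k f) = Bj k (Bj j f) := by
  simp only [Bj_apply, Derivation.map_smul, Derivation.map_add, ee_ee h, ee_fe h, fe_fe h, ← ee_fe h.symm]
  module

lemma Dj_Bj {j k : Fin 3} (h : j ≠ k) (f : AA) : Dj j (Bj k f) = Bj k (Dj j f) := by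
  simp only [Dj_apply, Bj_apply, Derivation.map_smul, Derivation.map_add, Derivation.map_sub,
    ee_ee h, ee_fe h, fe_fe h,
    ← ee_fe h.symm]
  module

lemma D2_add_B2 (f : AA) : Dj 2 f + Bj 2 f = Xv (ee 2) f := by
  rw [Dj_apply, Bj_apply]
  module

lemma comm0 (f : AA) : Xv (ee 0) (Xv (fe 0) f) = Xv (fe 0) (Xv (ee 0) f) - Xv (ee 2) f := by
  rw [comm]
  have h : dV (fe 0) (ee 0) - dV (ee 0) (fe 0) = - ee 2 := by
    funext j
    fin_cases j <;> simp [dV, ee, fe]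
  rw [h]
  have h2 : Xv (- ee 2) f = - Xv (ee 2) f := by
    apply Subtype.ext
    funext z
    change fderiv ℝ (f : C3 → ℂ) z (V (-ee 2) z) = - fderiv ℝ (f : C3 → ℂ) z (V (ee 2) z)
    rw [← map_neg]
    congr 1
    funext j
    fin_cases j
    · simp [V]
    · simp [V]
    · simp [V]; ring
  rw [h2]
  abel

lemma comm1 (f : AA) : Xv (ee 1) (Xv (fe 1) f) = Xv (fe 1) (Xv (ee 1) f) + Xv (ee 2) f := by
  rw [comm]
  have h : dV (fe 1) (ee 1) - dV (ee 1) (fe 1) = ee 2 := by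
    funext j
    fin_cases j <;> simp [dV, ee, fe]
  rw [h]

lemma B0_D0 (f : AA) : Bj 0 (Dj 0 f) = Dj 0 (Bj 0 f) +
    algebraMap ℂ AA (I / 2) * (Dj 2 f + Bj 2 f) := by
  rw [D2_add_B2, ← Algebra.smul_def]
  simp only [Dj_apply, Bj_apply, Derivation.map_smul, Derivation.map_add, Derivation.map_sub, comm0]
  module

lemma B1_D1 (f : AA) : Bj 1 (Dj 1 f) = Dj 1 (Bj 1 f) -
    algebraMap ℂ AA (I / 2) * (Dj 2 f + Bj 2 f) := by
  rw [D2_add_B2, ← Algebra.smul_def]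
  simp only [Dj_apply, Bj_apply, Derivation.map_smul, Derivation.map_add, Derivation.map_sub, comm1]
  module

/-- the integral as a linear functional -/
def JJ : AA →ₗ[ℂ] ℂ where
  toFun f := ∫ z in D, (f : C3 → ℂ) z
  map_add' := by
    intro f g
    exact integral_add (integrableOn_D (AA_contDiff f).continuous)
      (integrableOn_D (AA_contDiff g).continuous)
  map_smul' := by
    intro c f
    exact integral_smul c _

lemma JJ_Xv (v : C3) (f : AA) : JJ (Xv v f) = 0 :=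
  integral_Xv v ((AA_contDiff f).of_le (by simp)) (AA_inv f)

lemma JJ_Dj (j : Fin 3) (f : AA) : JJ (Dj j f) = 0 := by
  rw [Dj_apply, map_smul, map_sub, map_smul, JJ_Xv, JJ_Xv]
  simp

lemma JJ_Bj (j : Fin 3) (f : AA) : JJ (Bj j f) = 0 := by
  rw [Bj_apply, map_smul, map_add, map_smul, JJ_Xv, JJ_Xv]
  simp

/-- the coefficients of the complex Hessian -/
def ell (f : C3 → ℂ) (z : C3) (j k : Fin 3) : ℂ :=
  (1 / 4) * (fderiv ℝ (fderiv ℝ f) z (ee j) (ee k) + I * fderiv ℝ (fderiv ℝ f) z (ee j) (fe k) -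
    I * fderiv ℝ (fderiv ℝ f) z (fe j) (ee k) + fderiv ℝ (fderiv ℝ f) z (fe j) (fe k))

lemma levi_eq_ell {φ : C3 → ℝ} (hφ : ContDiff ℝ ∞ φ) (z : C3) (j k : Fin 3) :
    levi φ z j k = ell (fun w => (φ w : ℂ)) z j k := by
  set F : C3 → ℂ := fun w => (φ w : ℂ) with hF
  have hFs : ContDiff ℝ ∞ F := contDiff_ofReal.comp hφ
  have h1 : DifferentiableAt ℝ (fderiv ℝ F) z :=
    ((hFs.fderiv_right (m := ∞) (by simp)).differentiable (by simp)) z
  have h2 : ∀ v : C3, HasFDerivAt (fun w => fderiv ℝ F w v)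
      ((fderiv ℝ (fderiv ℝ F) z).flip v) z := by
    intro v
    have := h1.hasFDerivAt.clm_apply (hasFDerivAt_const v z)
    simpa using this
  have h3 : HasFDerivAt (dzbar k F) ((1 / 2 : ℂ) • ((fderiv ℝ (fderiv ℝ F) z).flip (ee k) +
      I • (fderiv ℝ (fderiv ℝ F) z).flip (fe k))) z :=
    ((h2 (ee k)).add ((h2 (fe k)).const_mul I)).const_mul (1 / 2)
  change dz j (dzbar k F) z = _
  unfold dz
  rw [h3.fderiv]
  change (1 / 2 : ℂ) * ((1 / 2 : ℂ) * (fderiv ℝ (fderiv ℝ F) z (ee j) (ee k) +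
      I * fderiv ℝ (fderiv ℝ F) z (ee j) (fe k)) -
    I * ((1 / 2 : ℂ) * (fderiv ℝ (fderiv ℝ F) z (fe j) (ee k) +
      I * fderiv ℝ (fderiv ℝ F) z (fe j) (fe k)))) = _
  unfold ell
  linear_combination (-(1 / 4) * fderiv ℝ (fderiv ℝ F) z (fe j) (fe k)) * I_mul_I

lemma DB_apply (f : AA) (j k : Fin 3) (z : C3) : (Dj j (Bj k f) : C3 → ℂ) z =
    (1 / 4) * ((Xv (ee j) (Xv (ee k) f) : C3 → ℂ) z + I * (Xv (ee j) (Xv (fe k) f) : C3 → ℂ) z -
      I * (Xv (fe j) (Xv (ee k) f) : C3 → ℂ) z + (Xv (fe j) (Xv (fe k) f) : C3 → ℂ) z) := by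
  have h : Dj j (Bj k f) = (1 / 2 : ℂ) • ((1 / 2 : ℂ) • (Xv (ee j) (Xv (ee k) f) +
      I • Xv (ee j) (Xv (fe k) f)) - I • ((1 / 2 : ℂ) • (Xv (fe j) (Xv (ee k) f) +
      I • Xv (fe j) (Xv (fe k) f)))) := by
    simp only [Dj_apply, Bj_apply, Derivation.map_smul, Derivation.map_add]
    module
  rw [h]
  change (1 / 2 : ℂ) * ((1 / 2 : ℂ) * ((Xv (ee j) (Xv (ee k) f) : C3 → ℂ) z +
      I * (Xv (ee j) (Xv (fe k) f) : C3 → ℂ) z) -
    I * ((1 / 2 : ℂ) * ((Xv (fe j) (Xv (ee k) f) : C3 → ℂ) z +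
      I * (Xv (fe j) (Xv (fe k) f) : C3 → ℂ) z))) = _
  linear_combination (-(1 / 4) * (Xv (fe j) (Xv (fe k) f) : C3 → ℂ) z) * I_mul_I

lemma V_ee0 (z : C3) : V (ee 0) z = ee 0 + ((z 0).im - 1 / 2) • ee 2 := by
  funext j
  fin_cases j <;> simp [V, ee]

lemma V_fe0 (z : C3) : V (fe 0) z = fe 0 + ((z 0).im - 1 / 2) • fe 2 := by
  funext j
  fin_cases j <;> simp [V, fe]

lemma V_ee1 (z : C3) : V (ee 1) z = ee 1 - ((z 1).im - 1 / 2) • ee 2 := by
  funext j
  fin_cases j <;> simp [V, ee]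

lemma V_fe1 (z : C3) : V (fe 1) z = fe 1 - ((z 1).im - 1 / 2) • fe 2 := by
  funext j
  fin_cases j <;> simp [V, fe]

lemma V_ee2 (z : C3) : V (ee 2) z = ee 2 := by
  funext j
  fin_cases j <;> simp [V, ee]

lemma V_fe2 (z : C3) : V (fe 2) z = fe 2 := by
  funext j
  fin_cases j <;> simp [V, fe]

lemma dV_x_ee (v : C3) (j : Fin 3) : dV v (ee j) = 0 := by
  funext i
  fin_cases i <;> fin_cases j <;> simp [dV, ee]

lemma dV_ee0_fe0 : dV (ee 0) (fe 0) = ee 2 := by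
  funext i
  fin_cases i <;> simp [dV, ee, fe]

lemma dV_fe0_fe0 : dV (fe 0) (fe 0) = fe 2 := by
  funext i
  fin_cases i <;> simp [dV, fe]

lemma dV_ee1_fe1 : dV (ee 1) (fe 1) = - ee 2 := by
  funext i
  fin_cases i <;> simp [dV, ee, fe]

lemma dV_fe1_fe1 : dV (fe 1) (fe 1) = - fe 2 := by
  funext i
  fin_cases i <;> simp [dV, fe]

lemma dV_ee_fe {j k : Fin 3} (h : j ≠ k) : dV (ee k) (fe j) = 0 := by
  funext i
  fin_cases i <;> fin_cases j <;> fin_cases k <;> simp_all [dV, ee, fe]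

lemma dV_fe_fe {j k : Fin 3} (h : j ≠ k) : dV (fe k) (fe j) = 0 := by
  funext i
  fin_cases i <;> fin_cases j <;> fin_cases k <;> simp_all [dV, fe]

lemma dV_ee2_fe2 (v : C3) : dV v (fe 2) = 0 := by
  funext i
  fin_cases i <;> simp [dV, fe]

lemma B2_apply (f : AA) (z : C3) : (Bj 2 f : C3 → ℂ) z =
    (1 / 2) * (fderiv ℝ (f : C3 → ℂ) z (ee 2) + I * fderiv ℝ (f : C3 → ℂ) z (fe 2)) := by
  have h : (Bj 2 f : C3 → ℂ) z = (1 / 2 : ℂ) * (fderiv ℝ (f : C3 → ℂ) z (V (ee 2) z) +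
      I * fderiv ℝ (f : C3 → ℂ) z (V (fe 2) z)) := rfl
  rw [h, V_ee2, V_fe2]

lemma D2_apply (f : AA) (z : C3) : (Dj 2 f : C3 → ℂ) z =
    (1 / 2) * (fderiv ℝ (f : C3 → ℂ) z (ee 2) - I * fderiv ℝ (f : C3 → ℂ) z (fe 2)) := by
  have h : (Dj 2 f : C3 → ℂ) z = (1 / 2 : ℂ) * (fderiv ℝ (f : C3 → ℂ) z (V (ee 2) z) -
      I * fderiv ℝ (f : C3 → ℂ) z (V (fe 2) z)) := rfl
  rw [h, V_ee2, V_fe2]

section entries

variable (f : AA) (z : C3)

/-- `Im x - 1/2` -/
abbrev al : ℂ := (((z 0).im - 1 / 2 : ℝ) : ℂ)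

/-- `Im y - 1/2` -/
abbrev be : ℂ := (((z 1).im - 1 / 2 : ℝ) : ℂ)

lemma H00 : (Dj 0 (Bj 0 f) : C3 → ℂ) z + (I / 2) * (Bj 2 f : C3 → ℂ) z =
    ell f z 0 0 + al z * ell f z 0 2 + al z * ell f z 2 0 + al z ^ 2 * ell f z 2 2 := by
  rw [DB_apply, B2_apply, Xv_Xv, Xv_Xv, Xv_Xv, Xv_Xv, V_ee0, V_fe0, dV_x_ee, dV_x_ee, dV_ee0_fe0,
    dV_fe0_fe0]
  simp only [map_add, map_smul, add_apply, smul_apply, Complex.real_smul, map_zero, ell, al]
  linear_combination ((1 / 4) * fderiv ℝ (f : C3 → ℂ) z (fe 2)) * I_mul_I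

lemma H11 : (Dj 1 (Bj 1 f) : C3 → ℂ) z - (I / 2) * (Bj 2 f : C3 → ℂ) z =
    ell f z 1 1 - be z * ell f z 1 2 - be z * ell f z 2 1 + be z ^ 2 * ell f z 2 2 := by
  rw [DB_apply, B2_apply, Xv_Xv, Xv_Xv, Xv_Xv, Xv_Xv, V_ee1, V_fe1, dV_x_ee, dV_x_ee, dV_ee1_fe1,
    dV_fe1_fe1]
  simp only [map_sub, map_smul, sub_apply, smul_apply, Complex.real_smul, map_zero, map_neg, ell,
    be]
  linear_combination (-(1 / 4) * fderiv ℝ (f : C3 → ℂ) z (fe 2)) * I_mul_I

lemma H01 : (Dj 0 (Bj 1 f) : C3 → ℂ) z =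
    ell f z 0 1 - be z * ell f z 0 2 + al z * ell f z 2 1 - al z * be z * ell f z 2 2 := by
  rw [DB_apply, Xv_Xv, Xv_Xv, Xv_Xv, Xv_Xv, V_ee0, V_fe0, V_ee1, V_fe1, dV_x_ee, dV_x_ee,
    dV_ee_fe (by decide), dV_fe_fe (by decide)]
  simp only [map_add, map_sub, map_smul, add_apply, sub_apply, smul_apply, Complex.real_smul,
    map_zero, ell, al, be]
  ring

lemma H10 : (Dj 1 (Bj 0 f) : C3 → ℂ) z =
    ell f z 1 0 + al z * ell f z 1 2 - be z * ell f z 2 0 - al z * be z * ell f z 2 2 := by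
  rw [DB_apply, Xv_Xv, Xv_Xv, Xv_Xv, Xv_Xv, V_ee0, V_fe0, V_ee1, V_fe1, dV_x_ee, dV_x_ee,
    dV_ee_fe (by decide), dV_fe_fe (by decide)]
  simp only [map_add, map_sub, map_smul, add_apply, sub_apply, smul_apply, Complex.real_smul,
    map_zero, ell, al, be]
  ring

lemma H02 : (Dj 0 (Bj 2 f) : C3 → ℂ) z = ell f z 0 2 + al z * ell f z 2 2 := by
  rw [DB_apply, Xv_Xv, Xv_Xv, Xv_Xv, Xv_Xv, V_ee0, V_fe0, V_ee2, V_fe2, dV_x_ee, dV_x_ee,
    dV_ee_fe (by decide), dV_fe_fe (by decide)]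
  simp only [map_add, map_smul, add_apply, smul_apply, Complex.real_smul,
    map_zero, ell, al]
  ring

lemma H20 : (Dj 2 (Bj 0 f) : C3 → ℂ) z = ell f z 2 0 + al z * ell f z 2 2 := by
  rw [DB_apply, Xv_Xv, Xv_Xv, Xv_Xv, Xv_Xv, V_ee0, V_fe0, V_ee2, V_fe2, dV_x_ee, dV_x_ee,
    dV_ee_fe (by decide), dV_fe_fe (by decide)]
  simp only [map_add, map_smul, add_apply, smul_apply, Complex.real_smul,
    map_zero, ell, al]
  ring

lemma H12 : (Dj 1 (Bj 2 f) : C3 → ℂ) z = ell f z 1 2 - be z * ell f z 2 2 := by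
  rw [DB_apply, Xv_Xv, Xv_Xv, Xv_Xv, Xv_Xv, V_ee1, V_fe1, V_ee2, V_fe2, dV_x_ee, dV_x_ee,
    dV_ee_fe (by decide), dV_fe_fe (by decide)]
  simp only [map_sub, map_smul, sub_apply, smul_apply, Complex.real_smul,
    map_zero, ell, be]
  ring

lemma H21 : (Dj 2 (Bj 1 f) : C3 → ℂ) z = ell f z 2 1 - be z * ell f z 2 2 := by
  rw [DB_apply, Xv_Xv, Xv_Xv, Xv_Xv, Xv_Xv, V_ee1, V_fe1, V_ee2, V_fe2, dV_x_ee, dV_x_ee,
    dV_ee_fe (by decide), dV_fe_fe (by decide)]
  simp only [map_sub, map_smul, sub_apply, smul_apply, Complex.real_smul,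
    map_zero, ell, be]
  ring

lemma H22 : (Dj 2 (Bj 2 f) : C3 → ℂ) z = ell f z 2 2 := by
  rw [DB_apply, Xv_Xv, Xv_Xv, Xv_Xv, Xv_Xv, V_ee2, V_fe2, dV_x_ee, dV_x_ee,
    dV_ee2_fe2, dV_ee2_fe2]
  simp only [map_zero, ell]
  ring

end entries

/-- the real function as an element of the algebra -/
def el (φ : C3 → ℝ) (hφ : ContDiff ℝ ∞ φ) (hinv : GInv φ) : AA :=
  ⟨fun z => (φ z : ℂ), contDiff_ofReal.comp hφ, fun a b c ha hb hc z => by
    change ((φ (act a b c z) : ℝ) : ℂ) = (φ z : ℂ)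
    rw [hinv a b c ha hb hc z]⟩

/-- evaluation -/
def ev (z : C3) : AA →+* ℂ := (Pi.evalRingHom (fun _ : C3 => ℂ) z).comp AA.val.toRingHom

lemma ev_apply (z : C3) (f : AA) : ev z f = (f : C3 → ℂ) z := rfl

/-- the matrix of the frame Hessian -/
def HH (f : AA) : Matrix (Fin 3) (Fin 3) AA :=
  !![algebraMap ℂ AA (1 / 4) + (Dj 0 (Bj 0 f) + algebraMap ℂ AA (I / 2) * Bj 2 f),
      Dj 0 (Bj 1 f), Dj 0 (Bj 2 f);
      Dj 1 (Bj 0 f), algebraMap ℂ AA (1 / 4) + (Dj 1 (Bj 1 f) - algebraMap ℂ AA (I / 2) * Bj 2 f),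
      Dj 1 (Bj 2 f);
      Dj 2 (Bj 0 f), Dj 2 (Bj 1 f), algebraMap ℂ AA (1 / 4) + Dj 2 (Bj 2 f)]

lemma det_eq {φ : C3 → ℝ} (hφ : ContDiff ℝ ∞ φ) (hinv : GInv φ) (z : C3) :
    (g0 z + levi φ z).det = ((HH (el φ hφ hinv)).det : C3 → ℂ) z := by
  set f := el φ hφ hinv with hf
  have hl : ∀ j k, levi φ z j k = ell (f : C3 → ℂ) z j k := fun j k => levi_eq_ell hφ z j k
  rw [← ev_apply, RingHom.map_det, Matrix.det_fin_three, Matrix.det_fin_three]
  have hal : ∀ c : ℂ, ev z (algebraMap ℂ AA c) = c := fun _ => rfl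
  simp only [RingHom.mapMatrix_apply, Matrix.map_apply, HH, Matrix.of_apply, Matrix.cons_val',
    Matrix.cons_val_zero, Matrix.cons_val_one, Matrix.cons_val, Matrix.cons_val_fin_one,
    map_add, map_sub, map_mul, hal, ev_apply, Matrix.add_apply, hl]
  have e00 := H00 f z
  have e11 := H11 f z
  have e00' : (Dj 0 (Bj 0 f) : C3 → ℂ) z = ell f z 0 0 + al z * ell f z 0 2 +
      al z * ell f z 2 0 + al z ^ 2 * ell f z 2 2 - (I / 2) * (Bj 2 f : C3 → ℂ) z := by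
    linear_combination e00
  have e11' : (Dj 1 (Bj 1 f) : C3 → ℂ) z = ell f z 1 1 - be z * ell f z 1 2 -
      be z * ell f z 2 1 + be z ^ 2 * ell f z 2 2 + (I / 2) * (Bj 2 f : C3 → ℂ) z := by
    linear_combination e11
  rw [e00', e11', H01, H10, H02, H20, H12, H21, H22]
  simp only [g0, Matrix.smul_apply, Matrix.of_apply, Matrix.cons_val', Matrix.cons_val_zero,
    Matrix.cons_val_one, Matrix.cons_val, Matrix.cons_val_fin_one, smul_eq_mul, al, be]
  ring

end Pool.Agent.MA87.Vol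

end

namespace Pool.Agent.MA87

open Vol

lemma Vol.volume_Q : volume Q = 1 := by
  have h : Q = Complex.measurableEquivRealProd ⁻¹' (Set.Ico 0 1 ×ˢ Set.Ico 0 1) := by
    ext z
    simp only [Q, Set.mem_ofPred_eq, Set.mem_preimage, Set.mem_prod, Set.mem_Ico]
    change _ ↔ (0 ≤ z.re ∧ z.re < 1) ∧ (0 ≤ z.im ∧ z.im < 1)
    tauto
  rw [h, Complex.volume_preserving_equiv_real_prod.measure_preimage
    (measurableSet_Ico.prod measurableSet_Ico).nullMeasurableSet]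
  rw [Measure.volume_eq_prod, Measure.prod_prod, Real.volume_Ico]
  simp

lemma Vol.volume_D : volume D = 1 := by
  have h : D = Set.pi Set.univ fun _ : Fin 3 => Q := by
    ext z
    simp [D]
  rw [h, volume_pi_pi]
  simp [Vol.volume_Q]

theorem volume_identity (φ : C3 → ℝ) (hφ : ContDiff ℝ ∞ φ) (hinv : GInv φ) :
    ∫ z in D, ((g0 z + levi φ z).det).re =
      1 / 64 - (1 / 16) * ∫ z in D, ‖dz 2 (fun w => (φ w : ℂ)) z‖ ^ 2 := by
  set f := el φ hφ hinv with hf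
  have h := Vol.identity (Dj 0) (Dj 1) (Dj 2) (Bj 0) (Bj 1) (Bj 2)
    (Dj_Dj (by decide)) (Dj_Dj (by decide)) (Dj_Dj (by decide))
    (Bj_Bj (by decide)) (Bj_Bj (by decide)) (Dj_Bj (by decide)) (Dj_Bj (by decide))
    B0_D0 B1_D1 JJ (JJ_Dj 0) (JJ_Dj 1) (JJ_Dj 2) (JJ_Bj 0) (JJ_Bj 1) (JJ_Bj 2) f
  have h1 : JJ (HH f).det = ∫ z in D, (g0 z + levi φ z).det := by
    change ∫ z in D, ((HH f).det : C3 → ℂ) z = _
    refine integral_congr_ae (Eventually.of_forall fun z => ?_)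
    exact (det_eq hφ hinv z).symm
  have h2 : JJ (1 : AA) = 1 := by
    change ∫ z in D, (1 : ℂ) = 1
    rw [integral_const, Measure.real, Measure.restrict_apply_univ, Vol.volume_D]
    simp
  have hreal : ∀ z v, fderiv ℝ (fun w => (φ w : ℂ)) z v = ((fderiv ℝ φ z v : ℝ) : ℂ) := by
    intro z v
    have h3 : HasFDerivAt (fun w => (φ w : ℂ)) (Complex.ofRealCLM.comp (fderiv ℝ φ z)) z :=
      Complex.ofRealCLM.hasFDerivAt.comp z ((hφ.differentiable (by simp)) z).hasFDerivAt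
    rw [h3.fderiv]
    rfl
  have h3 : JJ (Dj 2 f * Bj 2 f) =
      ((∫ z in D, ‖dz 2 (fun w => (φ w : ℂ)) z‖ ^ 2 : ℝ) : ℂ) := by
    rw [← integral_complex_ofReal]
    change ∫ z in D, (Dj 2 f : C3 → ℂ) z * (Bj 2 f : C3 → ℂ) z = _
    refine integral_congr_ae (Eventually.of_forall fun z => ?_)
    simp only
    rw [D2_apply, B2_apply]
    have h4 : (f : C3 → ℂ) = fun w => (φ w : ℂ) := rfl
    have h5 : dz 2 (fun w => (φ w : ℂ)) z = (1 / 2) *
        (fderiv ℝ (fun w => (φ w : ℂ)) z (ee 2) - I * fderiv ℝ (fun w => (φ w : ℂ)) z (fe 2)) := rfl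
    rw [h4, h5, hreal, hreal]
    have h6 : ∀ x y : ℝ, (1 / 2) * ((x : ℂ) - I * y) * ((1 / 2) * ((x : ℂ) + I * y)) =
        ((‖(1 / 2 : ℂ) * ((x : ℂ) - I * y)‖ ^ 2 : ℝ) : ℂ) := by
      intro x y
      have h7 : (starRingEnd ℂ) ((1 / 2 : ℂ) * ((x : ℂ) - I * y)) =
          (1 / 2) * ((x : ℂ) + I * y) := by
        simp only [map_mul, map_sub, Complex.conj_ofReal, Complex.conj_I, map_div₀, map_one,
          map_ofNat]
        ring
      rw [← h7, Complex.mul_conj]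
      rw [Complex.normSq_eq_norm_sq]
    exact h6 _ _
  have h4 : JJ (HH f).det = 1 / 64 * JJ 1 - 1 / 16 * JJ (Dj 2 f * Bj 2 f) := h
  rw [h1, h2, h3] at h4
  have hint : Integrable (fun z => (g0 z + levi φ z).det) (volume.restrict D) := by
    have h5 : (fun z => (g0 z + levi φ z).det) = ((HH f).det : C3 → ℂ) := by
      funext z
      exact det_eq hφ hinv z
    rw [h5]
    exact integrableOn_D (AA_contDiff (HH f).det).continuous
  have h5 : ∫ z in D, ((g0 z + levi φ z).det).re = (∫ z in D, (g0 z + levi φ z).det).re :=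
    integral_re hint
  rw [h5, h4]
  simp only [Complex.sub_re, Complex.mul_re, Complex.ofReal_re, Complex.ofReal_im]
  norm_num

end Pool.Agent.MA87
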