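import Pool.Agent.MA87.PSD
import Pool.Agent.MA87.Volume
import Pool.Agent.MA87.Energy

/-!
# MP_87f2fd_gt : assembly of the core theorem
-/

open Complex MeasureTheory Filter Topology
open scoped ContDiff ComplexOrder

noncomputable section

namespace Pool.Agent.MA87

theorem core (δ : ℝ) (hδ : 0 < δ) : ∃ φ : C3 → ℝ, ContDiff ℝ ∞ φ ∧ GInv φ ∧
    (∀ z, (g0 z + levi φ z).PosSemidef) ∧ ∫ z in D, ((g0 z + levi φ z).det).re ≤ δ := by
  -- choose `c = 1 - s`, `κ = 1 - 2 s`, `M = 1 / s`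
  obtain ⟨s, hs0, hs1, hsδ⟩ : ∃ s : ℝ, 0 < s ∧ s < 1 / 4 ∧ s ≤ δ := by
    refine ⟨min (1 / 8) δ, lt_min (by norm_num) hδ, ?_, min_le_right _ _⟩
    exact lt_of_le_of_lt (min_le_left _ _) (by norm_num)
  have hκ : 0 < 1 - 2 * s := by linarith
  have hκc : 1 - 2 * s < 1 - s := by linarith
  have hc : 1 - s < 1 := by linarith
  have hM : 2 ≤ 1 / s := by rw [le_div_iff₀ hs0]; linarith
  obtain ⟨k₀, hk₀, hpsd⟩ := psd (M := 1 / s) hκ hκc hc (by linarith)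
  have hen := energy_bound (M := 1 / s) (ε := s) hκ hκc hc hM hs0
  have hlim : ∀ᶠ n : ℕ in atTop, 1 / ((n : ℝ) + 1) < k₀ :=
    (tendsto_one_div_add_atTop_nhds_zero_nat (𝕜 := ℝ)).eventually (gt_mem_nhds hk₀)
  obtain ⟨n, hn1, hn2⟩ := (hen.and hlim).exists
  have hk : (0 : ℝ) < 1 / ((n : ℝ) + 1) := by positivity
  refine ⟨phi (1 / ((n : ℝ) + 1)) (1 - s) (1 - 2 * s) (1 / s), ?_, phi_inv _ _ _ _,
    hpsd _ hk hn2, ?_⟩
  · exact phi_contDiff hk hκ (by linarith) hc (by linarith)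
  · rw [volume_identity _ (phi_contDiff hk hκ (by linarith) hc (by linarith)) (phi_inv _ _ _ _)]
    have h1 : 1 / (2 - (1 - s)) = 1 / (1 + s) := by ring_nf
    have h2 : 1 / (1 + s) ≥ 1 - s := by
      rw [ge_iff_le, le_div_iff₀ (by linarith)]; nlinarith
    have h3 : (1 : ℝ) / (1 / s) = s := by field_simp
    rw [h1, h3] at hn1
    nlinarith

end Pool.Agent.MA87
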