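import Mathlib

/-!
# MP_87f2fd_gt : common definitions

Coordinates on `ℂ³` are `z = (x, y, w) = (z 0, z 1, z 2)`.
-/

open Complex MeasureTheory Filter Topology

noncomputable section

namespace Pool.Agent.MA87

/-- complex affine 3-space -/
abbrev C3 : Type := Fin 3 → ℂ

/-! ### Wirtinger derivatives and the complex Hessian -/

/-- `∂ f / ∂ z_j` for a function on `ℂⁿ` that is differentiable in the real sense. -/
def dz {n : ℕ} (j : Fin n) (f : (Fin n → ℂ) → ℂ) (z : Fin n → ℂ) : ℂ :=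
  (1 / 2) * (fderiv ℝ f z (Pi.single j 1) - I * fderiv ℝ f z (Pi.single j I))

/-- `∂ f / ∂ z̄_j`. -/
def dzbar {n : ℕ} (j : Fin n) (f : (Fin n → ℂ) → ℂ) (z : Fin n → ℂ) : ℂ :=
  (1 / 2) * (fderiv ℝ f z (Pi.single j 1) + I * fderiv ℝ f z (Pi.single j I))

/-- the complex Hessian `(∂² φ / ∂ z_j ∂ z̄_k)_{j,k}` of a real function. -/
def levi {n : ℕ} (φ : (Fin n → ℂ) → ℝ) (z : Fin n → ℂ) : Matrix (Fin n) (Fin n) ℂ :=
  Matrix.of fun j k => dz j (dzbar k fun w => (φ w : ℂ)) z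

/-! ### The group `Γ` and the metric -/

/-- left multiplication by `(a, b, c)` in the group `ℂ³` with the law
`(a, b, c) * (x, y, w) = (a + x, b + y, c + w + Im a * x - Im b * y)`. -/
def act (a b c : ℂ) (z : C3) : C3 :=
  ![z 0 + a, z 1 + b, z 2 + (a.im : ℂ) * z 0 - (b.im : ℂ) * z 1 + c]

/-- Gaussian integers inside `ℂ`. -/
def GInt (a : ℂ) : Prop := ∃ m n : ℤ, a = (m : ℂ) + (n : ℂ) * I

/-- functions on `ℂ³` invariant under the lattice `ℤ[i]³`. -/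
def GInv {X : Type*} (f : C3 → X) : Prop :=
  ∀ a b c : ℂ, GInt a → GInt b → GInt c → ∀ z, f (act a b c z) = f z

/-- the unit square in `ℂ`. -/
def Q : Set ℂ := {z | 0 ≤ z.re ∧ z.re < 1 ∧ 0 ≤ z.im ∧ z.im < 1}

/-- the fundamental domain `[0,1)^6` of the lattice `ℤ[i]³`. -/
def D : Set C3 := {z | ∀ j, z j ∈ Q}

/-- the coefficient matrix of the metric
`ω = (1/4) (|dx|² + |dy|² + |dw - (Im x - 1/2) dx + (Im y - 1/2) dy|²)`. -/
def g0 (z : C3) : Matrix (Fin 3) (Fin 3) ℂ :=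
  let α : ℂ := (((z 0).im - 1 / 2 : ℝ) : ℂ)
  let β : ℂ := (((z 1).im - 1 / 2 : ℝ) : ℂ)
  (1 / 4 : ℂ) • !![1 + α ^ 2, -(α * β), -α; -(α * β), 1 + β ^ 2, β; -α, β, 1]

/-! ### The theta function and `ρ` -/

/-- `th z = θ(z - i/2, i)`, so that `th (z + 1) = th z` and `th (z + i) = exp (-2π i z) th z`. -/
def th (z : ℂ) : ℂ := jacobiTheta₂ (z - I / 2) I

/-- `ρ` up to an additive constant. -/
def rho0 (z : ℂ) : ℝ := (z.im - 1 / 2) ^ 2 / 2 - 1 / (2 * Real.pi) * Real.log ‖th z‖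

/-- `ρ z = (Im z - 1/2)² / 2 - (1/2π) log |th z| + 2`, nonnegative, doubly periodic,
with Laplacian `1` off the zeros of `th`. -/
def rho (z : ℂ) : ℝ := rho0 z + 2

/-- the multivalued holomorphic function `U = w + (1/2πi) (log th x - log th y)`
(with principal logarithms; it is only used modulo `ℤ`). -/
def U (z : C3) : ℂ :=
  z 2 + 1 / (2 * Real.pi * I) * (Complex.log (th (z 0)) - Complex.log (th (z 1)))

/-- the points where `φ` is not given by the formula. -/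
def Bad (z : C3) : Prop := th (z 0) = 0 ∨ th (z 1) = 0 ∨ th (U z) = 0

/-! ### Scalar functions -/

/-- `log cosh` -/
def qf (t : ℝ) : ℝ := Real.log (Real.cosh t)

/-- `(cosh t)^(-k)` -/
def Ef (k t : ℝ) : ℝ := Real.exp (-k * qf t)

/-- `P(t) = c k log cosh t + c/(1+k) (cosh t)^(-k)` -/
def Pf (k c t : ℝ) : ℝ := c * k * qf t + c / (1 + k) * Ef k t

/-- `G(T) = (1/ν) log (1 + ν T)`, `ν = 8 k³` -/
def Gf (k T : ℝ) : ℝ := 1 / (8 * k ^ 3) * Real.log (1 + 8 * k ^ 3 * T)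

/-- a smooth bump function, `1` on `[-1/4, 1/4]` and `0` off `(-3/8, 3/8)`. -/
def bump : ContDiffBump (0 : ℝ) := ⟨1 / 4, 3 / 8, by norm_num, by norm_num⟩

/-- a smooth `1`-periodic function with `f t = t - m` for `|t - m| ≤ 1/4`, `m ∈ ℤ`. -/
def ff (t : ℝ) : ℝ := (t - round t) * bump (t - round t)

/-- `N = 2 + k (r1 + r2) - P(r1 - r2) + k² κ G(T) E(r1 - r2 - f(b))` -/
def Nf (k c κ r1 r2 T b : ℝ) : ℝ :=
  2 + k * (r1 + r2) - Pf k c (r1 - r2) + k ^ 2 * κ * Gf k T * Ef k (r1 - r2 - ff b)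

/-- the cut-off: `1` on `(-∞, M]`, `0` on `[2M, ∞)`, antitone and smooth. -/
def psi (M s : ℝ) : ℝ := Real.smoothTransition ((2 * M - s) / M)

/-- `Φ(n) = -(1/k) ∫_1^n ψ(s)/s ds` -/
def Phi (k M n : ℝ) : ℝ := -(1 / k) * ∫ s in (1 : ℝ)..n, psi M s / s

open Classical in
/-- the potential `φ`. -/
def phi (k c κ M : ℝ) (z : C3) : ℝ :=
  if Bad z then Phi k M (2 * M)
  else Phi k M (Nf k c κ (rho (z 0)) (rho (z 1)) (rho (U z)) (U z).im)

end Pool.Agent.MA87
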