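import Pool.Agent.MA87.Defs

/-! # MP_87f2fd_gt, package EN, part A: scalar facts -/

open Complex MeasureTheory Filter Topology Set
open scoped ContDiff

noncomputable section

namespace Pool.Agent.MA87.EN

/-! ### the cut-off `psi` -/

theorem psi_nonneg (M s : ℝ) : 0 ≤ psi M s := Real.smoothTransition.nonneg _

theorem psi_le_one (M s : ℝ) : psi M s ≤ 1 := Real.smoothTransition.le_one _

theorem psi_eq_one {M s : ℝ} (hM : 0 < M) (h : s ≤ M) : psi M s = 1 := by
  apply Real.smoothTransition.one_of_one_le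
  rw [le_div_iff₀ hM]; linarith

theorem psi_eq_zero {M s : ℝ} (hM : 0 < M) (h : 2 * M ≤ s) : psi M s = 0 := by
  apply Real.smoothTransition.zero_of_nonpos
  apply div_nonpos_of_nonpos_of_nonneg <;> linarith

theorem psi_antitone {M : ℝ} (hM : 0 < M) : Antitone (psi M) := by
  intro a b hab
  apply Real.smoothTransition.monotone
  apply div_le_div_of_nonneg_right _ hM.le
  linarith

theorem psi_continuous (M : ℝ) : Continuous (psi M) := by
  unfold psi
  exact Real.smoothTransition.continuous.comp (by fun_prop)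

/-! ### log cosh -/

theorem cosh_pos' (t : ℝ) : 0 < Real.cosh t := Real.cosh_pos t

theorem qf_nonneg (t : ℝ) : 0 ≤ qf t := Real.log_nonneg (Real.one_le_cosh t)

theorem qf_le_abs (t : ℝ) : qf t ≤ |t| := by
  unfold qf
  rw [Real.log_le_iff_le_exp (Real.cosh_pos t), ← Real.cosh_abs, Real.cosh_eq]
  have : Real.exp (-|t|) ≤ Real.exp |t| := Real.exp_le_exp.2 (by have := abs_nonneg t; linarith)
  linarith

theorem hasDerivAt_qf (t : ℝ) : HasDerivAt qf (Real.tanh t) t := by
  have h := (Real.hasDerivAt_cosh t).log (Real.cosh_pos t).ne'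
  rw [Real.tanh_eq_sinh_div_cosh]
  exact h

/-! ### `Ef` -/

theorem Ef_pos (k t : ℝ) : 0 < Ef k t := Real.exp_pos _

theorem Ef_le_one {k : ℝ} (hk : 0 ≤ k) (t : ℝ) : Ef k t ≤ 1 := by
  unfold Ef
  rw [Real.exp_le_one_iff]
  have := qf_nonneg t
  nlinarith

theorem Ef_ge {k : ℝ} (hk : 0 ≤ k) {t B : ℝ} (hB : |t| ≤ B) : Real.exp (-k * B) ≤ Ef k t := by
  unfold Ef
  rw [Real.exp_le_exp]
  have := qf_le_abs t
  nlinarith

theorem hasDerivAt_Ef (k t : ℝ) : HasDerivAt (Ef k) (-k * Real.tanh t * Ef k t) t := by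
  have h := ((hasDerivAt_qf t).const_mul (-k)).exp
  unfold Ef
  convert h using 1
  ring

theorem abs_tanh_le_one (t : ℝ) : |Real.tanh t| ≤ 1 := (Real.abs_tanh_lt_one t).le

/-! ### `Gf` -/

theorem Gf_nonneg {k T : ℝ} (hk : 0 < k) (hT : 0 ≤ T) : 0 ≤ Gf k T := by
  unfold Gf
  apply mul_nonneg (by positivity)
  apply Real.log_nonneg
  have : 0 ≤ 8 * k ^ 3 * T := by positivity
  linarith

theorem Gf_le {k T : ℝ} (hk : 0 < k) (hT : 0 ≤ T) : Gf k T ≤ T := by
  unfold Gf
  have h1 : 0 < 8 * k ^ 3 := by positivity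
  have h2 : 0 ≤ 8 * k ^ 3 * T := by positivity
  have h3 : Real.log (1 + 8 * k ^ 3 * T) ≤ 8 * k ^ 3 * T := by
    have := Real.log_le_sub_one_of_pos (show 0 < 1 + 8 * k ^ 3 * T by linarith)
    linarith
  calc 1 / (8 * k ^ 3) * Real.log (1 + 8 * k ^ 3 * T) ≤ 1 / (8 * k ^ 3) * (8 * k ^ 3 * T) :=
        mul_le_mul_of_nonneg_left h3 (by positivity)
    _ = T := by field_simp

theorem hasDerivAt_Gf {k T : ℝ} (hk : 0 < k) (hT : 0 ≤ T) :
    HasDerivAt (Gf k) (1 / (1 + 8 * k ^ 3 * T)) T := by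
  have h0 : 1 + 8 * k ^ 3 * T ≠ 0 := by positivity
  have h1 : HasDerivAt (fun T : ℝ => 1 + 8 * k ^ 3 * T) (8 * k ^ 3) T := by
    simpa using ((hasDerivAt_id T).const_mul (8 * k ^ 3)).const_add 1
  have h2 := (h1.log h0).const_mul (1 / (8 * k ^ 3))
  unfold Gf
  have h3 : 1 / (8 * k ^ 3) * (8 * k ^ 3 / (1 + 8 * k ^ 3 * T)) = 1 / (1 + 8 * k ^ 3 * T) := by
    have : k ≠ 0 := hk.ne'
    have h4 : 8 * k ^ 3 ≠ 0 := by positivity
    rw [div_mul_div_comm, one_mul, mul_comm (8 * k ^ 3) (1 + 8 * k ^ 3 * T), ← div_div,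
      div_right_comm, div_self h4]
  rw [← h3]
  exact h2

/-! ### `Pf` -/

theorem Pf_le {k c d s : ℝ} (hk : 0 < k) (hc0 : 0 < c) (hc : c < 1) (hs : |d| ≤ s) :
    Pf k c d ≤ k * s + c := by
  unfold Pf
  have h1 : qf d ≤ s := (qf_le_abs d).trans hs
  have h0 := qf_nonneg d
  have h2 : Ef k d ≤ 1 := Ef_le_one hk.le d
  have h3 := Ef_pos k d
  have h4 : c / (1 + k) ≤ c := div_le_self hc0.le (by linarith)
  have h5 : c / (1 + k) * Ef k d ≤ c * 1 := mul_le_mul h4 h2 h3.le hc0.le
  have h6 : c * k * qf d ≤ k * s := by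
    have : c * k * qf d ≤ 1 * k * s := by
      apply mul_le_mul _ h1 h0 (by positivity)
      nlinarith
    linarith
  linarith

/-- the constant `A = 2 + k s - P(d)` -/
def Af (k c r1 r2 : ℝ) : ℝ := 2 + k * (r1 + r2) - Pf k c (r1 - r2)

theorem Af_ge {k c r1 r2 : ℝ} (hk : 0 < k) (hc0 : 0 < c) (hc : c < 1) (h1 : 0 ≤ r1) (h2 : 0 ≤ r2) :
    2 - c ≤ Af k c r1 r2 := by
  unfold Af
  have : |r1 - r2| ≤ r1 + r2 := by
    rw [abs_le]; constructor <;> linarith
  have := Pf_le hk hc0 hc this
  linarith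

theorem Nf_eq (k c κ r1 r2 T b : ℝ) :
    Nf k c κ r1 r2 T b = Af k c r1 r2 + k ^ 2 * κ * Gf k T * Ef k (r1 - r2 - ff b) := rfl

/-! ### `ff` -/

/-- the local profile of `ff` -/
def gg (s : ℝ) : ℝ := s * bump s

theorem gg_contDiff : ContDiff ℝ ∞ gg := contDiff_id.mul bump.contDiff

theorem gg_zero {s : ℝ} (h : 3 / 8 ≤ |s|) : gg s = 0 := by
  unfold gg
  have : bump s = 0 := by
    apply bump.zero_of_le_dist
    rw [Real.dist_eq, sub_zero]
    exact h
  rw [this, mul_zero]

theorem abs_gg_le (s : ℝ) : |gg s| ≤ 1 := by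
  by_cases h : 3 / 8 ≤ |s|
  · rw [gg_zero h]; simp
  · push Not at h
    unfold gg
    rw [abs_mul, abs_of_nonneg (bump.nonneg' s)]
    have := bump.le_one (x := s)
    have h0 := bump.nonneg' s
    have h1 := abs_nonneg s
    nlinarith

theorem ff_eq (t : ℝ) : ff t = gg (t - round t) := rfl

theorem abs_ff_le (t : ℝ) : |ff t| ≤ 1 := by
  rw [ff_eq]; exact abs_gg_le _

theorem deriv_gg_zero {s : ℝ} (h : 3 / 8 < |s|) : deriv gg s = 0 := by
  have : gg =ᶠ[𝓝 s] fun _ => 0 := by
    have ho : IsOpen {s : ℝ | 3 / 8 < |s|} := isOpen_lt continuous_const continuous_abs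
    filter_upwards [ho.mem_nhds h] with x hx
    exact gg_zero (le_of_lt hx)
  rw [this.deriv_eq]
  simp

theorem hasDerivAt_ff (t : ℝ) : HasDerivAt ff (deriv gg (t - round t)) t := by
  by_cases h : |t - round t| < 1 / 2
  · -- `round` is locally constant
    have hev : ff =ᶠ[𝓝 t] fun x => gg (x - round t) := by
      have ho : IsOpen {x : ℝ | |x - round t| < 1 / 2} :=
        isOpen_lt (by fun_prop) continuous_const
      filter_upwards [ho.mem_nhds h] with x hx
      rw [ff_eq]
      have : round x = round t := by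
        rw [round_eq, Int.floor_eq_iff]
        have hx : |x - round t| < 1 / 2 := hx
        rw [abs_lt] at hx
        constructor <;> [linarith [hx.1]; linarith [hx.2]]
      rw [this]
    have hd : HasDerivAt (fun x => gg (x - round t)) (deriv gg (t - round t)) t := by
      have h1 : HasDerivAt gg (deriv gg (t - round t)) (t - round t) :=
        (gg_contDiff.differentiable (by simp) _).hasDerivAt
      exact HasDerivAt.comp_sub_const t (round t : ℝ) h1
    exact hd.congr_of_eventuallyEq hev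
  · have h2 : |t - round t| = 1 / 2 := le_antisymm (abs_sub_round t) (not_lt.1 h)
    have h3 : deriv gg (t - round t) = 0 := deriv_gg_zero (by rw [h2]; norm_num)
    rw [h3]
    have hev : ff =ᶠ[𝓝 t] fun _ => 0 := by
      have ho : {x : ℝ | |x - t| < 1 / 8} ∈ 𝓝 t := by
        apply IsOpen.mem_nhds (isOpen_lt (by fun_prop) continuous_const)
        simp
      filter_upwards [ho] with x hx
      rw [ff_eq]
      apply gg_zero
      have hx : |x - t| < 1 / 8 := hx
      have h4 : |t - round t| ≤ |t - round x| := round_le t (round x)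
      have h5 : |t - round x| ≤ |t - x| + |x - round x| := by
        have := abs_add_le (t - x) (x - round x)
        simpa using this
      rw [abs_sub_comm] at hx
      rw [h2] at h4
      linarith
    exact (hasDerivAt_const t (0 : ℝ)).congr_of_eventuallyEq hev

theorem exists_deriv_ff_bound : ∃ C : ℝ, 0 ≤ C ∧ ∀ t : ℝ, |deriv gg (t - round t)| ≤ C := by
  have hc : Continuous (deriv gg) := gg_contDiff.continuous_deriv (by simp)
  obtain ⟨C, hC⟩ := (isCompact_Icc (a := (-1 : ℝ)) (b := 1)).exists_bound_of_continuousOn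
    hc.continuousOn
  refine ⟨C, ?_, fun t => ?_⟩
  · exact (norm_nonneg _).trans (hC 0 (by constructor <;> norm_num))
  · have := abs_sub_round t
    rw [abs_le] at this
    exact hC _ ⟨by linarith [this.1], by linarith [this.2]⟩

/-! ### `Phi` and `Psi` -/

theorem psi_div_continuousOn (M : ℝ) : ContinuousOn (fun s => psi M s / s) (Ioi 0) :=
  (psi_continuous M).continuousOn.div continuousOn_id (fun _ hx => (ne_of_gt hx))

theorem hasDerivAt_Phi {k M n : ℝ} (hn : 0 < n) :
    HasDerivAt (Phi k M) (-(1 / k) * (psi M n / n)) n := by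
  unfold Phi
  apply HasDerivAt.const_mul
  have hc := psi_div_continuousOn M
  apply intervalIntegral.integral_hasDerivAt_right
  · apply ContinuousOn.intervalIntegrable
    apply hc.mono
    intro x hx
    rcases le_total 1 n with h | h
    · rw [uIcc_of_le h] at hx
      exact lt_of_lt_of_le one_pos hx.1
    · rw [uIcc_of_ge h] at hx
      exact lt_of_lt_of_le hn hx.1
  · exact hc.stronglyMeasurableAtFilter isOpen_Ioi n hn
  · exact hc.continuousAt (Ioi_mem_nhds hn)

/-- `Ψ(a) = ∫_a^{2M} ψ(n)²/n² dn` -/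
def Psi (M a : ℝ) : ℝ := ∫ n in a..(2 * M), (psi M n / n) ^ 2

theorem psi_sq_continuousOn (M : ℝ) : ContinuousOn (fun s => (psi M s / s) ^ 2) (Ioi 0) :=
  (psi_div_continuousOn M).pow 2

theorem psi_sq_intervalIntegrable (M : ℝ) {a b : ℝ} (ha : 0 < a) (hb : 0 < b) :
    IntervalIntegrable (fun s => (psi M s / s) ^ 2) volume a b := by
  apply ContinuousOn.intervalIntegrable
  apply (psi_sq_continuousOn M).mono
  intro x hx
  rcases le_total a b with h | h
  · rw [uIcc_of_le h] at hx
    exact lt_of_lt_of_le ha hx.1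
  · rw [uIcc_of_ge h] at hx
    exact lt_of_lt_of_le hb hx.1

theorem hasDerivAt_Psi {M a : ℝ} (hM : 0 < M) (ha : 0 < a) :
    HasDerivAt (Psi M) (-(psi M a / a) ^ 2) a := by
  have hc := psi_sq_continuousOn M
  exact intervalIntegral.integral_hasDerivAt_left
    (psi_sq_intervalIntegrable M ha (by linarith))
    (hc.stronglyMeasurableAtFilter isOpen_Ioi a ha)
    (hc.continuousAt (Ioi_mem_nhds ha))

theorem Psi_eq_zero {M a : ℝ} (hM : 0 < M) (ha : 2 * M ≤ a) : Psi M a = 0 := by
  unfold Psi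
  rw [intervalIntegral.integral_symm]
  have : ∫ n in (2 * M)..a, (psi M n / n) ^ 2 = ∫ n in (2 * M)..a, (0 : ℝ) := by
    apply intervalIntegral.integral_congr
    intro x hx
    rw [uIcc_of_le ha] at hx
    simp only
    rw [psi_eq_zero hM hx.1]
    simp
  rw [this]
  simp

theorem Psi_nonneg {M a : ℝ} (hM : 0 < M) : 0 ≤ Psi M a := by
  rcases le_total a (2 * M) with h | h
  · exact intervalIntegral.integral_nonneg h (fun x _ => sq_nonneg _)
  · rw [Psi_eq_zero hM h]

theorem integral_inv_sq {a b : ℝ} (ha : 0 < a) (hab : a ≤ b) :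
    ∫ n in a..b, 1 / n ^ 2 = 1 / a - 1 / b := by
  have hb : 0 < b := lt_of_lt_of_le ha hab
  have : ∀ x ∈ uIcc a b, HasDerivAt (fun x : ℝ => -(1 / x)) (1 / x ^ 2) x := by
    intro x hx
    rw [uIcc_of_le hab] at hx
    have hx0 : x ≠ 0 := (lt_of_lt_of_le ha hx.1).ne'
    have h1 : (fun x : ℝ => -(1 / x)) = fun x : ℝ => -x⁻¹ := by
      funext y; rw [one_div]
    have h2 : 1 / x ^ 2 = - -(x ^ 2)⁻¹ := by rw [neg_neg, one_div]
    rw [h1, h2]
    exact (hasDerivAt_inv hx0).neg
  rw [intervalIntegral.integral_eq_sub_of_hasDerivAt this]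
  · ring
  · apply ContinuousOn.intervalIntegrable
    apply ContinuousOn.div continuousOn_const (by fun_prop)
    intro x hx
    rw [uIcc_of_le hab] at hx
    have hx0 : x ≠ 0 := (lt_of_lt_of_le ha hx.1).ne'
    positivity

theorem Psi_le_inv {M a : ℝ} (hM : 0 < M) (ha : 0 < a) : Psi M a ≤ 1 / a := by
  rcases le_total a (2 * M) with h | h
  · have h1 : Psi M a ≤ ∫ n in a..(2 * M), 1 / n ^ 2 := by
      apply intervalIntegral.integral_mono_on h
        (psi_sq_intervalIntegrable M ha (by linarith))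
      · apply ContinuousOn.intervalIntegrable
        apply ContinuousOn.div continuousOn_const (by fun_prop)
        intro x hx
        rw [uIcc_of_le h] at hx
        have hx0 : x ≠ 0 := (lt_of_lt_of_le ha hx.1).ne'
        positivity
      · intro x hx
        have hx0 : 0 < x := lt_of_lt_of_le ha hx.1
        rw [div_pow]
        apply div_le_div_of_nonneg_right _ (by positivity)
        have := psi_nonneg M x
        have := psi_le_one M x
        nlinarith
    rw [integral_inv_sq ha h] at h1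
    have : 0 < 1 / (2 * M) := by positivity
    linarith
  · rw [Psi_eq_zero hM h]; positivity

theorem Psi_ge {M a : ℝ} (ha : 0 < a) (haM : a ≤ M) : 1 / a - 1 / M ≤ Psi M a := by
  have hM : 0 < M := lt_of_lt_of_le ha haM
  unfold Psi
  rw [← intervalIntegral.integral_add_adjacent_intervals
    (psi_sq_intervalIntegrable M ha hM) (psi_sq_intervalIntegrable M hM (by linarith : 0 < 2 * M))]
  have h1 : ∫ n in a..M, (psi M n / n) ^ 2 = ∫ n in a..M, 1 / n ^ 2 := by
    apply intervalIntegral.integral_congr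
    intro x hx
    rw [uIcc_of_le haM] at hx
    simp only
    rw [psi_eq_one hM hx.2, div_pow, one_pow]
  rw [h1, integral_inv_sq ha haM]
  have h2 : 0 ≤ ∫ n in M..(2 * M), (psi M n / n) ^ 2 :=
    intervalIntegral.integral_nonneg (by linarith) (fun x _ => sq_nonneg _)
  linarith

end Pool.Agent.MA87.EN
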