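import Mathlib
import Pool.Agent.MA87.Defs

/-!
# Theta function facts for MP_87f2fd_gt
-/

open Complex MeasureTheory Filter Topology

noncomputable section

namespace Pool.Agent.MA87

theorem th_differentiable : Differentiable ℂ th := by
  intro z
  unfold th
  have h1 : DifferentiableAt ℂ (fun w => jacobiTheta₂ w I) (z - I / 2) :=
    differentiableAt_jacobiTheta₂_fst _ (by simp)
  exact h1.comp z (differentiableAt_id.sub_const _)

theorem th_add_one (z : ℂ) : th (z + 1) = th z := by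
  unfold th
  rw [show z + 1 - I / 2 = (z - I / 2) + 1 by ring, jacobiTheta₂_add_left]

theorem th_add_I (z : ℂ) : th (z + I) = cexp (-(2 * Real.pi * I * z)) * th z := by
  unfold th
  rw [show z + I - I / 2 = (z - I / 2) + I by ring, jacobiTheta₂_add_left']
  congr 2
  ring

namespace TH

/-- A geometric bound for half of the theta series. -/
theorem half_bound {s : ℝ} (hs : -(1 / 2) ≤ s) :
    HasSum (fun n : ℕ => Real.exp (-Real.pi * (1 + 2 * s)) * Real.exp (-Real.pi * (3 + 2 * s)) ^ n)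
      (Real.exp (-Real.pi * (1 + 2 * s)) * (1 - Real.exp (-Real.pi * (3 + 2 * s)))⁻¹) := by
  apply HasSum.mul_left
  apply hasSum_geometric_of_lt_one (Real.exp_pos _).le
  rw [Real.exp_lt_one_iff]
  have := Real.pi_pos
  nlinarith

theorem term_bound (s : ℝ) (n : ℕ) :
    Real.exp (-Real.pi * ((n : ℝ) + 1) ^ 2 - 2 * Real.pi * ((n : ℝ) + 1) * s) ≤
      Real.exp (-Real.pi * (1 + 2 * s)) * Real.exp (-Real.pi * (3 + 2 * s)) ^ n := by
  rw [← Real.exp_nat_mul, ← Real.exp_add, Real.exp_le_exp]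
  have h1 : (0 : ℝ) ≤ (n : ℝ) * (n - 1) := by
    rcases n with _ | n
    · simp
    · have : (0 : ℝ) ≤ n := n.cast_nonneg
      push_cast
      nlinarith
  have h2 := mul_nonneg Real.pi_pos.le h1
  nlinarith

/-- Both halves of the theta series. -/
theorem exists_split (u : ℂ) (hu : |u.im| ≤ 1 / 2) : ∃ m m' : ℂ, jacobiTheta₂ u I = m + 1 + m' ∧
    ‖m‖ ≤ Real.exp (-Real.pi * (1 + 2 * u.im)) * (1 - Real.exp (-Real.pi * (3 + 2 * u.im)))⁻¹ ∧
    ‖m'‖ ≤ Real.exp (-Real.pi * (1 + 2 * -u.im)) *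
      (1 - Real.exp (-Real.pi * (3 + 2 * -u.im)))⁻¹ := by
  rw [abs_le] at hu
  have hs := hasSum_jacobiTheta₂_term u (τ := I) (by simp)
  have hb1 : ∀ n : ℕ, ‖jacobiTheta₂_term ((n : ℤ) + 1) u I‖ ≤
      Real.exp (-Real.pi * (1 + 2 * u.im)) * Real.exp (-Real.pi * (3 + 2 * u.im)) ^ n := by
    intro n
    rw [norm_jacobiTheta₂_term]
    refine le_trans (le_of_eq ?_) (term_bound u.im n)
    push_cast
    simp
  have hb2 : ∀ n : ℕ, ‖jacobiTheta₂_term (-((n : ℤ) + 1)) u I‖ ≤
      Real.exp (-Real.pi * (1 + 2 * -u.im)) * Real.exp (-Real.pi * (3 + 2 * -u.im)) ^ n := by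
    intro n
    rw [norm_jacobiTheta₂_term]
    refine le_trans (le_of_eq ?_) (term_bound (-u.im) n)
    push_cast
    simp
    ring
  have hB1 := half_bound (s := u.im) (by linarith)
  have hB2 := half_bound (s := -u.im) (by linarith)
  have hS1 : Summable (fun n : ℕ => jacobiTheta₂_term ((n : ℤ) + 1) u I) :=
    Summable.of_norm_bounded hB1.summable hb1
  have hS2 : Summable (fun n : ℕ => jacobiTheta₂_term (-((n : ℤ) + 1)) u I) :=
    Summable.of_norm_bounded hB2.summable hb2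
  refine ⟨_, _, ?_, tsum_of_norm_bounded hB1 hb1, tsum_of_norm_bounded hB2 hb2⟩
  have h3 := HasSum.of_add_one_of_neg_add_one (f := fun n : ℤ => jacobiTheta₂_term n u I)
    hS1.hasSum hS2.hasSum
  rw [hs.unique h3]
  simp [jacobiTheta₂_term]

/-- `exp (-x) ≤ 1 / (1 + x)`. -/
theorem exp_neg_le {x : ℝ} (hx : 0 ≤ x) : Real.exp (-x) ≤ 1 / (1 + x) := by
  rw [Real.exp_neg, inv_eq_one_div]
  apply one_div_le_one_div_of_le (by linarith)
  linarith [Real.add_one_le_exp x]

theorem bound_lt_one {s : ℝ} (hs : |s| ≤ 2 / 5) :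
    Real.exp (-Real.pi * (1 + 2 * s)) * (1 - Real.exp (-Real.pi * (3 + 2 * s)))⁻¹ +
    Real.exp (-Real.pi * (1 + 2 * -s)) * (1 - Real.exp (-Real.pi * (3 + 2 * -s)))⁻¹ < 1 := by
  have hπ := Real.pi_gt_d2
  have hD : ∀ t : ℝ, |t| ≤ 2 / 5 → (1 - Real.exp (-Real.pi * (3 + 2 * t)))⁻¹ ≤ 7 / 6 := by
    intro t ht
    rw [abs_le] at ht
    have h1 : Real.exp (-Real.pi * (3 + 2 * t)) ≤ 1 / 7 := by
      rw [neg_mul]
      refine (exp_neg_le (by nlinarith)).trans ?_
      apply one_div_le_one_div_of_le (by norm_num)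
      nlinarith
    rw [inv_le_comm₀ (by linarith) (by norm_num)]
    linarith
  have h1 := hD s hs
  have h2 := hD (-s) (by rwa [abs_neg])
  have h3 : Real.exp (-Real.pi * (1 + 2 * s)) + Real.exp (-Real.pi * (1 + 2 * -s)) ≤
      Real.exp (-Real.pi * (1 / 5)) + Real.exp (-Real.pi * (9 / 5)) := by
    have e1 : ∀ t : ℝ, Real.exp (-Real.pi * (1 + 2 * t)) + Real.exp (-Real.pi * (1 + 2 * -t)) =
        Real.exp (-Real.pi) * (2 * Real.cosh (2 * Real.pi * t)) := by
      intro t
      rw [Real.cosh_eq, show -Real.pi * (1 + 2 * t) = -Real.pi + -(2 * Real.pi * t) by ring,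
        show -Real.pi * (1 + 2 * -t) = -Real.pi + (2 * Real.pi * t) by ring, Real.exp_add,
        Real.exp_add]
      ring
    have e2 := e1 (2 / 5)
    rw [show -Real.pi * (1 + 2 * (2 / 5)) = -Real.pi * (9 / 5) by ring,
      show -Real.pi * (1 + 2 * -(2 / 5)) = -Real.pi * (1 / 5) by ring] at e2
    rw [e1 s, add_comm (Real.exp (-Real.pi * (1 / 5))), e2]
    have h4 : Real.cosh (2 * Real.pi * s) ≤ Real.cosh (2 * Real.pi * (2 / 5)) := by
      rw [Real.cosh_le_cosh, abs_mul, abs_of_pos (show (0 : ℝ) < 2 * Real.pi by positivity),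
        abs_of_pos (show (0 : ℝ) < 2 * Real.pi * (2 / 5) by positivity)]
      exact mul_le_mul_of_nonneg_left hs (by positivity)
    have := Real.exp_pos (-Real.pi)
    nlinarith
  have h5 : Real.exp (-Real.pi * (1 / 5)) ≤ 1 / (1 + 3.14 / 5) := by
    rw [neg_mul]
    refine (exp_neg_le (by nlinarith)).trans ?_
    apply one_div_le_one_div_of_le (by norm_num)
    nlinarith
  have h6 : Real.exp (-Real.pi * (9 / 5)) ≤ 1 / (1 + 3.14 * 9 / 5) := by
    rw [neg_mul]
    refine (exp_neg_le (by nlinarith)).trans ?_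
    apply one_div_le_one_div_of_le (by norm_num)
    nlinarith
  have h7 := Real.exp_pos (-Real.pi * (1 + 2 * s))
  have h8 := Real.exp_pos (-Real.pi * (1 + 2 * -s))
  have h9 : Real.exp (-Real.pi * (1 + 2 * s)) * (1 - Real.exp (-Real.pi * (3 + 2 * s)))⁻¹ ≤
      Real.exp (-Real.pi * (1 + 2 * s)) * (7 / 6) := mul_le_mul_of_nonneg_left h1 h7.le
  have h10 : Real.exp (-Real.pi * (1 + 2 * -s)) * (1 - Real.exp (-Real.pi * (3 + 2 * -s)))⁻¹ ≤
      Real.exp (-Real.pi * (1 + 2 * -s)) * (7 / 6) := mul_le_mul_of_nonneg_left h2 h8.le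
  have h11 : (1 : ℝ) / (1 + 3.14 / 5) + 1 / (1 + 3.14 * 9 / 5) < 6 / 7 := by norm_num
  linarith

theorem bound_le_two {s : ℝ} (hs : |s| ≤ 1 / 2) :
    Real.exp (-Real.pi * (1 + 2 * s)) * (1 - Real.exp (-Real.pi * (3 + 2 * s)))⁻¹ ≤ 2 := by
  have hπ := Real.pi_gt_d2
  rw [abs_le] at hs
  have h1 : Real.exp (-Real.pi * (3 + 2 * s)) ≤ 1 / 2 := by
    rw [neg_mul]
    refine (exp_neg_le (by nlinarith)).trans ?_
    apply one_div_le_one_div_of_le (by norm_num)
    nlinarith
  have h2 : (1 - Real.exp (-Real.pi * (3 + 2 * s)))⁻¹ ≤ 2 := by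
    rw [inv_le_comm₀ (by linarith) (by norm_num)]
    linarith
  have h3 : Real.exp (-Real.pi * (1 + 2 * s)) ≤ 1 := by
    rw [Real.exp_le_one_iff]
    nlinarith
  have h4 := Real.exp_pos (-Real.pi * (1 + 2 * s))
  nlinarith [inv_pos.2 (show (0:ℝ) < 1 - Real.exp (-Real.pi * (3 + 2 * s)) by linarith)]

end TH

theorem th_ne_zero {z : ℂ} (h : |z.im - 1 / 2| ≤ 2 / 5) : th z ≠ 0 := by
  have him : (z - I / 2).im = z.im - 1 / 2 := by simp
  obtain ⟨m, m', h1, h2, h3⟩ := TH.exists_split (z - I / 2) (by rw [him]; linarith)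
  rw [him] at h2 h3
  have h4 := TH.bound_lt_one h
  intro h5
  unfold th at h5
  rw [h5] at h1
  have h6 : m + m' = -1 := by linear_combination -h1
  have h7 : ‖m + m'‖ = 1 := by rw [h6]; simp
  have h8 := norm_add_le m m'
  linarith

theorem norm_th_le {z : ℂ} (h : |z.im - 1 / 2| ≤ 1 / 2) : ‖th z‖ ≤ 5 := by
  have him : (z - I / 2).im = z.im - 1 / 2 := by simp
  obtain ⟨m, m', h1, h2, h3⟩ := TH.exists_split (z - I / 2) (by rw [him]; exact h)
  rw [him] at h2 h3
  have h4 := TH.bound_le_two h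
  have h5 := TH.bound_le_two (s := -(z.im - 1 / 2)) (by rwa [abs_neg])
  unfold th
  rw [h1]
  have h6 := norm_add_le (m + 1) m'
  have h7 := norm_add_le m 1
  rw [norm_one] at h7
  linarith

theorem th_zeros_countable : {z : ℂ | th z = 0}.Countable := by
  have han : AnalyticOnNhd ℂ th Set.univ := by
    rw [analyticOnNhd_univ_iff_differentiable]
    exact th_differentiable
  have hne : th (I / 2) ≠ 0 := th_ne_zero (by norm_num)
  have h1 := han.preimage_zero_mem_codiscrete hne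
  have h2 : IsDiscrete {z : ℂ | th z = 0} := by
    have h3 : {z : ℂ | th z = 0} ∩ Set.univ = {z : ℂ | th z = 0} := Set.inter_univ _
    rw [← h3]
    apply isDiscrete_of_codiscreteWithin
    refine Filter.mem_of_superset h1 ?_
    intro z hz
    exact hz
  exact (HereditarilyLindelofSpace.isLindelof _).countable_of_isDiscrete h2

theorem volume_th_zeros : volume {z : ℂ | th z = 0} = 0 :=
  th_zeros_countable.measure_zero _

theorem rho_add_one (z : ℂ) : rho (z + 1) = rho z := by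
  unfold rho rho0
  rw [th_add_one]
  simp

theorem rho_add_I {z : ℂ} (h : th z ≠ 0) : rho (z + I) = rho z := by
  unfold rho rho0
  have h1 : ‖th z‖ ≠ 0 := norm_ne_zero_iff.2 h
  rw [th_add_I, norm_mul, Real.log_mul (by simp) h1, Complex.norm_exp, Real.log_exp]
  have h2 : (-(2 * (Real.pi : ℂ) * I * z)).re = 2 * Real.pi * z.im := by
    simp
  rw [h2]
  have := Real.pi_pos
  simp only [add_im, I_im]
  field_simp
  ring

theorem th_add_int_I {z : ℂ} (h : th z ≠ 0) (m : ℤ) : th (z + m * I) ≠ 0 := by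
  induction m using Int.induction_on with
  | zero => simpa using h
  | succ n ih =>
    push_cast at ih ⊢
    rw [show z + ((n : ℂ) + 1) * I = (z + n * I) + I by ring, th_add_I]
    exact mul_ne_zero (Complex.exp_ne_zero _) ih
  | pred n ih =>
    push_cast at ih ⊢
    have h1 := th_add_I (z + (-(n : ℂ) - 1) * I)
    rw [show z + (-(n : ℂ) - 1) * I + I = z + -(n : ℂ) * I by ring] at h1
    intro h2
    rw [h2, mul_zero] at h1
    exact ih h1

theorem rho_add_int_I {z : ℂ} (h : th z ≠ 0) (m : ℤ) : rho (z + m * I) = rho z := by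
  induction m using Int.induction_on with
  | zero => simp
  | succ n ih =>
    have h1 := th_add_int_I h n
    push_cast at ih h1 ⊢
    rw [show z + ((n : ℂ) + 1) * I = (z + n * I) + I by ring, rho_add_I h1, ih]
  | pred n ih =>
    have h1 := th_add_int_I h (-n - 1)
    push_cast at ih h1 ⊢
    have h2 := rho_add_I h1
    rw [show z + (-(n : ℂ) - 1) * I + I = z + -(n : ℂ) * I by ring] at h2
    rw [← h2, ih]

theorem rho_nonneg {z : ℂ} (h : th z ≠ 0) : 0 ≤ rho z := by
  have h1 : ∃ m : ℤ, |(z + m * I).im - 1 / 2| ≤ 1 / 2 := by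
    refine ⟨-⌊z.im⌋, ?_⟩
    have h2 := Int.floor_le z.im
    have h3 := Int.lt_floor_add_one z.im
    have h4 : (z + ((-⌊z.im⌋ : ℤ) : ℂ) * I).im = z.im - ⌊z.im⌋ := by
      simp only [add_im, mul_im, I_im, I_re, Int.cast_neg, neg_re, neg_im, intCast_re, intCast_im]
      ring
    rw [h4, abs_le]
    constructor <;> linarith
  obtain ⟨m, hm⟩ := h1
  rw [← rho_add_int_I h m]
  set w := z + m * I with hw
  have h2 := norm_th_le hm
  have h3 : th w ≠ 0 := th_add_int_I h m
  have h4 : Real.log ‖th w‖ ≤ 4 := by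
    rw [Real.log_le_iff_le_exp (norm_pos_iff.2 h3)]
    have := Real.add_one_le_exp (4 : ℝ)
    linarith
  unfold rho rho0
  have h5 : 1 / (2 * Real.pi) * Real.log ‖th w‖ ≤ 1 / (2 * Real.pi) * 4 :=
    mul_le_mul_of_nonneg_left h4 (by positivity)
  have h6 : 1 / (2 * Real.pi) * 4 ≤ 2 := by
    have := Real.pi_gt_three
    rw [one_div, inv_mul_le_iff₀ (by positivity)]
    linarith
  nlinarith [sq_nonneg (w.im - 1 / 2)]

/-- the Wirtinger derivative `∂ρ/∂z` in closed form -/
def rhoz (z : ℂ) : ℂ := ((z.im - 1 / 2 : ℝ) : ℂ) / (2 * I) - 1 / (4 * Real.pi) * (deriv th z / th z)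

theorem deriv_th_add_one (z : ℂ) : deriv th (z + 1) = deriv th z := by
  rw [← deriv_comp_add_const]
  congr 1
  funext w
  exact th_add_one w

theorem deriv_th_add_I (z : ℂ) : deriv th (z + I) =
    cexp (-(2 * Real.pi * I * z)) * (-(2 * Real.pi * I)) * th z +
      cexp (-(2 * Real.pi * I * z)) * deriv th z := by
  rw [← deriv_comp_add_const]
  have h1 : (fun w => th (w + I)) = fun w => cexp (-(2 * Real.pi * I * w)) * th w := by
    funext w
    exact th_add_I w
  rw [h1]
  have h2 : HasDerivAt (fun w : ℂ => -(2 * Real.pi * I * w)) (-(2 * Real.pi * I)) z := by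
    have h := (hasDerivAt_id z).const_mul (-(2 * (Real.pi : ℂ) * I))
    simp only [mul_one, id] at h
    have h' : (fun w : ℂ => -(2 * Real.pi * I * w)) = fun w => -(2 * Real.pi * I) * w := by
      funext w; ring
    rw [h']
    exact h
  have h3 := h2.cexp.mul (th_differentiable z).hasDerivAt
  exact h3.deriv

theorem rhoz_add_one (z : ℂ) : rhoz (z + 1) = rhoz z := by
  unfold rhoz
  rw [deriv_th_add_one, th_add_one]
  simp

theorem rhoz_add_I {z : ℂ} (h : th z ≠ 0) : rhoz (z + I) = rhoz z := by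
  unfold rhoz
  rw [deriv_th_add_I, th_add_I]
  have h1 : cexp (-(2 * Real.pi * I * z)) ≠ 0 := Complex.exp_ne_zero _
  have h2 : (Real.pi : ℂ) ≠ 0 := by exact_mod_cast Real.pi_ne_zero
  have h3 : ((cexp (-(2 * Real.pi * I * z)) * (-(2 * Real.pi * I)) * th z +
      cexp (-(2 * Real.pi * I * z)) * deriv th z) / (cexp (-(2 * Real.pi * I * z)) * th z)) =
      -(2 * Real.pi * I) + deriv th z / th z := by
    field_simp
  rw [h3]
  have h4 : (((z + I).im - 1 / 2 : ℝ) : ℂ) = ((z.im - 1 / 2 : ℝ) : ℂ) + 1 := by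
    rw [add_im, I_im]
    push_cast
    ring
  rw [h4]
  have h5 : (1 : ℂ) / (2 * I) = -(I / 2) := by
    rw [div_eq_iff (mul_ne_zero two_ne_zero I_ne_zero)]
    linear_combination Complex.I_mul_I
  have h6 : (1 : ℂ) / (4 * Real.pi) * (-(2 * Real.pi * I)) = -(I / 2) := by
    field_simp
    ring
  rw [add_div, h5, mul_add, h6]
  ring

/-- `ρ → ∞` at the zeros of `th` -/
theorem rho_large {z₀ : ℂ} (h : th z₀ = 0) (B : ℝ) : ∀ᶠ z in 𝓝 z₀, th z = 0 ∨ B < rho z := by
  have h1 : Tendsto (fun z => ‖th z‖) (𝓝 z₀) (𝓝 0) := by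
    have h2 := (th_differentiable.continuous.norm).tendsto z₀
    rwa [h, norm_zero] at h2
  have h2 : ∀ᶠ z in 𝓝 z₀, ‖th z‖ < Real.exp (-(2 * Real.pi * B)) :=
    h1.eventually (gt_mem_nhds (Real.exp_pos _))
  filter_upwards [h2] with z hz
  by_cases h3 : th z = 0
  · exact Or.inl h3
  · right
    have h4 : Real.log ‖th z‖ < -(2 * Real.pi * B) := by
      rwa [Real.log_lt_iff_lt_exp (norm_pos_iff.2 h3)]
    unfold rho rho0
    have h5 : 1 / (2 * Real.pi) * Real.log ‖th z‖ < -B := by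
      rw [one_div, inv_mul_lt_iff₀ (by positivity)]
      linarith
    nlinarith [sq_nonneg (z.im - 1 / 2)]

theorem rhoz_add_int_I {z : ℂ} (h : th z ≠ 0) (m : ℤ) : rhoz (z + m * I) = rhoz z := by
  induction m using Int.induction_on with
  | zero => simp
  | succ n ih =>
    have h1 := th_add_int_I h n
    push_cast at ih h1 ⊢
    rw [show z + ((n : ℂ) + 1) * I = (z + n * I) + I by ring, rhoz_add_I h1, ih]
  | pred n ih =>
    have h1 := th_add_int_I h (-n - 1)
    push_cast at ih h1 ⊢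
    have h2 := rhoz_add_I h1
    rw [show z + (-(n : ℂ) - 1) * I + I = z + -(n : ℂ) * I by ring] at h2
    rw [← h2, ih]

theorem per_add_int {X : Type*} {f : ℂ → X} (hf : ∀ z, f (z + 1) = f z) (z : ℂ) (m : ℤ) :
    f (z + m) = f z := by
  induction m using Int.induction_on with
  | zero => simp
  | succ n ih =>
    push_cast at ih ⊢
    rw [show z + ((n : ℂ) + 1) = (z + n) + 1 by ring, hf, ih]
  | pred n ih =>
    push_cast at ih ⊢
    have h2 := hf (z + (-(n : ℂ) - 1))
    rw [show z + (-(n : ℂ) - 1) + 1 = z + -(n : ℂ) by ring] at h2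
    rw [← h2, ih]

theorem continuousAt_rho {z : ℂ} (h : th z ≠ 0) : ContinuousAt rho z := by
  unfold rho rho0
  have h1 : ContinuousAt (fun z => Real.log ‖th z‖) z :=
    (th_differentiable.continuous.continuousAt.norm).log (norm_ne_zero_iff.2 h)
  have h2 : ContinuousAt (fun z : ℂ => (z.im - 1 / 2) ^ 2 / 2) z := by fun_prop
  exact (h2.sub (h1.const_mul _)).add continuousAt_const

theorem continuousAt_rhoz {z : ℂ} (h : th z ≠ 0) : ContinuousAt rhoz z := by
  unfold rhoz
  have h1 : Continuous (deriv th) :=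
    (th_differentiable.contDiff (n := 1)).continuous_deriv le_rfl
  have h2 : ContinuousAt (fun z => deriv th z / th z) z :=
    h1.continuousAt.div th_differentiable.continuous.continuousAt h
  have h3 : ContinuousAt (fun z : ℂ => ((z.im - 1 / 2 : ℝ) : ℂ) / (2 * I)) z := by
    have : Continuous (fun z : ℂ => ((z.im - 1 / 2 : ℝ) : ℂ)) := by fun_prop
    exact this.continuousAt.div_const _
  exact h3.sub (h2.const_mul _)

/-- bounds away from the zeros -/
theorem rho_rhoz_bound : ∃ C : ℝ, ∀ z : ℂ, (∃ m : ℤ, |z.im - 1 / 2 - m| ≤ 2 / 5) →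
    rho z ≤ C ∧ ‖rhoz z‖ ≤ C := by
  set S : Set ℂ := Set.Icc (0 : ℝ) 1 ×ℂ Set.Icc (1 / 2 - 2 / 5 : ℝ) (1 / 2 + 2 / 5) with hS
  have hSc : IsCompact S := isCompact_Icc.reProdIm isCompact_Icc
  have hSth : ∀ z ∈ S, th z ≠ 0 := by
    intro z hz
    apply th_ne_zero
    have h1 := (mem_reProdIm.1 hz).2
    rw [abs_le]
    constructor <;> linarith [h1.1, h1.2]
  obtain ⟨C1, hC1⟩ := hSc.exists_bound_of_continuousOn (f := rho)
    (fun z hz => (continuousAt_rho (hSth z hz)).continuousWithinAt)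
  obtain ⟨C2, hC2⟩ := hSc.exists_bound_of_continuousOn (f := rhoz)
    (fun z hz => (continuousAt_rhoz (hSth z hz)).continuousWithinAt)
  refine ⟨max C1 C2, fun z ⟨m, hm⟩ => ?_⟩
  set w : ℂ := z + ((-m : ℤ) : ℂ) * I + ((-⌊z.re⌋ : ℤ) : ℂ) with hw
  have hwim : w.im = z.im - m := by
    rw [hw]
    simp only [add_im, mul_im, I_im, I_re, intCast_re, intCast_im]
    push_cast
    ring
  have hwre : w.re = z.re - ⌊z.re⌋ := by
    rw [hw]
    simp only [add_re, mul_re, I_im, I_re, intCast_re, intCast_im]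
    push_cast
    ring
  have hwS : w ∈ S := by
    rw [hS, mem_reProdIm, hwre, hwim]
    have h2 := Int.floor_le z.re
    have h3 := Int.lt_floor_add_one z.re
    rw [abs_le] at hm
    refine ⟨⟨by linarith, by linarith⟩, ⟨by linarith [hm.1], by linarith [hm.2]⟩⟩
  have hthw : th w ≠ 0 := hSth w hwS
  have hth1 : th (z + ((-m : ℤ) : ℂ) * I) ≠ 0 := by
    rw [hw, per_add_int th_add_one] at hthw
    exact hthw
  have hthz : th z ≠ 0 := by
    have := th_add_int_I hth1 m
    rwa [show z + ((-m : ℤ) : ℂ) * I + (m : ℂ) * I = z by push_cast; ring] at this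
  have h1 : rho w = rho z := by
    rw [hw, per_add_int rho_add_one, rho_add_int_I hthz]
  have h2 : rhoz w = rhoz z := by
    rw [hw, per_add_int rhoz_add_one, rhoz_add_int_I hthz]
  rw [← h1, ← h2]
  exact ⟨(le_abs_self _).trans ((hC1 w hwS).trans (le_max_left _ _)),
    (hC2 w hwS).trans (le_max_right _ _)⟩

end Pool.Agent.MA87
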