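import Pool.Agent.MA87.EnergyA
import Pool.Agent.MA87.Theta

/-! # MP_87f2fd_gt, package EN, part B: calculus of `rho`, Green's identity -/

open Complex MeasureTheory Filter Topology Set
open scoped ContDiff

noncomputable section

namespace Pool.Agent.MA87.EN

/-- `v ↦ Re (a v)` -/
def reMul (a : ℂ) : ℂ →L[ℝ] ℝ := reCLM.comp (a • (1 : ℂ →L[ℝ] ℂ))

@[simp] theorem reMul_apply (a v : ℂ) : reMul a v = (a * v).re := by
  simp [reMul]

theorem hasFDerivAt_log_norm {f : ℂ → ℂ} {u : ℂ} (hf : DifferentiableAt ℂ f u) (h0 : f u ≠ 0) :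
    HasFDerivAt (fun z => Real.log ‖f z‖) (reMul (deriv f u / f u)) u := by
  set c : ℂ := (f u)⁻¹ with hc
  have hc0 : c ≠ 0 := inv_ne_zero h0
  have h1 : HasDerivAt (fun z => Complex.log (f z * c)) (deriv f u / f u) u := by
    have h2 : HasDerivAt (fun z => f z * c) (deriv f u * c) u := hf.hasDerivAt.mul_const c
    have h3 : f u * c = 1 := mul_inv_cancel₀ h0
    have h4 := h2.clog (by rw [h3]; exact one_mem_slitPlane)
    rw [h3, div_one] at h4
    rw [div_eq_mul_inv]
    exact h4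
  have h5 : HasFDerivAt (fun z => (Complex.log (f z * c)).re) (reMul (deriv f u / f u)) u := by
    have h6 : HasFDerivAt (fun z => Complex.log (f z * c))
        ((deriv f u / f u) • (1 : ℂ →L[ℝ] ℂ)) u := by
      refine (h1.hasFDerivAt.restrictScalars ℝ).congr_fderiv ?_
      ext v
      simp [mul_comm]
    exact reCLM.hasFDerivAt.comp u h6
  have h7 : (fun z => Real.log ‖f z‖) =ᶠ[𝓝 u]
      fun z => (Complex.log (f z * c)).re + (-Real.log ‖c‖) := by
    filter_upwards [hf.continuousAt.eventually_ne h0] with z hz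
    rw [Complex.log_re, norm_mul, Real.log_mul (norm_ne_zero_iff.2 hz) (norm_ne_zero_iff.2 hc0)]
    ring
  exact (h5.add_const _).congr_of_eventuallyEq h7

theorem th_differentiableAt (u : ℂ) : DifferentiableAt ℂ th u := th_differentiable u

theorem hasFDerivAt_im (u : ℂ) : HasFDerivAt (fun z : ℂ => z.im) imCLM u := imCLM.hasFDerivAt

theorem rhoz_mul_re (u v : ℂ) : (rhoz u * v).re =
    (u.im - 1 / 2) / 2 * v.im - 1 / (4 * Real.pi) * ((deriv th u / th u) * v).re := by
  unfold rhoz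
  have h1 : (((u.im - 1 / 2 : ℝ) : ℂ) / (2 * I)) = ((-((u.im - 1 / 2) / 2) : ℝ) : ℂ) * I := by
    push_cast
    field_simp
    ring_nf
    simp
    ring
  have h2 : (1 / (4 * (Real.pi : ℂ))) = ((1 / (4 * Real.pi) : ℝ) : ℂ) := by push_cast; ring
  rw [h1, h2, sub_mul, sub_re, mul_assoc, mul_assoc, re_ofReal_mul, re_ofReal_mul]
  have h3 : (I * v).re = -v.im := by simp
  rw [h3]
  ring

theorem hasFDerivAt_rho {u : ℂ} (h : th u ≠ 0) :
    HasFDerivAt rho ((2 : ℝ) • reMul (rhoz u)) u := by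
  have h1 := hasFDerivAt_log_norm (th_differentiableAt u) h
  have h2 : HasFDerivAt (fun z : ℂ => (z.im - 1 / 2) ^ 2 / 2) ((u.im - 1 / 2) • imCLM) u := by
    have h3 : HasFDerivAt (fun z : ℂ => z.im - 1 / 2) imCLM u := (hasFDerivAt_im u).sub_const _
    have h4 := ((h3.pow 2).mul_const (1 / 2 : ℝ))
    have h5 : (fun z : ℂ => (z.im - 1 / 2) ^ 2 / 2) = fun z : ℂ => (z.im - 1 / 2) ^ 2 * (1 / 2) := by
      funext z; ring
    rw [h5]
    refine h4.congr_fderiv ?_
    ext v
    simp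
    ring
  have h6 : HasFDerivAt rho ((u.im - 1 / 2) • imCLM -
      (1 / (2 * Real.pi)) • reMul (deriv th u / th u)) u := by
    have := (h2.sub (h1.const_mul (1 / (2 * Real.pi)))).add_const 2
    exact this
  refine h6.congr_fderiv ?_
  ext v
  simp only [_root_.sub_apply, _root_.smul_apply, reMul_apply,
    smul_eq_mul, imCLM_apply, rhoz_mul_re u v]
  field_simp
  ring


/-- logarithmic derivative of `th` -/
def lth (z : ℂ) : ℂ := deriv th z / th z

theorem lth_differentiableAt {u : ℂ} (h : th u ≠ 0) : DifferentiableAt ℂ lth u := by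
  have h1 : Differentiable ℂ (deriv th) := by
    have h2 : ContDiff ℂ ∞ th := th_differentiable.contDiff
    exact ((contDiff_infty_iff_deriv.1 h2).2).differentiable (by simp)
  exact (h1 u).div (th_differentiable u) h

/-- the real derivative of `rhoz` -/
def rhozD (u : ℂ) : ℂ →L[ℝ] ℂ :=
  (1 / (2 * I)) • (ofRealCLM.comp imCLM) -
    (1 / (4 * (Real.pi : ℂ)) * deriv lth u) • (1 : ℂ →L[ℝ] ℂ)

theorem hasFDerivAt_rhoz {u : ℂ} (h : th u ≠ 0) : HasFDerivAt rhoz (rhozD u) u := by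
  have h1 : HasFDerivAt (fun z : ℂ => ((z.im - 1 / 2 : ℝ) : ℂ) / (2 * I))
      ((1 / (2 * I)) • (ofRealCLM.comp imCLM)) u := by
    have h2 : HasFDerivAt (fun z : ℂ => (z.im - 1 / 2 : ℝ)) imCLM u :=
      (hasFDerivAt_im u).sub_const _
    have h3 : HasFDerivAt (fun z : ℂ => ((z.im - 1 / 2 : ℝ) : ℂ)) (ofRealCLM.comp imCLM) u :=
      ofRealCLM.hasFDerivAt.comp u h2
    have h4 : (fun z : ℂ => ((z.im - 1 / 2 : ℝ) : ℂ) / (2 * I)) =
        fun z : ℂ => (1 / (2 * I)) * ((z.im - 1 / 2 : ℝ) : ℂ) := by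
      funext z; rw [div_eq_mul_one_div, mul_comm]
    rw [h4]
    exact h3.const_mul (1 / (2 * I))
  have h5 : HasFDerivAt (fun z : ℂ => 1 / (4 * (Real.pi : ℂ)) * lth z)
      ((1 / (4 * (Real.pi : ℂ)) * deriv lth u) • (1 : ℂ →L[ℝ] ℂ)) u := by
    have h6 := ((lth_differentiableAt h).hasDerivAt.const_mul (1 / (4 * (Real.pi : ℂ))))
    refine (h6.hasFDerivAt.restrictScalars ℝ).congr_fderiv ?_
    ext v
    simp [mul_comm]
  exact h1.sub h5

theorem rhozD_key (u : ℂ) : I * rhozD u 1 - rhozD u I = I / 2 := by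
  simp only [rhozD, _root_.sub_apply, _root_.smul_apply, ContinuousLinearMap.comp_apply,
    imCLM_apply, ofRealCLM_apply, smul_eq_mul, one_apply_eq_self, one_im, I_im,
    ofReal_zero, ofReal_one]
  field_simp
  ring_nf
  simp

theorem rho_continuousAt {u : ℂ} (h : th u ≠ 0) : ContinuousAt rho u :=
  (hasFDerivAt_rho h).continuousAt

theorem rhoz_continuousAt {u : ℂ} (h : th u ≠ 0) : ContinuousAt rhoz u :=
  (hasFDerivAt_rhoz h).continuousAt

theorem th_eventually_ne {u : ℂ} (h : th u ≠ 0) : ∀ᶠ z in 𝓝 u, th z ≠ 0 :=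
  (th_differentiable u).continuousAt.eventually_ne h

open Classical in
/-- extension by zero at the zeros of `th` -/
def ext0 {E : Type*} [Zero E] (g : ℂ → E) (u : ℂ) : E := if th u = 0 then 0 else g u

theorem ext0_of_ne {E : Type*} [Zero E] {g : ℂ → E} {u : ℂ} (h : th u ≠ 0) : ext0 g u = g u :=
  if_neg h

theorem ext0_of_eq {E : Type*} [Zero E] {g : ℂ → E} {u : ℂ} (h : th u = 0) : ext0 g u = 0 :=
  if_pos h

theorem ext0_eventually {E : Type*} [Zero E] {g : ℂ → E} {u : ℂ} (h : th u ≠ 0) :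
    ext0 g =ᶠ[𝓝 u] g := by
  filter_upwards [th_eventually_ne h] with z hz
  exact ext0_of_ne hz

theorem ext0_eventually_zero {E : Type*} [Zero E] {g : ℂ → E} {u : ℂ}
    (hg : ∀ᶠ z in 𝓝 u, th z = 0 ∨ g z = 0) : ext0 g =ᶠ[𝓝 u] fun _ => 0 := by
  filter_upwards [hg] with z hz
  by_cases h : th z = 0
  · exact ext0_of_eq h
  · rw [ext0_of_ne h]
    exact hz.resolve_left h

theorem ext0_continuous {E : Type*} [Zero E] [TopologicalSpace E] {g : ℂ → E}
    (h1 : ∀ u, th u ≠ 0 → ContinuousAt g u)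
    (h2 : ∀ u, th u = 0 → ∀ᶠ z in 𝓝 u, th z = 0 ∨ g z = 0) : Continuous (ext0 g) := by
  rw [continuous_iff_continuousAt]
  intro u
  by_cases h : th u = 0
  · exact (continuousAt_const).congr (ext0_eventually_zero (h2 u h)).symm
  · exact (h1 u h).congr (ext0_eventually h).symm

theorem ext0_periodic {E : Type*} [Zero E] {g : ℂ → E} (h1 : ∀ u, th u ≠ 0 → g (u + 1) = g u)
    (hI : ∀ u, th u ≠ 0 → g (u + I) = g u) :
    (∀ u, ext0 g (u + 1) = ext0 g u) ∧ (∀ u, ext0 g (u + I) = ext0 g u) := by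
  constructor
  · intro u
    by_cases h : th u = 0
    · rw [ext0_of_eq h, ext0_of_eq (by rw [th_add_one, h])]
    · rw [ext0_of_ne h, ext0_of_ne (by rwa [th_add_one]), h1 u h]
  · intro u
    by_cases h : th u = 0
    · rw [ext0_of_eq h, ext0_of_eq (by rw [th_add_I, h, mul_zero])]
    · rw [ext0_of_ne h, ext0_of_ne (by rw [th_add_I]; exact mul_ne_zero (exp_ne_zero _) h), hI u h]

/-! ### integrals over `Q` -/

theorem setIntegral_Q {H : ℂ → ℝ} (hH : Continuous H) :
    ∫ w in Q, H w = ∫ x in (0 : ℝ)..1, ∫ y in (0 : ℝ)..1, H (x + y * I) := by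
  have h1 : ∫ w in Q, H w =
      ∫ p in (Ico (0 : ℝ) 1 ×ˢ Ico (0 : ℝ) 1), H (Complex.measurableEquivRealProd.symm p) := by
    have h2 := (Complex.volume_preserving_equiv_real_prod.symm
      Complex.measurableEquivRealProd).setIntegral_preimage_emb
      Complex.measurableEquivRealProd.symm.measurableEmbedding H Q
    rw [← h2]
    congr 2
    ext p
    simp [Q, Complex.measurableEquivRealProd_symm_apply, and_assoc]
  rw [h1, Measure.volume_eq_prod, setIntegral_prod]
  · rw [integral_Ico_eq_integral_Ioo, ← integral_Ioc_eq_integral_Ioo,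
      intervalIntegral.integral_of_le zero_le_one]
    apply setIntegral_congr_fun measurableSet_Ioc
    intro x _
    simp only
    rw [integral_Ico_eq_integral_Ioo, ← integral_Ioc_eq_integral_Ioo,
      intervalIntegral.integral_of_le zero_le_one]
    apply setIntegral_congr_fun measurableSet_Ioc
    intro y _
    simp only [Complex.measurableEquivRealProd_symm_apply]
    congr 1
    exact Complex.mk_eq_add_mul_I x y
  · have hc : Continuous fun p : ℝ × ℝ => H (Complex.measurableEquivRealProd.symm p) := by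
      have : (fun p : ℝ × ℝ => H (Complex.measurableEquivRealProd.symm p)) =
          fun p : ℝ × ℝ => H (Complex.equivRealProdCLM.symm p) := rfl
      rw [this]
      exact hH.comp (ContinuousLinearEquiv.continuous _)
    apply IntegrableOn.mono_set (t := Icc (0 : ℝ) 1 ×ˢ Icc (0 : ℝ) 1)
    · exact hc.continuousOn.integrableOn_compact (isCompact_Icc.prod isCompact_Icc)
    · exact prod_mono Ico_subset_Icc_self Ico_subset_Icc_self

/-! ### Green's identity -/

section green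

variable {K K' : ℝ → ℝ} {B : ℝ}

theorem K_rho_continuousAt (hK : ∀ t, 0 ≤ t → HasDerivAt K (K' t) t) {u : ℂ} (h : th u ≠ 0) :
    ContinuousAt (fun u => K (rho u)) u :=
  (hK _ (rho_nonneg h)).continuousAt.comp (rho_continuousAt h)

theorem far_eventually {P : ℝ → Prop} (hB : ∀ t, B < t → P t) {u : ℂ} (h : th u = 0) :
    ∀ᶠ z in 𝓝 u, th z = 0 ∨ P (rho z) := by
  filter_upwards [rho_large h B] with z hz
  rcases hz with hz | hz
  · exact Or.inl hz
  · exact Or.inr (hB _ hz)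

theorem green_K_continuous (hK : ∀ t, 0 ≤ t → HasDerivAt K (K' t) t)
    (hB : ∀ t, B < t → K t = 0) : Continuous (ext0 fun u => K (rho u)) :=
  ext0_continuous (fun _ h => K_rho_continuousAt hK h) (fun _ h => far_eventually hB h)

theorem green_K'_continuous (hK' : ∀ t, 0 ≤ t → ContinuousAt K' t)
    (hB' : ∀ t, B < t → K' t = 0) :
    Continuous (ext0 fun u => -(4 * K' (rho u)) * ‖rhoz u‖ ^ 2) := by
  apply ext0_continuous
  · intro u h
    have h1 : ContinuousAt (fun u => K' (rho u)) u :=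
      (hK' _ (rho_nonneg h)).comp (rho_continuousAt h)
    exact ((h1.const_mul 4).neg).mul ((rhoz_continuousAt h).norm.pow 2)
  · intro u h
    filter_upwards [far_eventually hB' h] with z hz
    rcases hz with hz | hz
    · exact Or.inl hz
    · right; rw [hz]; simp

/-- the field `K(ρ) ∂ρ` -/
def fieldV (K : ℝ → ℝ) (u : ℂ) : ℂ := (K (rho u) : ℂ) * rhoz u

/-- its real derivative -/
def fieldV' (K K' : ℝ → ℝ) (u : ℂ) : ℂ →L[ℝ] ℂ :=
  (K (rho u) : ℂ) • rhozD u + rhoz u • (ofRealCLM.comp (K' (rho u) • ((2 : ℝ) • reMul (rhoz u))))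

theorem hasFDerivAt_fieldV (hK : ∀ t, 0 ≤ t → HasDerivAt K (K' t) t) {u : ℂ} (h : th u ≠ 0) :
    HasFDerivAt (fieldV K) (fieldV' K K' u) u := by
  have h1 : HasFDerivAt (fun u => K (rho u)) (K' (rho u) • ((2 : ℝ) • reMul (rhoz u))) u :=
    (hK _ (rho_nonneg h)).comp_hasFDerivAt u (hasFDerivAt_rho h)
  have h2 : HasFDerivAt (fun u => (K (rho u) : ℂ))
      (ofRealCLM.comp (K' (rho u) • ((2 : ℝ) • reMul (rhoz u)))) u :=
    ofRealCLM.hasFDerivAt.comp u h1
  exact h2.mul (hasFDerivAt_rhoz h)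

theorem fieldV'_key (u : ℂ) : I • fieldV' K K' u 1 - fieldV' K K' u I =
    ((1 / 2 * (K (rho u) + 4 * K' (rho u) * ‖rhoz u‖ ^ 2) : ℝ) : ℂ) * I := by
  have h1 := rhozD_key u
  set r := rhoz u with hr
  have e1 : fieldV' K K' u 1 = (K (rho u) : ℂ) * rhozD u 1 + r * ((K' (rho u) * (2 * r.re) : ℝ) : ℂ) := by
    simp [fieldV', ← hr]
  have e2 : fieldV' K K' u I = (K (rho u) : ℂ) * rhozD u I +
      r * ((K' (rho u) * (2 * (-r.im)) : ℝ) : ℂ) := by
    simp [fieldV', ← hr]
  rw [e1, e2, smul_eq_mul]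
  have h3 : I * ((K (rho u) : ℂ) * rhozD u 1 + r * ((K' (rho u) * (2 * r.re) : ℝ) : ℂ)) -
      ((K (rho u) : ℂ) * rhozD u I + r * ((K' (rho u) * (2 * (-r.im)) : ℝ) : ℂ)) =
      (K (rho u) : ℂ) * (I * rhozD u 1 - rhozD u I) +
        ((2 * K' (rho u) : ℝ) : ℂ) * r * (I * (r.re : ℂ) + (r.im : ℂ)) := by
    push_cast; ring
  rw [h3, h1]
  have h4 : I * (r.re : ℂ) + (r.im : ℂ) = I * (starRingEnd ℂ) r := by
    apply Complex.ext <;> simp
  have h5 : r * (starRingEnd ℂ) r = ((‖r‖ ^ 2 : ℝ) : ℂ) := by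
    rw [Complex.mul_conj, Complex.normSq_eq_norm_sq]
  calc (K (rho u) : ℂ) * (I / 2) + ((2 * K' (rho u) : ℝ) : ℂ) * r * (I * (r.re : ℂ) + (r.im : ℂ))
      = (K (rho u) : ℂ) * (I / 2) + ((2 * K' (rho u) : ℝ) : ℂ) * (r * (starRingEnd ℂ) r) * I := by
        rw [h4]; ring
    _ = _ := by rw [h5]; push_cast; ring

theorem fieldV_far (hB : ∀ t, B < t → K t = 0) {u : ℂ} (h : th u = 0) :
    ∀ᶠ z in 𝓝 u, th z = 0 ∨ fieldV K z = 0 := by
  filter_upwards [far_eventually hB h] with z hz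
  rcases hz with hz | hz
  · exact Or.inl hz
  · right; unfold fieldV; rw [hz]; simp

theorem hasFDerivAt_ext0_fieldV (hK : ∀ t, 0 ≤ t → HasDerivAt K (K' t) t)
    (hB : ∀ t, B < t → K t = 0) (u : ℂ) :
    HasFDerivAt (ext0 (fieldV K)) (ext0 (fieldV' K K') u) u := by
  by_cases h : th u = 0
  · rw [ext0_of_eq h]
    exact (hasFDerivAt_const (0 : ℂ) u).congr_of_eventuallyEq (ext0_eventually_zero (fieldV_far hB h))
  · rw [ext0_of_ne h]
    exact (hasFDerivAt_fieldV hK h).congr_of_eventuallyEq (ext0_eventually h)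

theorem fieldV_periodic : (∀ u, ext0 (fieldV K) (u + 1) = ext0 (fieldV K) u) ∧
    (∀ u, ext0 (fieldV K) (u + I) = ext0 (fieldV K) u) := by
  apply ext0_periodic
  · intro u _
    unfold fieldV; rw [rho_add_one, rhoz_add_one]
  · intro u h
    unfold fieldV; rw [rho_add_I h, rhoz_add_I h]

theorem green (hK : ∀ t, 0 ≤ t → HasDerivAt K (K' t) t) (hK' : ∀ t, 0 ≤ t → ContinuousAt K' t)
    (hB : ∀ t, B < t → K t = 0) (hB' : ∀ t, B < t → K' t = 0) (u0 : ℂ) :
    ∫ w in Q, ext0 (fun u => -(4 * K' (rho u)) * ‖rhoz u‖ ^ 2) (w + u0) =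
      ∫ w in Q, ext0 (fun u => K (rho u)) (w + u0) := by
  set G1 := ext0 (fun u => -(4 * K' (rho u)) * ‖rhoz u‖ ^ 2) with hG1
  set G2 := ext0 (fun u => K (rho u)) with hG2
  have c1 : Continuous G1 := green_K'_continuous hK' hB'
  have c2 : Continuous G2 := green_K_continuous hK hB
  have hkey : ∀ z, I • ext0 (fieldV' K K') z 1 - ext0 (fieldV' K K') z I =
      ((1 / 2 * (G2 z - G1 z) : ℝ) : ℂ) * I := by
    intro z
    by_cases h : th z = 0
    · rw [ext0_of_eq h, hG1, hG2]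
      simp only [ext0_of_eq h]
      simp
    · rw [ext0_of_ne h, fieldV'_key, hG1, hG2]
      simp only [ext0_of_ne h]
      congr 2
      ring
  have hper := fieldV_periodic (K := K)
  have hrect := Complex.integral_boundary_rect_of_hasFDerivAt_real_off_countable
    (ext0 (fieldV K)) (ext0 (fieldV' K K')) u0 (u0 + 1 + I) ∅ countable_empty
    (fun z _ => (hasFDerivAt_ext0_fieldV hK hB z).continuousAt.continuousWithinAt)
    (fun z _ => hasFDerivAt_ext0_fieldV hK hB z)
    (by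
      have : (fun z => I • ext0 (fieldV' K K') z 1 - ext0 (fieldV' K K') z I) =
          fun z => ((1 / 2 * (G2 z - G1 z) : ℝ) : ℂ) * I := funext hkey
      rw [this]
      apply ContinuousOn.integrableOn_compact
      · exact isCompact_uIcc.reProdIm isCompact_uIcc
      · fun_prop)
  have b1 : ∫ x : ℝ in u0.re..(u0 + 1 + I).re, ext0 (fieldV K) (x + (u0 + 1 + I).im * I) =
      ∫ x : ℝ in u0.re..(u0 + 1 + I).re, ext0 (fieldV K) (x + u0.im * I) := by
    apply intervalIntegral.integral_congr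
    intro x _
    simp only
    rw [← hper.2 (x + u0.im * I)]
    congr 1
    simp
    ring
  have b2 : ∫ y : ℝ in u0.im..(u0 + 1 + I).im, ext0 (fieldV K) ((u0 + 1 + I).re + y * I) =
      ∫ y : ℝ in u0.im..(u0 + 1 + I).im, ext0 (fieldV K) (u0.re + y * I) := by
    apply intervalIntegral.integral_congr
    intro x _
    simp only
    rw [← hper.1 (u0.re + x * I)]
    congr 1
    simp
    ring
  rw [b1, b2] at hrect
  have hzero : ∫ x : ℝ in u0.re..(u0 + 1 + I).re, ∫ y : ℝ in u0.im..(u0 + 1 + I).im,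
      (((1 / 2 * (G2 (x + y * I) - G1 (x + y * I)) : ℝ) : ℂ) * I) = 0 := by
    have : ∀ x y : ℝ, I • ext0 (fieldV' K K') (x + y * I) 1 - ext0 (fieldV' K K') (x + y * I) I =
      ((1 / 2 * (G2 (x + y * I) - G1 (x + y * I)) : ℝ) : ℂ) * I := fun x y => hkey _
    simp only [this] at hrect
    rw [← hrect]
    ring
  have hre : (u0 + 1 + I).re = u0.re + 1 := by simp
  have him : (u0 + 1 + I).im = u0.im + 1 := by simp
  rw [hre, him] at hzero
  have hreal : ∫ x : ℝ in u0.re..(u0.re + 1), ∫ y : ℝ in u0.im..(u0.im + 1),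
      (G2 (x + y * I) - G1 (x + y * I)) = 0 := by
    have h1 : ∀ x : ℝ, ∫ y : ℝ in u0.im..(u0.im + 1),
        (((1 / 2 * (G2 (x + y * I) - G1 (x + y * I)) : ℝ) : ℂ) * I) =
        (((1 / 2 * ∫ y : ℝ in u0.im..(u0.im + 1), (G2 (x + y * I) - G1 (x + y * I)) : ℝ)) : ℂ) * I := by
      intro x
      rw [intervalIntegral.integral_mul_const, intervalIntegral.integral_ofReal,
        intervalIntegral.integral_const_mul]
    simp only [h1] at hzero
    rw [intervalIntegral.integral_mul_const, intervalIntegral.integral_ofReal,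
        intervalIntegral.integral_const_mul] at hzero
    have h2 := (mul_eq_zero.1 hzero).resolve_right I_ne_zero
    have h3 := Complex.ofReal_eq_zero.1 h2
    exact (mul_eq_zero.1 h3).resolve_left (by norm_num)
  -- back to `Q`
  have hshift : ∫ w in Q, (G2 (w + u0) - G1 (w + u0)) = 0 := by
    rw [setIntegral_Q (H := fun w => G2 (w + u0) - G1 (w + u0)) (by fun_prop)]
    refine Eq.trans ?_ hreal
    have h1 : ∫ x : ℝ in u0.re..(u0.re + 1), ∫ y : ℝ in u0.im..(u0.im + 1),
        (G2 (x + y * I) - G1 (x + y * I)) =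
        ∫ x : ℝ in (0 : ℝ)..1, ∫ y : ℝ in u0.im..(u0.im + 1),
        (G2 ((x + u0.re : ℝ) + y * I) - G1 ((x + u0.re : ℝ) + y * I)) := by
      rw [intervalIntegral.integral_comp_add_right
        (fun x : ℝ => ∫ y : ℝ in u0.im..(u0.im + 1), (G2 (x + y * I) - G1 (x + y * I))) u0.re]
      rw [zero_add, add_comm 1]
    rw [h1]
    apply intervalIntegral.integral_congr
    intro x _
    simp only
    have h2 : ∫ y : ℝ in u0.im..(u0.im + 1),
        (G2 ((x + u0.re : ℝ) + y * I) - G1 ((x + u0.re : ℝ) + y * I)) =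
        ∫ y : ℝ in (0 : ℝ)..1,
        (G2 ((x + u0.re : ℝ) + (y + u0.im : ℝ) * I) - G1 ((x + u0.re : ℝ) + (y + u0.im : ℝ) * I)) := by
      rw [intervalIntegral.integral_comp_add_right
        (fun y : ℝ => (G2 ((x + u0.re : ℝ) + y * I) - G1 ((x + u0.re : ℝ) + y * I))) u0.im]
      rw [zero_add, add_comm 1]
    rw [h2]
    apply intervalIntegral.integral_congr
    intro y _
    simp only
    have h3 : (x : ℂ) + y * I + u0 = ((x + u0.re : ℝ) : ℂ) + ((y + u0.im : ℝ) : ℂ) * I := by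
      apply Complex.ext <;> simp
    rw [h3]
  have hint : ∀ {H : ℂ → ℝ}, Continuous H → IntegrableOn (fun w => H (w + u0)) Q := by
    intro H hH
    have hc : Continuous fun w => H (w + u0) := by fun_prop
    apply IntegrableOn.mono_set (t := Icc (0 : ℝ) 1 ×ℂ Icc (0 : ℝ) 1)
    · exact hc.continuousOn.integrableOn_compact (isCompact_Icc.reProdIm isCompact_Icc)
    · intro w hw
      exact ⟨⟨hw.1, hw.2.1.le⟩, ⟨hw.2.2.1, hw.2.2.2.le⟩⟩
  rw [integral_sub (hint c2) (hint c1)] at hshift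
  linarith

end green

end Pool.Agent.MA87.EN
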