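import Pool.Agent.MA87.EnergyB

/-! # MP_87f2fd_gt, package EN, part C: the slice function and its pointwise lower bound -/

open Complex MeasureTheory Filter Topology Set
open scoped ContDiff

noncomputable section

namespace Pool.Agent.MA87.EN

open Classical in
/-- the restriction of `phi` to a line `w ↦ (x, y, w)` as a function of `u = U` -/
def Ff (k c κ M r1 r2 : ℝ) (u : ℂ) : ℝ :=
  if th u = 0 then Phi k M (2 * M) else Phi k M (Nf k c κ r1 r2 (rho u) u.im)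

/-- coefficient of `2 Re (rhoz v)` -/
def alpha (k c κ M r1 r2 : ℝ) (u : ℂ) : ℝ :=
  -(1 / k) * (psi M (Nf k c κ r1 r2 (rho u) u.im) / Nf k c κ r1 r2 (rho u) u.im) *
    (k ^ 2 * κ * ((1 / (1 + 8 * k ^ 3 * rho u)) * Ef k (r1 - r2 - ff u.im)))

/-- coefficient of `Im v` -/
def beta (k c κ M r1 r2 : ℝ) (u : ℂ) : ℝ :=
  -(1 / k) * (psi M (Nf k c κ r1 r2 (rho u) u.im) / Nf k c κ r1 r2 (rho u) u.im) *
    (k ^ 2 * κ * (Gf k (rho u) *
      (-k * Real.tanh (r1 - r2 - ff u.im) * Ef k (r1 - r2 - ff u.im) *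
        (-deriv gg (u.im - round u.im)))))

variable {k c κ M r1 r2 : ℝ}

theorem Nf_ge (hk : 0 < k) (hκ : 0 < κ) (hc0 : 0 < c) (hc : c < 1) (h1 : 0 ≤ r1) (h2 : 0 ≤ r2)
    {T : ℝ} (hT : 0 ≤ T) (b : ℝ) : Af k c r1 r2 ≤ Nf k c κ r1 r2 T b := by
  rw [Nf_eq]
  have h3 := Gf_nonneg hk hT
  have h4 := (Ef_pos k (r1 - r2 - ff b)).le
  have : 0 ≤ k ^ 2 * κ * Gf k T * Ef k (r1 - r2 - ff b) := by positivity
  linarith

theorem Nf_le (hk : 0 < k) (hκ : 0 < κ) {T : ℝ} (hT : 0 ≤ T) (b : ℝ) :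
    Nf k c κ r1 r2 T b ≤ Af k c r1 r2 + k ^ 2 * κ * T := by
  rw [Nf_eq]
  have h3 := Gf_nonneg hk hT
  have h4 := (Ef_pos k (r1 - r2 - ff b)).le
  have h5 := Ef_le_one hk.le (r1 - r2 - ff b)
  have h6 := Gf_le hk hT
  have h7 : k ^ 2 * κ * Gf k T * Ef k (r1 - r2 - ff b) ≤ k ^ 2 * κ * T * 1 := by
    apply mul_le_mul _ h5 h4 (by positivity)
    exact mul_le_mul_of_nonneg_left h6 (by positivity)
  linarith

theorem Nf_pos (hk : 0 < k) (hκ : 0 < κ) (hc0 : 0 < c) (hc : c < 1) (h1 : 0 ≤ r1) (h2 : 0 ≤ r2)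
    {T : ℝ} (hT : 0 ≤ T) (b : ℝ) : 1 < Nf k c κ r1 r2 T b := by
  have := Nf_ge hk hκ hc0 hc h1 h2 hT b
  have := Af_ge hk hc0 hc h1 h2
  linarith

theorem hasFDerivAt_Ff (hk : 0 < k) (hκ : 0 < κ) (hc0 : 0 < c) (hc : c < 1) (h1 : 0 ≤ r1)
    (h2 : 0 ≤ r2) {u : ℂ} (h : th u ≠ 0) :
    HasFDerivAt (Ff k c κ M r1 r2)
      (alpha k c κ M r1 r2 u • ((2 : ℝ) • reMul (rhoz u)) + beta k c κ M r1 r2 u • imCLM) u := by
  have hT := rho_nonneg h
  have hN := Nf_pos hk hκ hc0 hc h1 h2 hT u.im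
  have hG : HasFDerivAt (fun z => Gf k (rho z))
      ((1 / (1 + 8 * k ^ 3 * rho u)) • ((2 : ℝ) • reMul (rhoz u))) u :=
    (hasDerivAt_Gf hk hT).comp_hasFDerivAt u (hasFDerivAt_rho h)
  have hf : HasFDerivAt (fun z : ℂ => ff z.im) (deriv gg (u.im - round u.im) • imCLM) u :=
    (hasDerivAt_ff u.im).comp_hasFDerivAt u (hasFDerivAt_im u)
  have hη : HasFDerivAt (fun z : ℂ => r1 - r2 - ff z.im)
      (-(deriv gg (u.im - round u.im) • imCLM)) u := hf.const_sub (r1 - r2)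
  have hE : HasFDerivAt (fun z : ℂ => Ef k (r1 - r2 - ff z.im))
      ((-k * Real.tanh (r1 - r2 - ff u.im) * Ef k (r1 - r2 - ff u.im)) •
        (-(deriv gg (u.im - round u.im) • imCLM))) u :=
    HasDerivAt.comp_hasFDerivAt (h₂ := Ef k) (f := fun z : ℂ => r1 - r2 - ff z.im) u
      (hasDerivAt_Ef k (r1 - r2 - ff u.im)) hη
  have hGE := (hG.mul hE).const_mul (k ^ 2 * κ)
  have hNd : HasFDerivAt (fun z : ℂ => Nf k c κ r1 r2 (rho z) z.im) ((k ^ 2 * κ) •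
      (Gf k (rho u) • ((-k * Real.tanh (r1 - r2 - ff u.im) * Ef k (r1 - r2 - ff u.im)) •
        (-(deriv gg (u.im - round u.im) • imCLM))) +
      Ef k (r1 - r2 - ff u.im) • ((1 / (1 + 8 * k ^ 3 * rho u)) • ((2 : ℝ) • reMul (rhoz u))))) u := by
    have h3 : (fun z : ℂ => Nf k c κ r1 r2 (rho z) z.im) =
        fun z : ℂ => Af k c r1 r2 + k ^ 2 * κ * (Gf k (rho z) * Ef k (r1 - r2 - ff z.im)) := by
      funext z; rw [Nf_eq]; ring
    rw [h3]
    exact hGE.const_add _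
  have hP := (hasDerivAt_Phi (k := k) (M := M)
    (lt_trans one_pos hN)).comp_hasFDerivAt u hNd
  have hev : Ff k c κ M r1 r2 =ᶠ[𝓝 u] fun z => Phi k M (Nf k c κ r1 r2 (rho z) z.im) := by
    filter_upwards [th_eventually_ne h] with z hz
    unfold Ff
    rw [if_neg hz]
  refine (hP.congr_of_eventuallyEq hev).congr_fderiv ?_
  ext v
  simp only [_root_.smul_apply, _root_.add_apply, _root_.neg_apply, smul_eq_mul, reMul_apply,
    imCLM_apply, alpha, beta]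
  ring

/-- the function `h_k` -/
def hh (k c κ M r1 r2 t : ℝ) : ℝ :=
  (k * κ * (psi M (Af k c r1 r2 + k ^ 2 * κ * t) / (Af k c r1 r2 + k ^ 2 * κ * t))) ^ 2

/-- the constant `c_k` -/
def ck (k κ M r1 r2 : ℝ) : ℝ :=
  (Real.exp (-k * (|r1 - r2| + 1)) * (1 / (1 + 16 * k * M / κ))) ^ 2

theorem alpha_sq_ge (hk : 0 < k) (hκ : 0 < κ) (hc0 : 0 < c) (hc : c < 1) (hM : 1 ≤ M)
    (h1 : 0 ≤ r1) (h2 : 0 ≤ r2) {u : ℂ} (h : th u ≠ 0) :
    ck k κ M r1 r2 * hh k c κ M r1 r2 (rho u) ≤ alpha k c κ M r1 r2 u ^ 2 := by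
  have hT := rho_nonneg h
  set T := rho u with hTdef
  set A := Af k c r1 r2 with hA
  have hA1 : 1 < A := by have := Af_ge hk hc0 hc h1 h2; linarith
  set N := Nf k c κ r1 r2 T u.im with hN
  have hNpos : 1 < N := Nf_pos hk hκ hc0 hc h1 h2 hT u.im
  have hN0 : N ≤ A + k ^ 2 * κ * T := Nf_le hk hκ hT u.im
  have hψ0 := psi_nonneg M (A + k ^ 2 * κ * T)
  have hψ : psi M (A + k ^ 2 * κ * T) ≤ psi M N := psi_antitone (by linarith) hN0
  have hq : psi M (A + k ^ 2 * κ * T) / (A + k ^ 2 * κ * T) ≤ psi M N / N := by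
    apply div_le_div₀ (psi_nonneg M N) hψ (by linarith) hN0
  have hq0 : 0 ≤ psi M (A + k ^ 2 * κ * T) / (A + k ^ 2 * κ * T) := by
    apply div_nonneg hψ0
    have : 0 ≤ k ^ 2 * κ * T := by positivity
    linarith
  have hE : Real.exp (-k * (|r1 - r2| + 1)) ≤ Ef k (r1 - r2 - ff u.im) := by
    apply Ef_ge hk.le
    have := abs_ff_le u.im
    have := abs_sub (r1 - r2) (ff u.im)
    linarith
  have e1 : alpha k c κ M r1 r2 u = -((k * κ * (psi M N / N)) *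
      (Ef k (r1 - r2 - ff u.im) * (1 / (1 + 8 * k ^ 3 * T)))) := by
    unfold alpha
    rw [← hTdef, ← hN]
    field_simp
  rw [e1, neg_sq]
  unfold ck hh
  rw [← hA, ← mul_pow, mul_comm (Real.exp (-k * (|r1 - r2| + 1)) * _)]
  have hexp := Real.exp_pos (-k * (|r1 - r2| + 1))
  have hkM : 0 < 1 + 16 * k * M / κ := by positivity
  have hpos : 0 ≤ k * κ * (psi M (A + k ^ 2 * κ * T) / (A + k ^ 2 * κ * T)) *
      (Real.exp (-k * (|r1 - r2| + 1)) * (1 / (1 + 16 * k * M / κ))) := by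
    positivity
  apply pow_le_pow_left₀ hpos
  by_cases hz : psi M (A + k ^ 2 * κ * T) = 0
  · rw [hz, zero_div, mul_zero, zero_mul]
    have := psi_nonneg M N
    have := Ef_pos k (r1 - r2 - ff u.im)
    positivity
  · have hlt : A + k ^ 2 * κ * T < 2 * M := by
      by_contra hcon
      push Not at hcon
      exact hz (psi_eq_zero (by linarith) hcon)
    apply mul_le_mul
    · exact mul_le_mul_of_nonneg_left hq (by positivity)
    · apply mul_le_mul hE _ (by positivity) (Ef_pos _ _).le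
      apply one_div_le_one_div_of_le
      · positivity
      · have h3 : k ^ 2 * κ * T ≤ 2 * M := by linarith
        have h4 : 8 * k ^ 3 * T ≤ 16 * k * M / κ := by
          rw [le_div_iff₀ hκ]
          have := mul_le_mul_of_nonneg_left h3 (show 0 ≤ 8 * k by positivity)
          nlinarith
        linarith
    · positivity
    · have := psi_nonneg M N
      positivity

theorem beta_sq_le (hk : 0 < k) (hκ : 0 < κ) (hc0 : 0 < c) (hc : c < 1)
    (h1 : 0 ≤ r1) (h2 : 0 ≤ r2) {C : ℝ} (hC : ∀ t : ℝ, |deriv gg (t - round t)| ≤ C)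
    {u : ℂ} (h : th u ≠ 0) :
    beta k c κ M r1 r2 u ^ 2 ≤ C ^ 2 * min 1 (k ^ 2 * κ * rho u) := by
  have hT := rho_nonneg h
  set T := rho u with hTdef
  set A := Af k c r1 r2 with hA
  have hA1 : 1 < A := by have := Af_ge hk hc0 hc h1 h2; linarith
  set N := Nf k c κ r1 r2 T u.im with hN
  have hNpos : 1 < N := Nf_pos hk hκ hc0 hc h1 h2 hT u.im
  set E := Ef k (r1 - r2 - ff u.im) with hE
  have hE0 : 0 < E := Ef_pos _ _
  have hE1 : E ≤ 1 := Ef_le_one hk.le _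
  have hG0 := Gf_nonneg hk hT
  have hG1 := Gf_le hk hT
  set w := k ^ 2 * κ * Gf k T * E with hw
  have hNw : N = A + w := by rw [hN, Nf_eq]
  have hw0 : 0 ≤ w := by positivity
  have hwN : w ≤ N := by linarith
  have hwT : w ≤ k ^ 2 * κ * T := by
    have : k ^ 2 * κ * Gf k T * E ≤ k ^ 2 * κ * T * 1 := by
      apply mul_le_mul _ hE1 hE0.le (by positivity)
      exact mul_le_mul_of_nonneg_left hG1 (by positivity)
    linarith
  have e1 : beta k c κ M r1 r2 u = -(psi M N * (w / N) *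
      (Real.tanh (r1 - r2 - ff u.im) * deriv gg (u.im - round u.im))) := by
    unfold beta
    rw [← hTdef, ← hN, ← hE, hw]
    field_simp
  have ht := abs_tanh_le_one (r1 - r2 - ff u.im)
  have hd := hC u.im
  have hC0 : 0 ≤ C := (abs_nonneg _).trans hd
  have hq0 : 0 ≤ w / N := by positivity
  have hq1 : w / N ≤ min 1 (k ^ 2 * κ * T) := by
    apply le_min
    · rw [div_le_one (by linarith)]; exact hwN
    · exact (div_le_self hw0 hNpos.le).trans hwT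
  have h3 : |beta k c κ M r1 r2 u| ≤ (w / N) * C := by
    rw [e1, abs_neg, abs_mul, abs_mul, abs_mul, abs_of_nonneg (psi_nonneg M N),
      abs_of_nonneg hq0]
    have h4 : |Real.tanh (r1 - r2 - ff u.im)| * |deriv gg (u.im - round u.im)| ≤ 1 * C :=
      mul_le_mul ht hd (abs_nonneg _) zero_le_one
    have h5 : psi M N * (w / N) ≤ 1 * (w / N) :=
      mul_le_mul_of_nonneg_right (psi_le_one M N) hq0
    rw [one_mul] at h4 h5
    exact mul_le_mul h5 h4 (by positivity) hq0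
  have h6 : beta k c κ M r1 r2 u ^ 2 ≤ ((w / N) * C) ^ 2 := by
    rw [← sq_abs (beta k c κ M r1 r2 u)]
    exact pow_le_pow_left₀ (abs_nonneg _) h3 2
  have h7 : (w / N) ^ 2 ≤ min 1 (k ^ 2 * κ * T) := by
    have h8 : w / N ≤ 1 := hq1.trans (min_le_left _ _)
    nlinarith
  calc beta k c κ M r1 r2 u ^ 2 ≤ ((w / N) * C) ^ 2 := h6
    _ = C ^ 2 * (w / N) ^ 2 := by ring
    _ ≤ _ := mul_le_mul_of_nonneg_left h7 (sq_nonneg C)

/-- the pointwise lower bound for the square of the Wirtinger derivative -/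
theorem grad_lower (hk : 0 < k) (hκ : 0 < κ) (hc0 : 0 < c) (hc : c < 1) (hM : 1 ≤ M)
    (h1 : 0 ≤ r1) (h2 : 0 ≤ r2) {C : ℝ} (hC : ∀ t : ℝ, |deriv gg (t - round t)| ≤ C)
    {e : ℝ} (he : 0 < e) (he1 : e < 1) {u : ℂ} (h : th u ≠ 0) :
    (1 - e) * (ck k κ M r1 r2 / 4) * (4 * hh k c κ M r1 r2 (rho u) * ‖rhoz u‖ ^ 2) -
      1 / (4 * e) * (C ^ 2 * min 1 (k ^ 2 * κ * rho u)) ≤
    ((fderiv ℝ (Ff k c κ M r1 r2) u 1) ^ 2 + (fderiv ℝ (Ff k c κ M r1 r2) u I) ^ 2) / 4 := by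
  rw [(hasFDerivAt_Ff (M := M) hk hκ hc0 hc h1 h2 h).fderiv]
  set a := alpha k c κ M r1 r2 u with ha
  set b := beta k c κ M r1 r2 u with hb
  have hA := alpha_sq_ge (M := M) hk hκ hc0 hc hM h1 h2 h
  have hB := beta_sq_le (M := M) hk hκ hc0 hc h1 h2 hC h
  rw [← ha] at hA
  rw [← hb] at hB
  set r := rhoz u with hr
  simp only [_root_.smul_apply, _root_.add_apply, smul_eq_mul, reMul_apply, imCLM_apply, mul_one,
    one_im, mul_zero, add_zero, I_im]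
  have h3 : (r * I).re = -r.im := by simp
  rw [h3]
  have h4 : ‖r‖ ^ 2 = r.re ^ 2 + r.im ^ 2 := by
    rw [← Complex.normSq_eq_norm_sq, Complex.normSq_apply]; ring
  have h5 : 0 ≤ ‖r‖ ^ 2 := sq_nonneg _
  have h6 : (1 - e) * (ck k κ M r1 r2 / 4) * (4 * hh k c κ M r1 r2 (rho u) * ‖r‖ ^ 2) ≤
      (1 - e) * (a ^ 2 * ‖r‖ ^ 2) := by
    have h7 : ck k κ M r1 r2 * hh k c κ M r1 r2 (rho u) * ‖r‖ ^ 2 ≤ a ^ 2 * ‖r‖ ^ 2 :=
      mul_le_mul_of_nonneg_right hA h5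
    have h8 := mul_le_mul_of_nonneg_left h7 (show 0 ≤ 1 - e by linarith)
    calc _ = (1 - e) * (ck k κ M r1 r2 * hh k c κ M r1 r2 (rho u) * ‖r‖ ^ 2) := by ring
      _ ≤ _ := h8
  have h9 : 1 / (4 * e) * b ^ 2 ≤ 1 / (4 * e) * (C ^ 2 * min 1 (k ^ 2 * κ * rho u)) :=
    mul_le_mul_of_nonneg_left hB (by positivity)
  have h10 : (1 - e) * (a ^ 2 * ‖r‖ ^ 2) - 1 / (4 * e) * b ^ 2 ≤
      ((a * (2 * r.re)) ^ 2 + (a * (2 * -r.im) + b) ^ 2) / 4 := by
    rw [h4]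
    have h11 : 0 ≤ (e * (2 * a * r.im) - b) ^ 2 / (4 * e) := by positivity
    have h12 : (e * (2 * a * r.im) - b) ^ 2 / (4 * e) =
        e * (a * r.im) ^ 2 - a * r.im * b + 1 / (4 * e) * b ^ 2 := by
      field_simp
      ring
    rw [h12] at h11
    nlinarith [sq_nonneg (a * r.re), sq_nonneg b]
  have h13 : ((a * (2 * r.re) + b * 0) ^ 2 + (a * (2 * -r.im) + b) ^ 2) / 4 =
    ((a * (2 * r.re)) ^ 2 + (a * (2 * -r.im) + b) ^ 2) / 4 := by ring
  linarith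

end Pool.Agent.MA87.EN
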