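import Pool.Agent.MA87.Jet

/-!
# MP_87f2fd_gt : the complex Hessian as a sesquilinear form
-/

open Complex MeasureTheory Filter Topology
open scoped ContDiff ComplexOrder

noncomputable section

namespace Pool.Agent.MA87

variable {n : ℕ}

/-- the real Hessian -/
def hess (φ : (Fin n → ℂ) → ℝ) (z u v : Fin n → ℂ) : ℝ := fderiv ℝ (fderiv ℝ φ) z u v

/-- the sesquilinear form of the complex Hessian -/
def leviForm (φ : (Fin n → ℂ) → ℝ) (z u v : Fin n → ℂ) : ℂ :=
  (1 / 4) * ((hess φ z u v + hess φ z (I • u) (I • v) : ℝ) +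
    I * (hess φ z u (I • v) - hess φ z (I • u) v : ℝ))

theorem hess_symm {φ : (Fin n → ℂ) → ℝ} (hφ : ContDiff ℝ ∞ φ) (z u v : Fin n → ℂ) :
    hess φ z u v = hess φ z v u := by
  have h : IsSymmSndFDerivAt ℝ φ z := by
    apply ContDiffAt.isSymmSndFDerivAt (n := ∞) hφ.contDiffAt
    simp only [minSmoothness_of_isRCLikeNormedField]
    exact WithTop.coe_le_coe.2 le_top
  exact h u v

theorem hess_add_left (φ : (Fin n → ℂ) → ℝ) (z u u' v : Fin n → ℂ) :
    hess φ z (u + u') v = hess φ z u v + hess φ z u' v := by simp [hess]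
theorem hess_add_right (φ : (Fin n → ℂ) → ℝ) (z u v v' : Fin n → ℂ) :
    hess φ z u (v + v') = hess φ z u v + hess φ z u v' := by simp [hess]
theorem hess_smul_left (φ : (Fin n → ℂ) → ℝ) (z u v : Fin n → ℂ) (r : ℝ) :
    hess φ z (r • u) v = r * hess φ z u v := by simp [hess]
theorem hess_smul_right (φ : (Fin n → ℂ) → ℝ) (z u v : Fin n → ℂ) (r : ℝ) :
    hess φ z u (r • v) = r * hess φ z u v := by simp [hess]
theorem hess_neg_left (φ : (Fin n → ℂ) → ℝ) (z u v : Fin n → ℂ) :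
    hess φ z (-u) v = - hess φ z u v := by simp [hess]
theorem hess_neg_right (φ : (Fin n → ℂ) → ℝ) (z u v : Fin n → ℂ) :
    hess φ z u (-v) = - hess φ z u v := by simp [hess]

theorem csmul_eq (a : ℂ) (u : Fin n → ℂ) : a • u = a.re • u + a.im • (I • u) := by
  ext j
  simp only [Pi.smul_apply, smul_eq_mul, Pi.add_apply, real_smul]
  nth_rewrite 1 [← Complex.re_add_im a]
  ring

theorem leviForm_add_left (φ : (Fin n → ℂ) → ℝ) (z u u' v : Fin n → ℂ) :
    leviForm φ z (u + u') v = leviForm φ z u v + leviForm φ z u' v := by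
  simp only [leviForm, smul_add, hess_add_left]
  push_cast; ring

theorem leviForm_add_right (φ : (Fin n → ℂ) → ℝ) (z u v v' : Fin n → ℂ) :
    leviForm φ z u (v + v') = leviForm φ z u v + leviForm φ z u v' := by
  simp only [leviForm, smul_add, hess_add_right]
  push_cast; ring

theorem I_smul_I_smul (u : Fin n → ℂ) : I • I • u = -u := by
  rw [smul_smul, I_mul_I, neg_one_smul]

theorem leviForm_smul_left (φ : (Fin n → ℂ) → ℝ) (z u v : Fin n → ℂ) (a : ℂ) :
    leviForm φ z (a • u) v = a * leviForm φ z u v := by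
  have h1 : I • a • u = a.re • (I • u) + a.im • (-u) := by
    rw [csmul_eq a u, smul_add, smul_comm I a.re u, smul_comm I a.im (I • u), I_smul_I_smul]
  rw [leviForm, h1, csmul_eq a u]
  simp only [hess_add_left, hess_smul_left, hess_neg_left, leviForm]
  apply Complex.ext <;> simp <;> ring

theorem leviForm_smul_right (φ : (Fin n → ℂ) → ℝ) (z u v : Fin n → ℂ) (a : ℂ) :
    leviForm φ z u (a • v) = (starRingEnd ℂ) a * leviForm φ z u v := by
  have h1 : I • a • v = a.re • (I • v) + a.im • (-v) := by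
    rw [csmul_eq a v, smul_add, smul_comm I a.re v, smul_comm I a.im (I • v), I_smul_I_smul]
  have h2 : (starRingEnd ℂ) a = a.re - a.im * I := by
    apply Complex.ext <;> simp
  rw [leviForm, h1, csmul_eq a v, h2]
  simp only [hess_add_right, hess_smul_right, hess_neg_right, leviForm]
  apply Complex.ext <;> simp <;> ring

theorem leviForm_sum_left (φ : (Fin n → ℂ) → ℝ) (z v : Fin n → ℂ) {ι : Type*} (s : Finset ι)
    (f : ι → Fin n → ℂ) : leviForm φ z (∑ i ∈ s, f i) v = ∑ i ∈ s, leviForm φ z (f i) v := by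
  classical
  induction s using Finset.induction_on with
  | empty => simp [leviForm, hess]
  | insert a s ha ih => rw [Finset.sum_insert ha, Finset.sum_insert ha, leviForm_add_left, ih]

theorem leviForm_sum_right (φ : (Fin n → ℂ) → ℝ) (z u : Fin n → ℂ) {ι : Type*} (s : Finset ι)
    (f : ι → Fin n → ℂ) : leviForm φ z u (∑ i ∈ s, f i) = ∑ i ∈ s, leviForm φ z u (f i) := by
  classical
  induction s using Finset.induction_on with
  | empty => simp [leviForm, hess]
  | insert a s ha ih => rw [Finset.sum_insert ha, Finset.sum_insert ha, leviForm_add_right, ih]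

theorem differentiable_fderiv_of_smooth {φ : (Fin n → ℂ) → ℝ} (hφ : ContDiff ℝ ∞ φ) :
    Differentiable ℝ (fderiv ℝ φ) := by
  have : ContDiff ℝ 1 (fderiv ℝ φ) := hφ.fderiv_right (by exact WithTop.coe_le_coe.2 le_top)
  exact this.differentiable one_ne_zero

theorem fderiv_ofReal_comp {φ : (Fin n → ℂ) → ℝ} {z : Fin n → ℂ} (h : DifferentiableAt ℝ φ z)
    (v : Fin n → ℂ) : fderiv ℝ (fun w => (φ w : ℂ)) z v = (fderiv ℝ φ z v : ℂ) := by
  have h1 : HasFDerivAt (fun w => (φ w : ℂ)) (Complex.ofRealCLM.comp (fderiv ℝ φ z)) z :=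
    Complex.ofRealCLM.hasFDerivAt.comp z h.hasFDerivAt
  rw [h1.fderiv]; simp

theorem dzbar_ofReal {φ : (Fin n → ℂ) → ℝ} {z : Fin n → ℂ} (h : DifferentiableAt ℝ φ z)
    (k : Fin n) : dzbar k (fun w => (φ w : ℂ)) z =
      (1 / 2) * ((fderiv ℝ φ z (Pi.single k 1) : ℂ) + I * (fderiv ℝ φ z (Pi.single k I) : ℂ)) := by
  rw [dzbar, fderiv_ofReal_comp h, fderiv_ofReal_comp h]

theorem dz_ofReal {φ : (Fin n → ℂ) → ℝ} {z : Fin n → ℂ} (h : DifferentiableAt ℝ φ z)
    (k : Fin n) : dz k (fun w => (φ w : ℂ)) z =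
      (1 / 2) * ((fderiv ℝ φ z (Pi.single k 1) : ℂ) - I * (fderiv ℝ φ z (Pi.single k I) : ℂ)) := by
  rw [dz, fderiv_ofReal_comp h, fderiv_ofReal_comp h]

theorem levi_eq_leviForm {φ : (Fin n → ℂ) → ℝ} (hφ : ContDiff ℝ ∞ φ) (z : Fin n → ℂ)
    (j k : Fin n) : levi φ z j k = leviForm φ z (Pi.single j 1) (Pi.single k 1) := by
  have hd : Differentiable ℝ φ := hφ.differentiable (by simp)
  have hd2 := differentiable_fderiv_of_smooth hφ
  have e : (dzbar k fun w => (φ w : ℂ)) = fun w =>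
      (1 / 2) * ((fderiv ℝ φ w (Pi.single k 1) : ℂ) + I * (fderiv ℝ φ w (Pi.single k I) : ℂ)) := by
    ext w; exact dzbar_ofReal (hd w) k
  have key : ∀ v, fderiv ℝ (dzbar k fun w => (φ w : ℂ)) z v =
      (1 / 2) * ((hess φ z v (Pi.single k 1) : ℂ) + I * (hess φ z v (Pi.single k I) : ℂ)) := by
    intro v
    rw [e]
    have h1 : ∀ u : Fin n → ℂ, HasFDerivAt (fun w => (fderiv ℝ φ w u : ℂ))
        (Complex.ofRealCLM.comp ((ContinuousLinearMap.apply ℝ ℝ u).comp
          (fderiv ℝ (fderiv ℝ φ) z))) z := by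
      intro u
      exact Complex.ofRealCLM.hasFDerivAt.comp z
        ((ContinuousLinearMap.apply ℝ ℝ u).hasFDerivAt.comp z (hd2 z).hasFDerivAt)
    have h2 := ((h1 (Pi.single k 1)).add ((h1 (Pi.single k I)).const_mul I)).const_mul (1 / 2 : ℂ)
    have h3 := h2.fderiv
    have h4 := congrArg (fun L => L v) h3
    simp only [hess]
    refine (h4.trans ?_)
    simp
    ring
  have hI : ∀ j : Fin n, (Pi.single j I : Fin n → ℂ) = I • Pi.single j 1 := by
    intro j; rw [← Pi.single_smul]; simp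
  rw [levi, Matrix.of_apply, dz, key, key, leviForm, ← hI, ← hI]
  push_cast
  ring_nf
  simp only [I_sq]
  ring

theorem levi_quadratic {φ : (Fin n → ℂ) → ℝ} (hφ : ContDiff ℝ ∞ φ) (z ξ : Fin n → ℂ) :
    ∑ j, ∑ k, ξ j * (starRingEnd ℂ) (ξ k) * levi φ z j k = leviForm φ z ξ ξ := by
  have hξ : ξ = ∑ j, ξ j • (Pi.single j 1 : Fin n → ℂ) := by
    ext i
    simp [Finset.sum_apply, Pi.single_apply]
  conv_rhs => rw [hξ]
  rw [leviForm_sum_left]
  refine Finset.sum_congr rfl fun j _ => ?_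
  rw [leviForm_sum_right]
  refine Finset.sum_congr rfl fun k _ => ?_
  rw [leviForm_smul_left, leviForm_smul_right, levi_eq_leviForm hφ]
  ring

theorem leviForm_self {φ : (Fin n → ℂ) → ℝ} (hφ : ContDiff ℝ ∞ φ) (z ξ : Fin n → ℂ) :
    leviForm φ z ξ ξ = ((1 / 4 * (hess φ z ξ ξ + hess φ z (I • ξ) (I • ξ)) : ℝ) : ℂ) := by
  rw [leviForm, hess_symm hφ z (I • ξ) ξ]
  push_cast; ring

theorem J1.of_smooth {φ : (Fin n → ℂ) → ℝ} (hφ : ContDiff ℝ ∞ φ) (z v : Fin n → ℂ) :
    J1 (fun r : ℝ => φ (z + r • v)) (φ z) (fderiv ℝ φ z v) (hess φ z v v) := by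
  have hd : Differentiable ℝ φ := hφ.differentiable (by simp)
  have hd2 := differentiable_fderiv_of_smooth hφ
  have hl : ∀ r : ℝ, HasDerivAt (fun r : ℝ => z + r • v) v r := by
    intro r
    have := ((hasDerivAt_id r).smul_const v).const_add z
    simpa using this
  refine ⟨fun r => fderiv ℝ φ (z + r • v) v, by simp, Eventually.of_forall fun r => ?_, by simp, ?_⟩
  · exact (hd _).hasFDerivAt.comp_hasDerivAt r (hl r)
  · have h1 : HasDerivAt (fun r : ℝ => fderiv ℝ φ (z + r • v))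
        (fderiv ℝ (fderiv ℝ φ) (z + (0 : ℝ) • v) v) 0 :=
      (hd2 _).hasFDerivAt.comp_hasDerivAt (0 : ℝ) (hl 0)
    have h2 := (ContinuousLinearMap.apply ℝ ℝ v).hasFDerivAt.comp_hasDerivAt (0 : ℝ) h1
    refine HasDerivAt.congr_deriv
      (h2 : HasDerivAt (fun r : ℝ => fderiv ℝ φ (z + r • v) v) _ _) ?_
    simp [hess]

theorem J1.unique {g : ℝ → ℝ} {a a1 a2 b b1 b2 : ℝ} (h : J1 g a a1 a2) (h' : J1 g b b1 b2) :
    a = b ∧ a1 = b1 ∧ a2 = b2 := by
  obtain ⟨g1, e0, e1, e2, e3⟩ := h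
  obtain ⟨g2, f0, f1, f2, f3⟩ := h'
  have hg : g1 =ᶠ[𝓝 0] g2 := by
    filter_upwards [e1, f1] with r hr1 hr2
    exact hr1.unique hr2
  refine ⟨e0.symm.trans f0, ?_, ?_⟩
  · rw [← e2, ← f2, hg.self_of_nhds]
  · exact e3.unique (f3.congr_of_eventuallyEq hg)

/-- if the jet of `φ` along the complex line `z + t ξ` is known, so is the Levi form. -/
theorem levi_of_LJet {φ : (Fin n → ℂ) → ℝ} (hφ : ContDiff ℝ ∞ φ) {z ξ : Fin n → ℂ} {a : ℝ} {α : ℂ}
    {L : ℝ} (h : LJet (fun t => φ (z + t • ξ)) a α L) :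
    ∑ j, ∑ k, ξ j * (starRingEnd ℂ) (ξ k) * levi φ z j k = (L : ℂ) := by
  obtain ⟨c1, c2, h1, h2, h3⟩ := h
  have k1 := J1.of_smooth hφ z ξ
  have k2 := J1.of_smooth hφ z (I • ξ)
  have e1 : (fun r : ℝ => φ (z + r • ξ)) = fun r : ℝ => φ (z + (r : ℂ) • ξ) := by
    ext r; rfl
  have e2 : (fun r : ℝ => φ (z + r • I • ξ)) = fun r : ℝ => φ (z + ((r : ℂ) * I) • ξ) := by
    ext r; rw [mul_smul]; rfl
  rw [e1] at k1
  rw [e2] at k2
  obtain ⟨-, -, u1⟩ := h1.unique k1
  obtain ⟨-, -, u2⟩ := h2.unique k2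
  rw [levi_quadratic hφ, leviForm_self hφ, ← u1, ← u2, h3]
  congr 1; ring

end Pool.Agent.MA87
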