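import Pool.Agent.MA87.Defs
import Pool.Agent.MA87.Theta

/-!
# MP_87f2fd_gt : smoothness and lattice invariance of the potential `phi`
-/

open Complex MeasureTheory Filter Topology
open scoped ContDiff

noncomputable section

namespace Pool.Agent.MA87

/-! ### The periodic function `ff` -/

theorem sm_ff_add_int (t : ℝ) (n : ℤ) : ff (t + n) = ff t := by
  unfold ff
  rw [round_add_intCast]
  push_cast
  have h : t + (n : ℝ) - ((round t : ℝ) + (n : ℝ)) = t - round t := by ring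
  rw [h]

theorem sm_abs_ff_le (t : ℝ) : |ff t| ≤ 1 / 2 := by
  unfold ff
  rw [abs_mul]
  have h1 : |t - round t| ≤ 1 / 2 := abs_sub_round t
  have h2 : |bump (t - round t)| ≤ 1 := by
    rw [abs_of_nonneg (bump.nonneg)]
    exact bump.le_one
  calc |t - round t| * |bump (t - round t)| ≤ 1 / 2 * 1 := by
        apply mul_le_mul h1 h2 (abs_nonneg _) (by norm_num)
    _ = 1 / 2 := by norm_num

theorem sm_ff_contDiff : ContDiff ℝ ∞ ff := by
  rw [contDiff_iff_contDiffAt]
  intro t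
  rcases lt_or_ge |t - round t| (1 / 2) with h | h
  · -- `round` is locally constant
    have hev : ∀ᶠ s in 𝓝 t, |s - (round t : ℝ)| < 1 / 2 := by
      have hc : Continuous fun s : ℝ => |s - (round t : ℝ)| := by fun_prop
      exact hc.continuousAt.eventually_lt continuousAt_const h
    have heq : ff =ᶠ[𝓝 t] fun s => (s - (round t : ℝ)) * bump (s - (round t : ℝ)) := by
      filter_upwards [hev] with s hs
      have h1 : |s - round s| ≤ |s - (round t : ℝ)| := round_le s (round t)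
      have h2 : round s = round t := by
        have h3 : |((round s - round t : ℤ) : ℝ)| < 1 := by
          push_cast
          have h4 : (round s : ℝ) - round t = (s - round t) - (s - round s) := by ring
          rw [h4]
          calc |(s - (round t : ℝ)) - (s - round s)| ≤ |s - (round t : ℝ)| + |s - round s| :=
                abs_sub _ _
            _ < 1 := by linarith
        have h5 : |round s - round t| < 1 := by exact_mod_cast h3
        have h6 := Int.abs_lt_one_iff.mp h5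
        omega
      unfold ff
      rw [h2]
    refine ContDiffAt.congr_of_eventuallyEq ?_ heq
    have hs : ContDiff ℝ ∞ fun s : ℝ => s - (round t : ℝ) := contDiff_id.sub contDiff_const
    exact (hs.mul (bump.contDiff.comp hs)).contDiffAt
  · have hev : ∀ᶠ s in 𝓝 t, |s - t| < 1 / 8 := by
      have hc : Continuous fun s : ℝ => |s - t| := by fun_prop
      refine hc.continuousAt.eventually_lt continuousAt_const ?_
      simp
    have heq : ff =ᶠ[𝓝 t] fun _ => (0 : ℝ) := by
      filter_upwards [hev] with s hs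
      have h1 : |t - round t| ≤ |t - (round s : ℝ)| := round_le t (round s)
      have h2 : 3 / 8 ≤ |s - round s| := by
        have h4 : t - (round s : ℝ) = (s - round s) - (s - t) := by ring
        have h5 : |t - (round s : ℝ)| ≤ |s - round s| + |s - t| := by
          rw [h4]; exact abs_sub _ _
        linarith
      unfold ff
      have h3 : bump (s - round s) = 0 := by
        apply bump.zero_of_le_dist
        rw [Real.dist_eq, sub_zero]
        exact h2
      rw [h3, mul_zero]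
    exact contDiffAt_const.congr_of_eventuallyEq heq

/-! ### The scalar functions -/

theorem sm_qf_contDiff : ContDiff ℝ ∞ qf := by
  unfold qf
  exact Real.contDiff_cosh.log fun t => (Real.cosh_pos t).ne'

theorem sm_Ef_contDiff (k : ℝ) : ContDiff ℝ ∞ (Ef k) := by
  unfold Ef
  exact Real.contDiff_exp.comp (contDiff_const.mul sm_qf_contDiff)

theorem sm_Pf_contDiff (k c : ℝ) : ContDiff ℝ ∞ (Pf k c) := by
  unfold Pf
  exact (contDiff_const.mul sm_qf_contDiff).add (contDiff_const.mul (sm_Ef_contDiff k))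

theorem sm_qf_nonneg (t : ℝ) : 0 ≤ qf t := Real.log_nonneg (Real.one_le_cosh t)

theorem sm_qf_le_abs (t : ℝ) : qf t ≤ |t| := by
  unfold qf
  rw [Real.log_le_iff_le_exp (Real.cosh_pos t)]
  rw [← Real.cosh_abs, Real.cosh_eq]
  have h : Real.exp (-|t|) ≤ Real.exp |t| := Real.exp_le_exp.mpr (by linarith [abs_nonneg t])
  linarith

theorem sm_Ef_pos (k t : ℝ) : 0 < Ef k t := Real.exp_pos _

theorem sm_Ef_le_one {k : ℝ} (hk : 0 < k) (t : ℝ) : Ef k t ≤ 1 := by
  unfold Ef
  rw [Real.exp_le_one_iff]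
  have := mul_nonneg hk.le (sm_qf_nonneg t)
  linarith

/-- `E` is bounded below on bounded sets -/
theorem sm_Ef_ge {k : ℝ} (hk : 0 < k) {t R : ℝ} (h : |t| ≤ R) : Real.exp (-k * R) ≤ Ef k t := by
  unfold Ef
  apply Real.exp_le_exp.mpr
  have h1 : qf t ≤ R := (sm_qf_le_abs t).trans h
  have := mul_le_mul_of_nonneg_left h1 hk.le
  linarith

theorem sm_Pf_le {k c : ℝ} (hk : 0 < k) (hc0 : 0 < c) (t : ℝ) : Pf k c t ≤ c * k * |t| + c := by
  unfold Pf
  have h1 : c * k * qf t ≤ c * k * |t| :=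
    mul_le_mul_of_nonneg_left (sm_qf_le_abs t) (by positivity)
  have h2 : c / (1 + k) * Ef k t ≤ c := by
    have h3 : c / (1 + k) ≤ c := by
      rw [div_le_iff₀ (by linarith)]
      nlinarith
    calc c / (1 + k) * Ef k t ≤ c * 1 :=
          mul_le_mul h3 (sm_Ef_le_one hk t) (sm_Ef_pos k t).le hc0.le
      _ = c := mul_one c
  linarith

theorem sm_Gf_nonneg {k T : ℝ} (hk : 0 < k) (hT : 0 ≤ T) : 0 ≤ Gf k T := by
  unfold Gf
  have h1 : 0 ≤ 8 * k ^ 3 * T := by positivity
  exact mul_nonneg (by positivity) (Real.log_nonneg (by linarith))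

theorem sm_Gf_contDiffAt {k T : ℝ} (hk : 0 < k) (hT : 0 ≤ T) : ContDiffAt ℝ ∞ (Gf k) T := by
  unfold Gf
  have h1 : 0 ≤ 8 * k ^ 3 * T := by positivity
  have h2 : ContDiffAt ℝ ∞ (fun T : ℝ => 1 + 8 * k ^ 3 * T) T :=
    contDiffAt_const.add (contDiffAt_const.mul contDiffAt_id)
  exact contDiffAt_const.mul (h2.log (by linarith))

theorem sm_Nf_ge {k c κ r1 r2 T b : ℝ} (hk : 0 < k) (hc0 : 0 < c)
    (h1 : 0 ≤ r1) (h2 : 0 ≤ r2) :
    2 - c + k * (1 - c) * (r1 + r2) + k ^ 2 * κ * Gf k T * Ef k (r1 - r2 - ff b) ≤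
      Nf k c κ r1 r2 T b := by
  unfold Nf
  have h3 := sm_Pf_le hk hc0 (r1 - r2)
  have h4 : |r1 - r2| ≤ r1 + r2 := by
    rw [abs_le]; constructor <;> linarith
  have h5 : c * k * |r1 - r2| ≤ c * k * (r1 + r2) :=
    mul_le_mul_of_nonneg_left h4 (by positivity)
  nlinarith

/-! ### The outer function `Phi` -/

theorem sm_psi_contDiff {M : ℝ} : ContDiff ℝ ∞ (psi M) := by
  unfold psi
  exact Real.smoothTransition.contDiff.comp ((contDiff_const.sub contDiff_id).div_const M)

theorem sm_psi_zero {M s : ℝ} (hM : 1 ≤ M) (hs : 2 * M ≤ s) : psi M s = 0 := by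
  unfold psi
  apply Real.smoothTransition.zero_of_nonpos
  exact div_nonpos_of_nonpos_of_nonneg (by linarith) (by linarith)

theorem sm_integrand_cont {M a b : ℝ} (ha : 0 < a) (hb : 0 < b) :
    IntervalIntegrable (fun s => psi M s / s) volume a b := by
  apply ContinuousOn.intervalIntegrable
  intro s hs
  have hs0 : 0 < s := by
    rcases Set.mem_uIcc.mp hs with h | h <;> linarith [h.1]
  exact (sm_psi_contDiff.continuous.continuousAt.div continuousAt_id hs0.ne').continuousWithinAt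

theorem sm_Phi_hasDerivAt (k M : ℝ) {n : ℝ} (hn : 0 < n) :
    HasDerivAt (Phi k M) (-(1 / k) * (psi M n / n)) n := by
  unfold Phi
  apply HasDerivAt.const_mul
  apply intervalIntegral.integral_hasDerivAt_right (sm_integrand_cont one_pos hn)
  · have hcont : ContinuousOn (fun s => psi M s / s) (Set.Ioi 0) := fun s hs =>
      (sm_psi_contDiff.continuous.continuousAt.div continuousAt_id
        (ne_of_gt hs)).continuousWithinAt
    exact hcont.stronglyMeasurableAtFilter isOpen_Ioi n hn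
  · exact sm_psi_contDiff.continuous.continuousAt.div continuousAt_id hn.ne'

theorem sm_Phi_contDiffOn (k M : ℝ) : ContDiffOn ℝ ∞ (Phi k M) (Set.Ioi 0) := by
  rw [contDiffOn_infty_iff_deriv_of_isOpen isOpen_Ioi]
  constructor
  · intro n hn
    exact (sm_Phi_hasDerivAt k M hn).differentiableAt.differentiableWithinAt
  · have h : ContDiffOn ℝ ∞ (fun n => -(1 / k) * (psi M n / n)) (Set.Ioi 0) := by
      apply contDiffOn_const.mul
      apply sm_psi_contDiff.contDiffOn.div contDiffOn_id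
      intro n hn
      exact ne_of_gt hn
    exact h.congr fun n hn => (sm_Phi_hasDerivAt k M hn).deriv

theorem sm_Phi_const {k M n : ℝ} (hM : 1 ≤ M) (hn : 2 * M ≤ n) :
    Phi k M n = Phi k M (2 * M) := by
  unfold Phi
  have h1 := intervalIntegral.integral_add_adjacent_intervals
    (sm_integrand_cont (M := M) one_pos (by linarith : (0:ℝ) < 2 * M))
    (sm_integrand_cont (M := M) (by linarith : (0:ℝ) < 2 * M) (by linarith : (0:ℝ) < n))
  have h2 : ∫ s in (2 * M)..n, psi M s / s = 0 := by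
    rw [intervalIntegral.integral_congr (g := fun _ => (0 : ℝ))]
    · simp
    · intro s hs
      rw [Set.uIcc_of_le hn] at hs
      simp only
      rw [sm_psi_zero hM hs.1, zero_div]
  rw [← h1, h2, add_zero]

/-! ### `rho` -/

theorem sm_th_contDiff : ContDiff ℝ ∞ th := by
  have h : ContDiff ℂ ∞ th := th_differentiable.contDiff
  exact h.restrict_scalars ℝ

theorem sm_rho_contDiffAt {z : ℂ} (h : th z ≠ 0) : ContDiffAt ℝ ∞ rho z := by
  unfold rho rho0
  have h1 : ContDiff ℝ ∞ fun z : ℂ => (z.im - 1 / 2) ^ 2 / 2 := by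
    have him : ContDiff ℝ ∞ fun z : ℂ => z.im := Complex.imCLM.contDiff
    exact ((him.sub contDiff_const).pow 2).div_const 2
  have h2 : ContDiffAt ℝ ∞ (fun z : ℂ => Real.log ‖th z‖) z := by
    have h3 : ContDiffAt ℝ ∞ (fun z : ℂ => ‖th z‖) z :=
      sm_th_contDiff.contDiffAt.norm ℝ h
    exact h3.log (norm_ne_zero_iff.mpr h)
  exact (h1.contDiffAt.sub (contDiffAt_const.mul h2)).add contDiffAt_const

/-! ### integer translations -/

/-- `th` and `rho` under integer translations -/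
theorem sm_th_add_int (z : ℂ) (m : ℤ) : th (z + m) = th z := by
  have h : Function.Periodic th 1 := th_add_one
  have := h.int_mul m z
  simpa using this

theorem sm_rho_add_int (z : ℂ) (m : ℤ) : rho (z + m) = rho z := by
  have h : Function.Periodic rho 1 := rho_add_one
  have := h.int_mul m z
  simpa using this

/-- translation by `n I` -/
theorem sm_th_add_nat_I (z : ℂ) (n : ℕ) : ∃ m : ℤ,
    th (z + n * I) = cexp (-(2 * Real.pi * I * (n * z + m * I))) * th z := by
  induction n with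
  | zero => exact ⟨0, by simp⟩
  | succ n ih =>
    obtain ⟨m, hm⟩ := ih
    refine ⟨m + n, ?_⟩
    have h1 : z + ((n + 1 : ℕ) : ℂ) * I = (z + n * I) + I := by push_cast; ring
    rw [h1, th_add_I, hm, ← mul_assoc, ← Complex.exp_add]
    congr 2
    push_cast
    ring

theorem sm_th_add_int_I (z : ℂ) (n : ℤ) : ∃ m : ℤ,
    th (z + n * I) = cexp (-(2 * Real.pi * I * (n * z + m * I))) * th z := by
  rcases le_total 0 n with h | h
  · obtain ⟨k, rfl⟩ := Int.eq_ofNat_of_zero_le h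
    obtain ⟨m, hm⟩ := sm_th_add_nat_I z k
    exact ⟨m, by simpa using hm⟩
  · obtain ⟨k, hk⟩ := Int.eq_ofNat_of_zero_le (neg_nonneg.mpr h)
    obtain ⟨m, hm⟩ := sm_th_add_nat_I (z + n * I) k
    have hn : (n : ℂ) = -(k : ℂ) := by
      have : n = -(k : ℤ) := by omega
      rw [this]; push_cast; ring
    have h1 : z + n * I + k * I = z := by rw [hn]; ring
    rw [h1] at hm
    -- th z = exp(-(2πi (k (z + n I) + m I))) th (z + n I)
    refine ⟨-m + k * k, ?_⟩
    rw [hm, ← mul_assoc, ← Complex.exp_add]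
    have h2 : -(2 * (Real.pi : ℂ) * I * (n * z + ((-m + k * k : ℤ) : ℂ) * I)) +
        -(2 * Real.pi * I * (k * (z + n * I) + m * I)) = 0 := by
      rw [hn]; push_cast; ring
    rw [h2, Complex.exp_zero, one_mul]

theorem sm_th_ne_zero_add {z : ℂ} (h : th z ≠ 0) (m n : ℤ) : th (z + (m + n * I)) ≠ 0 := by
  have h1 : z + (m + n * I) = (z + n * I) + m := by ring
  rw [h1, sm_th_add_int]
  obtain ⟨j, hj⟩ := sm_th_add_int_I z n
  rw [hj]
  exact mul_ne_zero (Complex.exp_ne_zero _) h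

theorem sm_th_zero_add {z : ℂ} (h : th z = 0) (m n : ℤ) : th (z + (m + n * I)) = 0 := by
  have h1 : z + (m + n * I) = (z + n * I) + m := by ring
  rw [h1, sm_th_add_int]
  obtain ⟨j, hj⟩ := sm_th_add_int_I z n
  rw [hj, h, mul_zero]

theorem sm_rho_add_nat_I {z : ℂ} (h : th z ≠ 0) (n : ℕ) : rho (z + n * I) = rho z := by
  induction n with
  | zero => simp
  | succ n ih =>
    have h1 : z + ((n + 1 : ℕ) : ℂ) * I = (z + n * I) + I := by push_cast; ring
    have h2 : th (z + n * I) ≠ 0 := by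
      have := sm_th_ne_zero_add h 0 n
      simpa using this
    rw [h1, rho_add_I h2, ih]

theorem sm_rho_add {z : ℂ} (h : th z ≠ 0) (m n : ℤ) : rho (z + (m + n * I)) = rho z := by
  have h1 : z + (m + n * I) = (z + n * I) + m := by ring
  rw [h1, sm_rho_add_int]
  rcases le_total 0 n with hn | hn
  · obtain ⟨k, rfl⟩ := Int.eq_ofNat_of_zero_le hn
    simpa using sm_rho_add_nat_I h k
  · obtain ⟨k, hk⟩ := Int.eq_ofNat_of_zero_le (neg_nonneg.mpr hn)
    have hn : (n : ℂ) = -(k : ℂ) := by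
      have : n = -(k : ℤ) := by omega
      rw [this]; push_cast; ring
    have h2 : th (z + n * I) ≠ 0 := by
      have := sm_th_ne_zero_add h 0 n
      simpa using this
    have h3 := sm_rho_add_nat_I h2 k
    have h4 : z + n * I + k * I = z := by rw [hn]; ring
    rw [h4] at h3
    exact h3.symm

/-! ### `U` modulo integers -/

theorem sm_exp_U {z : C3} (h0 : th (z 0) ≠ 0) (h1 : th (z 1) ≠ 0) :
    cexp (2 * Real.pi * I * U z) = cexp (2 * Real.pi * I * z 2) * (th (z 0) / th (z 1)) := by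
  unfold U
  have hpi : (2 * (Real.pi : ℂ) * I) ≠ 0 := Complex.two_pi_I_ne_zero
  have h2 : 2 * (Real.pi : ℂ) * I * (z 2 + 1 / (2 * Real.pi * I) *
      (Complex.log (th (z 0)) - Complex.log (th (z 1)))) =
      2 * Real.pi * I * z 2 + (Complex.log (th (z 0)) - Complex.log (th (z 1))) := by
    field_simp
  rw [h2, Complex.exp_add, Complex.exp_sub, Complex.exp_log h0, Complex.exp_log h1]

theorem sm_int_of_exp_eq {u v : ℂ}
    (h : cexp (2 * Real.pi * I * u) = cexp (2 * Real.pi * I * v)) : ∃ m : ℤ, u = v + m := by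
  rw [Complex.exp_eq_exp_iff_exists_int] at h
  obtain ⟨n, hn⟩ := h
  refine ⟨n, ?_⟩
  have hpi : (2 * (Real.pi : ℂ) * I) ≠ 0 := Complex.two_pi_I_ne_zero
  have h2 : 2 * (Real.pi : ℂ) * I * (u - (v + n)) = 0 := by
    have : 2 * (Real.pi : ℂ) * I * u = 2 * Real.pi * I * v + n * (2 * Real.pi * I) := hn
    linear_combination this
  rcases mul_eq_zero.mp h2 with h3 | h3
  · exact absurd h3 hpi
  · linear_combination h3

/-- the value of the formula only depends on `U` modulo `ℤ[i]` (at good points) -/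
theorem sm_Nf_shift {k c κ r1 r2 : ℝ} {u : ℂ} (h : th u ≠ 0) (m n : ℤ) :
    Nf k c κ r1 r2 (rho (u + (m + n * I))) (u + (m + n * I)).im =
      Nf k c κ r1 r2 (rho u) u.im := by
  have him : (u + (m + n * I)).im = u.im + n := by simp
  unfold Nf
  rw [sm_rho_add h, him, sm_ff_add_int]

theorem phi_inv (k c κ M : ℝ) : GInv (phi k c κ M) := by
  intro a b e ha hb he z
  obtain ⟨a1, a2, rfl⟩ := ha
  obtain ⟨b1, b2, rfl⟩ := hb
  obtain ⟨e1, e2, rfl⟩ := he
  set z' := act ((a1 : ℂ) + a2 * I) ((b1 : ℂ) + b2 * I) ((e1 : ℂ) + e2 * I) z with hz'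
  have hz0 : z' 0 = z 0 + ((a1 : ℂ) + a2 * I) := by simp [hz', act]
  have hz1 : z' 1 = z 1 + ((b1 : ℂ) + b2 * I) := by simp [hz', act]
  have hz2 : z' 2 = z 2 + (a2 : ℂ) * z 0 - (b2 : ℂ) * z 1 + ((e1 : ℂ) + e2 * I) := by
    simp [hz', act]
  by_cases h0 : th (z 0) = 0
  · have hB : Bad z := Or.inl h0
    have hB' : Bad z' := Or.inl (by rw [hz0]; exact sm_th_zero_add h0 _ _)
    unfold phi
    rw [if_pos hB, if_pos hB']
  by_cases h1 : th (z 1) = 0
  · have hB : Bad z := Or.inr (Or.inl h1)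
    have hB' : Bad z' := Or.inr (Or.inl (by rw [hz1]; exact sm_th_zero_add h1 _ _))
    unfold phi
    rw [if_pos hB, if_pos hB']
  have h0' : th (z' 0) ≠ 0 := by rw [hz0]; exact sm_th_ne_zero_add h0 _ _
  have h1' : th (z' 1) ≠ 0 := by rw [hz1]; exact sm_th_ne_zero_add h1 _ _
  -- the value of `U`
  obtain ⟨p, hp⟩ := sm_th_add_int_I (z 0) a2
  obtain ⟨q, hq⟩ := sm_th_add_int_I (z 1) b2
  have hU : ∃ m n : ℤ, U z' = U z + (m + n * I) := by
    have hexp : cexp (2 * Real.pi * I * U z') =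
        cexp (2 * Real.pi * I * (U z + ((0 : ℤ) + (e2 - p + q : ℤ) * I))) := by
      have hA : th (z' 0) = cexp (-(2 * Real.pi * I * (a2 * z 0 + p * I))) * th (z 0) := by
        rw [hz0, ← hp, show z 0 + ((a1 : ℂ) + a2 * I) = (z 0 + a2 * I) + a1 by ring,
          sm_th_add_int]
      have hB : th (z' 1) = cexp (-(2 * Real.pi * I * (b2 * z 1 + q * I))) * th (z 1) := by
        rw [hz1, ← hq, show z 1 + ((b1 : ℂ) + b2 * I) = (z 1 + b2 * I) + b1 by ring,
          sm_th_add_int]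
      have hC : cexp (2 * Real.pi * I * e1) = 1 := by
        rw [Complex.exp_eq_one_iff]
        exact ⟨e1, by ring⟩
      rw [sm_exp_U h0' h1', hA, hB, hz2, mul_add (2 * (Real.pi : ℂ) * I) (U z), Complex.exp_add,
        sm_exp_U h0 h1]
      have hE := Complex.exp_ne_zero (-(2 * Real.pi * I * (b2 * z 1 + q * I)))
      have key : cexp (2 * Real.pi * I * (z 2 + (a2 : ℂ) * z 0 - (b2 : ℂ) * z 1 +
            ((e1 : ℂ) + e2 * I))) * cexp (-(2 * Real.pi * I * (a2 * z 0 + p * I))) =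
          cexp (2 * Real.pi * I * z 2) *
            cexp (2 * Real.pi * I * (((0 : ℤ) : ℂ) + ((e2 - p + q : ℤ) : ℂ) * I)) *
            cexp (-(2 * Real.pi * I * (b2 * z 1 + q * I))) := by
        rw [← Complex.exp_add, ← Complex.exp_add, ← Complex.exp_add, ← mul_one (cexp (_ + _ + _)),
          ← hC, ← Complex.exp_add]
        congr 1
        push_cast
        ring
      have hgen : ∀ X A W E Bq t0 t1 : ℂ, Bq ≠ 0 → t1 ≠ 0 → X * A = W * E * Bq →
          X * (A * t0 / (Bq * t1)) = W * (t0 / t1) * E := by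
        intro X A W E Bq t0 t1 hBq ht1 h
        field_simp
        linear_combination t0 * h
      exact hgen _ _ _ _ _ _ _ hE h1 key
    obtain ⟨m, hm⟩ := sm_int_of_exp_eq hexp
    refine ⟨m, e2 - p + q, ?_⟩
    rw [hm]
    push_cast
    ring
  obtain ⟨m, n, hmn⟩ := hU
  by_cases h2 : th (U z) = 0
  · have hB : Bad z := Or.inr (Or.inr h2)
    have hB' : Bad z' := Or.inr (Or.inr (by rw [hmn]; exact sm_th_zero_add h2 _ _))
    unfold phi
    rw [if_pos hB, if_pos hB']
  have h2' : th (U z') ≠ 0 := by rw [hmn]; exact sm_th_ne_zero_add h2 _ _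
  have hB : ¬ Bad z := by
    rintro (h | h | h)
    exacts [h0 h, h1 h, h2 h]
  have hB' : ¬ Bad z' := by
    rintro (h | h | h)
    exacts [h0' h, h1' h, h2' h]
  unfold phi
  rw [if_neg hB, if_neg hB', hmn, sm_Nf_shift h2, hz0, hz1, sm_rho_add h0, sm_rho_add h1]

/-! ### local branches of `U` -/

theorem sm_branch {z₀ : C3} (h0 : th (z₀ 0) ≠ 0) (h1 : th (z₀ 1) ≠ 0) :
    ∃ V : C3 → ℂ, ContDiffAt ℝ ∞ V z₀ ∧ V z₀ = U z₀ ∧
      ∀ᶠ z in 𝓝 z₀, th (z 0) ≠ 0 ∧ th (z 1) ≠ 0 ∧ ∃ m : ℤ, U z = V z + m := by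
  have hp0 : ContDiff ℝ ∞ fun z : C3 => z 0 := contDiff_apply ℝ ℂ 0
  have hp1 : ContDiff ℝ ∞ fun z : C3 => z 1 := contDiff_apply ℝ ℂ 1
  have hp2 : ContDiff ℝ ∞ fun z : C3 => z 2 := contDiff_apply ℝ ℂ 2
  have ht0 : ContDiff ℝ ∞ fun z : C3 => th (z 0) := sm_th_contDiff.comp hp0
  have ht1 : ContDiff ℝ ∞ fun z : C3 => th (z 1) := sm_th_contDiff.comp hp1
  refine ⟨fun z => U z₀ + (z 2 - z₀ 2) + 1 / (2 * Real.pi * I) *
    (Complex.log (th (z 0) / th (z₀ 0)) - Complex.log (th (z 1) / th (z₀ 1))), ?_, ?_, ?_⟩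
  · have hl0 : ContDiffAt ℝ ∞ (fun z : C3 => Complex.log (th (z 0) / th (z₀ 0))) z₀ := by
      have h2 : ContDiffAt ℝ ∞ (fun z : C3 => th (z 0) / th (z₀ 0)) z₀ :=
        (ht0.div_const _).contDiffAt
      have h3 : ContDiffAt ℝ ∞ Complex.log (th (z₀ 0) / th (z₀ 0)) := by
        rw [div_self h0]
        exact (Complex.contDiffAt_log Complex.one_mem_slitPlane).restrict_scalars ℝ
      exact h3.comp z₀ h2
    have hl1 : ContDiffAt ℝ ∞ (fun z : C3 => Complex.log (th (z 1) / th (z₀ 1))) z₀ := by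
      have h2 : ContDiffAt ℝ ∞ (fun z : C3 => th (z 1) / th (z₀ 1)) z₀ :=
        (ht1.div_const _).contDiffAt
      have h3 : ContDiffAt ℝ ∞ Complex.log (th (z₀ 1) / th (z₀ 1)) := by
        rw [div_self h1]
        exact (Complex.contDiffAt_log Complex.one_mem_slitPlane).restrict_scalars ℝ
      exact h3.comp z₀ h2
    exact ((contDiffAt_const.add (hp2.contDiffAt.sub contDiffAt_const)).add
      (contDiffAt_const.mul (hl0.sub hl1)))
  · simp [div_self h0, div_self h1]
  · filter_upwards [ht0.continuous.continuousAt.eventually_ne h0,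
      ht1.continuous.continuousAt.eventually_ne h1] with z hz0 hz1
    refine ⟨hz0, hz1, ?_⟩
    apply sm_int_of_exp_eq
    rw [sm_exp_U hz0 hz1]
    have hpi : (2 * (Real.pi : ℂ) * I) ≠ 0 := Complex.two_pi_I_ne_zero
    have h2 : 2 * (Real.pi : ℂ) * I * (U z₀ + (z 2 - z₀ 2) + 1 / (2 * Real.pi * I) *
        (Complex.log (th (z 0) / th (z₀ 0)) - Complex.log (th (z 1) / th (z₀ 1)))) =
        2 * Real.pi * I * U z₀ + (2 * Real.pi * I * z 2 - 2 * Real.pi * I * z₀ 2) +
        (Complex.log (th (z 0) / th (z₀ 0)) - Complex.log (th (z 1) / th (z₀ 1))) := by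
      field_simp
    rw [h2, Complex.exp_add, Complex.exp_add, Complex.exp_sub, Complex.exp_sub,
      Complex.exp_log (div_ne_zero hz0 h0), Complex.exp_log (div_ne_zero hz1 h1), sm_exp_U h0 h1]
    have hE := Complex.exp_ne_zero (2 * Real.pi * I * z₀ 2)
    field_simp

/-! ### smoothness of `phi` -/

theorem sm_Nf_comp {k c κ : ℝ} (hk : 0 < k) {z₀ : C3} {r1 r2 T b : C3 → ℝ}
    (h1 : ContDiffAt ℝ ∞ r1 z₀) (h2 : ContDiffAt ℝ ∞ r2 z₀) (hT : ContDiffAt ℝ ∞ T z₀)
    (hb : ContDiffAt ℝ ∞ b z₀) (hT0 : 0 ≤ T z₀) :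
    ContDiffAt ℝ ∞ (fun z => Nf k c κ (r1 z) (r2 z) (T z) (b z)) z₀ := by
  unfold Nf
  have hP : ContDiffAt ℝ ∞ (fun z => Pf k c (r1 z - r2 z)) z₀ :=
    (sm_Pf_contDiff k c).contDiffAt.comp z₀ (h1.sub h2)
  have hF : ContDiffAt ℝ ∞ (fun z => ff (b z)) z₀ := sm_ff_contDiff.contDiffAt.comp z₀ hb
  have hE : ContDiffAt ℝ ∞ (fun z => Ef k (r1 z - r2 z - ff (b z))) z₀ :=
    (sm_Ef_contDiff k).contDiffAt.comp z₀ ((h1.sub h2).sub hF)
  have hG : ContDiffAt ℝ ∞ (fun z => Gf k (T z)) z₀ := by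
    have := (sm_Gf_contDiffAt (T := T z₀) hk hT0)
    exact this.comp z₀ hT
  exact ((contDiffAt_const.add (contDiffAt_const.mul (h1.add h2))).sub hP).add
    ((contDiffAt_const.mul hG).mul hE)

/-- `phi` is constant near the bad points -/
theorem phi_eventually_const {k c κ M : ℝ} (hk : 0 < k) (hκ : 0 < κ) (hc0 : 0 < c) (hc : c < 1)
    (hM : 1 ≤ M) {z₀ : C3} (hz : Bad z₀) : ∀ᶠ z in 𝓝 z₀, phi k c κ M z = Phi k M (2 * M) := by
  have hN : ∀ z, ¬ Bad z → 2 - c + k * (1 - c) * (rho (z 0) + rho (z 1)) +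
      k ^ 2 * κ * Gf k (rho (U z)) * Ef k (rho (z 0) - rho (z 1) - ff (U z).im) ≤
      Nf k c κ (rho (z 0)) (rho (z 1)) (rho (U z)) (U z).im := by
    intro z hz
    unfold Bad at hz
    push Not at hz
    exact sm_Nf_ge hk hc0 (rho_nonneg hz.1) (rho_nonneg hz.2.1)
  -- it suffices to be large near the bad points
  have hbig : (∀ᶠ z in 𝓝 z₀, ¬ Bad z →
      2 * M ≤ Nf k c κ (rho (z 0)) (rho (z 1)) (rho (U z)) (U z).im) →
      ∀ᶠ z in 𝓝 z₀, phi k c κ M z = Phi k M (2 * M) := by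
    intro h
    filter_upwards [h] with z hz
    unfold phi
    split_ifs with hB
    · rfl
    · exact sm_Phi_const hM (hz hB)
  have hcoef : 0 < k * (1 - c) := mul_pos hk (by linarith)
  have hGE : ∀ z, ¬ Bad z → 0 ≤ k ^ 2 * κ * Gf k (rho (U z)) *
      Ef k (rho (z 0) - rho (z 1) - ff (U z).im) := by
    intro z hz
    unfold Bad at hz
    push Not at hz
    have h1 := sm_Gf_nonneg hk (rho_nonneg hz.2.2)
    have h2 := sm_Ef_pos k (rho (z 0) - rho (z 1) - ff (U z).im)
    positivity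
  have hc0' : Continuous fun z : C3 => z 0 := continuous_apply 0
  have hc1' : Continuous fun z : C3 => z 1 := continuous_apply 1
  by_cases h0 : th (z₀ 0) = 0
  · apply hbig
    have h1 := hc0'.continuousAt.eventually (rho_large h0 (2 * M / (k * (1 - c))))
    filter_upwards [h1] with z hz hB
    have hNz := hN z hB
    have hGz := hGE z hB
    unfold Bad at hB
    push Not at hB
    rcases hz with hz | hz
    · exact absurd hz hB.1
    · rw [div_lt_iff₀ hcoef] at hz
      have := rho_nonneg hB.2.1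
      nlinarith [mul_nonneg hcoef.le this]
  by_cases h1 : th (z₀ 1) = 0
  · apply hbig
    have h1 := hc1'.continuousAt.eventually (rho_large h1 (2 * M / (k * (1 - c))))
    filter_upwards [h1] with z hz hB
    have hNz := hN z hB
    have hGz := hGE z hB
    unfold Bad at hB
    push Not at hB
    rcases hz with hz | hz
    · exact absurd hz hB.2.1
    · rw [div_lt_iff₀ hcoef] at hz
      have := rho_nonneg hB.1
      nlinarith [mul_nonneg hcoef.le this]
  obtain ⟨V, hV, hV0, hVev⟩ := sm_branch h0 h1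
  have hp0 : ContDiff ℝ ∞ fun z : C3 => z 0 := contDiff_apply ℝ ℂ 0
  have hp1 : ContDiff ℝ ∞ fun z : C3 => z 1 := contDiff_apply ℝ ℂ 1
  have hr0 : ContDiffAt ℝ ∞ (fun z : C3 => rho (z 0)) z₀ :=
    ContDiffAt.comp (g := rho) (f := fun z : C3 => z 0) z₀ (sm_rho_contDiffAt h0) hp0.contDiffAt
  have hr1 : ContDiffAt ℝ ∞ (fun z : C3 => rho (z 1)) z₀ :=
    ContDiffAt.comp (g := rho) (f := fun z : C3 => z 1) z₀ (sm_rho_contDiffAt h1) hp1.contDiffAt
  have h2 : th (U z₀) = 0 := by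
    rcases hz with hz | hz | hz
    exacts [absurd hz h0, absurd hz h1, hz]
  apply hbig
  -- bound for the argument of `E`
  set R : ℝ := |rho (z₀ 0)| + |rho (z₀ 1)| + 3 with hR
  have hb0 : ∀ᶠ z in 𝓝 z₀, |rho (z 0)| < |rho (z₀ 0)| + 1 :=
    hr0.continuousAt.abs.eventually_lt continuousAt_const (by linarith)
  have hb1 : ∀ᶠ z in 𝓝 z₀, |rho (z 1)| < |rho (z₀ 1)| + 1 :=
    hr1.continuousAt.abs.eventually_lt continuousAt_const (by linarith)
  set e0 : ℝ := Real.exp (-k * R) with he0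
  have he0pos : 0 < e0 := Real.exp_pos _
  -- bound for `G`
  set L : ℝ := 2 * M / (k ^ 2 * κ * e0) with hL
  have hLpos : 0 < L := by positivity
  set B : ℝ := (Real.exp (8 * k ^ 3 * L) - 1) / (8 * k ^ 3) with hB
  have hGB : ∀ T, B < T → L ≤ Gf k T := by
    intro T hT
    unfold Gf
    have hk3 : 0 < 8 * k ^ 3 := by positivity
    rw [hB, div_lt_iff₀ hk3] at hT
    have h3 : Real.exp (8 * k ^ 3 * L) ≤ 1 + 8 * k ^ 3 * T := by nlinarith
    have h4 : 8 * k ^ 3 * L ≤ Real.log (1 + 8 * k ^ 3 * T) := by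
      rw [Real.le_log_iff_exp_le (lt_of_lt_of_le (Real.exp_pos _) h3)]
      exact h3
    rw [one_div, inv_mul_eq_div, le_div_iff₀ hk3]
    linarith
  have h3 : th (V z₀) = 0 := by rw [hV0]; exact h2
  have h4 := hV.continuousAt.eventually (rho_large h3 B)
  filter_upwards [hVev, h4, hb0, hb1] with z hz hz4 hzb0 hzb1 hBad
  obtain ⟨hz0, hz1, m, hm⟩ := hz
  have hNz := hN z hBad
  have hBad' := hBad
  unfold Bad at hBad'
  push Not at hBad'
  have hthV : th (V z) ≠ 0 := by
    intro h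
    apply hBad'.2.2
    rw [hm, sm_th_add_int, h]
  have hrho : rho (U z) = rho (V z) := by rw [hm, sm_rho_add_int]
  have hT : B < rho (U z) := by
    rw [hrho]
    exact hz4.resolve_left hthV
  have hG := hGB _ hT
  have hE : e0 ≤ Ef k (rho (z 0) - rho (z 1) - ff (U z).im) := by
    apply sm_Ef_ge hk
    have h5 := sm_abs_ff_le (U z).im
    have h6 : |rho (z 0) - rho (z 1) - ff (U z).im| ≤
        |rho (z 0)| + |rho (z 1)| + |ff (U z).im| := by
      calc |rho (z 0) - rho (z 1) - ff (U z).im| ≤ |rho (z 0) - rho (z 1)| + |ff (U z).im| :=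
            abs_sub _ _
        _ ≤ |rho (z 0)| + |rho (z 1)| + |ff (U z).im| := by
            have := abs_sub (rho (z 0)) (rho (z 1))
            linarith
    linarith
  have h7 : 2 * M ≤ k ^ 2 * κ * Gf k (rho (U z)) *
      Ef k (rho (z 0) - rho (z 1) - ff (U z).im) := by
    calc 2 * M = k ^ 2 * κ * L * e0 := by
          rw [hL]; field_simp
      _ ≤ k ^ 2 * κ * Gf k (rho (U z)) * Ef k (rho (z 0) - rho (z 1) - ff (U z).im) := by
          apply mul_le_mul _ hE he0pos.le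
          · have := hLpos.le.trans hG
            positivity
          · exact mul_le_mul_of_nonneg_left hG (by positivity)
  have h8 : 0 ≤ k * (1 - c) * (rho (z 0) + rho (z 1)) :=
    mul_nonneg hcoef.le (add_nonneg (rho_nonneg hBad'.1) (rho_nonneg hBad'.2.1))
  linarith

theorem phi_contDiff {k c κ M : ℝ} (hk : 0 < k) (hκ : 0 < κ) (hc0 : 0 < c) (hc : c < 1)
    (hM : 1 ≤ M) : ContDiff ℝ ∞ (phi k c κ M) := by
  rw [contDiff_iff_contDiffAt]
  intro z₀
  by_cases hbad : Bad z₀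
  · exact contDiffAt_const.congr_of_eventuallyEq (phi_eventually_const hk hκ hc0 hc hM hbad)
  have hbad' := hbad
  unfold Bad at hbad'
  push Not at hbad'
  obtain ⟨h0, h1, h2⟩ := hbad'
  have hcoef : 0 < k * (1 - c) := mul_pos hk (by linarith)
  obtain ⟨V, hV, hV0, hVev⟩ := sm_branch h0 h1
  have hp0 : ContDiff ℝ ∞ fun z : C3 => z 0 := contDiff_apply ℝ ℂ 0
  have hp1 : ContDiff ℝ ∞ fun z : C3 => z 1 := contDiff_apply ℝ ℂ 1
  have hr0 : ContDiffAt ℝ ∞ (fun z : C3 => rho (z 0)) z₀ :=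
    ContDiffAt.comp (g := rho) (f := fun z : C3 => z 0) z₀ (sm_rho_contDiffAt h0) hp0.contDiffAt
  have hr1 : ContDiffAt ℝ ∞ (fun z : C3 => rho (z 1)) z₀ :=
    ContDiffAt.comp (g := rho) (f := fun z : C3 => z 1) z₀ (sm_rho_contDiffAt h1) hp1.contDiffAt
  have h3 : th (V z₀) ≠ 0 := by rw [hV0]; exact h2
  have hgood : ∀ᶠ z in 𝓝 z₀, th (V z) ≠ 0 := by
    have hcont : ContinuousAt (fun z => th (V z)) z₀ :=
      sm_th_contDiff.continuous.continuousAt.comp hV.continuousAt
    exact hcont.eventually_ne h3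
  have heq : phi k c κ M =ᶠ[𝓝 z₀] fun z =>
      Phi k M (Nf k c κ (rho (z 0)) (rho (z 1)) (rho (V z)) (V z).im) := by
    filter_upwards [hVev, hgood] with z hz hzg
    obtain ⟨hz0, hz1, m, hm⟩ := hz
    have hB : ¬ Bad z := by
      rintro (h | h | h)
      · exact hz0 h
      · exact hz1 h
      · rw [hm, sm_th_add_int] at h
        exact hzg h
    unfold phi
    rw [if_neg hB]
    have him : (U z).im = (V z).im := by rw [hm]; simp
    rw [him, hm, sm_rho_add_int]
  refine ContDiffAt.congr_of_eventuallyEq ?_ heq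
  have hrV : ContDiffAt ℝ ∞ (fun z : C3 => rho (V z)) z₀ :=
    (sm_rho_contDiffAt h3).comp z₀ hV
  have hIm : ContDiffAt ℝ ∞ (fun z : C3 => (V z).im) z₀ :=
    Complex.imCLM.contDiff.contDiffAt.comp z₀ hV
  have hNsm : ContDiffAt ℝ ∞ (fun z : C3 =>
      Nf k c κ (rho (z 0)) (rho (z 1)) (rho (V z)) (V z).im) z₀ :=
    sm_Nf_comp hk hr0 hr1 hrV hIm (rho_nonneg h3)
  have hpos : 0 < Nf k c κ (rho (z₀ 0)) (rho (z₀ 1)) (rho (V z₀)) (V z₀).im := by
    have h4 := sm_Nf_ge (κ := κ) (T := rho (V z₀)) (b := (V z₀).im) hk hc0 (rho_nonneg h0)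
      (rho_nonneg h1)
    have h5 := sm_Gf_nonneg hk (rho_nonneg h3)
    have h6 := sm_Ef_pos k (rho (z₀ 0) - rho (z₀ 1) - ff (V z₀).im)
    have h7 : 0 ≤ k ^ 2 * κ * Gf k (rho (V z₀)) *
      Ef k (rho (z₀ 0) - rho (z₀ 1) - ff (V z₀).im) := by positivity
    have h8 : 0 ≤ k * (1 - c) * (rho (z₀ 0) + rho (z₀ 1)) :=
      mul_nonneg hcoef.le (add_nonneg (rho_nonneg h0) (rho_nonneg h1))
    linarith
  have hPhi : ContDiffAt ℝ ∞ (Phi k M)
      (Nf k c κ (rho (z₀ 0)) (rho (z₀ 1)) (rho (V z₀)) (V z₀).im) :=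
    (sm_Phi_contDiffOn k M).contDiffAt (isOpen_Ioi.mem_nhds hpos)
  exact ContDiffAt.comp (g := Phi k M) (f := fun z : C3 =>
    Nf k c κ (rho (z 0)) (rho (z 1)) (rho (V z)) (V z).im) z₀ hPhi hNsm

end Pool.Agent.MA87
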