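import Pool.Agent.MA87.EnergyC
import Pool.Agent.MA87.Levi
import Pool.Agent.MA87.Smooth

/-! # MP_87f2fd_gt, package EN, part D: the energy of one slice -/

open Complex MeasureTheory Filter Topology Set
open scoped ContDiff ENNReal

noncomputable section

namespace Pool.Agent.MA87.EN

theorem measurableSet_Q : MeasurableSet Q := by
  have : Q = re ⁻¹' Ici 0 ∩ re ⁻¹' Iio 1 ∩ (im ⁻¹' Ici 0 ∩ im ⁻¹' Iio 1) := by
    ext z; simp [Q, and_assoc]
  rw [this]
  exact ((measurable_re measurableSet_Ici).inter (measurable_re measurableSet_Iio)).inter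
    ((measurable_im measurableSet_Ici).inter (measurable_im measurableSet_Iio))

theorem volume_Q : volume Q = 1 := by
  have h2 := (Complex.volume_preserving_equiv_real_prod.symm
      Complex.measurableEquivRealProd).measure_preimage_equiv Q
  rw [← h2]
  have : Complex.measurableEquivRealProd.symm ⁻¹' Q = Ico (0 : ℝ) 1 ×ˢ Ico (0 : ℝ) 1 := by
    ext p
    simp [Q, Complex.measurableEquivRealProd_symm_apply, and_assoc]
  rw [this, Measure.volume_eq_prod, Measure.prod_prod, Real.volume_Ico]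
  simp

theorem integrableOn_Q {H : ℂ → ℝ} (hc : Continuous H) : IntegrableOn H Q := by
  apply IntegrableOn.mono_set (t := Icc (0 : ℝ) 1 ×ℂ Icc (0 : ℝ) 1)
  · exact hc.continuousOn.integrableOn_compact (isCompact_Icc.reProdIm isCompact_Icc)
  · intro w hw
    exact ⟨⟨hw.1, hw.2.1.le⟩, ⟨hw.2.2.1, hw.2.2.2.le⟩⟩

instance : IsFiniteMeasure (volume.restrict Q) :=
  ⟨by rw [Measure.restrict_apply_univ, volume_Q]; exact ENNReal.one_lt_top⟩

theorem ae_th_ne : ∀ᵐ u : ℂ, th u ≠ 0 := by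
  rw [ae_iff]; simpa using volume_th_zeros

theorem ae_th_add_ne (u0 : ℂ) : ∀ᵐ w : ℂ, th (w + u0) ≠ 0 :=
  (measurePreserving_add_right (volume : Measure ℂ) u0).quasiMeasurePreserving.ae ae_th_ne

/-- the shift `U - w` -/
def u0 (x y : ℂ) : ℂ := 1 / (2 * Real.pi * I) * (Complex.log (th x) - Complex.log (th y))

theorem phi_slice {k c κ M : ℝ} {x y : ℂ} (hx : th x ≠ 0) (hy : th y ≠ 0) (w : ℂ) :
    phi k c κ M ![x, y, w] = Ff k c κ M (rho x) (rho y) (w + u0 x y) := by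
  unfold phi Ff Bad
  have h0 : U ![x, y, w] = w + u0 x y := rfl
  simp [hx, hy, h0]

theorem hasFDerivAt_emb (x y w : ℂ) : HasFDerivAt (fun w : ℂ => (![x, y, w] : C3))
    (ContinuousLinearMap.pi fun j : Fin 3 => (if j = 2 then (1 : ℂ →L[ℝ] ℂ) else 0)) w := by
  rw [hasFDerivAt_pi]
  intro j
  fin_cases j
  · simpa using hasFDerivAt_const x w
  · simpa using hasFDerivAt_const y w
  · have h : HasFDerivAt (fun w : ℂ => w) (1 : ℂ →L[ℝ] ℂ) w := hasFDerivAt_id w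
    simpa using h

/-- squared norm of the `w`-derivative -/
def gsl (k c κ M : ℝ) (x y w : ℂ) : ℝ := ‖dz 2 (fun z => (phi k c κ M z : ℂ)) ![x, y, w]‖ ^ 2

theorem gsl_eq {k c κ M : ℝ} {x y : ℂ} (hphi : Differentiable ℝ (phi k c κ M)) (hx : th x ≠ 0)
    (hy : th y ≠ 0) (w : ℂ) : gsl k c κ M x y w =
      ((fderiv ℝ (Ff k c κ M (rho x) (rho y)) (w + u0 x y) 1) ^ 2 +
        (fderiv ℝ (Ff k c κ M (rho x) (rho y)) (w + u0 x y) I) ^ 2) / 4 := by
  have h1 := (hphi ![x, y, w]).hasFDerivAt.comp w (hasFDerivAt_emb x y w)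
  have h2 : (phi k c κ M ∘ fun w : ℂ => (![x, y, w] : C3)) =
      fun w => Ff k c κ M (rho x) (rho y) (w + u0 x y) := funext (phi_slice hx hy)
  rw [h2, hasFDerivAt_comp_add_right] at h1
  rw [h1.fderiv]
  have h3 : ∀ v : ℂ, (ContinuousLinearMap.pi fun j : Fin 3 => (if j = 2 then (1 : ℂ →L[ℝ] ℂ) else 0)) v =
      Pi.single 2 v := by
    intro v
    ext j
    fin_cases j <;> simp
  simp only [ContinuousLinearMap.comp_apply, h3]
  unfold gsl
  rw [dz_ofReal (hphi _), norm_mul, mul_pow, ← Complex.normSq_eq_norm_sq, ← Complex.normSq_eq_norm_sq,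
    Complex.normSq_apply, Complex.normSq_apply]
  simp
  ring

theorem continuous_dz {n : ℕ} {f : (Fin n → ℂ) → ℝ} (hf : ContDiff ℝ ∞ f) (j : Fin n) :
    Continuous fun z => dz j (fun w => (f w : ℂ)) z := by
  have hd : Differentiable ℝ f := hf.differentiable (by simp)
  have h1 : (fun z => dz j (fun w => (f w : ℂ)) z) = fun z =>
      (1 / 2) * ((fderiv ℝ f z (Pi.single j 1) : ℂ) - I * (fderiv ℝ f z (Pi.single j I) : ℂ)) := by
    funext z; exact dz_ofReal (hd z) j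
  rw [h1]
  have h2 : Continuous (fderiv ℝ f) := hf.continuous_fderiv (by simp)
  fun_prop

theorem continuous_gsl {k c κ M : ℝ} (hphi : ContDiff ℝ ∞ (phi k c κ M)) (x y : ℂ) :
    Continuous (gsl k c κ M x y) := by
  have h1 := continuous_dz hphi 2
  have h2 : Continuous fun w : ℂ => (![x, y, w] : C3) := by
    apply continuous_pi; intro j; fin_cases j
    · exact continuous_const
    · exact continuous_const
    · exact continuous_id
  exact (h1.comp h2).norm.pow 2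

theorem measurable_rho : Measurable rho := by
  have h1 : Measurable th := th_differentiable.continuous.measurable
  unfold rho rho0
  exact (((measurable_im.sub_const _).pow_const 2).div_const _ |>.sub
    ((h1.norm.log).const_mul _)).add_const _

theorem rho_nonneg' (u : ℂ) : 0 ≤ rho u := by
  by_cases h : th u = 0
  · unfold rho rho0
    rw [h]
    simp
    positivity
  · exact rho_nonneg h

variable {k c κ M r1 r2 : ℝ}

/-- the primitive `K` of `-h` -/
def Kf (k c κ M r1 r2 t : ℝ) : ℝ := κ * Psi M (Af k c r1 r2 + k ^ 2 * κ * t)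

theorem arg_pos (hk : 0 < k) (hκ : 0 < κ) (hc0 : 0 < c) (hc : c < 1) (h1 : 0 ≤ r1) (h2 : 0 ≤ r2)
    {t : ℝ} (ht : 0 ≤ t) : 1 < Af k c r1 r2 + k ^ 2 * κ * t := by
  have := Af_ge hk hc0 hc h1 h2
  have : 0 ≤ k ^ 2 * κ * t := by positivity
  linarith

theorem hasDerivAt_Kf (hk : 0 < k) (hκ : 0 < κ) (hc0 : 0 < c) (hc : c < 1) (hM : 0 < M)
    (h1 : 0 ≤ r1) (h2 : 0 ≤ r2) {t : ℝ} (ht : 0 ≤ t) :
    HasDerivAt (Kf k c κ M r1 r2) (-hh k c κ M r1 r2 t) t := by
  have ha := arg_pos hk hκ hc0 hc h1 h2 ht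
  have h3 : HasDerivAt (fun t : ℝ => Af k c r1 r2 + k ^ 2 * κ * t) (k ^ 2 * κ) t := by
    simpa using ((hasDerivAt_id t).const_mul (k ^ 2 * κ)).const_add (Af k c r1 r2)
  have h4 := ((hasDerivAt_Psi hM (lt_trans one_pos ha)).comp t h3).const_mul κ
  refine h4.congr_deriv ?_
  unfold hh
  ring

theorem hh_continuousAt (hk : 0 < k) (hκ : 0 < κ) (hc0 : 0 < c) (hc : c < 1)
    (h1 : 0 ≤ r1) (h2 : 0 ≤ r2) {t : ℝ} (ht : 0 ≤ t) :
    ContinuousAt (fun t => -hh k c κ M r1 r2 t) t := by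
  have ha := arg_pos hk hκ hc0 hc h1 h2 ht
  have h3 : ContinuousAt (fun t : ℝ => Af k c r1 r2 + k ^ 2 * κ * t) t := by fun_prop
  have h4 : ContinuousAt (fun t : ℝ => psi M (Af k c r1 r2 + k ^ 2 * κ * t)) t :=
    (psi_continuous M).continuousAt.comp h3
  unfold hh
  exact ((continuousAt_const.mul (h4.div h3 (by positivity))).pow 2).neg

theorem far_arg (hk : 0 < k) (hκ : 0 < κ) (hc0 : 0 < c) (hc : c < 1)
    (h1 : 0 ≤ r1) (h2 : 0 ≤ r2) {t : ℝ} (ht : 2 * M / (k ^ 2 * κ) < t) :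
    2 * M ≤ Af k c r1 r2 + k ^ 2 * κ * t := by
  have := Af_ge hk hc0 hc h1 h2
  rw [div_lt_iff₀ (by positivity)] at ht
  nlinarith

theorem Kf_zero (hk : 0 < k) (hκ : 0 < κ) (hc0 : 0 < c) (hc : c < 1) (hM : 0 < M)
    (h1 : 0 ≤ r1) (h2 : 0 ≤ r2) (t : ℝ) (ht : 2 * M / (k ^ 2 * κ) < t) :
    Kf k c κ M r1 r2 t = 0 := by
  unfold Kf
  rw [Psi_eq_zero hM (far_arg hk hκ hc0 hc h1 h2 ht), mul_zero]

theorem hh_zero (hk : 0 < k) (hκ : 0 < κ) (hc0 : 0 < c) (hc : c < 1) (hM : 0 < M)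
    (h1 : 0 ≤ r1) (h2 : 0 ≤ r2) (t : ℝ) (ht : 2 * M / (k ^ 2 * κ) < t) :
    -hh k c κ M r1 r2 t = 0 := by
  unfold hh
  rw [psi_eq_zero hM (far_arg hk hκ hc0 hc h1 h2 ht)]
  simp

/-- the first integral -/
def I1 (k c κ M r1 r2 : ℝ) (u0 : ℂ) : ℝ :=
  ∫ w in Q, ext0 (fun u => Kf k c κ M r1 r2 (rho u)) (w + u0)

/-- the second integral -/
def I2 (k κ : ℝ) (u0 : ℂ) : ℝ := ∫ w in Q, min 1 (k ^ 2 * κ * rho (w + u0))

theorem I2_integrable (k κ : ℝ) (hκ : 0 < κ) (u0 : ℂ) :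
    IntegrableOn (fun w => min 1 (k ^ 2 * κ * rho (w + u0))) Q := by
  have hm : Measurable fun w => min 1 (k ^ 2 * κ * rho (w + u0)) :=
    measurable_const.min ((measurable_rho.comp (measurable_id.add_const u0)).const_mul _)
  refine Integrable.mono' (integrable_const (1 : ℝ)) hm.aestronglyMeasurable (ae_of_all _ fun w => ?_)
  have h0 := rho_nonneg' (w + u0)
  rw [Real.norm_eq_abs, abs_of_nonneg (by positivity)]
  exact min_le_left _ _

theorem slice_lower (hk : 0 < k) (hκ : 0 < κ) (hc0 : 0 < c) (hc : c < 1) (hM : 1 ≤ M)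
    {C : ℝ} (hC : ∀ t : ℝ, |deriv gg (t - round t)| ≤ C)
    {e : ℝ} (he : 0 < e) (he1 : e < 1) {x y : ℂ} (hx : th x ≠ 0) (hy : th y ≠ 0) :
    (1 - e) * (ck k κ M (rho x) (rho y) / 4) * I1 k c κ M (rho x) (rho y) (u0 x y) -
      1 / (4 * e) * (C ^ 2 * I2 k κ (u0 x y)) ≤ ∫ w in Q, gsl k c κ M x y w := by
  have h1 := rho_nonneg hx
  have h2 := rho_nonneg hy
  have hM0 : 0 < M := by linarith
  have hphi : ContDiff ℝ ∞ (phi k c κ M) := phi_contDiff hk hκ hc0 hc hM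
  have hdiff : Differentiable ℝ (phi k c κ M) := hphi.differentiable (by simp)
  set r1 := rho x with hr1
  set r2 := rho y with hr2
  set G1 : ℂ → ℝ := ext0 (fun u => -(4 * (-hh k c κ M r1 r2 (rho u))) * ‖rhoz u‖ ^ 2) with hG1
  have hgreen : ∫ w in Q, G1 (w + u0 x y) = I1 k c κ M r1 r2 (u0 x y) :=
    green (K := Kf k c κ M r1 r2) (K' := fun t => -hh k c κ M r1 r2 t)
      (fun t ht => hasDerivAt_Kf hk hκ hc0 hc hM0 h1 h2 ht)
      (fun t ht => hh_continuousAt hk hκ hc0 hc h1 h2 ht)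
      (Kf_zero hk hκ hc0 hc hM0 h1 h2) (hh_zero hk hκ hc0 hc hM0 h1 h2) (u0 x y)
  have hG1c : Continuous G1 :=
    green_K'_continuous (K' := fun t => -hh k c κ M r1 r2 t)
      (fun t ht => hh_continuousAt hk hκ hc0 hc h1 h2 ht) (hh_zero hk hκ hc0 hc hM0 h1 h2)
  have hi1 : IntegrableOn (fun w => G1 (w + u0 x y)) Q := integrableOn_Q (by fun_prop)
  have hi2 := I2_integrable k κ hκ (u0 x y)
  have hlow : (1 - e) * (ck k κ M r1 r2 / 4) * I1 k c κ M r1 r2 (u0 x y) -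
      1 / (4 * e) * (C ^ 2 * I2 k κ (u0 x y)) = ∫ w in Q,
      ((1 - e) * (ck k κ M r1 r2 / 4) * G1 (w + u0 x y) -
        1 / (4 * e) * (C ^ 2 * min 1 (k ^ 2 * κ * rho (w + u0 x y)))) := by
    rw [integral_sub (hi1.const_mul _) ((hi2.const_mul _).const_mul _), integral_const_mul,
      integral_const_mul, integral_const_mul, hgreen]
    rfl
  rw [hlow]
  apply integral_mono_ae
  · exact (hi1.const_mul _).sub ((hi2.const_mul _).const_mul _)
  · exact integrableOn_Q (continuous_gsl hphi x y)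
  · filter_upwards [ae_restrict_of_ae (ae_th_add_ne (u0 x y))] with w hw
    rw [gsl_eq hdiff hx hy w]
    have h3 := grad_lower (M := M) hk hκ hc0 hc hM h1 h2 hC he he1 hw
    rw [hG1, ext0_of_ne hw]
    have h4 : -(4 * (-hh k c κ M r1 r2 (rho (w + u0 x y)))) * ‖rhoz (w + u0 x y)‖ ^ 2 =
        4 * hh k c κ M r1 r2 (rho (w + u0 x y)) * ‖rhoz (w + u0 x y)‖ ^ 2 := by ring
    rw [h4]
    exact h3

end Pool.Agent.MA87.EN
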