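import Pool.Agent.MA87.EnergyD

/-! # MP_87f2fd_gt, package EN, part E: the limit of the energy of one slice -/

open Complex MeasureTheory Filter Topology Set
open scoped ContDiff ENNReal

noncomputable section

namespace Pool.Agent.MA87.EN

/-- `k_n = 1/(n+1)` -/
def kn (n : ℕ) : ℝ := 1 / ((n : ℝ) + 1)

theorem kn_pos (n : ℕ) : 0 < kn n := by unfold kn; positivity

theorem kn_tendsto : Tendsto kn atTop (𝓝 0) := tendsto_one_div_add_atTop_nhds_zero_nat

variable {c κ M r1 r2 : ℝ}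

theorem Ef_tendsto (t : ℝ) : Tendsto (fun n => Ef (kn n) t) atTop (𝓝 1) := by
  have h : Tendsto (fun n => Real.exp (-kn n * qf t)) atTop (𝓝 (Real.exp (-0 * qf t))) :=
    (Real.continuous_exp.tendsto _).comp ((kn_tendsto.neg).mul_const _)
  unfold Ef
  simpa using h

theorem Af_tendsto : Tendsto (fun n => Af (kn n) c r1 r2) atTop (𝓝 (2 - c)) := by
  have h1 : Tendsto (fun n => 2 + kn n * (r1 + r2) - (c * kn n * qf (r1 - r2) +
      c / (1 + kn n) * Ef (kn n) (r1 - r2))) atTop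
      (𝓝 (2 + 0 * (r1 + r2) - (c * 0 * qf (r1 - r2) + c / (1 + 0) * 1))) := by
    refine Tendsto.sub ((kn_tendsto.mul_const _).const_add _)
      (Tendsto.add ((kn_tendsto.const_mul c).mul_const _) (Tendsto.mul ?_ (Ef_tendsto _)))
    exact Tendsto.div tendsto_const_nhds (kn_tendsto.const_add 1) (by norm_num)
  have h2 : 2 + 0 * (r1 + r2) - (c * 0 * qf (r1 - r2) + c / (1 + 0) * 1) = 2 - c := by ring
  rw [h2] at h1
  exact h1

theorem arg_tendsto (t : ℝ) :
    Tendsto (fun n => Af (kn n) c r1 r2 + kn n ^ 2 * κ * t) atTop (𝓝 (2 - c)) := by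
  have h1 := (Af_tendsto (c := c) (r1 := r1) (r2 := r2)).add
    (((kn_tendsto.pow 2).mul_const κ).mul_const t)
  simpa using h1

theorem Kf_tendsto (hc : c < 1) (hM : 0 < M) (t : ℝ) :
    Tendsto (fun n => Kf (kn n) c κ M r1 r2 t) atTop (𝓝 (κ * Psi M (2 - c))) := by
  unfold Kf
  apply Tendsto.const_mul
  have h := (hasDerivAt_Psi hM (show 0 < 2 - c by linarith)).continuousAt
  exact h.tendsto.comp (arg_tendsto t)

theorem ck_tendsto : Tendsto (fun n => ck (kn n) κ M r1 r2) atTop (𝓝 1) := by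
  unfold ck
  have h1 : Tendsto (fun n => Real.exp (-kn n * (|r1 - r2| + 1))) atTop
      (𝓝 (Real.exp (-0 * (|r1 - r2| + 1)))) :=
    (Real.continuous_exp.tendsto _).comp ((kn_tendsto.neg).mul_const _)
  have h2 : Tendsto (fun n => 1 / (1 + 16 * kn n * M / κ)) atTop (𝓝 (1 / (1 + 16 * 0 * M / κ))) := by
    refine Tendsto.div tendsto_const_nhds (Tendsto.const_add _ ?_) (by simp)
    exact ((kn_tendsto.const_mul 16).mul_const M).div_const κ
  have h3 := (h1.mul h2).pow 2
  simpa using h3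

theorem I1_tendsto (hκ : 0 < κ) (hc0 : 0 < c) (hc : c < 1) (hM : 0 < M)
    (h1 : 0 ≤ r1) (h2 : 0 ≤ r2) (u0 : ℂ) :
    Tendsto (fun n => I1 (kn n) c κ M r1 r2 u0) atTop (𝓝 (κ * Psi M (2 - c))) := by
  have hlim : κ * Psi M (2 - c) = ∫ w in Q, κ * Psi M (2 - c) := by
    rw [setIntegral_const, Measure.real, volume_Q]; simp
  rw [hlim]
  unfold I1
  apply tendsto_integral_of_dominated_convergence (fun _ => κ)
  · intro n
    have hk := kn_pos n
    have hc1 : Continuous (ext0 fun u => Kf (kn n) c κ M r1 r2 (rho u)) :=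
      green_K_continuous (fun t ht => hasDerivAt_Kf hk hκ hc0 hc hM h1 h2 ht)
        (Kf_zero hk hκ hc0 hc hM h1 h2)
    have hc2 : Continuous fun w => ext0 (fun u => Kf (kn n) c κ M r1 r2 (rho u)) (w + u0) := by
      fun_prop
    exact hc2.aestronglyMeasurable
  · exact integrable_const κ
  · intro n
    refine ae_of_all _ fun w => ?_
    by_cases h : th (w + u0) = 0
    · rw [ext0_of_eq h, norm_zero]; exact hκ.le
    · rw [ext0_of_ne h]
      have ha := arg_pos (kn_pos n) hκ hc0 hc h1 h2 (rho_nonneg h)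
      have h0 := Psi_nonneg (M := M) (a := Af (kn n) c r1 r2 + kn n ^ 2 * κ * rho (w + u0)) hM
      have h3 := Psi_le_inv (M := M) hM (lt_trans one_pos ha)
      have h4 : 1 / (Af (kn n) c r1 r2 + kn n ^ 2 * κ * rho (w + u0)) ≤ 1 := by
        rw [div_le_one (by linarith)]; exact ha.le
      unfold Kf
      rw [Real.norm_eq_abs, abs_of_nonneg (by positivity)]
      nlinarith
  · filter_upwards [ae_restrict_of_ae (ae_th_add_ne u0)] with w hw
    have h3 : ∀ n, ext0 (fun u => Kf (kn n) c κ M r1 r2 (rho u)) (w + u0) =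
        Kf (kn n) c κ M r1 r2 (rho (w + u0)) := fun n => ext0_of_ne hw
    simp only [h3]
    exact Kf_tendsto hc hM _

theorem I2_tendsto (hκ : 0 < κ) (u0 : ℂ) : Tendsto (fun n => I2 (kn n) κ u0) atTop (𝓝 0) := by
  have hlim : (0 : ℝ) = ∫ w in Q, (0 : ℝ) := by simp
  rw [hlim]
  unfold I2
  apply tendsto_integral_of_dominated_convergence (fun _ => 1)
  · intro n
    exact (I2_integrable (kn n) κ hκ u0).aestronglyMeasurable
  · exact integrable_const 1
  · intro n
    refine ae_of_all _ fun w => ?_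
    have h0 := rho_nonneg' (w + u0)
    rw [Real.norm_eq_abs, abs_of_nonneg (by positivity)]
    exact min_le_left _ _
  · refine ae_of_all _ fun w => ?_
    have h1 : Tendsto (fun n => min 1 (kn n ^ 2 * κ * rho (w + u0))) atTop
        (𝓝 (min 1 (0 ^ 2 * κ * rho (w + u0)))) :=
      tendsto_const_nhds.min (((kn_tendsto.pow 2).mul_const κ).mul_const _)
    simpa using h1

theorem slice_eventually (hκ : 0 < κ) (hc0 : 0 < c) (hc : c < 1) (hM : 2 ≤ M)
    {x y : ℂ} (hx : th x ≠ 0) (hy : th y ≠ 0) {δ : ℝ} (hδ : 0 < δ) :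
    ∀ᶠ n in atTop, κ / 4 * (1 / (2 - c) - 1 / M) - δ ≤ ∫ w in Q, gsl (kn n) c κ M x y w := by
  obtain ⟨C, -, hC⟩ := exists_deriv_ff_bound
  have hM0 : 0 < M := by linarith
  set P := Psi M (2 - c) with hP
  have hP0 : 0 ≤ P := Psi_nonneg hM0
  have hP1 : P ≤ 1 := by
    refine (Psi_le_inv hM0 (by linarith)).trans ?_
    rw [div_le_one (by linarith)]; linarith
  have hP2 : 1 / (2 - c) - 1 / M ≤ P := Psi_ge (by linarith) (by linarith)
  obtain ⟨e, he, he1, heδ⟩ : ∃ e : ℝ, 0 < e ∧ e < 1 ∧ e * κ ≤ δ := by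
    refine ⟨min (1 / 2) (δ / κ), by positivity, (min_le_left _ _).trans_lt (by norm_num), ?_⟩
    have := min_le_right (1 / 2) (δ / κ)
    calc min (1 / 2) (δ / κ) * κ ≤ δ / κ * κ := mul_le_mul_of_nonneg_right this hκ.le
      _ = δ := by field_simp
  have hr1 := rho_nonneg hx
  have hr2 := rho_nonneg hy
  have hL : Tendsto (fun n => (1 - e) * (ck (kn n) κ M (rho x) (rho y) / 4) *
      I1 (kn n) c κ M (rho x) (rho y) (u0 x y) - 1 / (4 * e) * (C ^ 2 * I2 (kn n) κ (u0 x y)))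
      atTop (𝓝 ((1 - e) * (1 / 4) * (κ * P) - 1 / (4 * e) * (C ^ 2 * 0))) := by
    refine Tendsto.sub (Tendsto.mul ((ck_tendsto.div_const 4).const_mul _)
      (I1_tendsto hκ hc0 hc hM0 hr1 hr2 _)) (((I2_tendsto hκ _).const_mul _).const_mul _)
  have hlt : κ / 4 * (1 / (2 - c) - 1 / M) - δ <
      (1 - e) * (1 / 4) * (κ * P) - 1 / (4 * e) * (C ^ 2 * 0) := by
    have h1 : κ / 4 * (1 / (2 - c) - 1 / M) ≤ κ / 4 * P :=
      mul_le_mul_of_nonneg_left hP2 (by positivity)
    have h2 : e * κ * P ≤ δ := by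
      calc e * κ * P ≤ e * κ * 1 := mul_le_mul_of_nonneg_left hP1 (by positivity)
        _ ≤ δ := by rw [mul_one]; exact heδ
    linarith
  filter_upwards [hL.eventually_const_lt hlt] with n hn
  exact hn.le.trans (slice_lower (kn_pos n) hκ hc0 hc (by linarith) hC he he1 hx hy)

end Pool.Agent.MA87.EN
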