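import Pool.Agent.MA87.Defs

/-!
# MP_87f2fd_gt : a small second order jet calculus along complex lines
-/

open Complex MeasureTheory Filter Topology

noncomputable section

namespace Pool.Agent.MA87

/-- `g` has at `0` the value `a`, first derivative `a1`, second derivative `a2`. -/
def J1 (g : ℝ → ℝ) (a a1 a2 : ℝ) : Prop :=
  ∃ g' : ℝ → ℝ, g 0 = a ∧ (∀ᶠ r in 𝓝 (0 : ℝ), HasDerivAt g (g' r) r) ∧ g' 0 = a1 ∧
    HasDerivAt g' a2 0

theorem J1.hasDerivAt {g : ℝ → ℝ} {a a1 a2 : ℝ} (h : J1 g a a1 a2) : HasDerivAt g a1 0 := by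
  obtain ⟨g', _, h1, h2, _⟩ := h
  rw [← h2]; exact h1.self_of_nhds

theorem J1.tendsto {g : ℝ → ℝ} {a a1 a2 : ℝ} (h : J1 g a a1 a2) : Tendsto g (𝓝 0) (𝓝 a) := by
  have := h.hasDerivAt.continuousAt.tendsto
  obtain ⟨g', h0, _⟩ := h
  rwa [h0] at this

theorem J1.congr {g g₂ : ℝ → ℝ} {a a1 a2 : ℝ} (h : J1 g a a1 a2)
    (he : g₂ =ᶠ[𝓝 (0 : ℝ)] g) : J1 g₂ a a1 a2 := by
  obtain ⟨g', h0, h1, h2, h3⟩ := h
  refine ⟨g', ?_, ?_, h2, h3⟩
  · rw [he.self_of_nhds, h0]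
  · filter_upwards [h1, he.eventually_nhds] with r hr hr2
    exact hr.congr_of_eventuallyEq hr2

theorem J1.const (c : ℝ) : J1 (fun _ => c) c 0 0 :=
  ⟨fun _ => 0, rfl, Eventually.of_forall fun r => hasDerivAt_const r c, rfl, hasDerivAt_const _ _⟩

theorem J1.add {g h : ℝ → ℝ} {a a1 a2 b b1 b2 : ℝ} (hg : J1 g a a1 a2) (hh : J1 h b b1 b2) :
    J1 (fun r => g r + h r) (a + b) (a1 + b1) (a2 + b2) := by
  obtain ⟨g', g0, g1, g2, g3⟩ := hg
  obtain ⟨h', h0, h1, h2, h3⟩ := hh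
  refine ⟨fun r => g' r + h' r, by simp [g0, h0], ?_, by simp [g2, h2], g3.add h3⟩
  filter_upwards [g1, h1] with r hr1 hr2
  exact hr1.add hr2

theorem J1.mul {g h : ℝ → ℝ} {a a1 a2 b b1 b2 : ℝ} (hg : J1 g a a1 a2) (hh : J1 h b b1 b2) :
    J1 (fun r => g r * h r) (a * b) (a1 * b + a * b1) (a2 * b + 2 * (a1 * b1) + a * b2) := by
  have hg' := hg.hasDerivAt
  have hh' := hh.hasDerivAt
  obtain ⟨g', g0, g1, g2, g3⟩ := hg
  obtain ⟨h', h0, h1, h2, h3⟩ := hh
  refine ⟨fun r => g' r * h r + g r * h' r, by simp [g0, h0], ?_, by simp [g0, h0, g2, h2], ?_⟩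
  · filter_upwards [g1, h1] with r hr1 hr2
    exact hr1.mul hr2
  · have := (g3.mul hh').add (hg'.mul h3)
    refine HasDerivAt.congr_deriv (this : HasDerivAt (fun r => g' r * h r + g r * h' r) _ _) ?_
    rw [g0, h0, g2, h2]; ring

theorem J1.const_mul {g : ℝ → ℝ} {a a1 a2 : ℝ} (c : ℝ) (hg : J1 g a a1 a2) :
    J1 (fun r => c * g r) (c * a) (c * a1) (c * a2) := by
  have := (J1.const c).mul hg
  convert this using 1 <;> ring

theorem J1.neg {g : ℝ → ℝ} {a a1 a2 : ℝ} (hg : J1 g a a1 a2) :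
    J1 (fun r => - g r) (-a) (-a1) (-a2) := by
  have := hg.const_mul (-1)
  simpa using this

theorem J1.sub {g h : ℝ → ℝ} {a a1 a2 b b1 b2 : ℝ} (hg : J1 g a a1 a2) (hh : J1 h b b1 b2) :
    J1 (fun r => g r - h r) (a - b) (a1 - b1) (a2 - b2) := by
  have := hg.add hh.neg
  simpa [sub_eq_add_neg] using this

theorem J1.comp {g : ℝ → ℝ} {a a1 a2 : ℝ} (hg : J1 g a a1 a2) {h h' : ℝ → ℝ} {h2 : ℝ}
    (hh : ∀ᶠ s in 𝓝 a, HasDerivAt h (h' s) s) (hh' : HasDerivAt h' h2 a) :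
    J1 (fun r => h (g r)) (h a) (h' a * a1) (h2 * a1 ^ 2 + h' a * a2) := by
  have ht := hg.tendsto
  have hg' := hg.hasDerivAt
  obtain ⟨g', g0, g1, g2, g3⟩ := hg
  refine ⟨fun r => h' (g r) * g' r, by simp [g0], ?_, by simp [g0, g2], ?_⟩
  · filter_upwards [g1, ht.eventually hh] with r hr1 hr2
    exact hr2.comp r hr1
  · have e1 : HasDerivAt (fun r => h' (g r)) (h2 * a1) 0 := by
      have : HasDerivAt h' h2 (g 0) := by rwa [g0]
      exact this.comp 0 hg'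
    have := e1.mul g3
    refine HasDerivAt.congr_deriv (this : HasDerivAt (fun r => h' (g r) * g' r) _ _) ?_
    rw [g0, g2]; ring

theorem tendsto_line (v : ℂ) : Tendsto (fun r : ℝ => (r : ℂ) * v) (𝓝 0) (𝓝 (0 : ℂ)) := by
  have h : Continuous (fun r : ℝ => (r : ℂ) * v) := by fun_prop
  have := h.tendsto (0 : ℝ)
  simpa using this

/-- `F : ℂ → ℝ` has at `t = 0` the value `a`, `∂F/∂t = α`, `∂²F/∂t∂t̄ = L`. -/
def LJet (F : ℂ → ℝ) (a : ℝ) (α : ℂ) (L : ℝ) : Prop :=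
  ∃ c1 c2 : ℝ, J1 (fun r => F (r : ℂ)) a (2 * α.re) c1 ∧
    J1 (fun r => F ((r : ℂ) * I)) a (-2 * α.im) c2 ∧ c1 + c2 = 4 * L

theorem LJet.val {F : ℂ → ℝ} {a : ℝ} {α : ℂ} {L : ℝ} (h : LJet F a α L) : F 0 = a := by
  obtain ⟨c1, c2, ⟨_, h1, _⟩, _⟩ := h
  simpa using h1

theorem LJet.congr {F F₂ : ℂ → ℝ} {a : ℝ} {α : ℂ} {L : ℝ} (h : LJet F a α L)
    (he : F₂ =ᶠ[𝓝 (0 : ℂ)] F) : LJet F₂ a α L := by
  obtain ⟨c1, c2, h1, h2, h3⟩ := h
  refine ⟨c1, c2, h1.congr ?_, h2.congr ?_, h3⟩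
  · have : Tendsto (fun r : ℝ => (r : ℂ)) (𝓝 0) (𝓝 (0 : ℂ)) := by
      have := (Complex.continuous_ofReal.tendsto (0 : ℝ)); simpa using this
    exact this.eventually he
  · exact (tendsto_line I).eventually he

theorem LJet.const (c : ℝ) : LJet (fun _ => c) c 0 0 :=
  ⟨0, 0, by simpa using J1.const c, by simpa using J1.const c, by simp⟩

theorem LJet.add {F G : ℂ → ℝ} {a b : ℝ} {α β : ℂ} {L M : ℝ} (hF : LJet F a α L)
    (hG : LJet G b β M) : LJet (fun t => F t + G t) (a + b) (α + β) (L + M) := by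
  obtain ⟨c1, c2, h1, h2, h3⟩ := hF
  obtain ⟨d1, d2, k1, k2, k3⟩ := hG
  refine ⟨c1 + d1, c2 + d2, ?_, ?_, by linarith⟩
  · have := h1.add k1
    convert this using 1
    simp; ring
  · have := h2.add k2
    convert this using 1
    simp; ring

theorem LJet.mul {F G : ℂ → ℝ} {a b : ℝ} {α β : ℂ} {L M : ℝ} (hF : LJet F a α L)
    (hG : LJet G b β M) : LJet (fun t => F t * G t) (a * b) ((b : ℂ) * α + (a : ℂ) * β)
      (b * L + a * M + 2 * (α * (starRingEnd ℂ) β).re) := by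
  obtain ⟨c1, c2, h1, h2, h3⟩ := hF
  obtain ⟨d1, d2, k1, k2, k3⟩ := hG
  refine ⟨c1 * b + 2 * ((2 * α.re) * (2 * β.re)) + a * d1,
    c2 * b + 2 * ((-2 * α.im) * (-2 * β.im)) + a * d2, ?_, ?_, ?_⟩
  · have := h1.mul k1
    convert this using 1
    simp; ring
  · have := h2.mul k2
    convert this using 1
    simp; ring
  · have e1 : c2 = 4 * L - c1 := by linarith
    have e2 : d2 = 4 * M - d1 := by linarith
    simp only [mul_re, conj_re, conj_im, e1, e2]
    ring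

theorem LJet.const_mul {F : ℂ → ℝ} {a : ℝ} {α : ℂ} {L : ℝ} (c : ℝ) (hF : LJet F a α L) :
    LJet (fun t => c * F t) (c * a) ((c : ℂ) * α) (c * L) := by
  have := (LJet.const c).mul hF
  convert this using 1 <;> simp

theorem LJet.neg {F : ℂ → ℝ} {a : ℝ} {α : ℂ} {L : ℝ} (hF : LJet F a α L) :
    LJet (fun t => - F t) (-a) (-α) (-L) := by
  have := hF.const_mul (-1)
  simpa using this

theorem LJet.sub {F G : ℂ → ℝ} {a b : ℝ} {α β : ℂ} {L M : ℝ} (hF : LJet F a α L)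
    (hG : LJet G b β M) : LJet (fun t => F t - G t) (a - b) (α - β) (L - M) := by
  have := hF.add hG.neg
  simpa [sub_eq_add_neg] using this

theorem LJet.comp {F : ℂ → ℝ} {a : ℝ} {α : ℂ} {L : ℝ} (hF : LJet F a α L) {h h' : ℝ → ℝ}
    {h2 : ℝ} (hh : ∀ᶠ s in 𝓝 a, HasDerivAt h (h' s) s) (hh' : HasDerivAt h' h2 a) :
    LJet (fun t => h (F t)) (h a) ((h' a : ℂ) * α) (h' a * L + h2 * ‖α‖ ^ 2) := by
  obtain ⟨c1, c2, h1, h2', h3⟩ := hF
  refine ⟨h2 * (2 * α.re) ^ 2 + h' a * c1, h2 * (-2 * α.im) ^ 2 + h' a * c2, ?_, ?_, ?_⟩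
  · have := h1.comp hh hh'
    convert this using 1
    simp; ring
  · have := h2'.comp hh hh'
    convert this using 1
    simp; ring
  · have e1 : c2 = 4 * L - c1 := by linarith
    rw [← Complex.normSq_eq_norm_sq, Complex.normSq_apply, e1]
    ring

/-- restricting an analytic function to a real line -/
theorem hasDerivAt_line {h : ℂ → ℂ} (hh : AnalyticAt ℂ h 0) (v : ℂ) :
    ∀ᶠ r : ℝ in 𝓝 (0 : ℝ),
      HasDerivAt (fun r : ℝ => h ((r : ℂ) * v)) (deriv h ((r : ℂ) * v) * v) r := by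
  filter_upwards [(tendsto_line v).eventually hh.eventually_analyticAt] with r hr
  have h1 : HasDerivAt h (deriv h ((r : ℂ) * v)) ((r : ℂ) * v) := hr.differentiableAt.hasDerivAt
  have h2 : HasDerivAt (fun r : ℝ => (r : ℂ) * v) v r := by
    have := (Complex.ofRealCLM.hasDerivAt (x := r)).mul_const v
    simpa using this
  exact h1.comp r h2

theorem J1.re_line {h : ℂ → ℂ} (hh : AnalyticAt ℂ h 0) (v : ℂ) :
    J1 (fun r : ℝ => (h ((r : ℂ) * v)).re) (h 0).re (deriv h 0 * v).re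
      (deriv (deriv h) 0 * v * v).re := by
  have h1 := hasDerivAt_line hh v
  have h2 := (hasDerivAt_line hh.deriv v).self_of_nhds
  refine ⟨fun r => (deriv h ((r : ℂ) * v) * v).re, by simp, ?_, by simp, ?_⟩
  · filter_upwards [h1] with r hr
    exact Complex.reCLM.hasFDerivAt.comp_hasDerivAt r hr
  · have h3 := h2.mul_const v
    have h4 := Complex.reCLM.hasFDerivAt.comp_hasDerivAt (0 : ℝ) h3
    refine HasDerivAt.congr_deriv
      (h4 : HasDerivAt (fun r : ℝ => (deriv h ((r : ℂ) * v) * v).re) _ _) ?_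
    simp

/-- the real part of a holomorphic function -/
theorem LJet.re {h : ℂ → ℂ} (hh : AnalyticAt ℂ h 0) :
    LJet (fun t => (h t).re) (h 0).re (deriv h 0 / 2) 0 := by
  refine ⟨(deriv (deriv h) 0 * 1 * 1).re, (deriv (deriv h) 0 * I * I).re, ?_, ?_, ?_⟩
  · have := J1.re_line hh 1
    convert this using 1
    · simp
    · simp; ring
  · have := J1.re_line hh I
    convert this using 1
    simp; ring
  · simp

/-- the imaginary part of a holomorphic function -/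
theorem LJet.im {h : ℂ → ℂ} (hh : AnalyticAt ℂ h 0) :
    LJet (fun t => (h t).im) (h 0).im (deriv h 0 / (2 * I)) 0 := by
  have h1 : AnalyticAt ℂ (fun t => -I * h t) 0 := analyticAt_const.mul hh
  have h2 := LJet.re h1
  have h3 : deriv (fun t => -I * h t) 0 = -I * deriv h 0 := by
    rw [deriv_const_mul]; exact hh.differentiableAt
  rw [h3] at h2
  convert h2 using 1
  · ext t; simp
  · simp
  · field_simp; ring_nf; simp

/-- `log |g|` for a nonvanishing holomorphic function -/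
theorem LJet.log_norm {g : ℂ → ℂ} (hg : AnalyticAt ℂ g 0) (h0 : g 0 ≠ 0) :
    LJet (fun t => Real.log ‖g t‖) (Real.log ‖g 0‖) (deriv g 0 / g 0 / 2) 0 := by
  have h1 : AnalyticAt ℂ (fun t => g t / g 0) 0 := hg.div analyticAt_const h0
  have h2 : AnalyticAt ℂ (fun t => Complex.log (g t / g 0)) 0 :=
    h1.clog (by rw [div_self h0]; exact Complex.one_mem_slitPlane)
  have h3 := (LJet.re h2).add (LJet.const (Real.log ‖g 0‖))
  have h4 : deriv (fun t => Complex.log (g t / g 0)) 0 = deriv g 0 / g 0 := by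
    have e1 : HasDerivAt (fun t => g t / g 0) (deriv g 0 / g 0) 0 :=
      hg.differentiableAt.hasDerivAt.div_const _
    have e2 := e1.clog (by rw [div_self h0]; exact Complex.one_mem_slitPlane)
    rw [e2.deriv, div_self h0, div_one]
  rw [h4] at h3
  have h5 : (fun t => Real.log ‖g t‖) =ᶠ[𝓝 (0 : ℂ)]
      fun t => (Complex.log (g t / g 0)).re + Real.log ‖g 0‖ := by
    filter_upwards [hg.continuousAt.eventually_ne h0] with t ht
    rw [Complex.log_re, norm_div, Real.log_div (by simpa using ht) (by simpa using h0)]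
    ring
  have h6 := h3.congr h5
  convert h6 using 1
  · rw [div_self h0]; simp
  · simp
  · simp

end Pool.Agent.MA87
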