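import Pool.Agent.MA87.ManifoldDefs

/-!
# MA87-MF, part 1 (helper60): the lattice `ℤ[i]³` as a group acting on `ℂ³`
-/

open Complex MeasureTheory Filter Topology

noncomputable section

namespace Pool.Agent.MA87

namespace MF

/-- The group `ℤ[i]³` with the law
`(a, b, c) * (a', b', c') = (a + a', b + b', c + c' + Im a * a' - Im b * b')`. -/
@[ext] structure Gam where
  a1 : ℤ
  a2 : ℤ
  b1 : ℤ
  b2 : ℤ
  c1 : ℤ
  c2 : ℤ

namespace Gam

instance : Mul Gam := ⟨fun g h =>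
  ⟨g.a1 + h.a1, g.a2 + h.a2, g.b1 + h.b1, g.b2 + h.b2,
    g.c1 + h.c1 + g.a2 * h.a1 - g.b2 * h.b1, g.c2 + h.c2 + g.a2 * h.a2 - g.b2 * h.b2⟩⟩

instance : One Gam := ⟨⟨0, 0, 0, 0, 0, 0⟩⟩

instance : Inv Gam := ⟨fun g =>
  ⟨-g.a1, -g.a2, -g.b1, -g.b2, -g.c1 + g.a2 * g.a1 - g.b2 * g.b1,
    -g.c2 + g.a2 * g.a2 - g.b2 * g.b2⟩⟩

@[simp] theorem mul_a1 (g h : Gam) : (g * h).a1 = g.a1 + h.a1 := rfl
@[simp] theorem mul_a2 (g h : Gam) : (g * h).a2 = g.a2 + h.a2 := rfl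
@[simp] theorem mul_b1 (g h : Gam) : (g * h).b1 = g.b1 + h.b1 := rfl
@[simp] theorem mul_b2 (g h : Gam) : (g * h).b2 = g.b2 + h.b2 := rfl
@[simp] theorem mul_c1 (g h : Gam) :
    (g * h).c1 = g.c1 + h.c1 + g.a2 * h.a1 - g.b2 * h.b1 := rfl
@[simp] theorem mul_c2 (g h : Gam) :
    (g * h).c2 = g.c2 + h.c2 + g.a2 * h.a2 - g.b2 * h.b2 := rfl
@[simp] theorem one_a1 : (1 : Gam).a1 = 0 := rfl
@[simp] theorem one_a2 : (1 : Gam).a2 = 0 := rfl
@[simp] theorem one_b1 : (1 : Gam).b1 = 0 := rfl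
@[simp] theorem one_b2 : (1 : Gam).b2 = 0 := rfl
@[simp] theorem one_c1 : (1 : Gam).c1 = 0 := rfl
@[simp] theorem one_c2 : (1 : Gam).c2 = 0 := rfl
@[simp] theorem inv_a1 (g : Gam) : (g⁻¹).a1 = -g.a1 := rfl
@[simp] theorem inv_a2 (g : Gam) : (g⁻¹).a2 = -g.a2 := rfl
@[simp] theorem inv_b1 (g : Gam) : (g⁻¹).b1 = -g.b1 := rfl
@[simp] theorem inv_b2 (g : Gam) : (g⁻¹).b2 = -g.b2 := rfl
@[simp] theorem inv_c1 (g : Gam) : (g⁻¹).c1 = -g.c1 + g.a2 * g.a1 - g.b2 * g.b1 := rfl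
@[simp] theorem inv_c2 (g : Gam) : (g⁻¹).c2 = -g.c2 + g.a2 * g.a2 - g.b2 * g.b2 := rfl

instance : Group Gam := Group.ofLeftAxioms
  (by intro g h k; ext <;> simp <;> ring)
  (by intro g; ext <;> simp)
  (by intro g; ext <;> simp <;> ring)

/-- the complex coordinates of a group element -/
def a (g : Gam) : ℂ := (g.a1 : ℂ) + (g.a2 : ℂ) * I
@[inherit_doc a] def b (g : Gam) : ℂ := (g.b1 : ℂ) + (g.b2 : ℂ) * I
@[inherit_doc a] def c (g : Gam) : ℂ := (g.c1 : ℂ) + (g.c2 : ℂ) * I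

theorem gInt_a (g : Gam) : GInt g.a := ⟨g.a1, g.a2, rfl⟩
theorem gInt_b (g : Gam) : GInt g.b := ⟨g.b1, g.b2, rfl⟩
theorem gInt_c (g : Gam) : GInt g.c := ⟨g.c1, g.c2, rfl⟩

@[simp] theorem a_im (g : Gam) : g.a.im = g.a2 := by simp [a]
@[simp] theorem b_im (g : Gam) : g.b.im = g.b2 := by simp [b]
@[simp] theorem c_im (g : Gam) : g.c.im = g.c2 := by simp [c]
@[simp] theorem a_re (g : Gam) : g.a.re = g.a1 := by simp [a]
@[simp] theorem b_re (g : Gam) : g.b.re = g.b1 := by simp [b]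
@[simp] theorem c_re (g : Gam) : g.c.re = g.c1 := by simp [c]

instance : SMul Gam C3 := ⟨fun g z => act g.a g.b g.c z⟩

theorem smul_def (g : Gam) (z : C3) : g • z = act g.a g.b g.c z := rfl

theorem smul_zero' (g : Gam) (z : C3) : (g • z) 0 = z 0 + g.a := rfl
theorem smul_one' (g : Gam) (z : C3) : (g • z) 1 = z 1 + g.b := rfl
theorem smul_two' (g : Gam) (z : C3) :
    (g • z) 2 = z 2 + (g.a2 : ℂ) * z 0 - (g.b2 : ℂ) * z 1 + g.c := by
  rw [smul_def]
  simp [act]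

instance : MulAction Gam C3 where
  one_smul z := by
    funext j
    fin_cases j
    · simp [smul_zero', a]
    · simp [smul_one', b]
    · simp [smul_two', c]
  mul_smul g h z := by
    funext j
    fin_cases j
    · simp only [Fin.zero_eta, smul_zero', a, mul_a1, mul_a2]; push_cast; ring
    · simp only [Fin.mk_one, smul_one', b, mul_b1, mul_b2]; push_cast; ring
    · simp only [Fin.reduceFinMk, smul_two', smul_zero', smul_one', a, b, c, mul_a2, mul_b2,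
        mul_c1, mul_c2]
      push_cast; ring

/-- as a 6-tuple of integers -/
def toTuple (g : Gam) : ℤ × ℤ × ℤ × ℤ × ℤ × ℤ := (g.a1, g.a2, g.b1, g.b2, g.c1, g.c2)

theorem toTuple_injective : Function.Injective toTuple := by
  intro g h hgh
  simp only [toTuple, Prod.mk.injEq] at hgh
  obtain ⟨h1, h2, h3, h4, h5, h6⟩ := hgh
  exact Gam.ext h1 h2 h3 h4 h5 h6

instance : Countable Gam := toTuple_injective.countable

instance : ContinuousConstSMul Gam C3 := ⟨fun g => by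
  refine continuous_pi fun j => ?_
  fin_cases j
  · simp only [Fin.zero_eta, smul_zero']; fun_prop
  · simp only [Fin.mk_one, smul_one']; fun_prop
  · simp only [Fin.reduceFinMk, smul_two']; fun_prop⟩

theorem int_of_norm_lt {m n : ℤ} (h : ‖(m : ℂ) + (n : ℂ) * I‖ < 1) : m = 0 ∧ n = 0 := by
  constructor
  · have h1 : |((m : ℂ) + (n : ℂ) * I).re| < 1 := (Complex.abs_re_le_norm _).trans_lt h
    simp only [add_re, intCast_re, mul_re, I_re, mul_zero, intCast_im, I_im, mul_one, sub_self,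
      add_zero] at h1
    have h2 : |m| < 1 := by exact_mod_cast h1
    exact Int.abs_lt_one_iff.mp h2
  · have h1 : |((m : ℂ) + (n : ℂ) * I).im| < 1 := (Complex.abs_im_le_norm _).trans_lt h
    simp only [add_im, intCast_im, mul_im, intCast_re, I_im, mul_one, I_re, mul_zero, add_zero,
      zero_add] at h1
    have h2 : |n| < 1 := by exact_mod_cast h1
    exact Int.abs_lt_one_iff.mp h2

/-- Elements moving a point by less than `1` in each coordinate are trivial. -/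
theorem eq_one_of_near (g : Gam) (z : C3) (h : ∀ j, ‖(g • z) j - z j‖ < 1) : g = 1 := by
  have h0 := h 0
  have h1 := h 1
  have h2 := h 2
  rw [smul_zero', add_sub_cancel_left, a] at h0
  rw [smul_one', add_sub_cancel_left, b] at h1
  obtain ⟨e1, e2⟩ := int_of_norm_lt h0
  obtain ⟨e3, e4⟩ := int_of_norm_lt h1
  rw [smul_two', e2, e4] at h2
  have h3 : z 2 + ((0 : ℤ) : ℂ) * z 0 - ((0 : ℤ) : ℂ) * z 1 + g.c - z 2 = g.c := by
    push_cast; ring
  rw [h3, c] at h2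
  obtain ⟨e5, e6⟩ := int_of_norm_lt h2
  exact Gam.ext e1 e2 e3 e4 e5 e6

end Gam

/-! ### The fundamental domain -/

theorem mem_Icc_iff_floor (x : ℝ) (m : ℤ) : (0 ≤ x + m ∧ x + m < 1) ↔ m = -⌊x⌋ := by
  constructor
  · rintro ⟨h1, h2⟩
    have : ⌊x⌋ = -m := by
      rw [Int.floor_eq_iff]
      push_cast
      constructor <;> linarith
    rw [this, neg_neg]
  · rintro rfl
    have h1 := Int.floor_le x
    have h2 := Int.lt_floor_add_one x
    push_cast
    constructor <;> linarith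

theorem smul_mem_D_iff (g : Gam) (z : C3) : g • z ∈ D ↔
    (g.a1 = -⌊(z 0).re⌋ ∧ g.a2 = -⌊(z 0).im⌋) ∧ (g.b1 = -⌊(z 1).re⌋ ∧ g.b2 = -⌊(z 1).im⌋) ∧
      (g.c1 = -⌊(z 2 + (g.a2 : ℂ) * z 0 - (g.b2 : ℂ) * z 1).re⌋ ∧
        g.c2 = -⌊(z 2 + (g.a2 : ℂ) * z 0 - (g.b2 : ℂ) * z 1).im⌋) := by
  simp only [D, Q, Set.mem_ofPred_eq, Fin.forall_fin_succ, Fin.succ_zero_eq_one,
    Fin.succ_one_eq_two, IsEmpty.forall_iff, and_true]
  rw [Gam.smul_zero', Gam.smul_one', Gam.smul_two']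
  simp only [add_re, add_im, Gam.a_re, Gam.a_im, Gam.b_re, Gam.b_im, Gam.c_re, Gam.c_im]
  rw [← mem_Icc_iff_floor, ← mem_Icc_iff_floor, ← mem_Icc_iff_floor, ← mem_Icc_iff_floor,
    ← mem_Icc_iff_floor, ← mem_Icc_iff_floor]
  simp only [add_re, sub_re, add_im, sub_im]
  tauto

theorem exists_unique_smul_mem (z : C3) : ∃! g : Gam, g • z ∈ D := by
  let w : ℂ := z 2 + ((-⌊(z 0).im⌋ : ℤ) : ℂ) * z 0 - ((-⌊(z 1).im⌋ : ℤ) : ℂ) * z 1
  refine ⟨⟨-⌊(z 0).re⌋, -⌊(z 0).im⌋, -⌊(z 1).re⌋, -⌊(z 1).im⌋, -⌊w.re⌋, -⌊w.im⌋⟩, ?_, ?_⟩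
  · exact (smul_mem_D_iff _ _).mpr ⟨⟨rfl, rfl⟩, ⟨rfl, rfl⟩, ⟨rfl, rfl⟩⟩
  · intro g hg
    obtain ⟨⟨h1, h2⟩, ⟨h3, h4⟩, ⟨h5, h6⟩⟩ := (smul_mem_D_iff _ _).mp hg
    rw [h2, h4] at h5 h6
    exact Gam.ext h1 h2 h3 h4 h5 h6

theorem measurableSet_D : MeasurableSet D := by
  have hQ : MeasurableSet Q := by
    have h : Q = ((fun z : ℂ => z.re) ⁻¹' Set.Ico 0 1) ∩ ((fun z : ℂ => z.im) ⁻¹' Set.Ico 0 1) := by
      ext z
      simp only [Q, Set.mem_ofPred_eq, Set.mem_inter_iff, Set.mem_preimage, Set.mem_Ico]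
      tauto
    rw [h]
    exact (measurable_re measurableSet_Ico).inter (measurable_im measurableSet_Ico)
  have h : D = ⋂ j : Fin 3, (fun z : C3 => z j) ⁻¹' Q := by
    ext z
    simp [D]
  rw [h]
  exact MeasurableSet.iInter fun j => (measurable_pi_apply j) hQ

/-! ### Invariance of Lebesgue measure -/

/-- the linear part of the action -/
def linPart (s t : ℝ) : C3 →ₗ[ℂ] C3 :=
  Matrix.toLin' !![1, 0, 0; 0, 1, 0; (s : ℂ), (t : ℂ), 1]

theorem linPart_apply (s t : ℝ) (v : C3) :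
    linPart s t v = ![v 0, v 1, v 2 + s * v 0 + t * v 1] := by
  rw [linPart, Matrix.toLin'_apply]
  funext j
  fin_cases j
  · simp [Matrix.mulVec, dotProduct, Fin.sum_univ_three]
  · simp [Matrix.mulVec, dotProduct, Fin.sum_univ_three]
  · simp [Matrix.mulVec, dotProduct, Fin.sum_univ_three]
    ring

theorem det_linPart (s t : ℝ) : LinearMap.det ((linPart s t).restrictScalars ℝ) = 1 := by
  rw [LinearMap.det_restrictScalars, linPart, LinearMap.det_toLin', Matrix.det_fin_three]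
  simp

theorem smul_eq_linPart (g : Gam) (z : C3) :
    g • z = linPart g.a2 (-g.b2) z + ![g.a, g.b, g.c] := by
  rw [linPart_apply, Gam.smul_def]
  funext j
  fin_cases j
  · simp [act]
  · simp [act]
  · simp [act]
    ring

theorem volume_preimage_smul (g : Gam) (s : Set C3) :
    volume ((fun z : C3 => g • z) ⁻¹' s) = volume s := by
  have h1 : (fun z : C3 => g • z) ⁻¹' s =
      ((linPart g.a2 (-g.b2)).restrictScalars ℝ) ⁻¹' ((fun z => z + ![g.a, g.b, g.c]) ⁻¹' s) := by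
    ext z
    simp only [Set.mem_preimage, smul_eq_linPart, LinearMap.coe_restrictScalars]
  have hdet := det_linPart g.a2 (-g.b2)
  rw [h1, Measure.addHaar_preimage_linearMap _ (by rw [hdet]; exact one_ne_zero), hdet,
    measure_preimage_add_right]
  simp

instance : SMulInvariantMeasure Gam C3 volume := ⟨fun g s _ => volume_preimage_smul g s⟩

theorem isFundamentalDomain_D : IsFundamentalDomain Gam D (volume : Measure C3) :=
  IsFundamentalDomain.mk' measurableSet_D.nullMeasurableSet exists_unique_smul_mem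

end MF

end Pool.Agent.MA87
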