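import Pool.Agent.MA87.MFWirt

/-!
# MA87-MF, part 3 (helper60): the quotient space and its charts
-/

open Complex MeasureTheory Filter Topology
open scoped ContDiff ComplexOrder Manifold

noncomputable section

namespace Pool.Agent.MA87

namespace MF

theorem bounded_int {R : ℝ} {m n : ℤ} (h : ‖(m : ℂ) + (n : ℂ) * I‖ ≤ R) :
    m ∈ Set.Icc (-⌈R⌉) ⌈R⌉ ∧ n ∈ Set.Icc (-⌈R⌉) ⌈R⌉ := by
  have h1 : |((m : ℂ) + (n : ℂ) * I).re| ≤ R := (Complex.abs_re_le_norm _).trans h
  have h2 : |((m : ℂ) + (n : ℂ) * I).im| ≤ R := (Complex.abs_im_le_norm _).trans h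
  simp only [add_re, intCast_re, mul_re, I_re, mul_zero, intCast_im, I_im, mul_one, sub_self,
      add_zero] at h1
  simp only [add_im, intCast_im, mul_im, intCast_re, I_im, mul_one, I_re, mul_zero, add_zero,
      zero_add] at h2
  have key : ∀ k : ℤ, |(k : ℝ)| ≤ R → k ∈ Set.Icc (-⌈R⌉) ⌈R⌉ := by
    intro k hk
    have h3 := abs_le.mp (hk.trans (Int.le_ceil R))
    constructor
    · exact_mod_cast h3.1
    · exact_mod_cast h3.2
  exact ⟨key m h1, key n h2⟩

theorem finite_bounded (R : ℝ) :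
    {g : Gam | ‖g.a‖ ≤ R ∧ ‖g.b‖ ≤ R ∧ ‖g.c‖ ≤ R}.Finite := by
  let S : Set ℤ := Set.Icc (-⌈R⌉) ⌈R⌉
  have hS : S.Finite := Set.finite_Icc _ _
  have hT : (S ×ˢ S ×ˢ S ×ˢ S ×ˢ S ×ˢ S).Finite :=
    hS.prod (hS.prod (hS.prod (hS.prod (hS.prod hS))))
  refine (hT.preimage (Gam.toTuple_injective.injOn)).subset ?_
  rintro g ⟨h1, h2, h3⟩
  obtain ⟨e1, e2⟩ := bounded_int h1
  obtain ⟨e3, e4⟩ := bounded_int h2
  obtain ⟨e5, e6⟩ := bounded_int h3
  exact ⟨e1, e2, e3, e4, e5, e6⟩

instance : ProperlyDiscontinuousSMul Gam C3 := ⟨by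
  intro K L hK hL
  obtain ⟨R, hR⟩ := (hK.union hL).isBounded.exists_norm_le
  have hRK : ∀ p ∈ K, ∀ j, ‖p j‖ ≤ R := fun p hp j => (norm_le_pi_norm p j).trans
    (hR p (Or.inl hp))
  have hRL : ∀ p ∈ L, ∀ j, ‖p j‖ ≤ R := fun p hp j => (norm_le_pi_norm p j).trans
    (hR p (Or.inr hp))
  refine (finite_bounded (2 * R + 4 * R * R)).subset ?_
  rintro g ⟨q, ⟨p, hp, rfl⟩, hq⟩
  have hR0 : 0 ≤ R := (norm_nonneg _).trans (hRK p hp 0)
  have h0 : g.a = (g • p) 0 - p 0 := by rw [Gam.smul_zero']; ring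
  have h1 : g.b = (g • p) 1 - p 1 := by rw [Gam.smul_one']; ring
  have h2 : g.c = (g • p) 2 - p 2 - (g.a2 : ℂ) * p 0 + (g.b2 : ℂ) * p 1 := by
    rw [Gam.smul_two']; ring
  have na : ‖g.a‖ ≤ 2 * R := by
    rw [h0]
    refine (norm_sub_le _ _).trans ?_
    linarith [hRL _ hq 0, hRK _ hp 0]
  have nb : ‖g.b‖ ≤ 2 * R := by
    rw [h1]
    refine (norm_sub_le _ _).trans ?_
    linarith [hRL _ hq 1, hRK _ hp 1]
  have na2 : ‖(g.a2 : ℂ)‖ ≤ 2 * R := by
    have : (g.a2 : ℂ) = ((g.a.im : ℝ) : ℂ) := by simp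
    rw [this, Complex.norm_real]
    exact (Complex.abs_im_le_norm _).trans na
  have nb2 : ‖(g.b2 : ℂ)‖ ≤ 2 * R := by
    have : (g.b2 : ℂ) = ((g.b.im : ℝ) : ℂ) := by simp
    rw [this, Complex.norm_real]
    exact (Complex.abs_im_le_norm _).trans nb
  have nc : ‖g.c‖ ≤ 2 * R + 4 * R * R := by
    rw [h2]
    have e1 : ‖(g.a2 : ℂ) * p 0‖ ≤ 2 * R * R := by
      rw [norm_mul]
      exact mul_le_mul na2 (hRK p hp 0) (norm_nonneg _) (by linarith)
    have e2 : ‖(g.b2 : ℂ) * p 1‖ ≤ 2 * R * R := by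
      rw [norm_mul]
      exact mul_le_mul nb2 (hRK p hp 1) (norm_nonneg _) (by linarith)
    have e3 := norm_add_le ((g • p) 2 - p 2 - (g.a2 : ℂ) * p 0) ((g.b2 : ℂ) * p 1)
    have e4 := norm_sub_le ((g • p) 2 - p 2) ((g.a2 : ℂ) * p 0)
    have e5 := norm_sub_le ((g • p) 2) (p 2)
    have e6 := hRL _ hq 2
    have e7 := hRK _ hp 2
    simp only at e6
    linarith
  have h4 : 0 ≤ 4 * R * R := by positivity
  exact ⟨by linarith, by linarith, nc⟩⟩

/-- The quotient manifold. -/
def Mf : Type := Quotient (MulAction.orbitRel Gam C3)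

instance : TopologicalSpace Mf := inferInstanceAs
  (TopologicalSpace (Quotient (MulAction.orbitRel Gam C3)))

instance : T2Space Mf := inferInstanceAs (T2Space (Quotient (MulAction.orbitRel Gam C3)))

instance : MeasurableSpace Mf := borel Mf

instance : BorelSpace Mf := ⟨rfl⟩

/-- the projection -/
def proj (z : C3) : Mf := Quotient.mk _ z

theorem continuous_proj : Continuous proj := continuous_quotient_mk'

theorem isOpenMap_proj : IsOpenMap proj := isOpenMap_quotient_mk'_mul

theorem surjective_proj : Function.Surjective proj := Quotient.mk_surjective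

theorem proj_eq_iff {p q : C3} : proj p = proj q ↔ ∃ g : Gam, g • q = p := by
  have h : ((Quotient.mk (MulAction.orbitRel Gam C3) p : Quotient (MulAction.orbitRel Gam C3)) =
    Quotient.mk (MulAction.orbitRel Gam C3) q) ↔ (MulAction.orbitRel Gam C3) p q := Quotient.eq
  exact h.trans MulAction.orbitRel_apply

theorem proj_smul (g : Gam) (p : C3) : proj (g • p) = proj p := proj_eq_iff.mpr ⟨g, rfl⟩

instance : ConnectedSpace Mf := by
  have h : IsConnected (Set.univ : Set Mf) := by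
    rw [← Set.range_eq_univ.mpr surjective_proj]
    exact isConnected_range continuous_proj
  exact connectedSpace_iff_univ.mpr h

instance : CompactSpace Mf := by
  refine ⟨?_⟩
  have hK : IsCompact (Metric.closedBall (0 : C3) 2) := isCompact_closedBall _ _
  have h : proj '' Metric.closedBall (0 : C3) 2 = Set.univ := by
    refine Set.eq_univ_of_forall fun m => ?_
    obtain ⟨z, rfl⟩ := surjective_proj m
    obtain ⟨g, hg, _⟩ := exists_unique_smul_mem z
    refine ⟨g • z, ?_, proj_smul g z⟩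
    rw [mem_closedBall_zero_iff, pi_norm_le_iff_of_nonneg (by norm_num)]
    intro j
    obtain ⟨h1, h2, h3, h4⟩ := hg j
    refine (Complex.norm_le_abs_re_add_abs_im _).trans ?_
    rw [abs_of_nonneg h1, abs_of_nonneg h3]
    linarith
  rw [← h]
  exact hK.image continuous_proj

theorem injOn_proj (z : C3) : Set.InjOn proj (Metric.ball z (1 / 2)) := by
  intro p hp q hq h
  obtain ⟨g, rfl⟩ := proj_eq_iff.mp h
  have hg : g = 1 := by
    refine g.eq_one_of_near q fun j => ?_
    rw [← dist_eq_norm]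
    calc dist ((g • q) j) (q j) ≤ dist ((g • q) j) (z j) + dist (z j) (q j) := dist_triangle _ _ _
      _ ≤ dist (g • q) z + dist z q := add_le_add (dist_le_pi_dist _ _ _) (dist_le_pi_dist _ _ _)
      _ < 1 := by
        rw [dist_comm z q]
        have e1 := Metric.mem_ball.mp hp
        have e2 := Metric.mem_ball.mp hq
        linarith
  rw [hg, one_smul]

/-- the local inverse of a chart: the projection on a ball of radius `1/2` -/
def pch (z : C3) : OpenPartialHomeomorph C3 Mf :=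
  OpenPartialHomeomorph.ofContinuousOpen ((injOn_proj z).toPartialEquiv proj _)
    continuous_proj.continuousOn isOpenMap_proj Metric.isOpen_ball

theorem pch_coe (z : C3) : (pch z : C3 → Mf) = proj := rfl

theorem pch_source (z : C3) : (pch z).source = Metric.ball z (1 / 2) := rfl

theorem pch_target (z : C3) : (pch z).target = proj '' Metric.ball z (1 / 2) := rfl

instance : ChartedSpace (Fin 3 → ℂ) Mf where
  atlas := Set.range fun z => (pch z).symm
  chartAt m := (pch (surjective_proj m).choose).symm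
  mem_chart_source m := by
    have h := (surjective_proj m).choose_spec
    change m ∈ proj '' Metric.ball (surjective_proj m).choose (1 / 2)
    exact ⟨_, Metric.mem_ball_self (by norm_num), h⟩
  chart_mem_atlas m := ⟨_, rfl⟩

theorem mem_atlas_iff {e : OpenPartialHomeomorph Mf (Fin 3 → ℂ)} :
    e ∈ atlas (Fin 3 → ℂ) Mf ↔ ∃ z, (pch z).symm = e := Iff.rfl

theorem transition {z' p : C3} (hp' : proj p ∈ proj '' Metric.ball z' (1 / 2)) :
    ∃ g : Gam, g • p ∈ Metric.ball z' (1 / 2) ∧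
      (fun q => (pch z').symm (proj q)) =ᶠ[𝓝 p] fun q => g • q := by
  obtain ⟨q, hq, hqp⟩ := hp'
  obtain ⟨g, hg⟩ := proj_eq_iff.mp hqp
  refine ⟨g, by rw [hg]; exact hq, ?_⟩
  have hopen : IsOpen ((fun q : C3 => g • q) ⁻¹' Metric.ball z' (1 / 2)) :=
    Metric.isOpen_ball.preimage (continuous_const_smul g)
  have hmem : p ∈ (fun q : C3 => g • q) ⁻¹' Metric.ball z' (1 / 2) := by
    change g • p ∈ Metric.ball z' (1 / 2)
    rw [hg]; exact hq
  filter_upwards [hopen.mem_nhds hmem] with r hr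
  have h1 : proj r = pch z' (g • r) := by
    rw [pch_coe, proj_smul]
  rw [h1]
  exact (pch z').left_inv hr

instance : IsManifold (modelWithCornersSelf ℂ (Fin 3 → ℂ)) ω Mf := by
  refine isManifold_of_contDiffOn _ _ _ ?_
  rintro e e' ⟨z, rfl⟩ ⟨z', rfl⟩
  intro p hp
  simp only [modelWithCornersSelf_coe, modelWithCornersSelf_coe_symm, Set.preimage_id_eq, id_eq,
    Set.range_id, Set.inter_univ] at hp
  simp only [modelWithCornersSelf_coe, modelWithCornersSelf_coe_symm, Function.comp_id,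
    Function.id_comp, Set.preimage_id_eq, id_eq, Set.range_id, Set.inter_univ]
  have hp2 : proj p ∈ proj '' Metric.ball z' (1 / 2) := by
    have h := hp.2
    exact h
  obtain ⟨g, _, hg⟩ := transition hp2
  have hcd : ContDiffAt ℂ ω (fun q : C3 => g • q) p := (contDiff_smul g).contDiffAt
  exact (hcd.congr_of_eventuallyEq hg).contDiffWithinAt

end MF

end Pool.Agent.MA87
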