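import Pool.Agent.MA87.MFGroup

/-!
# MA87-MF, part 2 (helper60): transformation of the metric and of the Levi form under the lattice
-/

open Complex MeasureTheory Filter Topology
open scoped ContDiff ComplexOrder

noncomputable section

namespace Pool.Agent.MA87

namespace MF

/-- the derivative of the action as a matrix -/
def Jm (g : Gam) : Matrix (Fin 3) (Fin 3) ℂ := !![1, 0, 0; 0, 1, 0; (g.a2 : ℂ), -(g.b2 : ℂ), 1]

/-- the derivative of the action as a continuous linear map -/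
def Lm (g : Gam) : C3 →L[ℂ] C3 := LinearMap.toContinuousLinearMap (linPart g.a2 (-g.b2))

theorem Lm_apply (g : Gam) (v : C3) :
    Lm g v = ![v 0, v 1, v 2 + (g.a2 : ℂ) * v 0 - (g.b2 : ℂ) * v 1] := by
  change linPart g.a2 (-g.b2) v = _
  rw [linPart_apply]
  funext j
  fin_cases j
  · rfl
  · rfl
  · simp
    ring

theorem hasFDerivAt_smul (g : Gam) (z : C3) : HasFDerivAt (fun z : C3 => g • z) (Lm g) z := by
  have h : (fun z : C3 => g • z) = fun z => Lm g z + ![g.a, g.b, g.c] := by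
    funext z
    exact smul_eq_linPart g z
  rw [h]
  exact (Lm g).hasFDerivAt.add_const _

theorem hasFDerivAt_smul_real (g : Gam) (z : C3) :
    HasFDerivAt (fun z : C3 => g • z) ((Lm g).restrictScalars ℝ) z :=
  (hasFDerivAt_smul g z).restrictScalars ℝ

theorem contDiff_smul (g : Gam) {n : WithTop ℕ∞} : ContDiff ℂ n (fun z : C3 => g • z) := by
  have h : (fun z : C3 => g • z) = fun z => Lm g z + ![g.a, g.b, g.c] := by
    funext z
    exact smul_eq_linPart g z
  rw [h]
  exact (Lm g).contDiff.add contDiff_const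

theorem Lm_single (g : Gam) (u : ℂ) (i : Fin 3) :
    Lm g (Pi.single i u) = ∑ k, ((Jm g k i).re : ℝ) • (Pi.single k u : C3) := by
  rw [Lm_apply]
  funext j
  fin_cases i <;> fin_cases j <;> simp [Jm, Fin.sum_univ_three]

theorem Jm_re (g : Gam) (k i : Fin 3) : (((Jm g k i).re : ℝ) : ℂ) = Jm g k i := by
  fin_cases i <;> fin_cases k <;> simp [Jm]

theorem Jm_conj (g : Gam) (k i : Fin 3) : (starRingEnd ℂ) (Jm g k i) = Jm g k i := by
  rw [← Jm_re, Complex.conj_ofReal]

theorem fderiv_comp_smul {f : C3 → ℂ} (g : Gam) (z : C3) (hf : DifferentiableAt ℝ f (g • z))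
    (u : ℂ) (i : Fin 3) : fderiv ℝ (fun z => f (g • z)) z (Pi.single i u) =
      ∑ k, Jm g k i * fderiv ℝ f (g • z) (Pi.single k u) := by
  have h := (hf.hasFDerivAt.comp z (hasFDerivAt_smul_real g z)).fderiv
  change fderiv ℝ (f ∘ fun z => g • z) z (Pi.single i u) = _
  rw [h]
  change fderiv ℝ f (g • z) (Lm g (Pi.single i u)) = _
  rw [Lm_single, map_sum]
  refine Finset.sum_congr rfl fun k _ => ?_
  rw [map_smul, Complex.real_smul, Jm_re]

theorem dz_comp_smul {f : C3 → ℂ} (g : Gam) (z : C3) (hf : DifferentiableAt ℝ f (g • z))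
    (i : Fin 3) : dz i (fun z => f (g • z)) z = ∑ k, Jm g k i * dz k f (g • z) := by
  simp only [dz]
  rw [fderiv_comp_smul g z hf, fderiv_comp_smul g z hf]
  simp only [Fin.sum_univ_three]
  ring

theorem dzbar_comp_smul {f : C3 → ℂ} (g : Gam) (z : C3) (hf : DifferentiableAt ℝ f (g • z))
    (i : Fin 3) : dzbar i (fun z => f (g • z)) z = ∑ k, Jm g k i * dzbar k f (g • z) := by
  simp only [dzbar]
  rw [fderiv_comp_smul g z hf, fderiv_comp_smul g z hf]
  simp only [Fin.sum_univ_three]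
  ring

theorem dz_const_mul {f : C3 → ℂ} (c : ℂ) (z : C3) (hf : DifferentiableAt ℝ f z)
    (i : Fin 3) : dz i (fun z => c * f z) z = c * dz i f z := by
  simp only [dz]
  rw [fderiv_const_mul hf]
  simp only [FunLike.coe_smul, Pi.smul_apply, smul_eq_mul]
  ring

theorem dz_add {f₁ f₂ : C3 → ℂ} (z : C3) (h₁ : DifferentiableAt ℝ f₁ z)
    (h₂ : DifferentiableAt ℝ f₂ z) (i : Fin 3) :
    dz i (fun z => f₁ z + f₂ z) z = dz i f₁ z + dz i f₂ z := by
  simp only [dz]
  rw [fderiv_fun_add h₁ h₂]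
  simp only [add_apply]
  ring

theorem dz_comb {f₀ f₁ f₂ : C3 → ℂ} (c₀ c₁ c₂ : ℂ) (z : C3) (h₀ : DifferentiableAt ℝ f₀ z)
    (h₁ : DifferentiableAt ℝ f₁ z) (h₂ : DifferentiableAt ℝ f₂ z) (i : Fin 3) :
    dz i (fun z => c₀ * f₀ z + (c₁ * f₁ z + c₂ * f₂ z)) z =
      c₀ * dz i f₀ z + (c₁ * dz i f₁ z + c₂ * dz i f₂ z) := by
  have h3 : DifferentiableAt ℝ (fun z => c₁ * f₁ z + c₂ * f₂ z) z :=
    (h₁.const_mul c₁).add (h₂.const_mul c₂)
  rw [dz_add z (h₀.const_mul c₀) h3, dz_add z (h₁.const_mul c₁) (h₂.const_mul c₂),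
    dz_const_mul _ z h₀, dz_const_mul _ z h₁, dz_const_mul _ z h₂]

theorem contDiff_dzbar {f : C3 → ℂ} (hf : ContDiff ℝ ∞ f) (i : Fin 3) :
    ContDiff ℝ ∞ (dzbar i f) := by
  have h : ContDiff ℝ ∞ (fderiv ℝ f) := hf.fderiv_right (by simp)
  unfold dzbar
  exact contDiff_const.mul ((h.clm_apply contDiff_const).add
    (contDiff_const.mul (h.clm_apply contDiff_const)))

theorem contDiff_dz {f : C3 → ℂ} (hf : ContDiff ℝ ∞ f) (i : Fin 3) :
    ContDiff ℝ ∞ (dz i f) := by
  have h : ContDiff ℝ ∞ (fderiv ℝ f) := hf.fderiv_right (by simp)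
  unfold dz
  exact contDiff_const.mul ((h.clm_apply contDiff_const).sub
    (contDiff_const.mul (h.clm_apply contDiff_const)))

theorem inv_smul_fun {X : Type*} {f : C3 → X} (hf : GInv f) (g : Gam) (z : C3) :
    f (g • z) = f z := hf _ _ _ g.gInt_a g.gInt_b g.gInt_c z

theorem levi_smul {φ : C3 → ℝ} (hφ : ContDiff ℝ ∞ φ) (hinv : GInv φ) (g : Gam) (z : C3) :
    levi φ z = (Jm g).transpose * levi φ (g • z) * Jm g := by
  set f : C3 → ℂ := fun w => (φ w : ℂ) with hf
  have hfc : ContDiff ℝ ∞ f := Complex.ofRealCLM.contDiff.comp hφ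
  have hd : Differentiable ℝ f := hfc.differentiable (by simp)
  have hfinv : (fun z => f (g • z)) = f := by
    funext w
    simp only [hf, inv_smul_fun hinv]
  have hb : ∀ j, Differentiable ℝ (dzbar j f) := fun j =>
    (contDiff_dzbar hfc j).differentiable (by simp)
  have hbs : ∀ j (w : C3), DifferentiableAt ℝ (fun w => dzbar j f (g • w)) w := fun j w =>
    ((hb j (g • w)).hasFDerivAt.comp w (hasFDerivAt_smul_real g w)).differentiableAt
  have h1 : ∀ j, dzbar j f = fun w => Jm g 0 j * dzbar 0 f (g • w) +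
      (Jm g 1 j * dzbar 1 f (g • w) + Jm g 2 j * dzbar 2 f (g • w)) := by
    intro j
    funext w
    conv_lhs => rw [← hfinv]
    rw [dzbar_comp_smul g w (hd _), Fin.sum_univ_three]
    ring
  ext i j
  have h2 : levi φ z i j = dz i (dzbar j f) z := rfl
  rw [h2, h1 j, dz_comb _ _ _ z (hbs 0 z) (hbs 1 z) (hbs 2 z),
    dz_comp_smul g z (hb 0 _), dz_comp_smul g z (hb 1 _), dz_comp_smul g z (hb 2 _)]
  have h3 : ∀ k l, levi φ (g • z) k l = dz k (dzbar l f) (g • z) := fun k l => rfl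
  simp only [Matrix.mul_apply, Matrix.transpose_apply, Fin.sum_univ_three, h3]
  ring

theorem g0_smul (g : Gam) (z : C3) :
    g0 z = (Jm g).transpose * g0 (g • z) * Jm g := by
  have e0 : ((g • z) 0).im = (z 0).im + g.a2 := by rw [Gam.smul_zero']; simp
  have e1 : ((g • z) 1).im = (z 1).im + g.b2 := by rw [Gam.smul_one']; simp
  ext i j
  simp only [Matrix.mul_apply, Matrix.transpose_apply, Fin.sum_univ_three, g0, e0, e1, Jm]
  fin_cases i <;> fin_cases j <;> simp <;> ring

theorem det_smul {φ : C3 → ℝ} (hφ : ContDiff ℝ ∞ φ) (hinv : GInv φ) (g : Gam) (z : C3) :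
    (g0 (g • z) + levi φ (g • z)).det = (g0 z + levi φ z).det := by
  rw [levi_smul hφ hinv g z, g0_smul g z, ← Matrix.add_mul, ← Matrix.mul_add, Matrix.det_mul,
    Matrix.det_mul, Matrix.det_transpose]
  have : (Jm g).det = 1 := by
    rw [Matrix.det_fin_three]
    simp [Jm]
  rw [this]
  ring

theorem contDiff_g0 (i j : Fin 3) : ContDiff ℝ ∞ (fun z => g0 z i j) := by
  have h0 : ContDiff ℝ ∞ (fun z : C3 => ((((z 0).im - 1 / 2 : ℝ)) : ℂ)) :=
    Complex.ofRealCLM.contDiff.comp ((Complex.imCLM.contDiff.comp (contDiff_apply ℝ ℂ 0)).sub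
      contDiff_const)
  have h1 : ContDiff ℝ ∞ (fun z : C3 => ((((z 1).im - 1 / 2 : ℝ)) : ℂ)) :=
    Complex.ofRealCLM.contDiff.comp ((Complex.imCLM.contDiff.comp (contDiff_apply ℝ ℂ 1)).sub
      contDiff_const)
  fin_cases i <;> fin_cases j <;> simp only [g0, Matrix.smul_apply, Matrix.of_apply,
    Matrix.cons_val', Matrix.cons_val_zero, Matrix.cons_val_one, Matrix.cons_val,
    Fin.zero_eta, Fin.mk_one, Fin.reduceFinMk, smul_eq_mul]
  all_goals fun_prop

theorem contDiff_levi {φ : C3 → ℝ} (hφ : ContDiff ℝ ∞ φ) (i j : Fin 3) :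
    ContDiff ℝ ∞ (fun z => levi φ z i j) :=
  contDiff_dz (contDiff_dzbar (Complex.ofRealCLM.contDiff.comp hφ) j) i

theorem continuous_det {φ : C3 → ℝ} (hφ : ContDiff ℝ ∞ φ) :
    Continuous fun z => ((g0 z + levi φ z).det).re := by
  have h1 : Continuous fun z => g0 z + levi φ z := by
    refine continuous_matrix fun i j => ?_
    exact (contDiff_g0 i j).continuous.add (contDiff_levi hφ i j).continuous
  exact Complex.continuous_re.comp h1.matrix_det

theorem posDef_g0 (z : C3) : (g0 z).PosDef := by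
  set α : ℝ := (z 0).im - 1 / 2 with hα
  set β : ℝ := (z 1).im - 1 / 2 with hβ
  let B : Matrix (Fin 3) (Fin 3) ℂ := !![1, 0, 0; 0, 1, 0; -(α : ℂ), (β : ℂ), 1]
  have hB : g0 z = (1 / 4 : ℝ) • (B.conjTranspose * B) := by
    ext i j
    simp only [g0, ← hα, ← hβ]
    fin_cases i <;> fin_cases j <;>
      simp [B, Matrix.mul_apply, Fin.sum_univ_three, Matrix.conjTranspose_apply] <;> ring
  have hdet : B.det = 1 := by
    rw [Matrix.det_fin_three]
    simp [B]
  have hunit : IsUnit B := by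
    rw [Matrix.isUnit_iff_isUnit_det, hdet]
    exact isUnit_one
  rw [hB]
  refine Matrix.PosDef.smul ?_ (by norm_num)
  exact Matrix.PosDef.conjTranspose_mul_self B (Matrix.mulVec_injective_of_isUnit hunit)

end MF

end Pool.Agent.MA87
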