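import Pool.Agent.MA87.MFQuot

/-!
# MA87-MF, part 4 (helper60): the Hermitian form on the quotient and its Monge-Ampere volumes
-/

open Complex MeasureTheory Filter Topology
open scoped ContDiff ComplexOrder Manifold ENNReal

noncomputable section

namespace Pool.Agent.MA87

namespace MF

theorem Lm_entry (g : Gam) (i k : Fin 3) : Lm g (Pi.single i 1) k = Jm g k i := by
  rw [Lm_single, Finset.sum_apply, Finset.sum_eq_single k]
  · simp [Jm_re]
  · intro l _ hl
    simp [Pi.single_eq_of_ne (Ne.symm hl)]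
  · intro h
    exact absurd (Finset.mem_univ _) h

/-- the Hermitian form on the quotient manifold -/
def wf : HermitianForm 3 Mf where
  coeff _ z := g0 z
  smooth _ _ i j := (contDiff_g0 i j).contDiffOn
  posDef _ _ z _ := posDef_g0 z
  compat := by
    rintro e ⟨z₁, rfl⟩ e' ⟨z₂, rfl⟩ z hz hz' i j
    have hz2 : proj z ∈ proj '' Metric.ball z₂ (1 / 2) := hz'
    obtain ⟨g, _, hg⟩ := transition hz2
    have hfd : fderiv ℂ ((pch z₂).symm ∘ (pch z₁).symm.symm) z = Lm g := by
      have h1 : ((pch z₂).symm ∘ (pch z₁).symm.symm : C3 → C3) =ᶠ[𝓝 z] fun q => g • q := hg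
      rw [h1.fderiv_eq]
      exact (hasFDerivAt_smul g z).fderiv
    have hval : (pch z₂).symm ((pch z₁).symm.symm z) = g • z := hg.self_of_nhds
    simp only [hfd, hval, Lm_entry, Jm_conj]
    conv_lhs => rw [g0_smul g z]
    simp only [Matrix.mul_apply, Matrix.transpose_apply, Fin.sum_univ_three]
    ring

theorem isBounded_D : D ⊆ Metric.closedBall (0 : C3) 2 := by
  intro z hz
  rw [mem_closedBall_zero_iff, pi_norm_le_iff_of_nonneg (by norm_num)]
  intro j
  obtain ⟨h1, h2, h3, h4⟩ := hz j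
  refine (Complex.norm_le_abs_re_add_abs_im _).trans ?_
  rw [abs_of_nonneg h1, abs_of_nonneg h3]
  linarith

section

variable (φ : C3 → ℝ)

/-- the density -/
def dens (z : C3) : ℝ≥0∞ := ENNReal.ofReal ((g0 z + levi φ z).det).re

variable {φ}

theorem measurable_dens (hφ : ContDiff ℝ ∞ φ) : Measurable (dens φ) :=
  ((continuous_det hφ).measurable).ennreal_ofReal

theorem dens_smul (hφ : ContDiff ℝ ∞ φ) (hinv : GInv φ) (g : Gam) (z : C3) :
    dens φ (g • z) = dens φ z := by
  unfold dens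
  rw [det_smul hφ hinv g z]

theorem det_nonneg (hpsd : ∀ z, (g0 z + levi φ z).PosSemidef) (z : C3) :
    0 ≤ ((g0 z + levi φ z).det).re := by
  have h := (hpsd z).det_nonneg
  exact (Complex.nonneg_iff.mp h).1

theorem lintegral_dens (hφ : ContDiff ℝ ∞ φ) (hpsd : ∀ z, (g0 z + levi φ z).PosSemidef) :
    ∫⁻ z in D, dens φ z = ENNReal.ofReal (∫ z in D, ((g0 z + levi φ z).det).re) := by
  have hint : IntegrableOn (fun z => ((g0 z + levi φ z).det).re) D :=
    ((continuous_det hφ).continuousOn.integrableOn_compact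
      (isCompact_closedBall (0 : C3) 2)).mono_set isBounded_D
  rw [ofReal_integral_eq_lintegral_ofReal hint
    (Eventually.of_forall fun z => det_nonneg hpsd z)]
  rfl

/-- the Monge-Ampere measure on the quotient -/
def mu (φ : C3 → ℝ) : Measure Mf :=
  Measure.map proj ((volume.restrict D).withDensity (dens φ))

theorem measurable_proj : Measurable proj := continuous_proj.measurable

theorem mu_univ (hφ : ContDiff ℝ ∞ φ) (hpsd : ∀ z, (g0 z + levi φ z).PosSemidef) :
    mu φ Set.univ = ENNReal.ofReal (∫ z in D, ((g0 z + levi φ z).det).re) := by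
  rw [mu, Measure.map_apply measurable_proj MeasurableSet.univ, Set.preimage_univ,
    withDensity_apply _ MeasurableSet.univ, Measure.restrict_univ, lintegral_dens hφ hpsd]

theorem mu_apply {A : Set Mf} (hA : MeasurableSet A) :
    mu φ A = ∫⁻ z in D, (proj ⁻¹' A).indicator (dens φ) z := by
  have h1 : MeasurableSet (proj ⁻¹' A) := measurable_proj hA
  rw [mu, Measure.map_apply measurable_proj hA, withDensity_apply _ h1, lintegral_indicator h1]

theorem tsum_indicator (hφ : ContDiff ℝ ∞ φ) (hinv : GInv φ) {z₀ : C3} {A : Set Mf}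
    (hA : A ⊆ proj '' Metric.ball z₀ (1 / 2)) (x : C3) :
    ∑' g : Gam, (Metric.ball z₀ (1 / 2) ∩ proj ⁻¹' A).indicator (dens φ) (g⁻¹ • x) =
      (proj ⁻¹' A).indicator (dens φ) x := by
  by_cases hx : proj x ∈ A
  · obtain ⟨y, hy, hyx⟩ := hA hx
    obtain ⟨g₀, hg₀⟩ := proj_eq_iff.mp hyx
    have hyA : y ∈ Metric.ball z₀ (1 / 2) ∩ proj ⁻¹' A := by
      refine ⟨hy, ?_⟩
      change proj y ∈ A
      rw [hyx]; exact hx
    rw [Set.indicator_of_mem (show x ∈ proj ⁻¹' A from hx), tsum_eq_single g₀⁻¹]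
    · rw [inv_inv, hg₀, Set.indicator_of_mem hyA, ← hg₀, dens_smul hφ hinv]
    · intro g hg
      refine Set.indicator_of_notMem ?_ _
      rintro ⟨h1, h2⟩
      apply hg
      have h3 : g⁻¹ • x = y := by
        refine injOn_proj z₀ h1 hy ?_
        rw [proj_smul, hyx]
      have h4 : (g⁻¹ * g₀⁻¹) • y = y := by
        rw [mul_smul]
        have h7 : g₀⁻¹ • y = x := by rw [← hg₀, inv_smul_smul]
        rw [h7, h3]
      have h5 : g⁻¹ * g₀⁻¹ = 1 := by
        refine Gam.eq_one_of_near _ y fun j => ?_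
        rw [h4, sub_self, norm_zero]
        exact one_pos
      have h6 : g⁻¹ = g₀ := by
        rw [mul_eq_one_iff_eq_inv, inv_inv] at h5
        exact h5
      rw [← h6, inv_inv]
  · rw [Set.indicator_of_notMem (show x ∉ proj ⁻¹' A from hx)]
    rw [ENNReal.tsum_eq_zero]
    intro g
    refine Set.indicator_of_notMem ?_ _
    rintro ⟨_, h2⟩
    apply hx
    have h3 : proj (g⁻¹ • x) ∈ A := h2
    rwa [proj_smul] at h3

theorem mu_eq (hφ : ContDiff ℝ ∞ φ) (hinv : GInv φ) {z₀ : C3} {A : Set Mf}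
    (hA : A ⊆ proj '' Metric.ball z₀ (1 / 2)) (hAm : MeasurableSet A) :
    mu φ A = ∫⁻ z in Metric.ball z₀ (1 / 2) ∩ proj ⁻¹' A, dens φ z := by
  have hS : MeasurableSet (Metric.ball z₀ (1 / 2) ∩ proj ⁻¹' A) :=
    Metric.isOpen_ball.measurableSet.inter (measurable_proj hAm)
  rw [mu_apply hAm, ← lintegral_indicator hS,
    isFundamentalDomain_D.lintegral_eq_tsum' (Set.indicator _ (dens φ)), ← lintegral_tsum]
  · exact lintegral_congr fun x => (tsum_indicator hφ hinv hA x).symm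
  · intro g
    exact (((measurable_dens hφ).indicator hS).comp
      (continuous_const_smul g⁻¹).measurable).aemeasurable

end

theorem T_eq_zero (hcore : ∀ δ : ℝ, 0 < δ → ∃ φ : C3 → ℝ, ContDiff ℝ ∞ φ ∧ GInv φ ∧
      (∀ z, (g0 z + levi φ z).PosSemidef) ∧ ∫ z in D, ((g0 z + levi φ z).det).re ≤ δ) :
    wf.T = 0 := by
  refine le_antisymm ?_ zero_le
  refine ENNReal.le_of_forall_pos_le_add ?_
  intro δ hδ _
  obtain ⟨φ, hφ, hinv, hpsd, hle⟩ := hcore δ (by exact_mod_cast hδ)
  rw [zero_add]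
  let Φ : Mf → ℝ := Quotient.lift φ (by
    intro p q hpq
    obtain ⟨g, hg⟩ := MulAction.orbitRel_apply.mp hpq
    have hg' : g • q = p := hg
    rw [← hg', inv_smul_fun hinv])
  have hΦ : Φ ∘ proj = φ := rfl
  have hsm : IsSmooth 3 Φ := by
    rintro e ⟨z₀, rfl⟩
    exact hφ.contDiffOn
  have hpsh : wf.IsPSH Φ := by
    rintro e ⟨z₀, rfl⟩ z hz
    exact hpsd z
  have hMA : wf.IsMongeAmpere Φ (mu φ) := by
    rintro e ⟨z₀, rfl⟩ A hA hAm
    have h1 : (pch z₀).symm '' A = Metric.ball z₀ (1 / 2) ∩ proj ⁻¹' A :=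
      (pch z₀).symm.image_eq_target_inter_inv_preimage hA
    rw [mu_eq hφ hinv (z₀ := z₀) hA hAm, h1]
    rfl
  unfold HermitianForm.T
  refine iInf_le_of_le Φ (iInf_le_of_le (mu φ) (iInf_le_of_le ⟨hsm, hpsh, hMA⟩ ?_))
  rw [mu_univ hφ hpsd]
  calc ENNReal.ofReal (∫ z in D, ((g0 z + levi φ z).det).re) ≤ ENNReal.ofReal (δ : ℝ) :=
        ENNReal.ofReal_le_ofReal hle
    _ = δ := ENNReal.ofReal_coe_nnreal

end MF

/-- From the core theorem to an abstract compact complex manifold. -/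
theorem manifold_of_core
    (hcore : ∀ δ : ℝ, 0 < δ → ∃ φ : C3 → ℝ, ContDiff ℝ ∞ φ ∧ GInv φ ∧
      (∀ z, (g0 z + levi φ z).PosSemidef) ∧ ∫ z in D, ((g0 z + levi φ z).det).re ≤ δ) :
    ∃ (M : Type) (_ : TopologicalSpace M) (_ : MeasurableSpace M) (_ : BorelSpace M)
      (_ : ChartedSpace (Fin 3 → ℂ) M)
      (_ : IsManifold (modelWithCornersSelf ℂ (Fin 3 → ℂ)) ω M)
      (_ : CompactSpace M) (_ : T2Space M) (_ : ConnectedSpace M) (w : HermitianForm 3 M),
      w.T = 0 :=
  ⟨MF.Mf, inferInstance, inferInstance, inferInstance, inferInstance, inferInstance,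
    inferInstance, inferInstance, inferInstance, MF.wf, MF.T_eq_zero hcore⟩

end Pool.Agent.MA87
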