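import Pool.Agent.MA87.Defs

/-!
# MP_87f2fd_gt : Monge-Ampere volumes on compact Hermitian manifolds, general definitions
-/

open Complex MeasureTheory
open scoped ContDiff ComplexOrder Manifold

noncomputable section

namespace Pool.Agent.MA87

variable {n : ℕ} {M : Type*} [TopologicalSpace M] [ChartedSpace (Fin n → ℂ) M]

/-- A Hermitian metric on the complex manifold `M` (equivalently its positive `(1,1)`-form
`ω = i ∑ g_{jk} dz_j ∧ dz̄_k`), given by its coefficient matrices `(g_{jk})` in the charts of the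
atlas: they are smooth, positive definite and transform as a `(1,1)`-form under coordinate
changes. -/
structure HermitianForm (n : ℕ) (M : Type*) [TopologicalSpace M] [ChartedSpace (Fin n → ℂ) M] where
  /-- the coefficient matrix at the point `z` of the target of a chart -/
  coeff : OpenPartialHomeomorph M (Fin n → ℂ) → (Fin n → ℂ) → Matrix (Fin n) (Fin n) ℂ
  smooth : ∀ e ∈ atlas (Fin n → ℂ) M, ∀ i j, ContDiffOn ℝ ∞ (fun z => coeff e z i j) e.target
  posDef : ∀ e ∈ atlas (Fin n → ℂ) M, ∀ z ∈ e.target, (coeff e z).PosDef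
  compat : ∀ e ∈ atlas (Fin n → ℂ) M, ∀ e' ∈ atlas (Fin n → ℂ) M, ∀ z ∈ e.target,
    e.symm z ∈ e'.source → ∀ i j, coeff e z i j =
      ∑ k, ∑ l, fderiv ℂ (e' ∘ e.symm) z (Pi.single i 1) k *
        (starRingEnd ℂ) (fderiv ℂ (e' ∘ e.symm) z (Pi.single j 1) l) *
          coeff e' (e' (e.symm z)) k l

/-- smooth real functions on `M` -/
def IsSmooth (n : ℕ) {M : Type*} [TopologicalSpace M] [ChartedSpace (Fin n → ℂ) M]
    (φ : M → ℝ) : Prop :=
  ∀ e ∈ atlas (Fin n → ℂ) M, ContDiffOn ℝ ∞ (φ ∘ e.symm) e.target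

/-- `ω + i ∂∂̄ φ ≥ 0` -/
def HermitianForm.IsPSH (w : HermitianForm n M) (φ : M → ℝ) : Prop :=
  ∀ e ∈ atlas (Fin n → ℂ) M, ∀ z ∈ e.target,
    (w.coeff e z + levi (φ ∘ e.symm) z).PosSemidef

/-- `μ` is the Monge-Ampere measure `(ω + i ∂∂̄ φ)^n`, up to the universal factor relating
`i^n dz_1 ∧ dz̄_1 ∧ ... ∧ dz_n ∧ dz̄_n` to Lebesgue measure and the factor `n!`: in every chart it
has the density `det (g_{jk} + φ_{j k̄})` with respect to Lebesgue measure. -/
def HermitianForm.IsMongeAmpere [MeasurableSpace M] (w : HermitianForm n M) (φ : M → ℝ)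
    (μ : Measure M) : Prop :=
  ∀ e ∈ atlas (Fin n → ℂ) M, ∀ A : Set M, A ⊆ e.source → MeasurableSet A →
    μ A = ∫⁻ z in e '' A, ENNReal.ofReal ((w.coeff e z + levi (φ ∘ e.symm) z).det).re

/-- `T(M, ω)`, the infimum of the Monge-Ampere volumes of smooth `ω`-plurisubharmonic functions
(as an extended nonnegative real; an empty infimum would be `∞`). -/
def HermitianForm.T [MeasurableSpace M] (w : HermitianForm n M) : ENNReal :=
  ⨅ (φ : M → ℝ) (μ : Measure M) (_ : IsSmooth n φ ∧ w.IsPSH φ ∧ w.IsMongeAmpere φ μ), μ Set.univ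

end Pool.Agent.MA87
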