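import Pool.Agent.MA87.Defs

/-!
# MP_87f2fd_gt : the scalar inequality (package SC)
-/

open Complex

noncomputable section

namespace Pool.Agent.MA87

namespace ScalarAux

lemma qf_nonneg (t : ℝ) : 0 ≤ qf t := Real.log_nonneg (Real.one_le_cosh t)

lemma cosh_le_mul (a b : ℝ) : Real.cosh a ≤ Real.cosh b * Real.exp |a - b| := by
  have h1 : a = b + (a - b) := by ring
  have h2 : Real.cosh a = Real.cosh b * Real.cosh (a - b) + Real.sinh b * Real.sinh (a - b) := by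
    conv_lhs => rw [h1]
    rw [Real.cosh_add]
  have h3 : Real.sinh b * Real.sinh (a - b) ≤ Real.cosh b * |Real.sinh (a - b)| := by
    have h4 : |Real.sinh b| ≤ Real.cosh b := by
      rw [abs_le]
      constructor
      · have := Real.exp_pos b
        rw [← Real.cosh_add_sinh] at this
        linarith
      · have := Real.exp_pos (-b)
        rw [← Real.cosh_sub_sinh] at this
        linarith
    calc Real.sinh b * Real.sinh (a - b) ≤ |Real.sinh b * Real.sinh (a - b)| := le_abs_self _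
      _ = |Real.sinh b| * |Real.sinh (a - b)| := abs_mul _ _
      _ ≤ _ := mul_le_mul_of_nonneg_right h4 (abs_nonneg _)
  have h5 : Real.exp |a - b| = Real.cosh (a - b) + |Real.sinh (a - b)| := by
    rw [← Real.cosh_add_sinh |a - b|, Real.cosh_abs]
    congr 1
    rcases le_total 0 (a - b) with h | h
    · rw [abs_of_nonneg h, abs_of_nonneg (Real.sinh_nonneg_iff.2 h)]
    · rw [abs_of_nonpos h, Real.sinh_neg, abs_of_nonpos (Real.sinh_nonpos_iff.2 h)]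
  rw [h5, h2]
  nlinarith

lemma qf_lip (a b : ℝ) : qf a ≤ qf b + |a - b| := by
  unfold qf
  have h := Real.log_le_log (Real.cosh_pos a) (cosh_le_mul a b)
  rw [Real.log_mul (Real.cosh_pos b).ne' (Real.exp_pos _).ne', Real.log_exp] at h
  exact h

lemma qf_le_abs (t : ℝ) : qf t ≤ |t| := by
  have h := qf_lip t 0
  have h0 : qf 0 = 0 := by simp [qf]
  rw [h0, zero_add, sub_zero] at h
  exact h

lemma one_sub_tanh_sq (t : ℝ) : 1 - Real.tanh t ^ 2 = 1 / Real.cosh t ^ 2 := by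
  rw [Real.tanh_eq_sinh_div_cosh]
  have h := Real.cosh_sq t
  have h1 := (Real.cosh_pos t).ne'
  field_simp
  linarith

lemma tanh_sq_le (t : ℝ) : Real.tanh t ^ 2 ≤ 1 := by
  have h := one_sub_tanh_sq t
  have : 0 ≤ 1 / Real.cosh t ^ 2 := by positivity
  linarith

lemma tanh_qf_le (t : ℝ) : (1 - Real.tanh t ^ 2) * qf t ≤ 1 := by
  rw [one_sub_tanh_sq, div_mul_eq_mul_div, one_mul, div_le_one (by positivity)]
  have h1 := Real.one_le_cosh t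
  have h2 := Real.log_le_sub_one_of_pos (Real.cosh_pos t)
  unfold qf
  nlinarith

lemma Ef_pos (k t : ℝ) : 0 < Ef k t := Real.exp_pos _

lemma Ef_le_one {k : ℝ} (hk : 0 < k) (t : ℝ) : Ef k t ≤ 1 := by
  unfold Ef
  rw [Real.exp_le_one_iff]
  have := qf_nonneg t
  nlinarith

lemma one_sub_Ef_le (k t : ℝ) : 1 - Ef k t ≤ k * qf t := by
  unfold Ef
  have := Real.add_one_le_exp (-k * qf t)
  linarith

lemma Ef_compare {k : ℝ} (hk : 0 < k) {d η : ℝ} (h : |d - η| ≤ 1) :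
    (1 - k) * Ef k η ≤ Ef k d := by
  have h1 := qf_lip d η
  have h2 : -k * qf η + -k ≤ -k * qf d := by nlinarith
  have h3 : Real.exp (-k * qf η) * Real.exp (-k) ≤ Real.exp (-k * qf d) := by
    rw [← Real.exp_add]
    exact Real.exp_le_exp.2 h2
  have h4 := Real.add_one_le_exp (-k)
  unfold Ef
  have h5 := Real.exp_pos (-k * qf η)
  nlinarith

lemma Gf_nonneg {k T : ℝ} (hk : 0 < k) (hT : 0 ≤ T) : 0 ≤ Gf k T := by
  unfold Gf
  have h1 : 0 ≤ 8 * k ^ 3 * T := by positivity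
  have h2 : 0 ≤ Real.log (1 + 8 * k ^ 3 * T) := Real.log_nonneg (by linarith)
  positivity

lemma Gf_le {k T : ℝ} (hk : 0 < k) (hT : 0 ≤ T) : Gf k T ≤ T := by
  unfold Gf
  have h1 : 0 ≤ 8 * k ^ 3 * T := by positivity
  have h2 := Real.log_le_sub_one_of_pos (show 0 < 1 + 8 * k ^ 3 * T by linarith)
  have h3 : 0 < 8 * k ^ 3 := by positivity
  rw [div_mul_eq_mul_div, one_mul, div_le_iff₀ h3]
  linarith

/-- weighted triangle inequality -/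
lemma weighted {l a b e : ℝ} (hl : 0 < l) (hl1 : l < 1) (he : 0 ≤ e)
    (h : e ≤ a + b) : (1 - l) * e ^ 2 - 1 / l * b ^ 2 ≤ a ^ 2 := by
  have h1 : e ^ 2 ≤ (a + b) ^ 2 := by
    apply pow_le_pow_left₀ he h
  have h2 : (1 - l) * (a + b) ^ 2 ≤ a ^ 2 + 1 / l * b ^ 2 := by
    have h3 : 1 / l * b ^ 2 = b ^ 2 / l := by ring
    rw [h3, ← sub_nonneg]
    have h4 : a ^ 2 + b ^ 2 / l - (1 - l) * (a + b) ^ 2 =
        ((l * a - (1 - l) * b) ^ 2 + l * b ^ 2) / l := by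
      field_simp
      ring
    rw [h4]
    positivity
  have h5 : (1 - l) * e ^ 2 ≤ (1 - l) * (a + b) ^ 2 := mul_le_mul_of_nonneg_left h1 (by linarith)
  linarith

/-- `-a x² + 2 b x ≤ b²/a` in the form needed -/
lemma quad {k F g z x : ℝ} (hk : 0 < k) (hF : 0 < F) :
    -(8 * k ^ 3) * g ^ 2 * F * x ^ 2 + 2 * g * (k * F) * (x * z) ≤ F * z ^ 2 / (8 * k) := by
  rw [le_div_iff₀ (by positivity)]
  have h : 0 ≤ F * (8 * k ^ 2 * (g * x) - z) ^ 2 := by positivity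
  nlinarith


lemma P2_lower {k c E τ : ℝ} (hk : 0 < k) (hc : 0 < c) (hE : E ≤ 1)
    (hτ : τ ≤ 1) :
    c * k ^ 2 / (1 + k) * E ≤ c * k * (1 - τ) * (1 - E / (1 + k)) + c * k ^ 2 / (1 + k) * τ * E := by
  have h : c * k * (1 - τ) * (1 - E / (1 + k)) + c * k ^ 2 / (1 + k) * τ * E
      - c * k ^ 2 / (1 + k) * E = c * k * (1 - τ) * (1 - E) := by
    field_simp
    ring
  have h1 : 0 ≤ c * k * (1 - τ) * (1 - E) := by
    apply mul_nonneg (mul_nonneg (mul_nonneg hc.le hk.le) (by linarith)) (by linarith)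
  linarith

lemma P2_upper {k c E τ q : ℝ} (hk : 0 < k) (hc : 0 < c) (hc1 : c ≤ 1) (hE0 : 0 ≤ E) (hE : E ≤ 1)
    (hτ0 : 0 ≤ τ) (hτ : τ ≤ 1) (hq : 1 - E ≤ k * q) (hq2 : (1 - τ) * q ≤ 1) :
    c * k * (1 - τ) * (1 - E / (1 + k)) + c * k ^ 2 / (1 + k) * τ * E ≤ 3 * k ^ 2 := by
  have h1 : 1 - E / (1 + k) ≤ k + k * q := by
    have h2 : 1 - E / (1 + k) = (k + (1 - E)) / (1 + k) := by
      field_simp
      ring
    rw [h2]
    calc (k + (1 - E)) / (1 + k) ≤ k + (1 - E) := by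
          apply div_le_self (by linarith) (by linarith)
      _ ≤ _ := by linarith
  have h3 : (1 - τ) * (1 - E / (1 + k)) ≤ 2 * k := by
    calc (1 - τ) * (1 - E / (1 + k)) ≤ (1 - τ) * (k + k * q) :=
          mul_le_mul_of_nonneg_left h1 (by linarith)
      _ = k * (1 - τ) + k * ((1 - τ) * q) := by ring
      _ ≤ k * 1 + k * 1 := by
          apply add_le_add
          · exact mul_le_mul_of_nonneg_left (by linarith) hk.le
          · exact mul_le_mul_of_nonneg_left hq2 hk.le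
      _ = _ := by ring
  have h4 : c * k * (1 - τ) * (1 - E / (1 + k)) ≤ 2 * k ^ 2 := by
    calc c * k * (1 - τ) * (1 - E / (1 + k)) = c * k * ((1 - τ) * (1 - E / (1 + k))) := by ring
      _ ≤ c * k * (2 * k) := mul_le_mul_of_nonneg_left h3 (by positivity)
      _ = c * (2 * k ^ 2) := by ring
      _ ≤ 1 * (2 * k ^ 2) := mul_le_mul_of_nonneg_right hc1 (by positivity)
      _ = _ := by ring
  have h5 : c * k ^ 2 / (1 + k) * τ * E ≤ k ^ 2 := by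
    have h6 : c * k ^ 2 / (1 + k) ≤ k ^ 2 := by
      rw [div_le_iff₀ (by linarith)]
      nlinarith [sq_nonneg k]
    have h7 : c * k ^ 2 / (1 + k) * τ ≤ k ^ 2 * 1 :=
      mul_le_mul h6 hτ hτ0 (by positivity)
    calc c * k ^ 2 / (1 + k) * τ * E ≤ (k ^ 2 * 1) * 1 := mul_le_mul h7 hE hE0 (by positivity)
      _ = _ := by ring
  linarith

/-- first order part -/
lemma part1 {k c κ s d E0 F0 F1 G0 P1 N q τ : ℝ} (hk : 0 < k) (hc : 0 < c) (hc1 : c < 1)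
    (hκ : 0 < κ) (hs : |d| ≤ s) (hq0 : 0 ≤ q) (hq : q ≤ |d|) (hE0 : 0 < E0) (hE1 : E0 ≤ 1)
    (hF0 : 0 < F0) (hF1 : |F1| ≤ k * F0) (hG0 : 0 ≤ G0) (hτ : |τ| ≤ 1)
    (hP1 : P1 = c * k * τ * (1 - E0 / (1 + k)))
    (hN : N = 2 + k * s - (c * k * q + c / (1 + k) * E0) + k ^ 2 * κ * G0 * F0) :
    k + |P1 - k ^ 2 * κ * G0 * F1| ≤ k * N ∧ 1 ≤ N ∧ k ^ 2 * κ * G0 * F0 ≤ N := by
  have hE : E0 / (1 + k) ≤ 1 := by
    rw [div_le_one (by linarith)]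
    linarith
  have hP : |P1| ≤ c * k * (1 - E0 / (1 + k)) := by
    rw [hP1, abs_mul, abs_mul, abs_of_nonneg (show 0 ≤ c * k by positivity),
      abs_of_nonneg (show 0 ≤ 1 - E0 / (1 + k) by linarith)]
    apply mul_le_mul_of_nonneg_right _ (by linarith)
    calc c * k * |τ| ≤ c * k * 1 := mul_le_mul_of_nonneg_left hτ (by positivity)
      _ = _ := by ring
  have hG : |k ^ 2 * κ * G0 * F1| ≤ k ^ 2 * κ * G0 * (k * F0) := by
    rw [abs_mul, abs_of_nonneg (show 0 ≤ k ^ 2 * κ * G0 by positivity)]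
    exact mul_le_mul_of_nonneg_left hF1 (by positivity)
  have h1 : |P1 - k ^ 2 * κ * G0 * F1| ≤ |P1| + |k ^ 2 * κ * G0 * F1| := abs_sub _ _
  have hd : c / (1 + k) * E0 = c * (E0 / (1 + k)) := by ring
  have hsq : c * k * q ≤ k * s := by
    calc c * k * q = k * (c * q) := by ring
      _ ≤ k * s := by
        apply mul_le_mul_of_nonneg_left _ hk.le
        nlinarith
  have hEc : c * (E0 / (1 + k)) ≤ 1 := by
    have : 0 ≤ E0 / (1 + k) := by positivity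
    nlinarith
  have hGF : 0 ≤ k ^ 2 * κ * G0 * F0 := by positivity
  refine ⟨?_, ?_, ?_⟩
  · have h2 : k * N = 2 * k + k * (k * s - c * k * q) - k * (c * (E0 / (1 + k)))
        + k ^ 2 * κ * G0 * (k * F0) := by
      rw [hN]; ring
    have h3 : 0 ≤ k * (k * s - c * k * q) := mul_nonneg hk.le (by linarith)
    have h4 : c * k * (1 - E0 / (1 + k)) = c * k - k * (c * (E0 / (1 + k))) := by ring
    have h5 : c * k ≤ k := by nlinarith
    linarith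
  · rw [hN, hd]; linarith
  · rw [hN, hd]; linarith

/-- the constants -/
lemma consts {c κ C : ℝ} (hκ : 0 < κ) (hκc : κ < c) (hC : 0 ≤ C) :
    ∃ l : ℝ, 0 < l ∧ l < 1 ∧ (1 - l) * c = (c + κ) / 2 ∧
      ∃ k₀ : ℝ, 0 < k₀ ∧ k₀ ≤ 1 / 2 ∧
      k₀ * (2 + 2 * (C + 2 * C * (1 + C) + 2 * C * (1 + C) ^ 2 + C ^ 2)) ≤ (c - κ) / 2 ∧
      k₀ * (1 + 3 / l + 3 * C) ≤ 7 / 8 := by
  have hl0 : 0 < (c - κ) / (2 * c) := by apply div_pos <;> linarith
  have hl1 : (c - κ) / (2 * c) < 1 := by rw [div_lt_one (by linarith)]; linarith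
  have hc0 : 0 < c := hκ.trans hκc
  have hlc : (1 - (c - κ) / (2 * c)) * c = (c + κ) / 2 := by field_simp; ring
  refine ⟨(c - κ) / (2 * c), hl0, hl1, hlc, ?_⟩
  generalize (c - κ) / (2 * c) = l at *
  have hA : 0 < 2 + 2 * (C + 2 * C * (1 + C) + 2 * C * (1 + C) ^ 2 + C ^ 2) := by positivity
  have hB : 0 < 1 + 3 / l + 3 * C := by positivity
  refine ⟨min (1 / 2) (min ((c - κ) / 2 / (2 + 2 * (C + 2 * C * (1 + C) + 2 * C * (1 + C) ^ 2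
    + C ^ 2))) (7 / 8 / (1 + 3 / l + 3 * C))), ?_, min_le_left _ _, ?_, ?_⟩
  · refine lt_min (by norm_num) (lt_min (div_pos (by linarith) hA) (by positivity))
  · rw [← le_div_iff₀ hA]
    exact (min_le_right _ _).trans (min_le_left _ _)
  · rw [← le_div_iff₀ hB]
    exact (min_le_right _ _).trans (min_le_right _ _)

lemma abs_F1 {k τ F0 F1 : ℝ} (hk : 0 < k) (hF0 : 0 < F0) (hτ : |τ| ≤ 1) (h : F1 = -k * τ * F0) :
    |F1| ≤ k * F0 := by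
  rw [h, abs_mul, abs_mul, abs_neg, abs_of_pos hk, abs_of_pos hF0]
  have : k * |τ| ≤ k * 1 := mul_le_mul_of_nonneg_left hτ hk.le
  nlinarith

lemma le_F2 {k τ F0 F2 : ℝ} (hk : 0 < k) (hF0 : 0 < F0) (hτ : τ ^ 2 ≤ 1)
    (h : F2 = (k ^ 2 * τ ^ 2 - k * (1 - τ ^ 2)) * F0) : F2 ≤ k ^ 2 * F0 := by
  rw [h]
  apply mul_le_mul_of_nonneg_right _ hF0.le
  have h1 : k ^ 2 * τ ^ 2 ≤ k ^ 2 * 1 := mul_le_mul_of_nonneg_left hτ (by positivity)
  have h2 : 0 ≤ k * (1 - τ ^ 2) := mul_nonneg hk.le (by linarith)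
  linarith

lemma P2F {k c κ l C1 F0 E0 P2 : ℝ} (hk : 0 < k) (hk1 : k ≤ 1 / 2) (hκ : 0 < κ) (hκc : κ < c)
    (hc : c < 1) (hl1 : l < 1) (hlc : (1 - l) * c = (c + κ) / 2) (hC1 : 0 ≤ C1)
    (hkb : k * (2 + 2 * C1) ≤ (c - κ) / 2) (hF0 : 0 < F0) (hEF : (1 - k) * F0 ≤ E0)
    (hP2 : c * k ^ 2 / (1 + k) * E0 ≤ P2) :
    k ^ 2 * F0 * (κ * (1 + k * C1)) ≤ (1 - l) * P2 := by
  have hc0 : 0 < c := hκ.trans hκc
  have h2 : (1 - l) * (c * k ^ 2 / (1 + k) * ((1 - k) * F0)) ≤ (1 - l) * P2 := by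
    apply mul_le_mul_of_nonneg_left _ (by linarith)
    refine le_trans ?_ hP2
    apply mul_le_mul_of_nonneg_left hEF (by positivity)
  refine le_trans ?_ h2
  have h3 : (1 - l) * (c * k ^ 2 / (1 + k) * ((1 - k) * F0)) =
      k ^ 2 * F0 * (((1 - l) * c) * (1 - k) / (1 + k)) := by
    field_simp
  rw [h3, hlc]
  apply mul_le_mul_of_nonneg_left _ (by positivity)
  rw [le_div_iff₀ (by linarith)]
  have h4 : κ * (1 + k * C1) * (1 + k) ≤ κ + κ * (k * (1 + 2 * C1)) := by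
    have h5 : (1 + k * C1) * (1 + k) ≤ 1 + k * (1 + 2 * C1) := by
      have : k * C1 * k ≤ k * C1 * 1 := mul_le_mul_of_nonneg_left (by linarith) (by positivity)
      nlinarith
    calc κ * (1 + k * C1) * (1 + k) = κ * ((1 + k * C1) * (1 + k)) := by ring
      _ ≤ κ * (1 + k * (1 + 2 * C1)) := mul_le_mul_of_nonneg_left h5 hκ.le
      _ = _ := by ring
  have h6 : κ * (k * (1 + 2 * C1)) ≤ 1 * (k * (1 + 2 * C1)) :=
    mul_le_mul_of_nonneg_right (by linarith) (by positivity)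
  have h7 : (c + κ) / 2 * k ≤ 1 * k := mul_le_mul_of_nonneg_right (by linarith) hk.le
  nlinarith

lemma partA {k l P2 A ne nδ nξ : ℝ} (hw : (1 - l) * ne ^ 2 - 1 / l * nξ ^ 2 ≤ nδ ^ 2)
    (hl0 : 0 < l) (hP2p : 0 ≤ P2) (hP2u : P2 ≤ 3 * k ^ 2) (hA : A ≤ (1 - l) * P2) :
    -(P2 * nδ ^ 2) ≤ -A * ne ^ 2 + 3 * k ^ 2 / l * nξ ^ 2 := by
  have h2 : P2 * ((1 - l) * ne ^ 2 - 1 / l * nξ ^ 2) ≤ P2 * nδ ^ 2 :=
    mul_le_mul_of_nonneg_left hw hP2p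
  have h3 : A * ne ^ 2 ≤ (1 - l) * P2 * ne ^ 2 := mul_le_mul_of_nonneg_right hA (by positivity)
  have h4 : P2 * (1 / l * nξ ^ 2) ≤ 3 * k ^ 2 * (1 / l * nξ ^ 2) :=
    mul_le_mul_of_nonneg_right hP2u (by positivity)
  have h5 : 3 * k ^ 2 * (1 / l * nξ ^ 2) = 3 * k ^ 2 / l * nξ ^ 2 := by ring
  nlinarith

lemma caseA {k l κ C C1 F0 F1 F2 G0 G1 G2 N ne nξ nt re : ℝ} (hk : 0 < k) (hl0 : 0 < l)
    (hκ : 0 < κ) (hκ1 : κ ≤ 1) (hC : 0 ≤ C) (hC1 : 0 ≤ C1)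
    (hkc : k * (1 + 3 / l + 3 * C) ≤ 7 / 8) (hF0 : 0 < F0) (hF01 : F0 ≤ 1)
    (hF2 : F2 ≤ k ^ 2 * F0) (hG0 : 0 ≤ G0) (hG11 : G1 ≤ 1)
    (hG2 : G2 = -(8 * k ^ 3) * G1 ^ 2) (hN1 : 1 ≤ N)
    (hGN : k ^ 2 * κ * G0 * F0 ≤ N)
    (hcross : 2 * G1 * F1 * re ≤ 2 * G1 * (k * F0) * (nt * nξ)) :
    k ^ 2 * κ * (F0 * (G1 * ne ^ 2 + G2 * nt ^ 2) + 2 * G1 * F1 * re
              + G0 * (F2 * nξ ^ 2 - F1 * 0 * ne ^ 2)) ≤
      k ^ 2 * F0 * (κ * (1 + k * C1)) * ne ^ 2 + (k * N - 3 * k ^ 2 / l) * nξ ^ 2 := by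
  have hq := quad (k := k) (F := F0) (g := G1) (z := nξ) (x := nt) hk hF0
  have h2 : F0 * (G1 * ne ^ 2) ≤ F0 * ne ^ 2 := by
    apply mul_le_mul_of_nonneg_left _ hF0.le
    have : G1 * ne ^ 2 ≤ 1 * ne ^ 2 := mul_le_mul_of_nonneg_right hG11 (by positivity)
    linarith
  have h3 : G0 * (F2 * nξ ^ 2) ≤ G0 * (k ^ 2 * F0 * nξ ^ 2) := by
    apply mul_le_mul_of_nonneg_left _ hG0
    exact mul_le_mul_of_nonneg_right hF2 (by positivity)
  have hB : F0 * (G1 * ne ^ 2 + G2 * nt ^ 2) + 2 * G1 * F1 * re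
          + G0 * (F2 * nξ ^ 2 - F1 * 0 * ne ^ 2) ≤
      F0 * ne ^ 2 + F0 * nξ ^ 2 / (8 * k) + G0 * (k ^ 2 * F0 * nξ ^ 2) := by
    rw [hG2]
    linarith
  refine (mul_le_mul_of_nonneg_left hB (by positivity)).trans ?_
  have h4 : k ^ 2 * κ * (F0 * ne ^ 2 + F0 * nξ ^ 2 / (8 * k)
      + G0 * (k ^ 2 * F0 * nξ ^ 2)) =
      k ^ 2 * F0 * κ * ne ^ 2 + (κ * F0 * (k * (1 / 8)) + k ^ 2 * (k ^ 2 * κ * G0 * F0))
        * nξ ^ 2 := by
    field_simp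
    ring
  rw [h4]
  apply add_le_add
  · apply mul_le_mul_of_nonneg_right _ (by positivity)
    have : 0 ≤ k ^ 2 * F0 * κ * (k * C1) := by positivity
    linarith
  · apply mul_le_mul_of_nonneg_right _ (by positivity)
    have h5 : κ * F0 * (k * (1 / 8)) ≤ 1 * (k * (1 / 8)) := by
      apply mul_le_mul_of_nonneg_right _ (by positivity)
      nlinarith
    have h6 : k ^ 2 * (k ^ 2 * κ * G0 * F0) ≤ k ^ 2 * N :=
      mul_le_mul_of_nonneg_left hGN (by positivity)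
    have hkey : k * (1 / 8) + k ^ 2 * N + 3 * k ^ 2 / l ≤ k * N := by
      have h2 : k * (k * (1 + 3 / l + 3 * C)) ≤ k * (7 / 8) :=
        mul_le_mul_of_nonneg_left hkc hk.le
      have h3 : 3 * k ^ 2 / l = k * (k * (3 / l)) := by ring
      have h4 : 0 ≤ 3 * C * k ^ 2 := by positivity
      have hk1 : k ≤ 1 := by
        have : 0 ≤ k * (3 / l + 3 * C) := by positivity
        linarith
      have h5 : k * (N - 1) * k ≤ k * (N - 1) * 1 :=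
        mul_le_mul_of_nonneg_left hk1 (mul_nonneg hk.le (by linarith))
      linarith
    linarith

lemma caseB {k l κ C C1 F0 F1 F2 f2 G0 G1 G2 N ne nξ nt m re : ℝ} (hk : 0 < k) (hk1 : k ≤ 1 / 2)
    (hl0 : 0 < l) (hκ : 0 < κ) (hκ1 : κ ≤ 1) (hC : 0 ≤ C)
    (hC1 : C1 = C + 2 * C * (1 + C) + 2 * C * (1 + C) ^ 2 + C ^ 2)
    (hkc : k * (1 + 3 / l + 3 * C) ≤ 7 / 8) (hF0 : 0 < F0) (hF01 : F0 ≤ 1)
    (hF1 : |F1| ≤ k * F0) (hf2 : |f2| ≤ C)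
    (hF2 : F2 ≤ k ^ 2 * F0) (hG0 : 0 ≤ G0) (hG0C : G0 ≤ C) (hG1 : 0 ≤ G1) (hG11 : G1 ≤ 1)
    (hG2 : G2 ≤ 0) (hN1 : 1 ≤ N) (hne : 0 ≤ ne) (hnξ : 0 ≤ nξ)
    (ht : nt ≤ C * ne) (hnt : 0 ≤ nt) (hm0 : 0 ≤ m) (hm : m ≤ nξ + (1 + C) * ne)
    (hcross : 2 * G1 * F1 * re ≤ 2 * G1 * (k * F0) * (nt * m)) :
    k ^ 2 * κ * (F0 * (G1 * ne ^ 2 + G2 * nt ^ 2) + 2 * G1 * F1 * re
              + G0 * (F2 * m ^ 2 - F1 * f2 * ne ^ 2)) ≤
      k ^ 2 * F0 * (κ * (1 + k * C1)) * ne ^ 2 + (k * N - 3 * k ^ 2 / l) * nξ ^ 2 := by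
  have hm2 : m ^ 2 ≤ 2 * (nξ ^ 2 + (1 + C) ^ 2 * ne ^ 2) := by
    have h2 : m ^ 2 ≤ (nξ + (1 + C) * ne) ^ 2 := pow_le_pow_left₀ hm0 hm 2
    have h3 := sq_nonneg (nξ - (1 + C) * ne)
    linarith
  have h2 : F0 * (G1 * ne ^ 2 + G2 * nt ^ 2) ≤ F0 * ne ^ 2 := by
    apply mul_le_mul_of_nonneg_left _ hF0.le
    have h3 : G1 * ne ^ 2 ≤ 1 * ne ^ 2 := mul_le_mul_of_nonneg_right hG11 (by positivity)
    have h4 : G2 * nt ^ 2 ≤ 0 := mul_nonpos_of_nonpos_of_nonneg hG2 (by positivity)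
    linarith
  have h3 : 2 * G1 * (k * F0) * (nt * m) ≤
      F0 * (k * C * (ne ^ 2 + nξ ^ 2) + 2 * k * C * (1 + C) * ne ^ 2) := by
    have h4 : nt * m ≤ (C * ne) * (nξ + (1 + C) * ne) := mul_le_mul ht hm hm0 (by positivity)
    have h5 : 2 * G1 * (k * F0) ≤ 2 * 1 * (k * F0) := by
      apply mul_le_mul_of_nonneg_right _ (by positivity)
      linarith
    have h6 : 2 * G1 * (k * F0) * (nt * m) ≤
        2 * 1 * (k * F0) * ((C * ne) * (nξ + (1 + C) * ne)) :=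
      mul_le_mul h5 h4 (by positivity) (by positivity)
    refine h6.trans ?_
    have h7 : 2 * (ne * nξ) ≤ ne ^ 2 + nξ ^ 2 := by
      have := sq_nonneg (ne - nξ)
      linarith
    have h8 : F0 * (k * C) * (2 * (ne * nξ)) ≤ F0 * (k * C) * (ne ^ 2 + nξ ^ 2) :=
      mul_le_mul_of_nonneg_left h7 (by positivity)
    linarith
  have h4 : G0 * (F2 * m ^ 2 - F1 * f2 * ne ^ 2) ≤
      F0 * (2 * C * k ^ 2 * nξ ^ 2 + 2 * C * k ^ 2 * (1 + C) ^ 2 * ne ^ 2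
        + k * C ^ 2 * ne ^ 2) := by
    have h5 : F2 * m ^ 2 ≤ k ^ 2 * F0 * (2 * (nξ ^ 2 + (1 + C) ^ 2 * ne ^ 2)) := by
      refine (mul_le_mul_of_nonneg_right hF2 (by positivity)).trans ?_
      exact mul_le_mul_of_nonneg_left hm2 (by positivity)
    have h6 : -(F1 * f2 * ne ^ 2) ≤ (k * F0) * C * ne ^ 2 := by
      have h7 : -(F1 * f2) ≤ (k * F0) * C := by
        calc -(F1 * f2) ≤ |F1 * f2| := neg_le_abs _
          _ = |F1| * |f2| := abs_mul _ _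
          _ ≤ _ := mul_le_mul hF1 hf2 (abs_nonneg _) (by positivity)
      have := mul_le_mul_of_nonneg_right h7 (sq_nonneg ne)
      linarith
    have h8 : F2 * m ^ 2 - F1 * f2 * ne ^ 2 ≤
        k ^ 2 * F0 * (2 * (nξ ^ 2 + (1 + C) ^ 2 * ne ^ 2)) + (k * F0) * C * ne ^ 2 := by
      linarith
    refine (mul_le_mul_of_nonneg_left h8 hG0).trans ?_
    refine (mul_le_mul_of_nonneg_right hG0C (by positivity)).trans ?_
    apply le_of_eq
    ring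
  have hk2 : k ^ 2 ≤ k := by nlinarith
  have hB : F0 * (G1 * ne ^ 2 + G2 * nt ^ 2) + 2 * G1 * F1 * re
          + G0 * (F2 * m ^ 2 - F1 * f2 * ne ^ 2) ≤
      F0 * (1 + k * C1) * ne ^ 2 + F0 * (k * (3 * C)) * nξ ^ 2 := by
    have h9 : 2 * C * k ^ 2 * (1 + C) ^ 2 * (F0 * ne ^ 2) ≤
        2 * C * k * (1 + C) ^ 2 * (F0 * ne ^ 2) := by
      apply mul_le_mul_of_nonneg_right _ (by positivity)
      apply mul_le_mul_of_nonneg_right _ (by positivity)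
      exact mul_le_mul_of_nonneg_left hk2 (by positivity)
    have h10 : 2 * C * k ^ 2 * (F0 * nξ ^ 2) ≤ 2 * C * k * (F0 * nξ ^ 2) := by
      apply mul_le_mul_of_nonneg_right _ (by positivity)
      exact mul_le_mul_of_nonneg_left hk2 (by positivity)
    have h11 : F0 * (1 + k * C1) * ne ^ 2 = F0 * ne ^ 2 +
        F0 * (k * C * ne ^ 2 + 2 * k * C * (1 + C) * ne ^ 2 + k * C ^ 2 * ne ^ 2)
        + 2 * C * k * (1 + C) ^ 2 * (F0 * ne ^ 2) := by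
      rw [hC1]; ring
    rw [h11]
    linarith
  refine (mul_le_mul_of_nonneg_left hB (by positivity)).trans ?_
  have h12 : k ^ 2 * κ * (F0 * (1 + k * C1) * ne ^ 2 + F0 * (k * (3 * C)) * nξ ^ 2) =
      k ^ 2 * F0 * (κ * (1 + k * C1)) * ne ^ 2
        + κ * F0 * (k * (k * (k * (3 * C)))) * nξ ^ 2 := by ring
  rw [h12]
  apply add_le_add le_rfl
  apply mul_le_mul_of_nonneg_right _ (by positivity)
  have h13 : κ * F0 * (k * (k * (k * (3 * C)))) ≤ 1 * (k * (k * (k * (3 * C)))) := by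
    apply mul_le_mul_of_nonneg_right _ (by positivity)
    nlinarith
  have h14 : k * (k * (k * (3 * C))) ≤ k * (1 * (k * (3 * C))) := by
    apply mul_le_mul_of_nonneg_left _ hk.le
    exact mul_le_mul_of_nonneg_right (by linarith) (by positivity)
  have h15 : k * (k * (1 + 3 / l + 3 * C)) ≤ k * (7 / 8) :=
    mul_le_mul_of_nonneg_left hkc hk.le
  have h16 : 3 * k ^ 2 / l = k * (k * (3 / l)) := by ring
  have h17 : k * 1 ≤ k * N := mul_le_mul_of_nonneg_left hN1 hk.le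
  have h18 : 0 ≤ k * k := by positivity
  linarith

lemma final {k κ N LN X Y P1 P2 F0 F1 F2 f2 G0 G1 G2 A B nδ ne nξ nt m re : ℝ}
    (hX : 0 ≤ X) (hY : 0 ≤ Y) (h1 : k + |P1 - k ^ 2 * κ * G0 * F1| ≤ k * N)
    (hA : -(P2 * nδ ^ 2) ≤ -A * ne ^ 2 + B * nξ ^ 2)
    (hR : k ^ 2 * κ * (F0 * (G1 * ne ^ 2 + G2 * nt ^ 2) + 2 * G1 * F1 * re
              + G0 * (F2 * m ^ 2 - F1 * f2 * ne ^ 2)) ≤ A * ne ^ 2 + (k * N - B) * nξ ^ 2)
    (hLN : LN = k * (X + Y) - (P1 * (X - Y) + P2 * nδ ^ 2)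
            + k ^ 2 * κ * (F0 * (G1 * ne ^ 2 + G2 * nt ^ 2) + 2 * G1 * F1 * re
              + G0 * (F2 * m ^ 2 + F1 * ((X - Y) - f2 * ne ^ 2)))) :
    LN ≤ k * N * (X + Y + nξ ^ 2) := by
  have hX1 : X * (k - P1 + k ^ 2 * κ * G0 * F1) ≤ X * (k * N) := by
    apply mul_le_mul_of_nonneg_left _ hX
    have := neg_le_abs (P1 - k ^ 2 * κ * G0 * F1)
    linarith
  have hY1 : Y * (k + P1 - k ^ 2 * κ * G0 * F1) ≤ Y * (k * N) := by
    apply mul_le_mul_of_nonneg_left _ hY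
    have := le_abs_self (P1 - k ^ 2 * κ * G0 * F1)
    linarith
  rw [hLN]
  linarith

end ScalarAux

open ScalarAux in
/-- `k²κ`-part of the Levi form, everything spelled out; `t` stands for `∂T`, `δ = ∂d`, `e = ∂b`,
`f1 = f'(b)`, `f2 = f''(b)`, `X = |ξ_x|²/4`, `Y = |ξ_y|²/4`. -/
theorem key_scalar (c κ C : ℝ) (hκ : 0 < κ) (hκc : κ < c) (hc : c < 1) (hC : 0 ≤ C) :
    ∃ k₀ : ℝ, 0 < k₀ ∧ ∀ k : ℝ, 0 < k → k < k₀ →
    ∀ (r1 r2 T b X Y f0 f1 f2 : ℝ) (δ e t : ℂ), 0 ≤ r1 → 0 ≤ r2 → 0 ≤ T → 0 ≤ X → 0 ≤ Y →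
      |f0| ≤ 1 → |f1| ≤ C → |f2| ≤ C →
      ((f1 = 1 ∧ f2 = 0) ∨ (T ≤ C ∧ ‖t‖ ≤ C * ‖e‖)) →
      ∀ (d η q1 E0 E1 E2 P0 P1 P2 F0 F1 F2 G0 G1 G2 N LN : ℝ),
      d = r1 - r2 → η = d - f0 →
      -- derivatives of `P` at `d`
      P0 = Pf k c d →
      P1 = c * k * Real.tanh d * (1 - Ef k d / (1 + k)) →
      P2 = c * k * (1 - Real.tanh d ^ 2) * (1 - Ef k d / (1 + k))
            + c * k ^ 2 / (1 + k) * Real.tanh d ^ 2 * Ef k d →
      -- derivatives of `E` at `η`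
      F0 = Ef k η →
      F1 = -k * Real.tanh η * Ef k η →
      F2 = (k ^ 2 * Real.tanh η ^ 2 - k * (1 - Real.tanh η ^ 2)) * Ef k η →
      -- derivatives of `G` at `T`
      G0 = Gf k T → G1 = 1 / (1 + 8 * k ^ 3 * T) → G2 = -(8 * k ^ 3) / (1 + 8 * k ^ 3 * T) ^ 2 →
      N = 2 + k * (r1 + r2) - P0 + k ^ 2 * κ * G0 * F0 →
      LN = k * (X + Y) - (P1 * (X - Y) + P2 * ‖δ‖ ^ 2)
            + k ^ 2 * κ * (F0 * (G1 * ‖e‖ ^ 2 + G2 * ‖t‖ ^ 2)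
              + 2 * G1 * F1 * (t * (starRingEnd ℂ) (δ - f1 * e)).re
              + G0 * (F2 * ‖δ - f1 * e‖ ^ 2 + F1 * ((X - Y) - f2 * ‖e‖ ^ 2))) →
      LN ≤ k * N * (X + Y + ‖δ - e‖ ^ 2) := by
  have hc0 : 0 < c := hκ.trans hκc
  obtain ⟨l, hl0, hl1, hlc, k₀, hk₀, hka, hkb, hkc⟩ := consts hκ hκc hC
  refine ⟨k₀, hk₀, ?_⟩
  intro k hk hkk r1 r2 T b X Y f0 f1 f2 δ e t hr1 hr2 hT hX hY hf0 hf1 hf2 hcase
    d η q1 E0 E1 E2 P0 P1 P2 F0 F1 F2 G0 G1 G2 N LN hd hη hP0 hP1 hP2 hF0 hF1 hF2 hG0 hG1 hG2 hN hLN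
  clear q1 E0 E1 E2 b
  obtain ⟨C1, hC1⟩ : ∃ C1 : ℝ, C1 = C + 2 * C * (1 + C) + 2 * C * (1 + C) ^ 2 + C ^ 2 := ⟨_, rfl⟩
  rw [← hC1] at hkb
  have hC1p : 0 ≤ C1 := by rw [hC1]; positivity
  have hk1 : k ≤ 1 / 2 := hkk.le.trans hka
  have hkb' : k * (2 + 2 * C1) ≤ (c - κ) / 2 :=
    (mul_le_mul_of_nonneg_right hkk.le (by positivity)).trans hkb
  have hkc' : k * (1 + 3 / l + 3 * C) ≤ 7 / 8 :=
    (mul_le_mul_of_nonneg_right hkk.le (by positivity)).trans hkc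
  -- basic facts
  have hEp := Ef_pos k d
  have hE1 := Ef_le_one hk d
  have hF0p : 0 < F0 := by rw [hF0]; exact Ef_pos k η
  have hF01 : F0 ≤ 1 := by rw [hF0]; exact Ef_le_one hk η
  have hτd := tanh_sq_le d
  have hτη := tanh_sq_le η
  have habs : |Real.tanh d| ≤ 1 := by
    rw [← sq_le_one_iff_abs_le_one]; exact hτd
  have habη : |Real.tanh η| ≤ 1 := by
    rw [← sq_le_one_iff_abs_le_one]; exact hτη
  have hF1b : |F1| ≤ k * F0 := abs_F1 hk hF0p habη (by rw [hF1, hF0])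
  have hF2b : F2 ≤ k ^ 2 * F0 := le_F2 hk hF0p hτη (by rw [hF2, hF0])
  have hG0p : 0 ≤ G0 := by rw [hG0]; exact Gf_nonneg hk hT
  have hG0T : G0 ≤ T := by rw [hG0]; exact Gf_le hk hT
  have hden : 1 ≤ 1 + 8 * k ^ 3 * T := by
    have : 0 ≤ 8 * k ^ 3 * T := by positivity
    linarith
  have hG1p : 0 ≤ G1 := by rw [hG1]; positivity
  have hG11 : G1 ≤ 1 := by rw [hG1, div_le_one (by linarith)]; exact hden
  have hG2e : G2 = -(8 * k ^ 3) * G1 ^ 2 := by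
    rw [hG2, hG1]
    field_simp
  have hG2n : G2 ≤ 0 := by
    rw [hG2e]
    have : 0 ≤ 8 * k ^ 3 * G1 ^ 2 := by positivity
    linarith
  have hds : |d| ≤ r1 + r2 := by
    rw [hd, abs_le]; constructor <;> linarith
  -- part 1
  obtain ⟨h1, hN1, hGN⟩ := part1 (s := r1 + r2) (d := d) (E0 := Ef k d) (F1 := F1) (P1 := P1)
    (q := qf d) (N := N) hk hc0 hc hκ hds (qf_nonneg d) (qf_le_abs d) hEp hE1 hF0p hF1b hG0p habs hP1
    (by rw [hN, hP0]; rfl)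
  -- `P2`
  have hP2l : c * k ^ 2 / (1 + k) * Ef k d ≤ P2 := by
    rw [hP2]; exact P2_lower hk hc0 hE1 hτd
  have hP2u : P2 ≤ 3 * k ^ 2 := by
    rw [hP2]
    exact P2_upper hk hc0 hc.le hEp.le hE1 (by positivity) hτd (one_sub_Ef_le k d) (tanh_qf_le d)
  have hEF : (1 - k) * F0 ≤ Ef k d := by
    rw [hF0]
    apply Ef_compare hk
    rw [hη, show d - (d - f0) = f0 by ring]
    exact hf0
  have hP2F := P2F hk hk1 hκ hκc hc hl1 hlc hC1p hkb' hF0p hEF hP2l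
  -- second order terms
  have hnξ : 0 ≤ ‖δ - e‖ := norm_nonneg _
  have hne : 0 ≤ ‖e‖ := norm_nonneg _
  have hnt : 0 ≤ ‖t‖ := norm_nonneg _
  have htri : ‖e‖ ≤ ‖δ‖ + ‖δ - e‖ := by
    calc ‖e‖ = ‖δ - (δ - e)‖ := by congr 1; ring
      _ ≤ _ := norm_sub_le _ _
  have hw := weighted hl0 hl1 hne htri
  have hP2p : 0 ≤ P2 := le_trans (by positivity) hP2l
  have hA := partA hw hl0 hP2p hP2u hP2F
  have hre : |(t * (starRingEnd ℂ) (δ - f1 * e)).re| ≤ ‖t‖ * ‖δ - f1 * e‖ := by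
    refine (Complex.abs_re_le_norm _).trans ?_
    rw [norm_mul, Complex.norm_conj]
  have hcross : 2 * G1 * F1 * (t * (starRingEnd ℂ) (δ - f1 * e)).re ≤
      2 * G1 * (k * F0) * (‖t‖ * ‖δ - f1 * e‖) := by
    calc 2 * G1 * F1 * (t * (starRingEnd ℂ) (δ - f1 * e)).re
        ≤ |2 * G1 * F1 * (t * (starRingEnd ℂ) (δ - f1 * e)).re| := le_abs_self _
      _ = 2 * G1 * |F1| * |(t * (starRingEnd ℂ) (δ - f1 * e)).re| := by
          rw [abs_mul, abs_mul, abs_of_nonneg (show 0 ≤ 2 * G1 by positivity)]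
      _ ≤ 2 * G1 * (k * F0) * (‖t‖ * ‖δ - f1 * e‖) := by
          apply mul_le_mul _ hre (abs_nonneg _) (by positivity)
          exact mul_le_mul_of_nonneg_left hF1b (by positivity)
  refine final hX hY h1 hA ?_ hLN
  have hκ1 : κ ≤ 1 := by linarith
  rcases hcase with ⟨hf1', hf2'⟩ | ⟨hTC, htC⟩
  · -- case A
    have hξ : δ - f1 * e = δ - e := by rw [hf1']; simp
    rw [hξ] at hcross ⊢
    rw [hf2']
    exact caseA hk hl0 hκ hκ1 hC hC1p hkc' hF0p hF01 hF2b hG0p hG11 hG2e hN1 hGN hcross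
  · -- case B
    have hm : ‖δ - f1 * e‖ ≤ ‖δ - e‖ + (1 + C) * ‖e‖ := by
      have h2 : δ - f1 * e = (δ - e) + ((1 - f1 : ℝ) : ℂ) * e := by push_cast; ring
      rw [h2]
      refine (norm_add_le _ _).trans ?_
      rw [norm_mul, Complex.norm_real, Real.norm_eq_abs]
      have h3 : |1 - f1| ≤ 1 + C := by
        rw [abs_le] at hf1 ⊢
        constructor <;> linarith
      have := mul_le_mul_of_nonneg_right h3 hne
      linarith
    exact caseB hk hk1 hl0 hκ hκ1 hC hC1 hkc' hF0p hF01 hF1b hf2 hF2b hG0p (hG0T.trans hTC) hG1p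
      hG11 hG2n hN1 hne hnξ htC hnt (norm_nonneg _) hm hcross

end Pool.Agent.MA87
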