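import Pool.Agent.MA87.Levi
import Pool.Agent.MA87.Branch
import Pool.Agent.MA87.Theta
import Pool.Agent.MA87.Scalar
import Pool.Agent.MA87.Smooth

/-!
# MP_87f2fd_gt : `φ` is `ω`-plurisubharmonic for small `k`
-/

open Complex MeasureTheory Filter Topology
open scoped ContDiff ComplexOrder

noncomputable section

namespace Pool.Agent.MA87

theorem LJet.rho_comp {u : ℂ → ℂ} (hu : AnalyticAt ℂ u 0) (h0 : th (u 0) ≠ 0) :
    LJet (fun t => rho (u t)) (rho (u 0)) (rhoz (u 0) * deriv u 0)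
      (1 / 4 * ‖deriv u 0‖ ^ 2) := by
  have h1 := (LJet.im hu).sub (LJet.const (1 / 2))
  have h2 := h1.comp (h := fun s => s ^ 2 / 2) (h' := fun s => s) (h2 := 1)
    (Eventually.of_forall fun s => by
      have := ((hasDerivAt_id s).pow 2).div_const 2
      refine (this : HasDerivAt (fun s : ℝ => s ^ 2 / 2) _ _).congr_deriv ?_
      simp)
    (hasDerivAt_id _)
  have hth : AnalyticAt ℂ th (u 0) :=
    (th_differentiable.differentiableOn (s := Set.univ)).analyticAt Filter.univ_mem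
  have hg : AnalyticAt ℂ (fun t => th (u t)) 0 := hth.fun_comp hu
  have h3 := (LJet.log_norm hg h0).const_mul (1 / (2 * Real.pi))
  have hd : deriv (fun t => th (u t)) 0 = deriv th (u 0) * deriv u 0 :=
    (hth.differentiableAt.hasDerivAt.comp 0 hu.differentiableAt.hasDerivAt).deriv
  rw [hd] at h3
  have h4 := (h2.sub h3).add (LJet.const 2)
  have hpi : (Real.pi : ℂ) ≠ 0 := by exact_mod_cast Real.pi_ne_zero
  have e1 : rhoz (u 0) * deriv u 0 =
      (((u 0).im - 1 / 2 : ℝ) : ℂ) * (deriv u 0 / (2 * I) - 0) -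
        ((1 / (2 * Real.pi) : ℝ) : ℂ) * (deriv th (u 0) * deriv u 0 / th (u 0) / 2) + 0 := by
    rw [rhoz]
    simp only [sub_zero, add_zero]
    push_cast
    field_simp
    ring
  have e2 : 1 / 4 * ‖deriv u 0‖ ^ 2 = ((u 0).im - 1 / 2) * (0 - 0) +
      1 * ‖deriv u 0 / (2 * I) - 0‖ ^ 2 - 1 / (2 * Real.pi) * 0 + 0 := by
    simp only [sub_zero, add_zero, mul_zero, zero_add, one_mul, norm_div, norm_mul, norm_I, mul_one]
    norm_num
    ring
  rw [e1, e2]
  exact h4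

theorem LJet.cast {F F' : ℂ → ℝ} {a a' : ℝ} {α : ℂ} {L L' : ℝ} (h : LJet F a α L) (hF : F' = F)
    (ha : a' = a) (hL : L' = L) : ∃ α : ℂ, LJet F' a' α L' :=
  ⟨α, by rw [hF, ha, hL]; exact h⟩

theorem LJet.Nf {R1 R2 TT B : ℂ → ℝ} {r1 r2 T b X Y E2 : ℝ} {A1 A2 τ e : ℂ}
    (h1 : LJet R1 r1 A1 X) (h2 : LJet R2 r2 A2 Y) (hT : LJet TT T τ E2) (hB : LJet B b e 0)
    {k : ℝ} (c κ : ℝ) (hk : 0 < k) (hT0 : 0 ≤ T) :
    ∃ α : ℂ, LJet (fun t => Nf k c κ (R1 t) (R2 t) (TT t) (B t)) (Nf k c κ r1 r2 T b) α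
      (k * (X + Y) - ((c * k * Real.tanh (r1 - r2) * (1 - Ef k (r1 - r2) / (1 + k))) * (X - Y) +
        (c * k * (1 - Real.tanh (r1 - r2) ^ 2) * (1 - Ef k (r1 - r2) / (1 + k))
            + c * k ^ 2 / (1 + k) * Real.tanh (r1 - r2) ^ 2 * Ef k (r1 - r2)) * ‖A1 - A2‖ ^ 2)
       + k ^ 2 * κ * (Ef k (r1 - r2 - ff b) * ((1 / (1 + 8 * k ^ 3 * T)) * E2
            + (-(8 * k ^ 3) / (1 + 8 * k ^ 3 * T) ^ 2) * ‖τ‖ ^ 2)
          + 2 * (1 / (1 + 8 * k ^ 3 * T)) * (-k * Real.tanh (r1 - r2 - ff b) *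
              Ef k (r1 - r2 - ff b)) * (τ * (starRingEnd ℂ) (A1 - A2 - deriv ff b * e)).re
          + Gf k T * (((k ^ 2 * Real.tanh (r1 - r2 - ff b) ^ 2 -
              k * (1 - Real.tanh (r1 - r2 - ff b) ^ 2)) * Ef k (r1 - r2 - ff b)) *
                ‖A1 - A2 - deriv ff b * e‖ ^ 2 +
            (-k * Real.tanh (r1 - r2 - ff b) * Ef k (r1 - r2 - ff b)) *
              ((X - Y) - deriv (deriv ff) b * ‖e‖ ^ 2)))) := by
  have hd := h1.sub h2
  have hs := (h1.add h2).const_mul k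
  have hP := hd.comp (Eventually.of_forall fun s => hasDerivAt_Pf k c s)
    (hasDerivAt_Pf' k c (r1 - r2))
  have hff := hB.comp (Eventually.of_forall fun s => (differentiable_ff s).hasDerivAt)
    ((contDiff_deriv_ff.differentiable (by simp) b).hasDerivAt)
  have hη := hd.sub hff
  have hE := hη.comp (Eventually.of_forall fun s => hasDerivAt_Ef k s)
    (hasDerivAt_Ef' k (r1 - r2 - ff b))
  have hpos : 0 < 1 + 8 * k ^ 3 * T := by positivity
  have hev : ∀ᶠ s in 𝓝 T, HasDerivAt (Gf k) (1 / (1 + 8 * k ^ 3 * s)) s := by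
    have hc : Continuous fun s : ℝ => 1 + 8 * k ^ 3 * s := by fun_prop
    filter_upwards [continuousAt_const.eventually_lt hc.continuousAt hpos] with s hs
    exact hasDerivAt_Gf hk hs
  have hG := hT.comp hev (hasDerivAt_Gf' hpos)
  have hGE := (hG.mul hE).const_mul (k ^ 2 * κ)
  have hN := (((LJet.const 2).add hs).sub hP).add hGE
  have hre : ((((1 / (1 + 8 * k ^ 3 * T) : ℝ) : ℂ) * τ) * (starRingEnd ℂ)
        (((-k * Real.tanh (r1 - r2 - ff b) * Ef k (r1 - r2 - ff b) : ℝ) : ℂ) *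
          (A1 - A2 - ((deriv ff b : ℝ) : ℂ) * e))).re =
        (1 / (1 + 8 * k ^ 3 * T)) * (-k * Real.tanh (r1 - r2 - ff b) * Ef k (r1 - r2 - ff b)) *
          (τ * (starRingEnd ℂ) (A1 - A2 - ((deriv ff b : ℝ) : ℂ) * e)).re := by
      rw [map_mul, Complex.conj_ofReal]
      rw [show (((1 / (1 + 8 * k ^ 3 * T) : ℝ) : ℂ) * τ) *
        (((-k * Real.tanh (r1 - r2 - ff b) * Ef k (r1 - r2 - ff b) : ℝ) : ℂ) * (starRingEnd ℂ)
          (A1 - A2 - ((deriv ff b : ℝ) : ℂ) * e)) =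
        (((1 / (1 + 8 * k ^ 3 * T)) * (-k * Real.tanh (r1 - r2 - ff b) *
          Ef k (r1 - r2 - ff b)) : ℝ) : ℂ) * (τ * (starRingEnd ℂ)
          (A1 - A2 - ((deriv ff b : ℝ) : ℂ) * e)) by push_cast; ring]
      rw [Complex.re_ofReal_mul]
  rw [hre] at hN
  refine hN.cast ?_ ?_ ?_
  · ext t; rw [Pool.Agent.MA87.Nf]; ring
  · rw [Pool.Agent.MA87.Nf]; ring
  · ring

/-! ### the Levi form of `φ` at good points -/

/-- the branch of `U` along a complex line -/
def uline (z ξ : C3) (t : ℂ) : ℂ :=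
  U z + t * ξ 2 + 1 / (2 * Real.pi * I) *
    (Complex.log (th (z 0 + t * ξ 0) / th (z 0)) - Complex.log (th (z 1 + t * ξ 1) / th (z 1)))

theorem Ubr_line (z ξ : C3) (t : ℂ) : Ubr z (z + t • ξ) = uline z ξ t := by
  rw [Ubr, uline]
  simp only [Pi.add_apply, Pi.smul_apply, smul_eq_mul]
  ring

theorem uline_zero {z : C3} (ξ : C3) (h0 : th (z 0) ≠ 0) (h1 : th (z 1) ≠ 0) :
    uline z ξ 0 = U z := by
  rw [uline]; simp [div_self h0, div_self h1]

theorem th_analyticAt (z : ℂ) : AnalyticAt ℂ th z :=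
  (th_differentiable.differentiableOn (s := Set.univ)).analyticAt Filter.univ_mem

theorem hasDerivAt_logth (a v : ℂ) (h0 : th a ≠ 0) :
    HasDerivAt (fun t : ℂ => Complex.log (th (a + t * v) / th a)) (deriv th a * v / th a) 0 := by
  have e1 : HasDerivAt (fun t : ℂ => a + t * v) v 0 := by
    simpa using ((hasDerivAt_id (0 : ℂ)).mul_const v).const_add a
  have e2 : HasDerivAt th (deriv th a) (a + 0 * v) := by
    rw [zero_mul, add_zero]; exact (th_differentiable a).hasDerivAt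
  have e3 : HasDerivAt (fun t : ℂ => th (a + t * v)) (deriv th a * v) 0 :=
    HasDerivAt.comp (h₂ := th) (h := fun t : ℂ => a + t * v) (0 : ℂ) e2 e1
  have e4 := (e3.div_const (th a)).clog (by
    rw [zero_mul, add_zero, div_self h0]; exact Complex.one_mem_slitPlane)
  refine e4.congr_deriv ?_
  rw [zero_mul, add_zero, div_self h0, div_one]

theorem analyticAt_logth (a v : ℂ) (h0 : th a ≠ 0) :
    AnalyticAt ℂ (fun t : ℂ => Complex.log (th (a + t * v) / th a)) 0 := by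
  have h1 : AnalyticAt ℂ (fun t : ℂ => a + t * v) 0 :=
    analyticAt_const.add (analyticAt_id.mul analyticAt_const)
  have h2 : AnalyticAt ℂ (fun t : ℂ => th (a + t * v)) 0 := (th_analyticAt _).fun_comp h1
  have h3 : AnalyticAt ℂ (fun t : ℂ => th (a + t * v) / th a) 0 := h2.div analyticAt_const h0
  exact h3.clog (by rw [zero_mul, add_zero, div_self h0]; exact Complex.one_mem_slitPlane)

theorem analyticAt_uline {z : C3} (ξ : C3) (h0 : th (z 0) ≠ 0) (h1 : th (z 1) ≠ 0) :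
    AnalyticAt ℂ (uline z ξ) 0 := by
  have := (analyticAt_const (v := U z) (x := (0 : ℂ)) (𝕜 := ℂ)).add
    (analyticAt_id.mul (analyticAt_const (v := ξ 2)))
  exact this.add (analyticAt_const.mul ((analyticAt_logth _ _ h0).sub (analyticAt_logth _ _ h1)))

theorem deriv_uline {z : C3} (ξ : C3) (h0 : th (z 0) ≠ 0) (h1 : th (z 1) ≠ 0) :
    deriv (uline z ξ) 0 = ξ 2 + 1 / (2 * Real.pi * I) *
      (deriv th (z 0) * ξ 0 / th (z 0) - deriv th (z 1) * ξ 1 / th (z 1)) := by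
  have e1 : HasDerivAt (fun t : ℂ => U z + t * ξ 2) (ξ 2) 0 := by
    simpa using ((hasDerivAt_id (0 : ℂ)).mul_const (ξ 2)).const_add (U z)
  have e2 := e1.add (((hasDerivAt_logth (z 0) (ξ 0) h0).sub
    (hasDerivAt_logth (z 1) (ξ 1) h1)).const_mul (1 / (2 * Real.pi * I)))
  exact e2.deriv

/-- `∂d - ∂b = -∂s` -/
theorem delta_sub_e (z ξ : C3) (h0 : th (z 0) ≠ 0) (h1 : th (z 1) ≠ 0) :
    rhoz (z 0) * ξ 0 - rhoz (z 1) * ξ 1 - deriv (uline z ξ) 0 / (2 * I) =
      -(ξ 2 - (((z 0).im - 1 / 2 : ℝ) : ℂ) * ξ 0 + (((z 1).im - 1 / 2 : ℝ) : ℂ) * ξ 1) /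
        (2 * I) := by
  rw [deriv_uline ξ h0 h1, rhoz, rhoz]
  have hpi : (Real.pi : ℂ) ≠ 0 := by exact_mod_cast Real.pi_ne_zero
  push_cast
  field_simp
  ring_nf
  simp only [I_sq]
  ring

theorem line_eventually_ne (a v : ℂ) (h0 : th a ≠ 0) : ∀ᶠ t : ℂ in 𝓝 0, th (a + t * v) ≠ 0 := by
  have h : Continuous fun t : ℂ => th (a + t * v) :=
    th_differentiable.continuous.comp (by fun_prop)
  have h2 : th (a + 0 * v) ≠ 0 := by rwa [zero_mul, add_zero]
  exact h.continuousAt.eventually_ne h2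

theorem rho_add_int (z : ℂ) (m : ℤ) : rho (z + m) = rho z := by
  have hp : Function.Periodic rho 1 := rho_add_one
  have := hp.int_mul m z
  simpa using this

/-- `φ` along a complex line through a good point -/
theorem phi_line {k c κ M : ℝ} {z : C3} (ξ : C3) (hz : ¬ Bad z) :
    ∀ᶠ t : ℂ in 𝓝 0, phi k c κ M (z + t • ξ) = Phi k M (Nf k c κ (rho (z 0 + t * ξ 0))
      (rho (z 1 + t * ξ 1)) (rho (uline z ξ t)) (uline z ξ t).im) := by
  simp only [Bad, not_or] at hz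
  obtain ⟨h0, h1, h2⟩ := hz
  have hc : ContinuousAt (fun t => th (uline z ξ t)) 0 :=
    th_differentiable.continuous.continuousAt.comp (analyticAt_uline ξ h0 h1).continuousAt
  have h2' : th (uline z ξ 0) ≠ 0 := by rwa [uline_zero ξ h0 h1]
  filter_upwards [line_eventually_ne (z 0) (ξ 0) h0, line_eventually_ne (z 1) (ξ 1) h1,
    hc.eventually_ne h2'] with t e0 e1 e2
  have k0 : (z + t • ξ) 0 = z 0 + t * ξ 0 := by simp
  have k1 : (z + t • ξ) 1 = z 1 + t * ξ 1 := by simp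
  obtain ⟨m, hm⟩ := U_eq_Ubr_add_int (z₀ := z) (z := z + t • ξ) h0 h1 (by rwa [k0]) (by rwa [k1])
  rw [Ubr_line] at hm
  have hb : ¬ Bad (z + t • ξ) := by
    simp only [Bad, not_or]
    refine ⟨by rwa [k0], by rwa [k1], ?_⟩
    rw [hm, th_add_int th_add_one]
    exact e2
  rw [phi, if_neg hb, k0, k1, hm, rho_add_int]
  simp

/-! ### plurisubharmonicity -/

/-- the quadratic form of the metric -/
theorem g0_quadratic (z ξ : C3) :
    ∑ j, ∑ k, ξ j * (starRingEnd ℂ) (ξ k) * g0 z j k =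
      ((1 / 4 * ‖ξ 0‖ ^ 2 + 1 / 4 * ‖ξ 1‖ ^ 2 + 1 / 4 *
        ‖ξ 2 - (((z 0).im - 1 / 2 : ℝ) : ℂ) * ξ 0 + (((z 1).im - 1 / 2 : ℝ) : ℂ) * ξ 1‖ ^ 2 : ℝ) :
          ℂ) := by
  simp only [Fin.sum_univ_three, g0]
  generalize (z 0).im - 1 / 2 = α
  generalize (z 1).im - 1 / 2 = β
  rw [Complex.ofReal_add, Complex.ofReal_add, Complex.ofReal_mul, Complex.ofReal_mul,
    Complex.ofReal_mul]
  simp only [← Complex.normSq_eq_norm_sq, ← Complex.mul_conj]
  push_cast
  simp only [Matrix.smul_apply, Matrix.of_apply, Matrix.cons_val', Matrix.cons_val_zero,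
    Matrix.cons_val_one, Matrix.cons_val_fin_one, Matrix.cons_val, smul_eq_mul, map_add, map_sub,
    map_mul, Complex.conj_ofReal]
  ring

theorem g0_isHermitian (z : C3) : (g0 z).IsHermitian := by
  ext i j
  fin_cases i <;> fin_cases j <;> simp [g0, Matrix.conjTranspose_apply]

theorem levi_isHermitian {n : ℕ} {φ : (Fin n → ℂ) → ℝ} (hφ : ContDiff ℝ ∞ φ) (z : Fin n → ℂ) :
    (levi φ z).IsHermitian := by
  ext i j
  rw [Matrix.conjTranspose_apply, levi_eq_leviForm hφ, levi_eq_leviForm hφ]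
  simp only [leviForm]
  rw [hess_symm hφ z (Pi.single j 1) (Pi.single i 1),
    hess_symm hφ z (I • Pi.single j 1) (I • Pi.single i 1),
    hess_symm hφ z (Pi.single j 1) (I • Pi.single i 1),
    hess_symm hφ z (I • Pi.single j 1) (Pi.single i 1)]
  apply Complex.ext <;> simp

theorem posSemidef_of_quadratic {A : Matrix (Fin 3) (Fin 3) ℂ} (hA : A.IsHermitian)
    (h : ∀ ξ : Fin 3 → ℂ, ∃ r : ℝ, 0 ≤ r ∧ ∑ j, ∑ k, ξ j * (starRingEnd ℂ) (ξ k) * A j k = r) :
    A.PosSemidef := by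
  refine Matrix.PosSemidef.of_dotProduct_mulVec_nonneg hA fun x => ?_
  obtain ⟨r, hr, he⟩ := h (star x)
  have : star x ⬝ᵥ A.mulVec x = (r : ℂ) := by
    rw [← he]
    simp only [dotProduct, Matrix.mulVec, Finset.mul_sum]
    refine Finset.sum_congr rfl fun j _ => Finset.sum_congr rfl fun k _ => ?_
    simp only [Pi.star_apply, RCLike.star_def, Complex.conj_conj]
    ring
  rw [this]
  exact_mod_cast hr

theorem qf_nonneg (t : ℝ) : 0 ≤ qf t := Real.log_nonneg (Real.one_le_cosh t)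

theorem qf_le_abs (t : ℝ) : qf t ≤ |t| := by
  rw [qf, Real.log_le_iff_le_exp (Real.cosh_pos t), Real.cosh_eq]
  have h1 : Real.exp t ≤ Real.exp |t| := Real.exp_le_exp.2 (le_abs_self t)
  have h2 : Real.exp (-t) ≤ Real.exp |t| := Real.exp_le_exp.2 (neg_le_abs t)
  linarith

theorem Ef_pos (k t : ℝ) : 0 < Ef k t := Real.exp_pos _

theorem Ef_le_one {k : ℝ} (hk : 0 ≤ k) (t : ℝ) : Ef k t ≤ 1 := by
  rw [Ef, Real.exp_le_one_iff]
  have := qf_nonneg t
  nlinarith

theorem Gf_nonneg {k T : ℝ} (hk : 0 < k) (hT : 0 ≤ T) : 0 ≤ Gf k T := by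
  rw [Gf]
  have : 0 ≤ 8 * k ^ 3 * T := by positivity
  exact mul_nonneg (by positivity) (Real.log_nonneg (by linarith))

theorem one_le_Nf {k c κ r1 r2 T b : ℝ} (hk : 0 < k) (hκ : 0 < κ) (hc0 : 0 < c) (hc : c < 1)
    (h1 : 0 ≤ r1) (h2 : 0 ≤ r2) (hT : 0 ≤ T) : 1 ≤ Nf k c κ r1 r2 T b := by
  have e1 : Pf k c (r1 - r2) ≤ c * k * (r1 + r2) + c := by
    rw [Pf]
    have a1 : qf (r1 - r2) ≤ r1 + r2 := (qf_le_abs _).trans (by
      rw [abs_le]; constructor <;> linarith)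
    have a2 : c / (1 + k) * Ef k (r1 - r2) ≤ c * 1 := by
      apply mul_le_mul _ (Ef_le_one hk.le _) (Ef_pos _ _).le hc0.le
      rw [div_le_iff₀ (by linarith)]; nlinarith
    have a3 : c * k * qf (r1 - r2) ≤ c * k * (r1 + r2) := by gcongr
    linarith
  have e2 : 0 ≤ k ^ 2 * κ * Gf k T * Ef k (r1 - r2 - ff b) := by
    have := Gf_nonneg hk hT
    have := (Ef_pos k (r1 - r2 - ff b)).le
    positivity
  have e3 : c * k * (r1 + r2) ≤ k * (r1 + r2) := by
    have : 0 ≤ k * (r1 + r2) := by positivity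
    nlinarith
  rw [Nf]
  linarith

theorem final_ineq {k N ψ ψ' S A LN : ℝ} (hk : 0 < k) (hN : 0 < N) (h0 : 0 ≤ ψ) (h1 : ψ ≤ 1)
    (h' : ψ' ≤ 0) (hS : 0 ≤ S) (hA : 0 ≤ A) (h : LN ≤ k * N * S) :
    0 ≤ S + (-(ψ / (k * N)) * LN + (-(ψ' / (k * N)) + ψ / (k * N ^ 2)) * A) := by
  have e1 : 0 ≤ (-(ψ' / (k * N)) + ψ / (k * N ^ 2)) * A := by
    have : 0 ≤ -(ψ' / (k * N)) := by
      rw [← neg_div]; exact div_nonneg (by linarith) (by positivity)
    positivity
  have e2 : ψ / (k * N) * LN ≤ S := by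
    have a : LN / (k * N) ≤ S := by
      rw [div_le_iff₀ (by positivity)]; linarith
    calc ψ / (k * N) * LN = ψ * (LN / (k * N)) := by ring
      _ ≤ ψ * S := by gcongr
      _ ≤ 1 * S := by gcongr
      _ = S := one_mul S
  linarith

theorem psd {c κ M : ℝ} (hκ : 0 < κ) (hκc : κ < c) (hc : c < 1) (hM : 1 ≤ M) :
    ∃ k₀ : ℝ, 0 < k₀ ∧ ∀ k : ℝ, 0 < k → k < k₀ →
      ∀ z, (g0 z + levi (phi k c κ M) z).PosSemidef := by
  obtain ⟨C1, hC1, hff⟩ := deriv_ff_bound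
  obtain ⟨C2, hrho⟩ := rho_rhoz_bound
  set C := max C1 (2 * |C2|) with hCdef
  have hC0 : 0 ≤ C := le_trans hC1 (le_max_left _ _)
  obtain ⟨k₀, hk₀, hkey⟩ := key_scalar c κ C hκ hκc hc hC0
  refine ⟨k₀, hk₀, fun k hk hkk z => ?_⟩
  have hc0 : 0 < c := hκ.trans hκc
  have hM0 : 0 < M := by linarith
  have hsm : ContDiff ℝ ∞ (phi k c κ M) := phi_contDiff hk hκ hc0 hc hM
  apply posSemidef_of_quadratic ((g0_isHermitian z).add (levi_isHermitian hsm z))
  intro ξ
  set s2 := ξ 2 - (((z 0).im - 1 / 2 : ℝ) : ℂ) * ξ 0 + (((z 1).im - 1 / 2 : ℝ) : ℂ) * ξ 1 with hs2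
  -- it suffices to know the jet of `φ` along the line
  suffices h : ∃ (a : ℝ) (α : ℂ) (L : ℝ), LJet (fun t => phi k c κ M (z + t • ξ)) a α L ∧
      0 ≤ 1 / 4 * ‖ξ 0‖ ^ 2 + 1 / 4 * ‖ξ 1‖ ^ 2 + 1 / 4 * ‖s2‖ ^ 2 + L by
    obtain ⟨a, α, L, hL, hpos⟩ := h
    refine ⟨_, hpos, ?_⟩
    have e1 := g0_quadratic z ξ
    have e2 := levi_of_LJet hsm hL
    simp only [Matrix.add_apply, mul_add, Finset.sum_add_distrib]
    rw [e1, e2, ← Complex.ofReal_add]
  by_cases hz : Bad z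
  · -- `φ` is locally constant
    have h1 := phi_eventually_const hk hκ hc0 hc hM hz
    have h2 : ∀ᶠ t : ℂ in 𝓝 0, phi k c κ M (z + t • ξ) = Phi k M (2 * M) := by
      have ht : Tendsto (fun t : ℂ => z + t • ξ) (𝓝 0) (𝓝 z) := by
        have : Continuous fun t : ℂ => z + t • ξ := by fun_prop
        simpa using this.tendsto 0
      exact ht.eventually h1
    refine ⟨_, _, _, (LJet.const (Phi k M (2 * M))).congr h2, ?_⟩
    positivity
  · have hline := phi_line (k := k) (c := c) (κ := κ) (M := M) ξ hz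
    have hz' := hz
    simp only [Bad, not_or] at hz
    obtain ⟨h0, h1, h2⟩ := hz
    have hU0 : uline z ξ 0 = U z := uline_zero ξ h0 h1
    have hth : th (uline z ξ 0) ≠ 0 := by rwa [hU0]
    -- jets of the basic functions
    have haff : ∀ a v : ℂ, AnalyticAt ℂ (fun t : ℂ => a + t * v) 0 := fun a v =>
      analyticAt_const.add (analyticAt_id.mul analyticAt_const)
    have hdaff : ∀ a v : ℂ, deriv (fun t : ℂ => a + t * v) 0 = v := fun a v => by
      have : HasDerivAt (fun t : ℂ => a + t * v) v 0 := by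
        simpa using ((hasDerivAt_id (0 : ℂ)).mul_const v).const_add a
      exact this.deriv
    have j1 := LJet.rho_comp (haff (z 0) (ξ 0)) (by rwa [zero_mul, add_zero])
    have j2 := LJet.rho_comp (haff (z 1) (ξ 1)) (by rwa [zero_mul, add_zero])
    rw [hdaff, zero_mul, add_zero] at j1 j2
    have jT := LJet.rho_comp (analyticAt_uline ξ h0 h1) hth
    have jb := LJet.im (analyticAt_uline ξ h0 h1)
    set du := deriv (uline z ξ) 0 with hdu
    rw [hU0] at jT jb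
    have hr1 := rho_nonneg h0
    have hr2 := rho_nonneg h1
    have hrT := rho_nonneg h2
    obtain ⟨α, hN⟩ := LJet.Nf j1 j2 jT jb c κ hk hrT
    have hE2 : 1 / 4 * ‖du‖ ^ 2 = ‖du / (2 * I)‖ ^ 2 := by
      rw [norm_div, norm_mul, norm_I, mul_one, div_pow]; norm_num; ring
    set N := Nf k c κ (rho (z 0)) (rho (z 1)) (rho (U z)) (U z).im with hNdef
    have hδ := delta_sub_e z ξ h0 h1
    rw [← hdu, ← hs2] at hδ
    have hδn : ‖rhoz (z 0) * ξ 0 - rhoz (z 1) * ξ 1 - du / (2 * I)‖ ^ 2 = 1 / 4 * ‖s2‖ ^ 2 := by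
      rw [hδ, norm_div, norm_neg, norm_mul, norm_I, mul_one, div_pow]; norm_num; ring
    -- the dichotomy for `b`
    have hdich : (deriv ff (U z).im = 1 ∧ deriv (deriv ff) (U z).im = 0) ∨
        (rho (U z) ≤ C ∧ ‖rhoz (U z) * du‖ ≤ C * ‖du / (2 * I)‖) := by
      by_cases hb : |(U z).im - round (U z).im| < 1 / 4
      · exact Or.inl (deriv_ff_near hb)
      · right
        have hb2 := abs_sub_round (U z).im
        obtain ⟨m, hm⟩ : ∃ m : ℤ, |(U z).im - 1 / 2 - m| ≤ 2 / 5 := by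
          rw [not_lt] at hb
          rcases le_or_gt 0 ((U z).im - round (U z).im) with hp | hp
          · refine ⟨round (U z).im, ?_⟩
            rw [abs_of_nonneg hp] at hb hb2
            rw [abs_le]; constructor <;> linarith
          · refine ⟨round (U z).im - 1, ?_⟩
            rw [abs_of_neg hp] at hb hb2
            push_cast
            rw [abs_le]; constructor <;> linarith
        obtain ⟨b1, b2⟩ := hrho (U z) ⟨m, hm⟩
        refine ⟨b1.trans ?_, ?_⟩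
        · refine (le_abs_self C2).trans ?_
          refine le_trans ?_ (le_max_right _ _)
          linarith [abs_nonneg C2]
        · rw [norm_mul, norm_div, norm_mul, norm_I, mul_one]
          have : ‖rhoz (U z)‖ ≤ |C2| := b2.trans (le_abs_self _)
          have h3 : 2 * |C2| ≤ C := le_max_right _ _
          have h4 := norm_nonneg du
          have h5 : ‖(2 : ℂ)‖ = 2 := by norm_num
          rw [h5]
          calc ‖rhoz (U z)‖ * ‖du‖ ≤ |C2| * ‖du‖ := by gcongr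
            _ = (2 * |C2|) * (‖du‖ / 2) := by ring
            _ ≤ C * (‖du‖ / 2) := by gcongr
    have hLN := hkey k hk hkk (rho (z 0)) (rho (z 1)) (rho (U z)) (U z).im
      (1 / 4 * ‖ξ 0‖ ^ 2) (1 / 4 * ‖ξ 1‖ ^ 2) (ff (U z).im) (deriv ff (U z).im)
      (deriv (deriv ff) (U z).im) (rhoz (z 0) * ξ 0 - rhoz (z 1) * ξ 1) (du / (2 * I))
      (rhoz (U z) * du) hr1 hr2 hrT (by positivity) (by positivity) (abs_ff_le _)
      ((hff _).1.trans (le_max_left _ _)) ((hff _).2.trans (le_max_left _ _)) hdich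
      _ _ 0 0 0 0 _ _ _ _ _ _ _ _ _ _ _ rfl rfl rfl rfl rfl rfl rfl rfl rfl rfl rfl rfl rfl
    rw [hE2] at hN
    rw [hδn] at hLN
    have hNpos : 0 < N := lt_of_lt_of_le one_pos (one_le_Nf hk hκ hc0 hc hr1 hr2 hrT)
    have hPhi := hN.comp (h := Phi k M) (h' := fun n => -(psi M n / (k * n)))
      (h2 := -(deriv (psi M) N / (k * N)) + psi M N / (k * N ^ 2))
      (by filter_upwards [lt_mem_nhds hNpos] with n hn using hasDerivAt_Phi hn)
      (hasDerivAt_Phi' hk hNpos)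
    refine ⟨_, _, _, hPhi.congr hline, ?_⟩
    refine final_ineq hk hNpos (psi_nonneg M N) (psi_le_one M N) (deriv_psi_nonpos hM0 N)
      (by positivity) (sq_nonneg _) ?_
    exact hLN

end Pool.Agent.MA87
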